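import Pool.Agent.W_7d29a1_HS.TransB
import Pool.Agent.W_7d29a1_SR.MaxM
import Pool.Agent.W_7d29a1_h47.ModelL

/-!
MP_7d29a1_pr, TRACK H, part 3, section (i): the moments of the maximal displacement `mx v s = max_{0 ≤ i ≤ n} |S_i - v i|` of the
polymer with the force `h` from a stretched exponential tail at the scale `w` and a lower bound for the probability that the walk
leaves the tube of width `c w` (the case `h = v = 0` is `W_7d29a1_SR.MaxM`). (helper40)
-/

set_option autoImplicit false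

namespace Pool.Agent.W_7d29a1_HS

open MeasureTheory ProbabilityTheory Filter Topology
open Pool.Agent.W_7d29a1_h47 (walk energy polE endMGF forceP forceE)
open Pool.Agent.W_7d29a1_SR (energy_meas stretched_le abs_walk_le)

noncomputable section

/-- The maximal displacement `max_{0 ≤ i ≤ n} |S_i - v i|` of a walk of length `n` from the line of velocity `v`. -/
def mx (v : ℝ) {n : ℕ} (s : Fin n → Bool) : ℝ :=
  (Finset.range (n + 1)).sup' Finset.nonempty_range_add_one fun i => |(walk s i : ℝ) - v * i|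

theorem mx_le_iff (v : ℝ) {n : ℕ} (s : Fin n → Bool) (r : ℝ) : mx v s ≤ r ↔ s ∈ bal n v r := by
  unfold mx bal
  rw [Finset.sup'_le_iff]
  simp only [Finset.mem_range, Set.mem_ofPred_eq]
  exact ⟨fun h i hi => h i (by omega), fun h i hi => h i (by omega)⟩

theorem mx_nonneg (v : ℝ) {n : ℕ} (s : Fin n → Bool) : 0 ≤ mx v s := by
  have h : |(walk s 0 : ℝ) - v * ((0 : ℕ) : ℝ)| ≤ mx v s :=
    Finset.le_sup' (s := Finset.range (n + 1)) (fun i => |(walk s i : ℝ) - v * i|) (by simp)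
  exact (abs_nonneg _).trans h

theorem mx_le (v : ℝ) {n : ℕ} (s : Fin n → Bool) : mx v s ≤ (1 + |v|) * n := by
  refine Finset.sup'_le _ _ fun i hi => ?_
  have h1 := abs_walk_le s i
  have h2 : (i : ℝ) ≤ n := by exact_mod_cast Nat.lt_succ_iff.1 (Finset.mem_range.1 hi)
  have h3 : |v * (i : ℝ)| ≤ |v| * n := by
    rw [abs_mul, Nat.abs_cast]
    exact mul_le_mul_of_nonneg_left h2 (abs_nonneg v)
  have h4 := abs_sub (walk s i : ℝ) (v * i)
  linarith

/-! ### The expectation with a force -/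

private lemma den_pos (β h : ℝ) (η : ℕ × ℤ → ℝ) (n : ℕ) :
    0 < ∑ s : Fin n → Bool, Real.exp (h * (walk s n : ℝ) + β * energy η s) :=
  Finset.sum_pos (fun _ _ => Real.exp_pos _) Finset.univ_nonempty

/-- The expectation with the force `h` as a quotient of two sums. -/
theorem forceE_eq (β h : ℝ) (η : ℕ × ℤ → ℝ) (n : ℕ) (F : (Fin n → Bool) → ℝ) :
    forceE β h η n F = (∑ s : Fin n → Bool, F s * Real.exp (h * (walk s n : ℝ) + β * energy η s)) /
      ∑ s : Fin n → Bool, Real.exp (h * (walk s n : ℝ) + β * energy η s) := by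
  have h0 : (0 : ℝ) < ∑ s : Fin n → Bool, Real.exp (β * energy η s) :=
    Finset.sum_pos (fun _ _ => Real.exp_pos _) Finset.univ_nonempty
  unfold forceE endMGF polE
  rw [div_div_div_cancel_right₀ h0.ne']
  congr 1
  · refine Finset.sum_congr rfl fun s _ => ?_
    beta_reduce
    rw [Real.exp_add, mul_assoc]
  · refine Finset.sum_congr rfl fun s _ => ?_
    rw [Real.exp_add]

theorem forceE_mono' (β h : ℝ) (η : ℕ × ℤ → ℝ) (n : ℕ) {F G : (Fin n → Bool) → ℝ} (hFG : ∀ s, F s ≤ G s) :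
    forceE β h η n F ≤ forceE β h η n G := by
  rw [forceE_eq, forceE_eq]
  exact div_le_div_of_nonneg_right (Finset.sum_le_sum fun s _ => mul_le_mul_of_nonneg_right (hFG s) (Real.exp_pos _).le)
    (den_pos β h η n).le

theorem forceE_const' (β h : ℝ) (η : ℕ × ℤ → ℝ) (n : ℕ) (c : ℝ) : forceE β h η n (fun _ => c) = c := by
  rw [forceE_eq, ← Finset.mul_sum]
  exact mul_div_cancel_right₀ c (den_pos β h η n).ne'

theorem forceE_add' (β h : ℝ) (η : ℕ × ℤ → ℝ) (n : ℕ) (F G : (Fin n → Bool) → ℝ) :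
    forceE β h η n (fun s => F s + G s) = forceE β h η n F + forceE β h η n G := by
  simp only [forceE_eq]
  rw [← add_div, ← Finset.sum_add_distrib]
  simp only [add_mul]

theorem forceE_mul' (β h : ℝ) (η : ℕ × ℤ → ℝ) (n : ℕ) (c : ℝ) (F : (Fin n → Bool) → ℝ) :
    forceE β h η n (fun s => c * F s) = c * forceE β h η n F := by
  simp only [forceE_eq]
  rw [← mul_div_assoc, Finset.mul_sum]
  simp only [mul_assoc]

theorem forceE_sum' (β h : ℝ) (η : ℕ × ℤ → ℝ) (n : ℕ) {ι : Type*} (t : Finset ι) (F : ι → (Fin n → Bool) → ℝ) :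
    forceE β h η n (fun s => ∑ i ∈ t, F i s) = ∑ i ∈ t, forceE β h η n (F i) := by
  classical
  induction t using Finset.induction_on with
  | empty =>
    simp only [Finset.sum_empty]
    exact forceE_const' β h η n 0
  | insert a t ha ih =>
    simp only [Finset.sum_insert ha]
    rw [forceE_add', ih]

open Classical in
/-- `E^h_n 1_{S ∈ A} = P^h_n (A)`. -/
theorem forceE_indicator (β h : ℝ) (η : ℕ × ℤ → ℝ) (n : ℕ) (A : Set (Fin n → Bool)) :
    forceE β h η n (fun s => if s ∈ A then 1 else 0) = forceP β h η n A := by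
  rw [forceE_eq, forceP_eq]
  congr 1
  refine Finset.sum_congr rfl fun s _ => ?_
  by_cases hA : s ∈ A
  · rw [if_pos hA, if_pos hA, one_mul]
  · rw [if_neg hA, if_neg hA, zero_mul]

open Classical in
/-- `E^h_n 1_{S ∉ A} = 1 - P^h_n (A)`. -/
theorem forceE_ind (β h : ℝ) (η : ℕ × ℤ → ℝ) (n : ℕ) (A : Set (Fin n → Bool)) :
    forceE β h η n (fun s => if s ∈ A then 0 else 1) = 1 - forceP β h η n A := by
  have h1 : forceE β h η n (fun s => if s ∈ A then (0 : ℝ) else 1) + forceP β h η n A = 1 := by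
    rw [← forceE_indicator, ← forceE_add']
    refine Eq.trans ?_ (forceE_const' β h η n 1)
    congr 1
    funext s
    split_ifs <;> norm_num
  linarith

/-! ### The layers -/

open Classical in
theorem layers (v : ℝ) {n : ℕ} (s : Fin n → Bool) (q : ℕ) {w : ℝ} (hw : 0 ≤ w) (N : ℕ) (hN : mx v s ≤ 2 ^ N * w) :
    mx v s ^ q ≤ w ^ q + ∑ j ∈ Finset.range N, (2 ^ (j + 1) * w) ^ q * (if s ∈ bal n v (2 ^ j * w) then 0 else 1) := by
  induction N with
  | zero =>
    rw [pow_zero, one_mul] at hN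
    simpa using pow_le_pow_left₀ (mx_nonneg v s) hN q
  | succ N ih =>
    rw [Finset.sum_range_succ]
    have hpos : ∀ j : ℕ, (0 : ℝ) ≤ (2 ^ (j + 1) * w) ^ q := fun j => by positivity
    by_cases h : s ∈ bal n v (2 ^ N * w)
    · rw [if_pos h, mul_zero, add_zero]
      exact ih ((mx_le_iff v s _).2 h)
    · rw [if_neg h, mul_one]
      have h1 : mx v s ^ q ≤ (2 ^ (N + 1) * w) ^ q := pow_le_pow_left₀ (mx_nonneg v s) hN q
      have h2 : 0 ≤ w ^ q := by positivity
      have h3 : 0 ≤ ∑ j ∈ Finset.range N, (2 ^ (j + 1) * w) ^ q * (if s ∈ bal n v (2 ^ j * w) then (0 : ℝ) else 1) :=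
        Finset.sum_nonneg fun j _ => mul_nonneg (hpos j) (by split_ifs <;> norm_num)
      linarith

theorem forceE_mx_le (β h v : ℝ) (η : ℕ × ℤ → ℝ) (n q : ℕ) {w : ℝ} (hw : 0 ≤ w) (N : ℕ)
    (hN : (1 + |v|) * (n : ℝ) ≤ 2 ^ N * w) :
    forceE β h η n (fun s => mx v s ^ q) ≤
      w ^ q + ∑ j ∈ Finset.range N, (2 ^ (j + 1) * w) ^ q * (1 - forceP β h η n (bal n v (2 ^ j * w))) := by
  classical
  refine (forceE_mono' β h η n fun s => layers v s q hw N ((mx_le v s).trans hN)).trans_eq ?_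
  rw [forceE_add', forceE_const', forceE_sum']
  congr 1
  refine Finset.sum_congr rfl fun j _ => ?_
  rw [forceE_mul', forceE_ind]

theorem le_forceE_mx (β h v : ℝ) (η : ℕ × ℤ → ℝ) (n q : ℕ) {r : ℝ} (hr : 0 ≤ r) :
    r ^ q * (1 - forceP β h η n (bal n v r)) ≤ forceE β h η n (fun s => mx v s ^ q) := by
  classical
  rw [← forceE_ind, ← forceE_mul']
  refine forceE_mono' β h η n fun s => ?_
  by_cases h' : s ∈ bal n v r
  · rw [if_pos h', mul_zero]
    exact pow_nonneg (mx_nonneg v s) q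
  · rw [if_neg h', mul_one]
    refine pow_le_pow_left₀ hr ?_ q
    rw [← mx_le_iff, not_le] at h'
    exact h'.le

/-! ### The moments -/

variable {Ω : Type*} [MeasurableSpace Ω] {P : Measure Ω} [IsProbabilityMeasure P] {ω : ℕ × ℤ → Ω → ℝ} {β : ℝ}

theorem forceE_meas' (hmeas : ∀ p, Measurable (ω p)) (β h : ℝ) (n : ℕ) (F : (Fin n → Bool) → ℝ) :
    Measurable fun x => forceE β h (fun p => ω p x) n F := by
  simp only [forceE_eq]
  exact (Finset.measurable_sum _ fun s _ => (((energy_meas hmeas s).const_mul β).const_add _).exp.const_mul _).div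
    (Finset.measurable_sum _ fun s _ => (((energy_meas hmeas s).const_mul β).const_add _).exp)

theorem forceE_integrable (hmeas : ∀ p, Measurable (ω p)) (β h : ℝ) (n : ℕ) (F : (Fin n → Bool) → ℝ) :
    Integrable (fun x => forceE β h (fun p => ω p x) n F) P := by
  have hb : ∀ s : Fin n → Bool, |F s| ≤ ∑ s : Fin n → Bool, |F s| := fun s =>
    Finset.single_le_sum (f := fun s => |F s|) (fun _ _ => abs_nonneg _) (Finset.mem_univ s)
  refine Integrable.of_bound (forceE_meas' hmeas β h n F).aestronglyMeasurable (∑ s : Fin n → Bool, |F s|)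
    (Eventually.of_forall fun x => ?_)
  rw [Real.norm_eq_abs, abs_le]
  constructor
  · rw [← forceE_const' β h (fun p => ω p x) n (-(∑ s : Fin n → Bool, |F s|))]
    exact forceE_mono' _ _ _ _ fun s => by linarith [hb s, neg_abs_le (F s)]
  · rw [← forceE_const' β h (fun p => ω p x) n (∑ s : Fin n → Bool, |F s|)]
    exact forceE_mono' _ _ _ _ fun s => by linarith [hb s, le_abs_self (F s)]

/-- The moments at one length `n` and one scale `w`: the constants depend on `A, a, g, c, d, q` only. -/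
theorem mx_moment_one {A a g c d : ℝ} (hA : 0 ≤ A) (ha : 0 < a) (hg : 0 < g) (hc : 0 < c) (hd : 0 < d) (q : ℕ) :
    ∃ b B : ℝ, 0 < b ∧ 0 < B ∧ ∀ (Ω : Type*) [MeasurableSpace Ω] (P : Measure Ω) [IsProbabilityMeasure P]
      (ω : ℕ × ℤ → Ω → ℝ) (β h v : ℝ), (∀ p, Measurable (ω p)) → ∀ (n : ℕ) (w : ℝ), 0 < w →
      ((∀ R : ℝ, 1 ≤ R →
          ∫ x, (1 - forceP β h (fun p => ω p x) n (bal n v (R * w))) ∂P ≤ A * Real.exp (-(a * R ^ g))) →
        ∫ x, forceE β h (fun p => ω p x) n (fun s => mx v s ^ q) ∂P ≤ B * w ^ q) ∧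
      (∫ x, forceP β h (fun p => ω p x) n (bal n v (c * w)) ∂P ≤ 1 - d →
        b * w ^ q ≤ ∫ x, forceE β h (fun p => ω p x) n (fun s => mx v s ^ q) ∂P) := by
  obtain ⟨C, hC, hCR⟩ := stretched_le ha hg q
  refine ⟨d * c ^ q, 1 + A * C * 2 ^ q * 2, by positivity, by positivity, ?_⟩
  intro Ω _ P _ ω β h v hmeas n w hw
  constructor
  · intro hup
    obtain ⟨N, hN⟩ : ∃ N : ℕ, (1 + |v|) * (n : ℝ) ≤ 2 ^ N * w := by
      obtain ⟨N, hN⟩ := pow_unbounded_of_one_lt ((1 + |v|) * (n : ℝ) / w) (one_lt_two : (1 : ℝ) < 2)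
      exact ⟨N, by rw [div_lt_iff₀ hw] at hN; exact hN.le⟩
    have hi : ∀ j : ℕ, Integrable
        (fun x => (2 ^ (j + 1) * w) ^ q * (1 - forceP β h (fun p => ω p x) n (bal n v (2 ^ j * w)))) P :=
      fun j => ((integrable_const (1 : ℝ)).sub (forceP_integrable hmeas β h n _)).const_mul _
    calc ∫ x, forceE β h (fun p => ω p x) n (fun s => mx v s ^ q) ∂P
        ≤ ∫ x, (w ^ q + ∑ j ∈ Finset.range N, (2 ^ (j + 1) * w) ^ q *
            (1 - forceP β h (fun p => ω p x) n (bal n v (2 ^ j * w)))) ∂P :=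
          integral_mono (forceE_integrable hmeas β h n _)
            ((integrable_const _).add (integrable_finsetSum _ fun j _ => hi j))
            fun x => forceE_mx_le β h v _ n q hw.le N hN
      _ = w ^ q + ∑ j ∈ Finset.range N, (2 ^ (j + 1) * w) ^ q *
            ∫ x, (1 - forceP β h (fun p => ω p x) n (bal n v (2 ^ j * w))) ∂P := by
          rw [integral_add (integrable_const _) (integrable_finsetSum _ fun j _ => hi j),
            integral_finsetSum _ fun j _ => hi j]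
          simp [integral_const_mul]
      _ ≤ w ^ q + ∑ j ∈ Finset.range N, A * C * 2 ^ q * w ^ q * (1 / 2) ^ j := by
          refine add_le_add le_rfl (Finset.sum_le_sum fun j _ => ?_)
          have h2 : (1 : ℝ) ≤ 2 ^ j := one_le_pow₀ one_le_two
          have h3 := (hup (2 ^ j) h2).trans (mul_le_mul_of_nonneg_left (hCR (2 ^ j) h2) hA)
          refine (mul_le_mul_of_nonneg_left h3 (by positivity)).trans_eq ?_
          have h4 : ((2 : ℝ) ^ j) ^ (q + 1) = ((2 : ℝ) ^ j) ^ q * 2 ^ j := pow_succ _ _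
          have h5 : ((2 : ℝ) ^ (j + 1) * w) ^ q = ((2 : ℝ) ^ j) ^ q * 2 ^ q * w ^ q := by
            rw [pow_succ, mul_pow, mul_pow]
          have h6 : ((2 : ℝ) ^ j) ^ q ≠ 0 := by positivity
          have h7 : ((2 : ℝ) ^ j) ≠ 0 := by positivity
          rw [h4, h5, one_div, inv_pow]
          field_simp
      _ ≤ (1 + A * C * 2 ^ q * 2) * w ^ q := by
          rw [← Finset.mul_sum]
          have h8 : ∑ j ∈ Finset.range N, ((1 : ℝ) / 2) ^ j ≤ 2 := by
            have := Summable.sum_le_tsum (Finset.range N) (fun j _ => by positivity) summable_geometric_two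
            rwa [tsum_geometric_two] at this
          have h9 : 0 ≤ A * C * 2 ^ q * w ^ q := by positivity
          have h10 := mul_le_mul_of_nonneg_left h8 h9
          linarith
  · intro hlo
    have h1 : ∫ x, (c * w) ^ q * (1 - forceP β h (fun p => ω p x) n (bal n v (c * w))) ∂P ≤
        ∫ x, forceE β h (fun p => ω p x) n (fun s => mx v s ^ q) ∂P :=
      integral_mono (((integrable_const (1 : ℝ)).sub (forceP_integrable hmeas β h n _)).const_mul _)
        (forceE_integrable hmeas β h n _) fun x => le_forceE_mx β h v _ n q (by positivity)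
    refine le_trans ?_ h1
    rw [integral_const_mul, integral_sub (integrable_const _) (forceP_integrable hmeas β h n _), integral_const,
      probReal_univ, one_smul, mul_pow]
    have h2 : d ≤ 1 - ∫ x, forceP β h (fun p => ω p x) n (bal n v (c * w)) ∂P := by linarith
    have h3 : 0 ≤ c ^ q * w ^ q := by positivity
    have h4 := mul_le_mul_of_nonneg_left h2 h3
    linarith [mul_comm (c ^ q * w ^ q) d, mul_assoc d (c ^ q) (w ^ q)]

/-- `E E^h_n (max_{i ≤ n} |S_i - v i|)^q` is of the order `w_n^q`. -/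
theorem mx_moments (hmeas : ∀ p, Measurable (ω p)) (h v : ℝ) {w : ℕ → ℝ} {n₁ : ℕ} (hw : ∀ n, n₁ ≤ n → 0 < w n)
    {A a g c d : ℝ} (hA : 0 ≤ A) (ha : 0 < a) (hg : 0 < g) (hc : 0 < c) (hd : 0 < d)
    (hup : ∀ n, n₁ ≤ n → ∀ R : ℝ, 1 ≤ R →
      ∫ x, (1 - forceP β h (fun p => ω p x) n (bal n v (R * w n))) ∂P ≤ A * Real.exp (-(a * R ^ g)))
    (hlo : ∀ n, n₁ ≤ n → ∫ x, forceP β h (fun p => ω p x) n (bal n v (c * w n)) ∂P ≤ 1 - d) (q : ℕ) :
    ∃ b B : ℝ, 0 < b ∧ 0 < B ∧ ∀ n, n₁ ≤ n →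
      b * w n ^ q ≤ ∫ x, forceE β h (fun p => ω p x) n (fun s => mx v s ^ q) ∂P ∧
      ∫ x, forceE β h (fun p => ω p x) n (fun s => mx v s ^ q) ∂P ≤ B * w n ^ q := by
  obtain ⟨b, B, hb, hB, hm⟩ := mx_moment_one hA ha hg hc hd q
  exact ⟨b, B, hb, hB, fun n hn => ⟨(hm Ω P ω β h v hmeas n (w n) (hw n hn)).2 (hlo n hn),
    (hm Ω P ω β h v hmeas n (w n) (hw n hn)).1 (hup n hn)⟩⟩

end

end Pool.Agent.W_7d29a1_HS
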