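import Pool.Agent.W_7d29a1_H.PredH3

/-!
MP_7d29a1_pr, TRACK H, part 3: the scaling law at the tilt `s`. Definitions and the input. (The case `s = 0` is
`W_7d29a1_SR.Defs`.) Coordinates of `W_7d29a1_F`; centre of the displacements of time `n`: `sl μ s * n`.

Notation: `EE μ s n` is the unit, `wd μ s n = n * vA 1 μ s n` the width in sites, `V μ s η 0 n` is `log Z_n - n λ` at the tilt `s`.
-/

set_option autoImplicit false

namespace Pool.Agent.W_7d29a1_HS

open MeasureTheory ProbabilityTheory Filter Topology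
open Pool.Agent.W_7d29a1_F Pool.Agent.W_7d29a1_h4g Pool.Agent.W_7d29a1_H
open Pool.Agent.W_7d29a1_L (Mh T kap Bx)

noncomputable section

/-- The width of the scale `n`, in sites. -/
def wd (μ : Measure ℝ) (s : ℝ) (n : ℕ) : ℝ := n * vA 1 μ s n

/-- The strip of the slope `sl μ s` and half width `r` (in sites) around the site `a`. -/
def St (μ : Measure ℝ) (s r : ℝ) (a : Pt) : Set Pt := tb (sl μ s) a r

/-- The total weight of the paths of length `n` from `a` which stay in the strip of half width `r`. -/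
def cf (μ : Measure ℝ) (s r : ℝ) (η : Env) (a : Pt) (n : ℕ) : ℝ :=
  ∑ y ∈ Finset.Icc (0 : ℤ) n, WR μ s (St μ s r a) η a n y

/-- The displacement of time `m` with the slope of the tilt `s` (rounded down). -/
def md (μ : Measure ℝ) (s : ℝ) (m : ℕ) : ℤ := ⌊sl μ s * m⌋

/-- The results of the chain which are used, at one tilt `s`. -/
structure In (μ : Measure ℝ) (s c C : ℝ) (n₀ : ℕ) : Prop where
  em : Pool.Agent.W_7d29a1_h47.EM μ
  nd : Pool.Agent.W_7d29a1_h47.Nondeg μ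
  /-- The base lemmas apply to the family `{s}`. -/
  dir : ∃ H δ : ℝ, Dirs μ H δ {s}
  c0 : 0 < c
  c1 : c ≤ 1
  C1 : 1 ≤ C
  /-- The unit is at least of the order of the logarithm. -/
  lg : ∀ n : ℕ, 1 ≤ n → Real.log n ≤ C * EE μ s n
  /-- The unit tends to infinity. -/
  tE : Tendsto (EE μ s) atTop atTop
  /-- The cone closes. -/
  tv : Tendsto (vA 1 μ s) atTop (𝓝 0)
  /-- All large scales are soft. -/
  soft : ∃ (α : ℝ) (x₀ : ℕ), ∀ x, x₀ ≤ x → Sf μ s x α
  /-- The unit doubles in boundedly many octaves. -/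
  dbl : ∃ T x₀ : ℕ, ∀ x, x₀ ≤ x → gg μ s x + 1 ≤ gg μ s (x + T)
  /-- The unit grows at most like a square root. -/
  half : ∃ (K : ℝ) (x₀ : ℕ), ∀ x j : ℕ, x₀ ≤ x → gg μ s (x + j) ≤ gg μ s x + j / 2 + K
  /-- The cone closes at all scales. -/
  cone : ∃ (L x₁ : ℕ) (δ : ℝ), 0 < δ ∧ 1 ≤ L ∧ ∀ x, x₁ ≤ x → ff 1 μ s x + δ ≤ ff 1 μ s (x + L)
  /-- The rate function doubles and is comparable with its reflection near `0`. -/
  sym : ∃ D δ : ℝ, 1 ≤ D ∧ 0 < δ ∧ ∀ x, |x| ≤ δ → J μ s (2 * x) ≤ D * J μ s x ∧ J μ s (-x) ≤ D * J μ s x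
  /-- The rate function is superlinear near `0`. -/
  sup : ∃ ρ δ : ℝ, 0 < ρ ∧ ρ < 1 ∧ 0 < δ ∧ ∀ x, |x| ≤ δ → 2 * J μ s (x / 2) ≤ ρ * J μ s x
  /-- Displacements in the cone (around the straight one) are cheap. -/
  inn : ∀ n, n₀ ≤ n → ∀ (m : ℕ) (y : ℤ), m ≤ 4 * n → 0 ≤ y → y ≤ m →
    |(y : ℝ) - sl μ s * m| ≤ c * vA 1 μ s n * m + 1 → ep μ s m y ≤ C * EE μ s n
  /-- Exponential moments of the tilted lucks of the boxes of width `wd n` (starts and lengths up to the time `4 n`). -/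
  luck : ∀ n, n₀ ≤ n → ∀ h z : ℝ, |h| * wd μ s n ≤ c * EE μ s n →
    ∫ η, Real.exp (Mh μ s (sl μ s) h (wd μ s n) z (4 * n) η / (C * EE μ s n)) ∂(law μ) ≤ C

end

end Pool.Agent.W_7d29a1_HS
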