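import Pool.Agent.W_7d29a1_HS.Defs
import Pool.Agent.W_7d29a1_H.UnitH
import Pool.Agent.W_7d29a1_H.WidthH
import Pool.Agent.W_7d29a1_H.Soft4
import Pool.Agent.W_7d29a1_L.LsA1
import Pool.Agent.W_7d29a1_h21g.LuckP

/-!
MP_7d29a1_pr, TRACK H, part 3: the scaling law at the tilt `s`, section (S1). (Model: `W_7d29a1_SR.Lucky`.) (helper43)
-/

set_option autoImplicit false

namespace Pool.Agent.W_7d29a1_HS

open MeasureTheory ProbabilityTheory Filter Topology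
open Pool.Agent.W_7d29a1_F Pool.Agent.W_7d29a1_h4g Pool.Agent.W_7d29a1_H
open Pool.Agent.W_7d29a1_L (Mh T kap Bx mem_Bx Mh_nonneg le_Mh Sub_Mh)
open Pool.Agent.W_7d29a1_L78 Pool.Agent.W_7d29a1_h60

variable {μ : Measure ℝ} [IsProbabilityMeasure μ] {s c C : ℝ} {n₀ : ℕ}

/-- A SOFT SCALE GIVES A LUCK WITH POSITIVE PROBABILITY (free end). `Cv` = second moment of the luck. -/
theorem luck_V (hEM : Pool.Agent.W_7d29a1_h47.EM μ) (hnd : Pool.Agent.W_7d29a1_h47.Nondeg μ) (s α : ℝ) {K Cv : ℝ}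
    (hK : 0 < K) (hCv : 0 < Cv) : ∃ p U₀ : ℝ, 0 < p ∧ ∀ x : ℕ, U₀ ≤ EE μ s (2 ^ x) → Sf μ s x α →
      (∀ l : ℕ, (l : ℝ) ≤ (2 : ℝ) ^ ((x : ℝ) + α) →
        ∫ η, (max (V μ s η 0 l) 0) ^ 2 ∂(law μ) ≤ (Cv * EE μ s (2 ^ x)) ^ 2) →
      ∃ l : ℕ, (l : ℝ) ≤ (2 : ℝ) ^ ((x : ℝ) + α) ∧ p ≤ (law μ).real {η | K * EE μ s (2 ^ x) ≤ V μ s η 0 l} := by
  have h2a : (0 : ℝ) < 2 ^ α := Real.rpow_pos_of_pos two_pos _
  have h2b : (0 : ℝ) < 2 ^ (-α) := Real.rpow_pos_of_pos two_pos _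
  obtain ⟨U₀, D, hLA⟩ := la_law (μ := μ) (LAfor_all hEM hnd) (c := 2 ^ (-α)) (K := 2 * K + 2 ^ α) h2b (by positivity)
  refine ⟨(K / (max D 1 * Cv)) ^ 2, U₀, by positivity, fun x hU hS hV2 => ?_⟩
  obtain ⟨l, G, hl, hP, hG, hGV, hmean, hfl⟩ := hS
  obtain ⟨f, hfm, hf0, hfD, hf1, -, hfG⟩ := hLA (rows 0 l) G hP hG (EE μ s (2 ^ x)) hU hfl
  refine ⟨l, hl, ?_⟩
  have hE := EE_pos (μ := μ) (s := s) (2 ^ x)
  obtain ⟨E, hEdef⟩ : ∃ E : ℝ, E = EE μ s (2 ^ x) := ⟨_, rfl⟩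
  rw [← hEdef] at hE hfG hmean hV2 ⊢
  have hfD' : ∀ η, f η ≤ max D 1 := fun η => (hfD η).trans (le_max_left _ _)
  have hD : (0 : ℝ) < max D 1 := lt_max_of_lt_right one_pos
  have hfS : Sub f := Sub.of_le hfm (Sub.const 0) (Sub.const (max D 1)) hf0 hfD'
  have hVS : Sub fun η => V μ s η 0 l := Sub_V _ _
  have hGS : Sub fun η => Real.log (G η) := hP.sub_log hG
  have h1 : ∫ η, f η * Real.log (G η) ∂(law μ) ≤ ∫ η, f η * V μ s η 0 l ∂(law μ) :=
    integral_mono (Sub.mul_integrable hEM hfS hGS) (Sub.mul_integrable hEM hfS hVS)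
      fun η => mul_le_mul_of_nonneg_left (hGV η) (hf0 η)
  have h2 : 2 * (K * E) ≤ ∫ η, f η * V μ s η 0 l ∂(law μ) := by
    have : (2 * K + 2 ^ α) * E = 2 * (K * E) + 2 ^ α * E := by ring
    linarith
  have h3 := Pool.Agent.W_7d29a1_h21g.prob_of_density hEM hfm hf0 hD hfD' hf1 hVS (Y := K * E) (M := Cv * E)
    (by positivity) (by positivity) (hV2 l hl) h2
  refine le_trans (le_of_eq ?_) h3
  congr 1
  rw [show max D 1 * (Cv * E) = (max D 1 * Cv) * E by ring, mul_div_mul_right _ _ hE.ne']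

/-- The mean of the unluck of the free polymer is at most the unit. -/
theorem mean_neg_V (hEM : Pool.Agent.W_7d29a1_h47.EM μ) {m n : ℕ} (hmn : m ≤ n) :
    ∫ η, max (-V μ s η 0 m) 0 ∂(law μ) ≤ EE μ s n := by
  refine le_trans ?_ (ref_le_EE4 (μ := μ) hmn)
  refine integral_mono (((Sub_V 0 m).neg.max (Sub.const 0)).integrable hEM)
    (((Sub_X 0 (zs_mem m).1 (zs_mem m).2).max (Sub.const 0)).integrable hEM) fun η => ?_
  have h1 := neg_X_le_V (μ := μ) (s := s) η 0 (zs_mem (μ := μ) (s := s) m).1 (zs_mem (μ := μ) (s := s) m).2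
  exact max_le_max (by linarith) le_rfl

/-- A luck at the level `l` and a fresh continuation from the end point of the polymer. -/
theorem lucky_cont (hEM : Pool.Agent.W_7d29a1_h47.EM μ) (l m : ℕ) {A : ℝ} (hA : 0 < A)
    (hV : ∫ η, max (-V μ s η 0 m) 0 ∂(law μ) ≤ A) (Y : ℝ) :
    (law μ).real {η | Y ≤ V μ s η 0 l} ≤ 2 * (law μ).real {η | Y - 2 * A ≤ V μ s η 0 (l + m)} := by
  have hm1 : MeasurableSet {η : Env | Y ≤ V μ s η 0 l} := measurableSet_le measurable_const (measurable_V 0 l)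
  have hm2 : MeasurableSet {η : Env | Y - 2 * A ≤ V μ s η 0 (l + m)} :=
    measurableSet_le measurable_const (measurable_V 0 (l + m))
  rw [← integral_io_real hm1, ← integral_io_real hm2]
  obtain ⟨ι, hι⟩ : ∃ ι : Env → ℝ, ι = fun η => io (Y ≤ V μ s η 0 l) := ⟨_, rfl⟩
  obtain ⟨F, hF⟩ : ∃ F : ℤ → Env → ℝ, F = fun k η => max (-V μ s η ((0 : Pt).1 + l, (0 : Pt).2 + k) m) 0 := ⟨_, rfl⟩
  obtain ⟨R, hR⟩ : ∃ R : Env → ℝ, R = fun η => (∑ k ∈ Finset.Icc (0 : ℤ) l, W μ s η 0 l k * F k η) /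
    Real.exp (V μ s η 0 l) := ⟨_, rfl⟩
  have hιS : Sub ι := by rw [hι]; exact Sub_io hm1
  have hι0 : ∀ η, 0 ≤ ι η := fun η => by rw [hι]; exact io_nonneg _
  have hι1 : ∀ η, ι η ≤ 1 := fun η => by rw [hι]; exact io_le_one _
  have hιd : DependsOn ι (rows 0 ((0 : Pt).1 + l)) := by
    rw [hι]
    intro η η' h
    have h1 : V μ s η 0 l = V μ s η' 0 l := V_dep_rows (μ := μ) (s := s) 0 l h
    show io (Y ≤ V μ s η 0 l) = io (Y ≤ V μ s η' 0 l)
    rw [h1]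
  have hFS : ∀ k, Sub (F k) := fun k => by rw [hF]; exact (Sub_V _ _).neg.max (Sub.const 0)
  have hF0 : ∀ k η, 0 ≤ F k η := fun k η => by rw [hF]; exact le_max_right _ _
  have hFd : ∀ k, DependsOn (F k) (rows ((0 : Pt).1 + l) ((0 : Pt).1 + l + m)) := by
    intro k η η' h
    have h1 : V μ s η ((0 : Pt).1 + l, (0 : Pt).2 + k) m = V μ s η' ((0 : Pt).1 + l, (0 : Pt).2 + k) m :=
      V_dep_rows (μ := μ) (s := s) ((0 : Pt).1 + l, (0 : Pt).2 + k) m h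
    rw [hF]
    show max (-V μ s η ((0 : Pt).1 + l, (0 : Pt).2 + k) m) 0 = max (-V μ s η' ((0 : Pt).1 + l, (0 : Pt).2 + k) m) 0
    rw [h1]
  have hFi : ∀ k, ∫ η, F k η ∂(law μ) = ∫ η, max (-V μ s η 0 m) 0 ∂(law μ) := fun k => by
    rw [hF]
    exact integral_V_fun (μ := μ) (s := s) (f := fun x => max (-x) 0) (measurable_neg.max measurable_const) _ m
  obtain ⟨hint, hval⟩ := cont_gen (μ := μ) (s := s) hEM 0 l hιS.1 hι0 hι1 (c := 0) le_rfl hιd hFS hFd hFi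
  have hRm : Measurable R := by
    rw [hR]
    refine Measurable.div (Finset.measurable_sum _ fun k _ => (measurable_W 0 l k).mul (hFS k).1) ?_
    exact Real.measurable_exp.comp (measurable_V 0 l)
  have hR0 : ∀ η, 0 ≤ R η := fun η => by
    rw [hR]
    exact div_nonneg (Finset.sum_nonneg fun k _ => mul_nonneg (W_nonneg _ _ _ _) (hF0 k η)) (Real.exp_pos _).le
  have hιR : (fun η => ι η * R η) = fun η => ι η * ((∑ k ∈ Finset.Icc (0 : ℤ) l, W μ s η 0 l k * F k η) /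
      Real.exp (V μ s η 0 l)) := by rw [hR]
  have hint' : Integrable (fun η => ι η * R η) (law μ) := by rw [hιR]; exact hint
  have hval' : ∫ η, ι η * R η ∂(law μ) ≤ A * ∫ η, ι η ∂(law μ) := by
    rw [hιR, hval, mul_comm]
    exact mul_le_mul_of_nonneg_right hV (integral_nonneg hι0)
  have h1 := half_mass hEM hιS hι0 hRm hR0 hint' hA hval'
  have hRm2 : MeasurableSet {η | R η ≤ 2 * A} := measurableSet_le hRm measurable_const
  have h2 : ∫ η, ι η * io (R η ≤ 2 * A) ∂(law μ) ≤ ∫ η, io (Y - 2 * A ≤ V μ s η 0 (l + m)) ∂(law μ) := by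
    refine integral_mono (Sub.mul_integrable hEM hιS (Sub_io hRm2)) ((Sub_io hm2).integrable hEM) fun η => ?_
    by_cases h3 : Y ≤ V μ s η 0 l
    · by_cases h4 : R η ≤ 2 * A
      · have h5 := V_add_jensen (μ := μ) (s := s) η 0 l m
        have h6 : -R η ≤ (∑ k ∈ Finset.Icc (0 : ℤ) l, W μ s η 0 l k * V μ s η ((0 : Pt).1 + l, (0 : Pt).2 + k) m) /
            Real.exp (V μ s η 0 l) := by
          rw [hR, ← neg_div, div_le_div_iff_of_pos_right (Real.exp_pos _), ← Finset.sum_neg_distrib]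
          refine Finset.sum_le_sum fun k _ => ?_
          rw [hF]
          have h7 : -V μ s η ((0 : Pt).1 + l, (0 : Pt).2 + k) m ≤
            max (-V μ s η ((0 : Pt).1 + l, (0 : Pt).2 + k) m) 0 := le_max_left _ _
          have h8 := mul_le_mul_of_nonneg_left h7 (W_nonneg (μ := μ) (s := s) η 0 l k)
          show -(W μ s η 0 l k * max (-V μ s η ((0 : Pt).1 + l, (0 : Pt).2 + k) m) 0) ≤
            W μ s η 0 l k * V μ s η ((0 : Pt).1 + l, (0 : Pt).2 + k) m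
          linarith
        show ι η * io (R η ≤ 2 * A) ≤ io (Y - 2 * A ≤ V μ s η 0 (l + m))
        rw [io_of (show Y - 2 * A ≤ V μ s η 0 (l + m) by linarith)]
        have := mul_le_mul (hι1 η) (io_le_one (R η ≤ 2 * A)) (io_nonneg _) zero_le_one
        linarith
      · show ι η * io (R η ≤ 2 * A) ≤ io (Y - 2 * A ≤ V μ s η 0 (l + m))
        rw [io_not h4, mul_zero]
        exact io_nonneg _
    · have h4 : ι η = 0 := by rw [hι]; exact io_not h3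
      show ι η * io (R η ≤ 2 * A) ≤ io (Y - 2 * A ≤ V μ s η 0 (l + m))
      rw [h4, zero_mul]
      exact io_nonneg _
  have h3 : ∫ η, io (Y ≤ V μ s η 0 l) ∂(law μ) = ∫ η, ι η ∂(law μ) := by rw [hι]
  rw [h3]
  linarith

/-- The second moment of the positive part of the luck. -/
theorem luck_sq (h : In μ s c C n₀) : ∃ A : ℝ, ∃ n₁ : ℕ, ∀ n, n₁ ≤ n → ∀ m, m ≤ n →
    ∫ η, max (V μ s η 0 m) 0 ^ 2 ∂(law μ) ≤ A * EE μ s n ^ 2 := by
  obtain ⟨H, δ, hD⟩ := h.dir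
  refine ⟨2 * C ^ 3, max n₀ 1, fun n hn m hm => ?_⟩
  have hE := EE_pos (μ := μ) (s := s) n
  have hC0 : 0 < C := lt_of_lt_of_le one_pos h.C1
  have hn1 : 1 ≤ n := (le_max_right _ _).trans hn
  have hw : 0 < wd μ s n := mul_pos (by exact_mod_cast hn1) (Dirs.vA_pos hD (Set.mem_singleton s) one_pos hn1)
  have hl := h.luck n ((le_max_left _ _).trans hn) 0 (-(wd μ s n / 2)) (by
    rw [abs_zero, zero_mul]
    have := h.c0
    positivity)
  obtain ⟨M, hM⟩ : ∃ M : Env → ℝ, M = fun η => Mh μ s (sl μ s) 0 (wd μ s n) (-(wd μ s n / 2)) (4 * n) η := ⟨_, rfl⟩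
  have hMS : Sub M := by rw [hM]; exact Sub_Mh
  have hM0 : ∀ η, 0 ≤ M η := fun η => by rw [hM]; exact Mh_nonneg η
  have hMV : ∀ η, V μ s η 0 m ≤ M η := by
    intro η
    have hq : (((0 : ℕ), (0 : ℤ)), m) ∈ Bx (sl μ s) (wd μ s n) (-(wd μ s n / 2)) (4 * n) := by
      rw [mem_Bx (hD.δ0.le.trans (hD.lo s (Set.mem_singleton s))) (by
        have h1 := hD.hi s (Set.mem_singleton s)
        have h2 := hD.δ0
        linarith)]
      refine ⟨?_, ?_, ?_⟩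
      · show 0 + m ≤ 4 * n
        omega
      · show -(wd μ s n / 2) < ((0 : ℤ) : ℝ) - sl μ s * ((0 : ℕ) : ℝ)
        push_cast
        linarith
      · show ((0 : ℤ) : ℝ) - sl μ s * ((0 : ℕ) : ℝ) ≤ -(wd μ s n / 2) + wd μ s n
        push_cast
        linarith
    have h1 := le_Mh (μ := μ) (s := s) (v := sl μ s) (h := 0) η hq
    have h2 : T μ s (sl μ s) 0 η (((0 : ℕ) : ℤ), (0 : ℤ)) m = V μ s η 0 m := by
      unfold T kap
      simp only [add_zero, sub_self, zero_mul, mul_zero]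
      rfl
    have h3 : T μ s (sl μ s) 0 η (((0 : ℕ) : ℤ), (0 : ℤ)) m ≤ M η := by
      rw [hM]
      exact h1
    rw [← h2]
    exact h3
  have hpt : ∀ η, max (V μ s η 0 m) 0 ^ 2 ≤ 2 * (C * EE μ s n) ^ 2 * Real.exp (M η / (C * EE μ s n)) := by
    intro η
    have hCE : 0 < C * EE μ s n := by positivity
    have h1 : max (V μ s η 0 m) 0 ≤ M η := max_le (hMV η) (hM0 η)
    have h2 : max (V μ s η 0 m) 0 ^ 2 ≤ M η ^ 2 := pow_le_pow_left₀ (le_max_right _ _) h1 2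
    have h3 := Real.quadratic_le_exp_of_nonneg (x := M η / (C * EE μ s n)) (div_nonneg (hM0 η) hCE.le)
    have h4 : 0 ≤ M η / (C * EE μ s n) := div_nonneg (hM0 η) hCE.le
    have h5 : M η ^ 2 = 2 * (C * EE μ s n) ^ 2 * ((M η / (C * EE μ s n)) ^ 2 / 2) := by
      field_simp
    have h6 : (M η / (C * EE μ s n)) ^ 2 / 2 ≤ Real.exp (M η / (C * EE μ s n)) := by linarith
    calc max (V μ s η 0 m) 0 ^ 2 ≤ M η ^ 2 := h2
      _ = _ := h5
      _ ≤ _ := mul_le_mul_of_nonneg_left h6 (by positivity)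
  have hexpS : Sub fun η => M η / (C * EE μ s n) := by
    have := hMS.const_mul (1 / (C * EE μ s n))
    refine (congrArg Pool.Agent.W_7d29a1_F.Sub (funext fun η => ?_)).mp this
    ring
  have hI := integral_mono (((Sub_V 0 m).max (Sub.const 0)).sq_integrable h.em)
    ((hexpS.exp_int h.em).const_mul (2 * (C * EE μ s n) ^ 2)) hpt
  rw [integral_const_mul] at hI
  refine hI.trans ?_
  have hl' : ∫ η, Real.exp (M η / (C * EE μ s n)) ∂(law μ) ≤ C := by rw [hM]; exact hl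
  calc 2 * (C * EE μ s n) ^ 2 * ∫ η, Real.exp (M η / (C * EE μ s n)) ∂(law μ)
      ≤ 2 * (C * EE μ s n) ^ 2 * C := mul_le_mul_of_nonneg_left hl' (by positivity)
    _ = 2 * C ^ 3 * EE μ s n ^ 2 := by ring

/-- (S1) LUCKY: every number of units of luck has a probability bounded below. -/
theorem lucky (h : In μ s c C n₀) (K : ℝ) : ∃ p : ℝ, 0 < p ∧ ∃ n₁ : ℕ, ∀ n, n₁ ≤ n →
    p ≤ (law μ).real {η | K * EE μ s n ≤ V μ s η 0 n} := by
  obtain ⟨α, x0, hs⟩ := h.soft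
  obtain ⟨A, n1, hA⟩ := luck_sq h
  obtain ⟨k1, hk1⟩ : ∃ k1 : ℕ, α ≤ k1 := exists_nat_ge α
  obtain ⟨B, hB⟩ : ∃ B : ℝ, B = max A 1 := ⟨_, rfl⟩
  have hB1 : 1 ≤ B := hB ▸ le_max_right _ _
  have hAB : A ≤ B := hB ▸ le_max_left _ _
  obtain ⟨p, U, hp, hlu⟩ := luck_V (μ := μ) h.em h.nd s α
    (K := (|K| + 3) * 2 ^ (k1 + 2)) (Cv := B * 2 ^ k1) (by positivity) (by positivity)
  have ht : Tendsto (fun x : ℕ => EE μ s (2 ^ x)) atTop atTop :=
    h.tE.comp (tendsto_pow_atTop_atTop_of_one_lt one_lt_two)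
  obtain ⟨x1, hx1⟩ := Filter.eventually_atTop.1 (ht.eventually_ge_atTop U)
  obtain ⟨x2, hx2⟩ : ∃ x2 : ℕ, x2 = x0 + x1 + n1 := ⟨_, rfl⟩
  refine ⟨p / 2, by positivity, 2 ^ (x2 + k1 + 1), fun n hn => ?_⟩
  have hn0 : n ≠ 0 := by
    have : 0 < 2 ^ (x2 + k1 + 1) := by positivity
    omega
  have hL1 : 2 ^ Nat.log 2 n ≤ n := Nat.pow_log_le_self 2 hn0
  have hL2 : n < 2 ^ (Nat.log 2 n + 1) := Nat.lt_pow_succ_log_self (by norm_num) n
  have hL3 : x2 + k1 + 1 ≤ Nat.log 2 n := Nat.le_log_of_pow_le (by norm_num) hn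
  obtain ⟨x, hx⟩ : ∃ x : ℕ, Nat.log 2 n = x + k1 + 1 := ⟨Nat.log 2 n - (k1 + 1), by omega⟩
  rw [hx] at hL1 hL2 hL3
  have hxx : x2 ≤ x := by omega
  -- the unit
  have hE := EE_pos (μ := μ) (s := s) n
  have hEn : EE μ s n ≤ 2 ^ (k1 + 2) * EE μ s (2 ^ x) := by
    have h1 : EE μ s n ≤ EE μ s (2 ^ (k1 + 2) * 2 ^ x) := EE_mono (by
      have : 2 ^ (k1 + 2) * 2 ^ x = 2 ^ (x + k1 + 1 + 1) := by ring
      omega)
    have h2 := EE_mul (μ := μ) h.em s (2 ^ x) (k := 2 ^ (k1 + 2)) (Nat.one_le_pow _ _ (by norm_num))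
    push_cast at h2
    exact h1.trans h2
  obtain ⟨l, hl, hpl⟩ := hlu x (hx1 x (by omega)) (hs x (by omega)) (fun l hl => by
    have h1 : (l : ℝ) ≤ ((2 ^ (x + k1) : ℕ) : ℝ) := by
      refine hl.trans ?_
      push_cast
      rw [← Real.rpow_natCast 2 (x + k1)]
      refine Real.rpow_le_rpow_of_exponent_le one_le_two ?_
      push_cast
      linarith
    have h2 : l ≤ 2 ^ (x + k1) := by exact_mod_cast h1
    have h3 : n1 ≤ 2 ^ (x + k1) := by
      have h4 : x + k1 < 2 ^ (x + k1) := Nat.lt_two_pow_self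
      omega
    have h4 := hA _ h3 l h2
    have h5 : EE μ s (2 ^ (x + k1)) ≤ 2 ^ k1 * EE μ s (2 ^ x) := by
      have h6 := EE_mul (μ := μ) h.em s (2 ^ x) (k := 2 ^ k1) (Nat.one_le_pow _ _ (by norm_num))
      push_cast at h6
      rw [show 2 ^ (x + k1) = 2 ^ k1 * 2 ^ x by ring]
      exact h6
    have h6 : EE μ s (2 ^ (x + k1)) ^ 2 ≤ (2 ^ k1 * EE μ s (2 ^ x)) ^ 2 := pow_le_pow_left₀ (EE_pos _).le h5 2
    have h7 : B ≤ B ^ 2 := by nlinarith
    calc ∫ η, (max (V μ s η 0 l) 0) ^ 2 ∂(law μ) ≤ A * EE μ s (2 ^ (x + k1)) ^ 2 := h4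
      _ ≤ B ^ 2 * (2 ^ k1 * EE μ s (2 ^ x)) ^ 2 :=
          mul_le_mul (hAB.trans h7) h6 (sq_nonneg _) (by positivity)
      _ = (B * 2 ^ k1 * EE μ s (2 ^ x)) ^ 2 := by ring)
  have hln : l ≤ n := by
    have h1 : (l : ℝ) ≤ ((2 ^ (x + k1) : ℕ) : ℝ) := by
      refine hl.trans ?_
      push_cast
      rw [← Real.rpow_natCast 2 (x + k1)]
      refine Real.rpow_le_rpow_of_exponent_le one_le_two ?_
      push_cast
      linarith
    have h2 : l ≤ 2 ^ (x + k1) := by exact_mod_cast h1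
    have h3 : 2 ^ (x + k1) ≤ 2 ^ (x + k1 + 1) := Nat.pow_le_pow_right (by norm_num) (by omega)
    omega
  have h1 : p ≤ (law μ).real {η | (|K| + 3) * EE μ s n ≤ V μ s η 0 l} := by
    refine hpl.trans (measureReal_mono (fun η hη => ?_) (measure_ne_top _ _))
    rw [Set.mem_ofPred_eq] at hη ⊢
    refine le_trans ?_ hη
    have h2 := mul_le_mul_of_nonneg_left hEn (show (0 : ℝ) ≤ |K| + 3 by positivity)
    calc (|K| + 3) * EE μ s n ≤ (|K| + 3) * (2 ^ (k1 + 2) * EE μ s (2 ^ x)) := h2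
      _ = _ := by ring
  have h2 := lucky_cont (μ := μ) h.em l (n - l) hE (mean_neg_V h.em (Nat.sub_le n l)) ((|K| + 3) * EE μ s n)
  rw [Nat.add_sub_cancel' hln] at h2
  have h3 : (law μ).real {η | (|K| + 3) * EE μ s n - 2 * EE μ s n ≤ V μ s η 0 n} ≤
      (law μ).real {η | K * EE μ s n ≤ V μ s η 0 n} := by
    refine measureReal_mono (fun η hη => ?_) (measure_ne_top _ _)
    rw [Set.mem_ofPred_eq] at hη ⊢
    refine le_trans ?_ hη
    have h4 := mul_le_mul_of_nonneg_right (le_abs_self K) hE.le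
    have h5 : (|K| + 3) * EE μ s n - 2 * EE μ s n = |K| * EE μ s n + EE μ s n := by ring
    linarith
  linarith

end Pool.Agent.W_7d29a1_HS
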