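import Pool.Agent.W_7d29a1_HS.Defs
import Pool.Agent.W_7d29a1_H.UnitH

/-!
MP_7d29a1_pr, TRACK H, part 3: the scales at one tilt `s` (model: `W_7d29a1_SR.Scale`), the level sets of the rate function, the
displacement `md`. (helper5)
-/

set_option autoImplicit false

namespace Pool.Agent.W_7d29a1_HS

open MeasureTheory ProbabilityTheory Filter Topology
open Pool.Agent.W_7d29a1_F Pool.Agent.W_7d29a1_h4g Pool.Agent.W_7d29a1_H
open Pool.Agent.W_1b8d5d_p (wR wL Rf)

noncomputable section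

variable {μ : Measure ℝ} [IsProbabilityMeasure μ] {s c C : ℝ} {n₀ : ℕ}

/-! ### The slope and the displacement of a time -/

theorem In.sl_pos (h : In μ s c C n₀) : 0 < sl μ s := (sl_mem h.em h.nd s).1

theorem In.sl_lt (h : In μ s c C n₀) : sl μ s < 1 := (sl_mem h.em h.nd s).2

omit [IsProbabilityMeasure μ] in
theorem md_le (m : ℕ) : (md μ s m : ℝ) ≤ sl μ s * m := Int.floor_le _

omit [IsProbabilityMeasure μ] in
theorem lt_md (m : ℕ) : sl μ s * m < md μ s m + 1 := Int.lt_floor_add_one _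

omit [IsProbabilityMeasure μ] in
theorem md_abs (m : ℕ) : |(md μ s m : ℝ) - sl μ s * m| ≤ 1 := by
  have h1 := md_le (μ := μ) (s := s) m
  have h2 := lt_md (μ := μ) (s := s) m
  rw [abs_le]
  constructor <;> linarith

omit [IsProbabilityMeasure μ] in
theorem md_zero : md μ s 0 = 0 := by
  unfold md
  simp

theorem In.md_nonneg (h : In μ s c C n₀) (m : ℕ) : 0 ≤ md μ s m := by
  have := h.sl_pos
  exact Int.floor_nonneg.2 (by positivity)

theorem In.md_le_nat (h : In μ s c C n₀) (m : ℕ) : md μ s m ≤ m := by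
  have h1 := md_le (μ := μ) (s := s) m
  have h2 := h.sl_lt
  have h3 : (md μ s m : ℝ) ≤ ((m : ℤ) : ℝ) := by
    push_cast
    have : (0 : ℝ) ≤ m := Nat.cast_nonneg m
    nlinarith
  exact_mod_cast h3

omit [IsProbabilityMeasure μ] in
/-- `md` is superadditive. -/
theorem md_add (m n : ℕ) : md μ s m + md μ s n ≤ md μ s (m + n) := by
  refine Int.le_floor.2 ?_
  have h1 := md_le (μ := μ) (s := s) m
  have h2 := md_le (μ := μ) (s := s) n
  push_cast
  linarith

omit [IsProbabilityMeasure μ] in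
theorem md_add_le (m n : ℕ) : md μ s (m + n) ≤ md μ s m + md μ s n + 1 := by
  have h1 := lt_md (μ := μ) (s := s) m
  have h2 := lt_md (μ := μ) (s := s) n
  have h3 := md_le (μ := μ) (s := s) (m + n)
  have h4 : (md μ s (m + n) : ℝ) < ((md μ s m + md μ s n + 2 : ℤ) : ℝ) := by
    push_cast at h3 ⊢
    linarith
  have h5 : md μ s (m + n) < md μ s m + md μ s n + 2 := by exact_mod_cast h4
  omega

/-! ### The rate function -/

/-- The rate function of the tilt. -/
theorem In.rf (h : In μ s c C n₀) : Rf (J μ s) := by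
  obtain ⟨H, δ, hD⟩ := h.dir
  exact hD.rf (Set.mem_singleton s)

/-- The level of the width. -/
theorem lev_nonneg (n : ℕ) : 0 ≤ 1 * EE μ s n / n := by
  have := EE_pos (μ := μ) (s := s) n
  positivity

theorem In.vr_nonneg (h : In μ s c C n₀) (n : ℕ) : 0 ≤ vr 1 μ s n := h.rf.wR_nonneg (lev_nonneg n)

theorem In.vl_nonneg (h : In μ s c C n₀) (n : ℕ) : 0 ≤ vl 1 μ s n := h.rf.wL_nonneg (lev_nonneg n)

theorem In.J_vr (h : In μ s c C n₀) (n : ℕ) : J μ s (vr 1 μ s n) = EE μ s n / n := by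
  have := h.rf.J_wR (lev_nonneg (μ := μ) (s := s) n)
  rw [one_mul] at this
  unfold vr
  rw [one_mul]
  exact this

theorem In.J_vl (h : In μ s c C n₀) (n : ℕ) : J μ s (-vl 1 μ s n) = EE μ s n / n := by
  have := h.rf.J_wL (lev_nonneg (μ := μ) (s := s) n)
  rw [one_mul] at this
  unfold vl
  rw [one_mul]
  exact this

/-- The one sided widths are at least the level (the rate function is `1`-Lipschitz). -/
theorem In.vr_ge (h : In μ s c C n₀) (n : ℕ) : EE μ s n / n ≤ vr 1 μ s n := by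
  have h1 := J_le_abs h.em h.nd s (vr 1 μ s n)
  rw [h.J_vr, abs_of_nonneg (h.vr_nonneg n)] at h1
  exact h1

theorem In.vl_ge (h : In μ s c C n₀) (n : ℕ) : EE μ s n / n ≤ vl 1 μ s n := by
  have h1 := J_le_abs h.em h.nd s (-vl 1 μ s n)
  rw [h.J_vl, abs_neg, abs_of_nonneg (h.vl_nonneg n)] at h1
  exact h1

theorem In.vr_pos (h : In μ s c C n₀) {n : ℕ} (hn : 1 ≤ n) : 0 < vr 1 μ s n := by
  have h0 : (0 : ℝ) < n := by exact_mod_cast hn
  have := EE_pos (μ := μ) (s := s) n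
  exact lt_of_lt_of_le (by positivity) (h.vr_ge n)

theorem In.vl_pos (h : In μ s c C n₀) {n : ℕ} (hn : 1 ≤ n) : 0 < vl 1 μ s n := by
  have h0 : (0 : ℝ) < n := by exact_mod_cast hn
  have := EE_pos (μ := μ) (s := s) n
  exact lt_of_lt_of_le (by positivity) (h.vl_ge n)

theorem In.vA_nonneg (h : In μ s c C n₀) (n : ℕ) : 0 ≤ vA 1 μ s n := add_nonneg (h.vr_nonneg n) (h.vl_nonneg n)

theorem In.vA_pos (h : In μ s c C n₀) {n : ℕ} (hn : 1 ≤ n) : 0 < vA 1 μ s n := add_pos (h.vr_pos hn) (h.vl_pos hn)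

theorem In.vr_le (h : In μ s c C n₀) (n : ℕ) : vr 1 μ s n ≤ vA 1 μ s n := le_add_of_nonneg_right (h.vl_nonneg n)

theorem In.vl_le (h : In μ s c C n₀) (n : ℕ) : vl 1 μ s n ≤ vA 1 μ s n := le_add_of_nonneg_left (h.vr_nonneg n)

theorem In.vA_ge (h : In μ s c C n₀) (n : ℕ) : 2 * (EE μ s n / n) ≤ vA 1 μ s n := by
  have h1 := h.vr_ge n
  have h2 := h.vl_ge n
  unfold vA
  linarith

theorem In.wd_nonneg (h : In μ s c C n₀) (n : ℕ) : 0 ≤ wd μ s n := mul_nonneg (Nat.cast_nonneg n) (h.vA_nonneg n)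

theorem In.wd_pos (h : In μ s c C n₀) {n : ℕ} (hn : 1 ≤ n) : 0 < wd μ s n :=
  mul_pos (by exact_mod_cast hn) (h.vA_pos hn)

/-- The rate function on the two sides: monotone in the distance. -/
theorem In.J_mono (h : In μ s c C n₀) {x y : ℝ} (hx : 0 ≤ x) (hxy : x ≤ y) : J μ s x ≤ J μ s y := h.rf.mono hx hxy

theorem In.J_mono_neg (h : In μ s c C n₀) {x y : ℝ} (hx : 0 ≤ x) (hxy : x ≤ y) : J μ s (-x) ≤ J μ s (-y) :=
  h.rf.neg.mono hx hxy

/-- Beyond the width the rate function is at least the level. -/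
theorem In.lev_le_J (h : In μ s c C n₀) (n : ℕ) {x : ℝ} (hx : vA 1 μ s n ≤ |x|) : EE μ s n / n ≤ J μ s x := by
  rcases le_total 0 x with h0 | h0
  · rw [abs_of_nonneg h0] at hx
    rw [← h.J_vr n]
    exact h.J_mono (h.vr_nonneg n) ((h.vr_le n).trans hx)
  · rw [abs_of_nonpos h0] at hx
    rw [← h.J_vl n]
    have h1 := h.J_mono_neg (h.vl_nonneg n) ((h.vl_le n).trans hx)
    rwa [neg_neg] at h1

/-- Beyond the width the rate function grows at least linearly: `t EE n / n ≤ J (± t vA)`, `1 ≤ t`. -/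
theorem In.lev_mul_le_J (h : In μ s c C n₀) {n : ℕ} (hn : 1 ≤ n) {x : ℝ} (hx : vA 1 μ s n ≤ |x|) :
    EE μ s n / n * (|x| / vA 1 μ s n) ≤ J μ s x := by
  have hv := h.vA_pos hn
  have h1 : 1 ≤ |x| / vA 1 μ s n := (one_le_div hv).2 hx
  have hx0 : x ≠ 0 := by
    rintro rfl
    rw [abs_zero] at hx
    linarith
  have hax : 0 < |x| := abs_pos.2 hx0
  obtain ⟨y, hy⟩ : ∃ y : ℝ, y = x / (|x| / vA 1 μ s n) := ⟨_, rfl⟩
  have h2 : |y| = vA 1 μ s n := by
    rw [hy, abs_div, abs_div, abs_abs, abs_of_pos hv]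
    field_simp
  have h3 := h.rf.le_mul h1 y
  have h4 : |x| / vA 1 μ s n * y = x := by
    rw [hy]
    field_simp
  rw [h4] at h3
  have h5 := h.lev_le_J n (x := y) h2.ge
  have h6 : EE μ s n / n * (|x| / vA 1 μ s n) ≤ |x| / vA 1 μ s n * J μ s y := by
    rw [mul_comm]
    exact mul_le_mul_of_nonneg_left h5 (by positivity)
  exact h6.trans h3

/-! ### The scales -/

/-- Doubling, iterated. -/
private lemma dbl_iter {T x₀ : ℕ} (h : ∀ x, x₀ ≤ x → gg μ s x + 1 ≤ gg μ s (x + T)) (k x : ℕ) (hx : x₀ ≤ x) :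
    (2 : ℝ) ^ k * EE μ s (2 ^ x) ≤ EE μ s (2 ^ (x + k * T)) := by
  have hg : ∀ k : ℕ, gg μ s x + k ≤ gg μ s (x + k * T) := by
    intro k
    induction k with
    | zero => simp
    | succ k ih =>
      have h1 := h (x + k * T) (by omega)
      have h2 : x + k * T + T = x + (k + 1) * T := by ring
      rw [h2] at h1
      push_cast
      linarith
  have h3 := hg k
  have h4 := Real.rpow_le_rpow_of_exponent_le (x := 2) (by norm_num) h3
  have e1 : (2 : ℝ) ^ (gg μ s x) = EE μ s (2 ^ x) := by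
    unfold gg
    exact Real.rpow_logb (by norm_num) (by norm_num) (EE_pos _)
  have e2 : (2 : ℝ) ^ (gg μ s (x + k * T)) = EE μ s (2 ^ (x + k * T)) := by
    unfold gg
    exact Real.rpow_logb (by norm_num) (by norm_num) (EE_pos _)
  rw [Real.rpow_add (by norm_num), e1, e2, Real.rpow_natCast] at h4
  linarith

/-- (0a) -/
theorem scale_a (h : In μ s c C n₀) (B : ℝ) :
    ∃ J n₁ : ℕ, ∀ m n : ℕ, n₁ ≤ n → 2 ^ J * m ≤ n → B * EE μ s m ≤ EE μ s n := by
  obtain ⟨T, x₀, hd⟩ := h.dbl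
  obtain ⟨k, hk⟩ := pow_unbounded_of_one_lt B (one_lt_two (α := ℝ))
  obtain ⟨n₁, hn₁⟩ := eventually_atTop.1 (h.tE.eventually_ge_atTop ((2 : ℝ) ^ k * EE μ s (2 ^ x₀)))
  refine ⟨k * T + 1, n₁, fun m n hn hmn => ?_⟩
  have hm0 := EE_pos (μ := μ) (s := s) m
  have hB : B * EE μ s m ≤ (2 : ℝ) ^ k * EE μ s m := mul_le_mul_of_nonneg_right hk.le hm0.le
  refine hB.trans ?_
  rcases lt_or_ge m (2 ^ x₀) with hm | hm
  · have h1 : EE μ s m ≤ EE μ s (2 ^ x₀) := EE_mono hm.le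
    exact (mul_le_mul_of_nonneg_left h1 (by positivity)).trans (hn₁ n hn)
  · have hm1 : m ≠ 0 := by
      have : 0 < 2 ^ x₀ := by positivity
      omega
    obtain ⟨x, hx⟩ : ∃ x : ℕ, x = Nat.log 2 m := ⟨_, rfl⟩
    have h1 : m < 2 ^ (x + 1) := by
      rw [hx]
      exact Nat.lt_pow_succ_log_self (by norm_num) m
    have h2 : 2 ^ x ≤ m := by
      rw [hx]
      exact Nat.pow_log_le_self 2 hm1
    have h3 : x₀ ≤ x + 1 := by
      by_contra hcon
      have h4 : 2 ^ (x + 1) ≤ 2 ^ x₀ := Nat.pow_le_pow_right (by norm_num) (by omega)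
      omega
    have h5 := dbl_iter hd k (x + 1) h3
    have h6 : 2 ^ (x + 1 + k * T) ≤ n := by
      calc 2 ^ (x + 1 + k * T) = 2 ^ (k * T + 1) * 2 ^ x := by rw [← pow_add]; congr 1; ring
        _ ≤ 2 ^ (k * T + 1) * m := Nat.mul_le_mul_left _ h2
        _ ≤ n := hmn
    have h7 : EE μ s m ≤ EE μ s (2 ^ (x + 1)) := EE_mono h1.le
    have h8 : EE μ s (2 ^ (x + 1 + k * T)) ≤ EE μ s n := EE_mono h6
    have h9 : (2 : ℝ) ^ k * EE μ s m ≤ (2 : ℝ) ^ k * EE μ s (2 ^ (x + 1)) := mul_le_mul_of_nonneg_left h7 (by positivity)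
    linarith

/-- (0b) -/
theorem scale_b (h : In μ s c C n₀) {m n : ℕ} (hm : 1 ≤ m) (hmn : m ≤ n) : m * EE μ s n ≤ 2 * (n * EE μ s m) := by
  obtain ⟨k, hk⟩ : ∃ k : ℕ, k = n / m + 1 := ⟨_, rfl⟩
  have h1 : n ≤ k * m := by
    have := Nat.lt_div_mul_add hm (a := n)
    rw [hk, add_mul, one_mul]
    omega
  have h2 := EE_le_mul h.em s (m := n) (n := m) (k := k) (by rw [hk]; exact Nat.le_add_left 1 _) h1
  have h3 : m * k ≤ 2 * n := by
    have := Nat.div_mul_le_self n m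
    rw [hk, mul_add, mul_one, mul_comm m]
    omega
  have h4 : (m : ℝ) * k ≤ 2 * n := by exact_mod_cast h3
  have h5 := EE_pos (μ := μ) (s := s) m
  calc (m : ℝ) * EE μ s n ≤ m * (k * EE μ s m) := mul_le_mul_of_nonneg_left h2 (by positivity)
    _ = (m * k) * EE μ s m := by ring
    _ ≤ 2 * n * EE μ s m := mul_le_mul_of_nonneg_right h4 h5.le
    _ = 2 * (n * EE μ s m) := by ring

/-- The levels at two scales. -/
theorem lev_le_two (h : In μ s c C n₀) {m n : ℕ} (hm : 1 ≤ m) (hmn : m ≤ n) :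
    1 * EE μ s n / n ≤ 2 * (1 * EE μ s m / m) := by
  have hm0 : (0 : ℝ) < m := by exact_mod_cast hm
  have hn0 : (0 : ℝ) < n := by exact_mod_cast (show 0 < n by omega)
  have h1 := scale_b h hm hmn
  rw [one_mul, one_mul, div_le_iff₀ hn0]
  have h2 : 2 * (EE μ s m / m) * n = 2 * (n * EE μ s m) / m := by ring
  rw [h2, le_div_iff₀ hm0]
  linarith

theorem vA_le_two (h : In μ s c C n₀) {m n : ℕ} (hm : 1 ≤ m) (hmn : m ≤ n) : vA 1 μ s n ≤ 2 * vA 1 μ s m := by
  have h1 := lev_le_two h hm hmn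
  have hr := (h.rf.wR_mono (lev_nonneg n) h1).trans (h.rf.wR_mul (lev_nonneg m) one_le_two)
  have hl := (h.rf.wL_mono (lev_nonneg n) h1).trans (h.rf.wL_mul (lev_nonneg m) one_le_two)
  unfold vA vr vl
  linarith

theorem vA_le2 (h : In μ s c C n₀) : ∃ n₁ : ℕ, ∀ m n : ℕ, n₁ ≤ m → m ≤ n → vA 1 μ s n ≤ 2 * vA 1 μ s m :=
  ⟨1, fun _ _ hm hmn => vA_le_two h hm hmn⟩

/-- The widths grow at most linearly with the level: `vA (t B) ≤ t vA (B)`, in the form of two scales. -/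
theorem vA_div_le (h : In μ s c C n₀) {m n : ℕ} (hm : 1 ≤ m) (hn : 1 ≤ n) (hl : EE μ s n / n ≤ EE μ s m / m) :
    vA 1 μ s m * (EE μ s n / n) ≤ vA 1 μ s n * (EE μ s m / m) := by
  have hm0 : (0 : ℝ) < m := by exact_mod_cast hm
  have hn0 : (0 : ℝ) < n := by exact_mod_cast hn
  have hEm := EE_pos (μ := μ) (s := s) m
  have hEn := EE_pos (μ := μ) (s := s) n
  have hBn : 0 < EE μ s n / n := by positivity
  obtain ⟨t, ht⟩ : ∃ t : ℝ, t = EE μ s m / m / (EE μ s n / n) := ⟨_, rfl⟩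
  have ht1 : 1 ≤ t := by
    rw [ht]
    exact (one_le_div hBn).2 hl
  have ht2 : t * (1 * EE μ s n / n) = 1 * EE μ s m / m := by
    rw [ht]
    field_simp
  have hr := h.rf.wR_mul (lev_nonneg (μ := μ) (s := s) n) ht1
  have hw := h.rf.wL_mul (lev_nonneg (μ := μ) (s := s) n) ht1
  rw [ht2] at hr hw
  have h1 : vA 1 μ s m ≤ t * vA 1 μ s n := by
    unfold vA vr vl
    linarith
  calc vA 1 μ s m * (EE μ s n / n) ≤ t * vA 1 μ s n * (EE μ s n / n) := mul_le_mul_of_nonneg_right h1 hBn.le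
    _ = vA 1 μ s n * (t * (EE μ s n / n)) := by ring
    _ = vA 1 μ s n * (EE μ s m / m) := by
        congr 1
        rw [ht]
        field_simp

theorem wd_growth_one (h : In μ s c C n₀) {m n : ℕ} (hm : 1 ≤ m) (hmn : m ≤ n) :
    wd μ s m * EE μ s n ≤ 2 * EE μ s m * wd μ s n := by
  have hm0 : (0 : ℝ) < m := by exact_mod_cast hm
  have hn0 : (0 : ℝ) < n := by exact_mod_cast (show 0 < n by omega)
  have hEm := EE_pos (μ := μ) (s := s) m
  have hEn := EE_pos (μ := μ) (s := s) n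
  have pm := h.vA_pos hm
  have pn := h.vA_pos (show 1 ≤ n by omega)
  unfold wd
  rcases le_total (EE μ s n / n) (EE μ s m / m) with hl | hl
  · have h1 := vA_div_le h hm (show 1 ≤ n by omega) hl
    have h2 : vA 1 μ s m * (EE μ s n / n) * (m * n) ≤ vA 1 μ s n * (EE μ s m / m) * (m * n) :=
      mul_le_mul_of_nonneg_right h1 (by positivity)
    have h3 : vA 1 μ s m * (EE μ s n / n) * (m * n) = m * vA 1 μ s m * EE μ s n := by field_simp
    have h4 : vA 1 μ s n * (EE μ s m / m) * (m * n) = EE μ s m * (n * vA 1 μ s n) := by field_simp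
    rw [h3, h4] at h2
    have h5 : 0 ≤ EE μ s m * (n * vA 1 μ s n) := by positivity
    linarith
  · have h1 : vA 1 μ s m ≤ vA 1 μ s n := by
      have hl' : 1 * EE μ s m / m ≤ 1 * EE μ s n / n := by rwa [one_mul, one_mul]
      have hr := h.rf.wR_mono (lev_nonneg m) hl'
      have hw := h.rf.wL_mono (lev_nonneg m) hl'
      unfold vA vr vl
      linarith
    have h2 := scale_b h hm hmn
    calc m * vA 1 μ s m * EE μ s n = vA 1 μ s m * (m * EE μ s n) := by ring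
      _ ≤ vA 1 μ s n * (m * EE μ s n) := mul_le_mul_of_nonneg_right h1 (by positivity)
      _ ≤ vA 1 μ s n * (2 * (n * EE μ s m)) := mul_le_mul_of_nonneg_left h2 pn.le
      _ = 2 * EE μ s m * (n * vA 1 μ s n) := by ring

/-- (0c) -/
theorem wd_growth (h : In μ s c C n₀) : ∃ n₁ : ℕ, ∀ m n : ℕ, n₁ ≤ m → m ≤ n → wd μ s m * EE μ s n ≤ 2 * EE μ s m * wd μ s n :=
  ⟨1, fun _ _ hm hmn => wd_growth_one h hm hmn⟩

theorem wd_lower_one (h : In μ s c C n₀) {m n : ℕ} (hm : 1 ≤ m) (hmn : m ≤ n) : m * wd μ s n ≤ 2 * (n * wd μ s m) := by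
  have h1 := vA_le_two h hm hmn
  unfold wd
  calc (m : ℝ) * (n * vA 1 μ s n) = (m * n) * vA 1 μ s n := by ring
    _ ≤ (m * n) * (2 * vA 1 μ s m) := mul_le_mul_of_nonneg_left h1 (by positivity)
    _ = 2 * (n * (m * vA 1 μ s m)) := by ring

/-- (0d) -/
theorem wd_lower (h : In μ s c C n₀) : ∃ n₁ : ℕ, ∀ m n : ℕ, n₁ ≤ m → m ≤ n → m * wd μ s n ≤ 2 * (n * wd μ s m) :=
  ⟨1, fun _ _ hm hmn => wd_lower_one h hm hmn⟩

theorem wd_ge_one (h : In μ s c C n₀) {n : ℕ} (hn : 1 ≤ n) : 2 * EE μ s n ≤ wd μ s n := by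
  have hn0 : (0 : ℝ) < n := by exact_mod_cast hn
  have h1 := mul_le_mul_of_nonneg_left (h.vA_ge n) hn0.le
  have h2 : (n : ℝ) * (2 * (EE μ s n / n)) = 2 * EE μ s n := by field_simp
  rw [h2] at h1
  exact h1

/-- (0e) -/
theorem wd_ge (h : In μ s c C n₀) : ∃ c' : ℝ, 0 < c' ∧ ∃ n₁ : ℕ, ∀ n, n₁ ≤ n → c' * EE μ s n ≤ wd μ s n :=
  ⟨2, two_pos, 1, fun _ hn => wd_ge_one h hn⟩

theorem wd_tendsto (h : In μ s c C n₀) : Tendsto (wd μ s) atTop atTop := by
  obtain ⟨c', hc', n₁, hn₁⟩ := wd_ge h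
  refine tendsto_atTop_mono' atTop (eventually_atTop.2 ⟨n₁, hn₁⟩) ?_
  exact h.tE.const_mul_atTop hc'

/-- The widths grow with the time up to a factor `2`: `wd m ≤ 2 wd n`. -/
theorem wd_le_two (h : In μ s c C n₀) {m n : ℕ} (hm : 1 ≤ m) (hmn : m ≤ n) : wd μ s m ≤ 2 * wd μ s n := by
  have hEm := EE_pos (μ := μ) (s := s) m
  have h1 := wd_growth_one h hm hmn
  have h2 : EE μ s m ≤ EE μ s n := EE_mono hmn
  have h3 : wd μ s m * EE μ s m ≤ wd μ s m * EE μ s n := mul_le_mul_of_nonneg_left h2 (h.wd_nonneg m)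
  have h4 : wd μ s m * EE μ s m ≤ 2 * wd μ s n * EE μ s m := by linarith
  exact le_of_mul_le_mul_right h4 hEm

/-! ### The rate function at the width -/

/-- **The rate function at the multiples of the width is of the order of the level** (replaces `J_neg`, `J_mul`, `vA_eq` of the
symmetric case). -/
theorem J_wd (h : In μ s c C n₀) {K : ℝ} (hK : 0 < K) : ∃ (a A : ℝ) (n₁ : ℕ), 0 < a ∧ 0 < A ∧ 1 ≤ n₁ ∧ ∀ n, n₁ ≤ n → ∀ x : ℝ,
    |x| = K * vA 1 μ s n → a * EE μ s n ≤ n * J μ s x ∧ n * J μ s x ≤ A * EE μ s n := by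
  obtain ⟨D, δ, hD, hδ, hs⟩ := h.sym
  have hD0 : 0 < D := by linarith
  -- iteration of the doubling
  have hit : ∀ (k : ℕ) (x : ℝ), |x| * 2 ^ k ≤ 2 * δ → J μ s (2 ^ k * x) ≤ D ^ k * J μ s x := by
    intro k
    induction k with
    | zero => intro x _; simp
    | succ k ih =>
      intro x hx
      have h1 : |(2 : ℝ) ^ k * x| ≤ δ := by
        rw [abs_mul, abs_of_pos (by positivity : (0 : ℝ) < 2 ^ k)]
        rw [pow_succ] at hx
        linarith
      have h2 := (hs _ h1).1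
      have h3 := ih x (by
        rw [pow_succ] at hx
        have : 0 ≤ |x| * 2 ^ k := by positivity
        linarith)
      calc J μ s (2 ^ (k + 1) * x) = J μ s (2 * (2 ^ k * x)) := by congr 1; ring
        _ ≤ D * J μ s (2 ^ k * x) := h2
        _ ≤ D * (D ^ k * J μ s x) := mul_le_mul_of_nonneg_left h3 hD0.le
        _ = D ^ (k + 1) * J μ s x := by ring
  -- a power of two above `K` and `1 / K`
  obtain ⟨k, hk⟩ := pow_unbounded_of_one_lt (max K (1 / K)) (one_lt_two (α := ℝ))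
  have hk1 : K < 2 ^ k := (le_max_left _ _).trans_lt hk
  have hk2 : 1 / K < 2 ^ k := (le_max_right _ _).trans_lt hk
  have hev : ∀ᶠ n in atTop, vA 1 μ s n < 2 * δ / (2 ^ k * 2 ^ k * (2 * (K + 1))) := h.tv.eventually_lt_const (by positivity)
  obtain ⟨n₁, hn₁⟩ := eventually_atTop.1 hev
  refine ⟨1 / D ^ k, D ^ (k + 2), max n₁ 1, by positivity, by positivity, le_max_right _ _, fun n hn x hx => ?_⟩
  have hn1 : 1 ≤ n := (le_max_right _ _).trans hn
  have hn0 : (0 : ℝ) < n := by exact_mod_cast hn1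
  have hv := h.vA_pos hn1
  have hv2 := hn₁ n ((le_max_left _ _).trans hn)
  rw [lt_div_iff₀ (by positivity)] at hv2
  have hEn := EE_pos (μ := μ) (s := s) n
  have hp : (1 : ℝ) ≤ 2 ^ k := one_le_pow₀ one_le_two
  have hax : 0 < |x| := by rw [hx]; positivity
  have hx0 : x ≠ 0 := abs_pos.1 hax
  have hsm : |x| * 2 ^ k ≤ 2 * δ ∧ vA 1 μ s n * 2 ^ k ≤ 2 * δ ∧ vA 1 μ s n ≤ δ ∧ vA 1 μ s n * 2 ^ k ≤ δ := by
    have e1 : 0 < vA 1 μ s n * 2 ^ k := by positivity
    have e2 : 0 < K * (vA 1 μ s n * 2 ^ k) := by positivity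
    have e3 : vA 1 μ s n * 2 ^ k * 1 ≤ vA 1 μ s n * 2 ^ k * 2 ^ k := mul_le_mul_of_nonneg_left hp e1.le
    have e4 : vA 1 μ s n * 1 ≤ vA 1 μ s n * 2 ^ k := mul_le_mul_of_nonneg_left hp hv.le
    have e5 : K * (vA 1 μ s n * 2 ^ k * 1) ≤ K * (vA 1 μ s n * 2 ^ k * 2 ^ k) := mul_le_mul_of_nonneg_left e3 hK.le
    have e6 : vA 1 μ s n * (2 ^ k * 2 ^ k * (2 * (K + 1))) = 2 * (K * (vA 1 μ s n * 2 ^ k * 2 ^ k)) +
        2 * (vA 1 μ s n * 2 ^ k * 2 ^ k) := by ring
    rw [e6] at hv2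
    refine ⟨?_, ?_, ?_, ?_⟩
    · rw [hx]
      nlinarith
    · nlinarith
    · nlinarith
    · nlinarith
  obtain ⟨h1, h2, h3, h3'⟩ := hsm
  -- the unit vector in the direction of `x`
  obtain ⟨y, hy⟩ : ∃ y : ℝ, y = x / K := ⟨_, rfl⟩
  have hyx : x = K * y := by rw [hy]; field_simp
  have hya : |y| = vA 1 μ s n := by
    rw [hy, abs_div, hx, abs_of_pos hK]
    field_simp
  -- the rate function at the width
  have hlow : EE μ s n / n ≤ J μ s y := h.lev_le_J n hya.ge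
  have hup : J μ s y ≤ D * (D * (EE μ s n / n)) := by
    -- the larger side
    have hbig : ∃ z : ℝ, |z| = vA 1 μ s n ∧ J μ s z ≤ D * (EE μ s n / n) := by
      rcases le_total (vl 1 μ s n) (vr 1 μ s n) with hlr | hlr
      · refine ⟨vA 1 μ s n, abs_of_pos hv, ?_⟩
        have e1 : vA 1 μ s n ≤ 2 * vr 1 μ s n := by unfold vA; linarith
        have e2 := h.J_mono hv.le e1
        have e3 := (hs (vr 1 μ s n) (by rw [abs_of_nonneg (h.vr_nonneg n)]; exact (h.vr_le n).trans h3)).1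
        rw [h.J_vr] at e3
        exact e2.trans e3
      · refine ⟨-vA 1 μ s n, by rw [abs_neg]; exact abs_of_pos hv, ?_⟩
        have e1 : vA 1 μ s n ≤ 2 * vl 1 μ s n := by unfold vA; linarith
        have e2 := h.J_mono_neg hv.le e1
        have e3 := (hs (-vl 1 μ s n) (by rw [abs_neg, abs_of_nonneg (h.vl_nonneg n)]; exact (h.vl_le n).trans h3)).1
        rw [h.J_vl, mul_neg] at e3
        exact e2.trans e3
    obtain ⟨z, hz, hJz⟩ := hbig
    have hcase : y = z ∨ y = -z := abs_eq_abs.1 (hya.trans hz.symm)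
    rcases hcase with rfl | rfl
    · have e1 : D * (EE μ s n / n) ≤ D * (D * (EE μ s n / n)) := by
        refine mul_le_mul_of_nonneg_left ?_ hD0.le
        exact le_mul_of_one_le_left (by positivity) hD
      exact hJz.trans e1
    · exact ((hs z (by rw [hz]; exact h3)).2).trans (mul_le_mul_of_nonneg_left hJz hD0.le)
  constructor
  · -- lower bound: `y = (1 / K) x`, `1 / K < 2 ^ k`
    have e1 := hit k x h1
    have e2 : J μ s y ≤ J μ s (2 ^ k * x) := by
      have e3 : y = (1 / (K * 2 ^ k)) * (2 ^ k * x) := by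
        rw [hy]
        field_simp
      have e4 : 1 / (K * 2 ^ k) ≤ 1 := by
        rw [div_le_one (by positivity)]
        rw [div_lt_iff₀ hK] at hk2
        linarith
      have e5 := h.rf.mul_le (t := 1 / (K * 2 ^ k)) (by positivity) e4 (2 ^ k * x)
      rw [← e3] at e5
      refine e5.trans ?_
      have e6 := h.rf.nn (2 ^ k * x)
      exact mul_le_of_le_one_left e6 e4
    have e3 : EE μ s n / n ≤ D ^ k * J μ s x := hlow.trans (e2.trans e1)
    rw [div_le_iff₀ hn0] at e3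
    rw [div_mul_eq_mul_div, div_le_iff₀ (by positivity), one_mul]
    linarith
  · -- upper bound: `K < 2 ^ k`
    have e1 := hit k y (by rw [hya]; exact h2)
    have e2 : J μ s x ≤ J μ s (2 ^ k * y) := by
      have e3 : x = (K / 2 ^ k) * (2 ^ k * y) := by
        rw [hyx]
        field_simp
      have e4 : K / 2 ^ k ≤ 1 := by
        rw [div_le_one (by positivity)]
        exact hk1.le
      have e5 := h.rf.mul_le (t := K / 2 ^ k) (by positivity) e4 (2 ^ k * y)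
      rw [← e3] at e5
      refine e5.trans ?_
      exact mul_le_of_le_one_left (h.rf.nn _) e4
    have e3 : J μ s x ≤ D ^ (k + 2) * (EE μ s n / n) := by
      calc J μ s x ≤ D ^ k * J μ s y := e2.trans e1
        _ ≤ D ^ k * (D * (D * (EE μ s n / n))) := mul_le_mul_of_nonneg_left hup (by positivity)
        _ = D ^ (k + 2) * (EE μ s n / n) := by ring
    calc n * J μ s x ≤ n * (D ^ (k + 2) * (EE μ s n / n)) := mul_le_mul_of_nonneg_left e3 hn0.le
      _ = D ^ (k + 2) * EE μ s n := by field_simp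

/-- The two one sided widths are comparable. -/
theorem vr_vl (h : In μ s c C n₀) : ∃ (b : ℝ) (n₁ : ℕ), 0 < b ∧ b ≤ 1 ∧ 1 ≤ n₁ ∧ ∀ n, n₁ ≤ n →
    b * vA 1 μ s n ≤ vr 1 μ s n ∧ b * vA 1 μ s n ≤ vl 1 μ s n := by
  obtain ⟨a, A, n₁, ha, hA, hn₁, hJ⟩ := J_wd h one_pos
  refine ⟨1 / max A 1, n₁, by positivity, ?_, hn₁, fun n hn => ?_⟩
  · rw [div_le_one (by positivity)]
    exact le_max_right _ _
  have hn1 : 1 ≤ n := hn₁.trans hn
  have hn0 : (0 : ℝ) < n := by exact_mod_cast hn1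
  have hv := h.vA_pos hn1
  have hEn := EE_pos (μ := μ) (s := s) n
  have hM : (1 : ℝ) ≤ max A 1 := le_max_right _ _
  have key : ∀ x : ℝ, |x| = vA 1 μ s n → J μ s (1 / max A 1 * x) ≤ 1 * EE μ s n / n := by
    intro x hx
    have e1 := (hJ n hn x (by rw [hx, one_mul])).2
    have e2 := h.rf.mul_le (t := 1 / max A 1) (by positivity) (by rw [div_le_one (by positivity)]; exact hM) x
    refine e2.trans ?_
    rw [one_mul, le_div_iff₀ hn0, mul_assoc, div_mul_eq_mul_div, one_mul, div_le_iff₀ (by positivity)]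
    calc J μ s x * n = n * J μ s x := by ring
      _ ≤ A * EE μ s n := e1
      _ ≤ max A 1 * EE μ s n := mul_le_mul_of_nonneg_right (le_max_left _ _) hEn.le
      _ = EE μ s n * max A 1 := by ring
  constructor
  · exact h.rf.le_wR (by positivity) (key _ (abs_of_pos hv))
  · refine h.rf.neg.le_wR (by positivity) ?_
    have := key (-vA 1 μ s n) (by rw [abs_neg]; exact abs_of_pos hv)
    rwa [mul_neg] at this

end

end Pool.Agent.W_7d29a1_HS
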