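import Pool.Agent.W_7d29a1_HS.Tf
import Pool.Agent.W_7d29a1_HS.Lucky
import Pool.Agent.W_7d29a1_HS.Scale

/-!
MP_7d29a1_pr, TRACK H, part 3: tightness of the wandering at the tilt `s`. Part g: the inputs. (Model: `W_7d29a1_59T.Tg`.)
(helper43)
-/

set_option autoImplicit false

namespace Pool.Agent.W_7d29a1_HS

open MeasureTheory ProbabilityTheory Filter Topology
open Pool.Agent.W_7d29a1_F Pool.Agent.W_7d29a1_h4g Pool.Agent.W_7d29a1_H
open Pool.Agent.W_7d29a1_SL (ZR ZR_le ZR_nonneg)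
open Pool.Agent.W_7d29a1_L (Mh T kap Bx mem_Bx Mh_nonneg le_Mh Sub_Mh)

variable {μ : Measure ℝ} [IsProbabilityMeasure μ] {s c C : ℝ} {n₀ : ℕ}

/-- The logarithm is small compared with the unit. -/
theorem lgo (h : In μ s c C n₀) {δ : ℝ} (hδ : 0 < δ) : ∃ n₁ : ℕ, ∀ n, n₁ ≤ n → Real.log n ≤ δ * EE μ s n := by
  obtain ⟨T, x₀, hd⟩ := h.dbl
  have hT : 1 ≤ T := by
    by_contra hcon
    have h1 := hd x₀ le_rfl
    have h2 : T = 0 := by omega
    rw [h2, add_zero] at h1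
    linarith
  have hg : ∀ k : ℕ, (2 : ℝ) ^ k ≤ EE μ s (2 ^ (x₀ + k * T)) := by
    intro k
    have h1 : ∀ k : ℕ, gg μ s x₀ + k ≤ gg μ s (x₀ + k * T) := by
      intro k
      induction k with
      | zero => simp
      | succ k ih =>
        have h1 := hd (x₀ + k * T) (by omega)
        have h2 : x₀ + k * T + T = x₀ + (k + 1) * T := by ring
        rw [h2] at h1
        push_cast
        linarith
    have h2 := Real.rpow_le_rpow_of_exponent_le (x := 2) (by norm_num) (h1 k)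
    have hE : ∀ x : ℕ, (2 : ℝ) ^ (gg μ s x) = EE μ s (2 ^ x) := by
      intro x
      unfold gg
      exact Real.rpow_logb (by norm_num) (by norm_num) (lt_of_lt_of_le one_pos (one_le_EE _))
    rw [Real.rpow_add (by norm_num), hE, hE, Real.rpow_natCast] at h2
    have h3 := one_le_EE (μ := μ) (s := s) (2 ^ x₀)
    have h4 : (0 : ℝ) < 2 ^ k := by positivity
    nlinarith
  -- `k T + x₀ + T + 1 ≤ δ 2 ^ k` for large `k`
  obtain ⟨k0, hk0⟩ : ∃ k0 : ℕ, ∀ k, k0 ≤ k → (k : ℝ) * T + (x₀ + T + 1) ≤ δ * 2 ^ k := by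
    have h1 : Tendsto (fun k : ℕ => (k : ℝ) ^ 1 / 2 ^ k) atTop (𝓝 0) :=
      tendsto_pow_const_div_const_pow_of_one_lt 1 (by norm_num)
    have h2 : Tendsto (fun k : ℕ => (k : ℝ) ^ 0 / 2 ^ k) atTop (𝓝 0) :=
      tendsto_pow_const_div_const_pow_of_one_lt 0 (by norm_num)
    have h3 : Tendsto (fun k : ℕ => (k : ℝ) ^ 1 / 2 ^ k * T + (k : ℝ) ^ 0 / 2 ^ k * (x₀ + T + 1)) atTop
        (𝓝 ((0 : ℝ) * T + (0 : ℝ) * (x₀ + T + 1))) := (h1.mul_const _).add (h2.mul_const _)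
    rw [zero_mul, zero_mul, add_zero] at h3
    obtain ⟨k0, hk0⟩ := Filter.eventually_atTop.1 (h3.eventually (gt_mem_nhds hδ))
    refine ⟨k0, fun k hk => ?_⟩
    have h4 := hk0 k hk
    have h5 : (0 : ℝ) < 2 ^ k := by positivity
    have h6 : ((k : ℝ) ^ 1 / 2 ^ k * T + (k : ℝ) ^ 0 / 2 ^ k * (x₀ + T + 1)) * 2 ^ k =
        (k : ℝ) * T + (x₀ + T + 1) := by
      field_simp
    rw [← h6]
    exact mul_le_mul_of_nonneg_right h4.le h5.le
  refine ⟨2 ^ (x₀ + k0 * T), fun n hn => ?_⟩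
  have hn0 : n ≠ 0 := by
    have : 0 < 2 ^ (x₀ + k0 * T) := by positivity
    omega
  obtain ⟨L, hL⟩ : ∃ L, L = Nat.log 2 n := ⟨_, rfl⟩
  have hL1 : 2 ^ L ≤ n := by
    rw [hL]
    exact Nat.pow_log_le_self 2 hn0
  have hL2 : n < 2 ^ (L + 1) := by
    rw [hL]
    exact Nat.lt_pow_succ_log_self (by norm_num) n
  have hL3 : x₀ + k0 * T ≤ L := by
    by_contra hcon
    have h1 : 2 ^ (L + 1) ≤ 2 ^ (x₀ + k0 * T) := Nat.pow_le_pow_right (by norm_num) (by omega)
    omega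
  obtain ⟨k, hk⟩ : ∃ k, k = (L - x₀) / T := ⟨_, rfl⟩
  have hk1 : k * T ≤ L - x₀ := by
    rw [hk]
    exact Nat.div_mul_le_self _ _
  have hk2 : L - x₀ < (k + 1) * T := by
    rw [hk, mul_comm]
    exact Nat.lt_mul_div_succ _ hT
  have hk3 : k0 ≤ k := by
    rw [hk, Nat.le_div_iff_mul_le hT]
    omega
  have h1 : EE μ s (2 ^ (x₀ + k * T)) ≤ EE μ s n := by
    refine EE_mono (le_trans (Nat.pow_le_pow_right (by norm_num) ?_) hL1)
    have : x₀ ≤ L := by omega
    omega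
  have h2 : Real.log n ≤ L + 1 := by
    have h3 : (n : ℝ) ≤ 2 ^ (L + 1) := by exact_mod_cast hL2.le
    have h4 : Real.log n ≤ Real.log (2 ^ (L + 1)) := Real.log_le_log (by exact_mod_cast Nat.pos_of_ne_zero hn0) h3
    rw [Real.log_pow] at h4
    have h5 : Real.log 2 ≤ 1 := by
      have := Real.log_two_lt_d9
      linarith
    have h6 : (0 : ℝ) ≤ ((L + 1 : ℕ) : ℝ) := Nat.cast_nonneg _
    have h7 : ((L + 1 : ℕ) : ℝ) * Real.log 2 ≤ ((L + 1 : ℕ) : ℝ) * 1 := mul_le_mul_of_nonneg_left h5 h6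
    push_cast at h4 h7
    linarith
  have h3 : (L : ℝ) ≤ x₀ + (k + 1) * T := by
    have h4 : L ≤ x₀ + (k + 1) * T := by omega
    exact_mod_cast h4
  have h4 := hk0 k hk3
  have h5 := mul_le_mul_of_nonneg_left ((hg k).trans h1) hδ.le
  linarith

/-- Markov's inequality. -/
theorem markov {f : Env → ℝ} (h0 : ∀ η, 0 ≤ f η) (hi : Integrable f (law μ)) {a b : ℝ} (ha : 0 < a)
    (hb : ∫ η, f η ∂(law μ) ≤ b) {E : Set Env} (hE : ∀ η ∈ E, a ≤ f η) : (law μ).real E ≤ b / a := by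
  have h1 := mul_meas_ge_le_integral_of_nonneg (μ := law μ) (Eventually.of_forall h0) hi a
  have h2 : (law μ).real E ≤ (law μ).real {η | a ≤ f η} := measureReal_mono hE (measure_ne_top _ _)
  rw [le_div_iff₀ ha]
  have h3 := mul_le_mul_of_nonneg_left h2 ha.le
  linarith

/-- The mean of the positive part of the luck. -/
theorem Vp_le (hμ : Pool.Agent.W_7d29a1_h47.EM μ) (m : ℕ) :
    ∫ η, max (V μ s η 0 m) 0 ∂(law μ) ≤ EE μ s m := by
  have hV : Integrable (fun η => V μ s η 0 m) (law μ) := (Sub_V 0 m).integrable hμ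
  have hM : Integrable (fun η => max (X μ s η 0 m (zs μ s m)) 0) (law μ) :=
    ((Sub_X (μ := μ) (s := s) 0 (zs_mem (μ := μ) (s := s) m).1 (zs_mem (μ := μ) (s := s) m).2).max (Sub.const 0)).integrable hμ
  have hpt : ∀ η, max (V μ s η 0 m) 0 ≤ V μ s η 0 m + max (X μ s η 0 m (zs μ s m)) 0 := by
    intro η
    have h3 := neg_X_le_V (μ := μ) (s := s) η 0 (zs_mem (μ := μ) (s := s) m).1 (zs_mem (μ := μ) (s := s) m).2
    have h4 : X μ s η 0 m (zs μ s m) ≤ max (X μ s η 0 m (zs μ s m)) 0 := le_max_left _ _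
    have h5 : 0 ≤ max (X μ s η 0 m (zs μ s m)) 0 := le_max_right _ _
    exact max_le (by linarith) (by linarith)
  have h6 := integral_mono (((Sub_V (μ := μ) (s := s) 0 m).max (Sub.const 0)).integrable hμ) (hV.add hM) hpt
  have h7 : ∫ η, (V μ s η 0 m + max (X μ s η 0 m (zs μ s m)) 0) ∂(law μ) =
      ∫ η, V μ s η 0 m ∂(law μ) + ep μ s m (zs μ s m) := integral_add hV hM
  have h8 := integral_V_nonpos hμ s m
  have h9 : ep μ s m (zs μ s m) ≤ EE μ s m := by
    rw [ep_zs]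
    have := le_EE (μ := μ) (s := s) (le_refl m)
    linarith
  have h10 : ∫ η, max (V μ s η 0 m) 0 ∂(law μ) ≤ ∫ η, (V μ s η 0 m + max (X μ s η 0 m (zs μ s m)) 0) ∂(law μ) := h6
  linarith

/-- The probability that the start and the glue fail. -/
theorem cheap (h : In μ s c C n₀) {σ : ℝ} (hσ : 0 < σ) (hσ0 : σ ≤ sl μ s) (hσ1 : sl μ s ≤ 1 - σ) {m : ℕ} (hm : n₀ ≤ m)
    (hm1 : 1 ≤ σ / 2 * m) (hv : vA 1 μ s m ≤ σ / 2) {y : ℤ}
    (hy : |(y : ℝ) - sl μ s * m| ≤ c * wd μ s m + 1) {e : ℝ} (he : 0 < e) :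
    (law μ).real {η | W μ s η 0 m y < Real.exp (-(C * EE μ s m / e))} ≤ e := by
  have hμ := h.em
  have hC := h.C1
  have hE := one_le_EE (μ := μ) (s := s) m
  have hm0 : (0 : ℝ) < m := by
    by_contra hcon
    push Not at hcon
    have h1 : σ / 2 * m ≤ 0 := mul_nonpos_of_nonneg_of_nonpos (by linarith) hcon
    linarith
  have hv0 := h.vA_nonneg m
  have h1 := abs_le.1 hy
  have hcw : c * wd μ s m ≤ σ / 2 * m := by
    unfold wd
    have h2 : c * vA 1 μ s m ≤ 1 * (σ / 2) := mul_le_mul h.c1 hv hv0 zero_le_one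
    calc c * (m * vA 1 μ s m) = c * vA 1 μ s m * m := by ring
      _ ≤ 1 * (σ / 2) * m := mul_le_mul_of_nonneg_right h2 hm0.le
      _ = _ := by ring
  have hs0 : σ * m ≤ sl μ s * m := mul_le_mul_of_nonneg_right hσ0 hm0.le
  have hs1 : sl μ s * m ≤ (1 - σ) * m := mul_le_mul_of_nonneg_right hσ1 hm0.le
  have hy0 : 0 ≤ y := by
    have h2 : (0 : ℝ) ≤ y := by linarith [h1.1]
    exact_mod_cast h2
  have hy1 : y ≤ (m : ℤ) := by
    have h2 : (y : ℝ) ≤ m := by linarith [h1.2]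
    exact_mod_cast h2
  have hy2 : |(y : ℝ) - sl μ s * m| ≤ c * vA 1 μ s m * m + 1 := by
    have h3 : c * vA 1 μ s m * m = c * wd μ s m := by
      unfold wd
      ring
    rw [h3]
    exact hy
  have h3 := h.inn m hm m y (by omega) hy0 hy1 hy2
  obtain ⟨A, hA⟩ : ∃ A, A = C * EE μ s m / e := ⟨_, rfl⟩
  have hA0 : 0 < A := by
    rw [hA]
    positivity
  rw [← hA]
  have h4 := markov (μ := μ) (f := fun η => max (X μ s η 0 m y) 0) (fun η => le_max_right _ _)
    (((Sub_X (μ := μ) (s := s) 0 (n := m) (y := y) hy0 hy1).max (Sub.const 0)).integrable hμ)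
    (a := A) hA0 h3
    (E := {η | W μ s η 0 m y < Real.exp (-A)}) (fun η hη => by
      have h5 : W μ s η 0 m y < Real.exp (-A) := hη
      have hpos := W_pos (μ := μ) (s := s) η 0 (n := m) (y := y) hy0 hy1
      have h6 := Real.log_lt_log hpos h5
      rw [Real.log_exp] at h6
      refine le_trans ?_ (le_max_left _ _)
      unfold X
      linarith)
  have h7 : C * EE μ s m / A = e := by
    rw [hA]
    field_simp
  rw [h7] at h4
  exact h4

/-- The luck of the block in the thin strip. -/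
theorem boxS (h : In μ s c C n₀) {a' : ℕ} (ha' : n₀ ≤ a') {m : ℕ} (hm : m ≤ a') {r N : ℝ}
    (hN : ((Win (sl μ s) r 0 m).card : ℝ) ≤ N) (hr : 2 * r < wd μ s a') {ε : ℝ} (hε : 0 < ε) :
    (law μ).real {η | N * Real.exp (C * EE μ s a' * Real.log (C / ε)) < S μ s (sl μ s) r 0 m (2 * m + a') η} ≤ ε := by
  classical
  have hμ := h.em
  have hE := EE_pos (μ := μ) (s := s) a'
  have hC0 : 0 < C := lt_of_lt_of_le one_pos h.C1
  have hCE : 0 < C * EE μ s a' := by positivity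
  obtain ⟨w, hw⟩ : ∃ w, w = wd μ s a' := ⟨_, rfl⟩
  have hl := h.luck a' ha' 0 (-(w / 2)) (by
    rw [abs_zero, zero_mul]
    have := h.c0
    positivity)
  rw [← hw] at hl hr
  obtain ⟨M, hM⟩ : ∃ M : Env → ℝ, M = fun η => Mh μ s (sl μ s) 0 w (-(w / 2)) (4 * a') η := ⟨_, rfl⟩
  have hMS : Sub M := by rw [hM]; exact Sub_Mh
  have hexpS : Sub fun η => M η / (C * EE μ s a') := by
    have := hMS.const_mul (1 / (C * EE μ s a'))
    refine (congrArg Pool.Agent.W_7d29a1_F.Sub (funext fun η => ?_)).mp this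
    ring
  -- the strip
  have hV : ∀ η : Env, ∀ b ∈ Win (sl μ s) r 0 m, V μ s η ((m : ℤ), b) (2 * m + a') ≤ M η := by
    intro η b hb
    rw [mem_Win] at hb
    have h1 := abs_le.1 hb
    have hq : ((m, b), 2 * m + a') ∈ Bx (sl μ s) w (-(w / 2)) (4 * a') := by
      rw [mem_Bx h.sl_pos.le h.sl_lt.le]
      refine ⟨?_, ?_, ?_⟩
      · show m + (2 * m + a') ≤ 4 * a'
        omega
      · show -(w / 2) < (b : ℝ) - sl μ s * (m : ℝ)
        linarith [h1.1]
      · show (b : ℝ) - sl μ s * (m : ℝ) ≤ -(w / 2) + w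
        linarith [h1.2]
    have h2 := le_Mh (μ := μ) (s := s) (v := sl μ s) (h := 0) η hq
    have h3 : T μ s (sl μ s) 0 η ((m : ℤ), b) (2 * m + a') = V μ s η ((m : ℤ), b) (2 * m + a') := by
      unfold T kap
      simp only [add_zero, sub_self, zero_mul, mul_zero]
    have h4 : T μ s (sl μ s) 0 η ((m : ℤ), b) (2 * m + a') ≤ M η := by
      rw [hM]
      exact h2
    rw [← h3]
    exact h4
  have hS : ∀ η : Env, S μ s (sl μ s) r 0 m (2 * m + a') η ≤ N * Real.exp (M η) := by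
    intro η
    have h1 : S μ s (sl μ s) r 0 m (2 * m + a') η ≤ ∑ _b ∈ Win (sl μ s) r 0 m, Real.exp (M η) := by
      unfold S
      exact Finset.sum_le_sum fun b hb => (ZR_le _ _ _ _).trans (Real.exp_le_exp.2 (hV η b hb))
    rw [Finset.sum_const, nsmul_eq_mul] at h1
    exact h1.trans (mul_le_mul_of_nonneg_right hN (Real.exp_pos _).le)
  have hmk := markov (μ := μ) (f := fun η => Real.exp (M η / (C * EE μ s a'))) (fun η => (Real.exp_pos _).le)
    (hexpS.exp_int hμ) (a := C / ε) (b := C) (by positivity) (by rw [hM]; exact hl)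
    (E := {η | N * Real.exp (C * EE μ s a' * Real.log (C / ε)) < S μ s (sl μ s) r 0 m (2 * m + a') η}) (fun η hη => by
      have h1 : N * Real.exp (C * EE μ s a' * Real.log (C / ε)) < S μ s (sl μ s) r 0 m (2 * m + a') η := hη
      have h2 := lt_of_lt_of_le h1 (hS η)
      have hN0 : 0 ≤ N := le_trans (Nat.cast_nonneg _) hN
      have h3 : Real.exp (C * EE μ s a' * Real.log (C / ε)) < Real.exp (M η) := lt_of_mul_lt_mul_left h2 hN0
      have h4 := Real.exp_lt_exp.1 h3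
      have h5 : Real.log (C / ε) < M η / (C * EE μ s a') := by
        rw [lt_div_iff₀ hCE]
        linarith
      rw [← Real.exp_log (show (0 : ℝ) < C / ε by positivity)]
      exact (Real.exp_lt_exp.2 h5).le)
  have h8 : C / (C / ε) = ε := by
    field_simp
  rw [h8] at hmk
  exact hmk

end Pool.Agent.W_7d29a1_HS
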