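import Pool.Agent.W_7d29a1_HS.FinS
import Pool.Agent.W_7d29a1_H.LamH

/-!
MP_7d29a1_pr, TRACK H, part 3: the two scales and the rate function of one tilt are regular at all scales (models
`W_7d29a1_SR.Reg`, `Reg2`, `SubH2`). (helper40)
-/

set_option autoImplicit false

namespace Pool.Agent.W_7d29a1_HS

open MeasureTheory ProbabilityTheory Filter Topology
open Pool.Agent.W_7d29a1_F Pool.Agent.W_7d29a1_h4g Pool.Agent.W_7d29a1_H
open Pool.Agent.W_7d29a1_SR (toF wid)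
open Pool.Agent.W_1b8d5d_p (Rf)

section scales

variable {μ : Measure ℝ} [IsProbabilityMeasure μ] {s c C : ℝ} {n₀ : ℕ}

/-- The unit grows at least like a power, from every scale on. -/
theorem EE_ratio (h : In μ s c C n₀) : ∃ a k : ℝ, 0 < a ∧ 0 < k ∧ ∃ n₁ : ℕ, 1 ≤ n₁ ∧ ∀ m n : ℕ, n₁ ≤ m → m ≤ n →
    k * ((n : ℝ) / m) ^ a * EE μ s m ≤ EE μ s n := by
  obtain ⟨J₀, n₁, hg⟩ := EE_grow40 h 2
  obtain ⟨J, hJ⟩ : ∃ J : ℕ, J = J₀ + 1 := ⟨_, rfl⟩
  have hJR : (0 : ℝ) < J := by rw [hJ]; positivity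
  have hL1 : 1 < 2 ^ J := Nat.one_lt_two_pow (by omega)
  have hg' : ∀ n : ℕ, n₁ ≤ n → 2 * EE μ s n ≤ EE μ s (2 ^ J * n) := fun n hn =>
    (hg n hn).trans (EE_mono (Nat.mul_le_mul_right n (Nat.pow_le_pow_right (by norm_num) (by omega))))
  have hit : ∀ i m : ℕ, n₁ ≤ m → 2 ^ i * EE μ s m ≤ EE μ s ((2 ^ J) ^ i * m) := by
    intro i m hm
    induction i with
    | zero => simp
    | succ i ih =>
      have h1 : n₁ ≤ (2 ^ J) ^ i * m := hm.trans (Nat.le_mul_of_pos_left m (by positivity))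
      have h2 := hg' _ h1
      have e : (2 ^ J) ^ (i + 1) * m = 2 ^ J * ((2 ^ J) ^ i * m) := by ring
      rw [e]
      calc (2 : ℝ) ^ (i + 1) * EE μ s m = 2 * (2 ^ i * EE μ s m) := by ring
        _ ≤ 2 * EE μ s ((2 ^ J) ^ i * m) := by linarith
        _ ≤ _ := h2
  refine ⟨1 / J, 1 / 2, by positivity, by norm_num, max n₁ 1, le_max_right _ _, fun m n hm hmn => ?_⟩
  have hm1 : 1 ≤ m := (le_max_right _ _).trans hm
  have hm2 : n₁ ≤ m := (le_max_left _ _).trans hm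
  have hmR : (0 : ℝ) < m := by exact_mod_cast hm1
  obtain ⟨q, hq⟩ : ∃ q : ℕ, q = n / m := ⟨_, rfl⟩
  have hq1 : q ≠ 0 := by
    rw [hq]
    exact (Nat.div_pos hmn hm1).ne'
  obtain ⟨i, hi⟩ : ∃ i : ℕ, i = Nat.log (2 ^ J) q := ⟨_, rfl⟩
  have h1 : (2 ^ J) ^ i ≤ q := by rw [hi]; exact Nat.pow_log_le_self _ hq1
  have h2 : q < (2 ^ J) ^ (i + 1) := by rw [hi]; exact Nat.lt_pow_succ_log_self hL1 q
  have h3 : (2 ^ J) ^ i * m ≤ n := (Nat.mul_le_mul_right m h1).trans (by rw [hq]; exact Nat.div_mul_le_self n m)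
  have h4 : (n : ℝ) / m ≤ ((2 ^ J) ^ (i + 1) : ℕ) := by
    rw [div_le_iff₀ hmR]
    have h5 : n < (q + 1) * m := by
      rw [hq]
      have := Nat.lt_div_mul_add (a := n) (b := m) hm1
      calc n < n / m * m + m := this
        _ = (n / m + 1) * m := by ring
    have h6 : (q + 1) * m ≤ (2 ^ J) ^ (i + 1) * m := Nat.mul_le_mul_right m h2
    exact_mod_cast (h5.le.trans h6)
  have h5 : ((n : ℝ) / m) ^ (1 / (J : ℝ)) ≤ 2 ^ (i + 1) := by
    have h6 := Real.rpow_le_rpow (by positivity) h4 (show 0 ≤ 1 / (J : ℝ) by positivity)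
    refine h6.trans (le_of_eq ?_)
    push_cast
    rw [← pow_mul, ← Real.rpow_natCast, ← Real.rpow_mul (by norm_num), ← Real.rpow_natCast]
    congr 1
    push_cast
    field_simp
  have hE := lt_of_lt_of_le one_pos (one_le_EE (μ := μ) (s := s) m)
  have h6 := hit i m hm2
  calc 1 / 2 * ((n : ℝ) / m) ^ (1 / (J : ℝ)) * EE μ s m ≤ 1 / 2 * 2 ^ (i + 1) * EE μ s m :=
        mul_le_mul_of_nonneg_right (mul_le_mul_of_nonneg_left h5 (by norm_num)) hE.le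
    _ = 2 ^ i * EE μ s m := by ring
    _ ≤ EE μ s ((2 ^ J) ^ i * m) := h6
    _ ≤ EE μ s n := EE_mono h3

/-- The width grows at least like a power, from every scale on. -/
theorem wd_ratio (h : In μ s c C n₀) : ∃ a k : ℝ, 0 < a ∧ 0 < k ∧ ∃ n₁ : ℕ, 1 ≤ n₁ ∧ ∀ m n : ℕ, n₁ ≤ m → m ≤ n →
    k * ((n : ℝ) / m) ^ a * wd μ s m ≤ wd μ s n := by
  obtain ⟨a, k, ha, hk, n₁, hn1, hE⟩ := EE_ratio h
  obtain ⟨n₂, hw⟩ := wd_growth h
  obtain ⟨n₃, hp⟩ := eventually_atTop.1 ((wd_tendsto h).eventually_ge_atTop 1)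
  refine ⟨a, k / 2, ha, by positivity, max n₁ (max n₂ n₃), hn1.trans (le_max_left _ _), fun m n hm hmn => ?_⟩
  have h1 := hE m n ((le_max_left _ _).trans hm) hmn
  have h2 := hw m n ((le_max_left _ _).trans ((le_max_right _ _).trans hm)) hmn
  have h3 := hp m ((le_max_right _ _).trans ((le_max_right _ _).trans hm))
  have hE0 := lt_of_lt_of_le one_pos (one_le_EE (μ := μ) (s := s) m)
  have h4 := mul_le_mul_of_nonneg_left h1 (show 0 ≤ wd μ s m by linarith)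
  refine le_of_mul_le_mul_left ?_ (show 0 < 2 * EE μ s m by positivity)
  calc 2 * EE μ s m * (k / 2 * ((n : ℝ) / m) ^ a * wd μ s m) = wd μ s m * (k * ((n : ℝ) / m) ^ a * EE μ s m) := by ring
    _ ≤ wd μ s m * EE μ s n := h4
    _ ≤ 2 * EE μ s m * wd μ s n := h2

/-- The unit grows at most like the square root, on every stretch. -/
theorem sub_rpow (h : In μ s c C n₀) : ∃ A₀ : ℝ, 0 < A₀ ∧ ∃ n₁ : ℕ, 1 ≤ n₁ ∧ ∀ m n : ℕ, n₁ ≤ m → m ≤ n →
    EE μ s n ≤ A₀ * ((n : ℝ) / m) ^ (1 / 2 : ℝ) * EE μ s m := by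
  obtain ⟨K, x₀, hK⟩ := h.half
  refine ⟨2 * (2 : ℝ) ^ K, by positivity, 2 ^ x₀, Nat.one_le_two_pow, fun m n hm hmn => ?_⟩
  have hpx : 0 < 2 ^ x₀ := by positivity
  have hm0 : m ≠ 0 := by omega
  have hn0 : n ≠ 0 := by omega
  have hmR : (0 : ℝ) < m := by exact_mod_cast Nat.pos_of_ne_zero hm0
  have hnR : (0 : ℝ) < n := by exact_mod_cast Nat.pos_of_ne_zero hn0
  obtain ⟨x, hx⟩ : ∃ x : ℕ, x = Nat.log 2 m := ⟨_, rfl⟩
  obtain ⟨y, hy⟩ : ∃ y : ℕ, y = Nat.log 2 n := ⟨_, rfl⟩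
  have hx1 : 2 ^ x ≤ m := by rw [hx]; exact Nat.pow_log_le_self 2 hm0
  have hx2 : m < 2 ^ (x + 1) := by rw [hx]; exact Nat.lt_pow_succ_log_self (by norm_num) m
  have hy1 : 2 ^ y ≤ n := by rw [hy]; exact Nat.pow_log_le_self 2 hn0
  have hy2 : n < 2 ^ (y + 1) := by rw [hy]; exact Nat.lt_pow_succ_log_self (by norm_num) n
  have hxy : x ≤ y := by rw [hx, hy]; exact Nat.log_mono_right hmn
  have hx3 : x₀ ≤ x := by
    by_contra hcon
    have h4 : 2 ^ (x + 1) ≤ 2 ^ x₀ := Nat.pow_le_pow_right (by norm_num) (by omega)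
    omega
  have h1 := hK x (y + 1 - x) hx3
  rw [show x + (y + 1 - x) = y + 1 by omega, Nat.cast_sub (by omega)] at h1
  push_cast at h1
  have e1 : ∀ z : ℕ, (2 : ℝ) ^ (gg μ s z) = EE μ s (2 ^ z) := fun z => by
    unfold gg
    exact Real.rpow_logb (by norm_num) (by norm_num) (EE_pos _)
  have h2 := Real.rpow_le_rpow_of_exponent_le (x := 2) (by norm_num) h1
  rw [e1, Real.rpow_add (by norm_num), Real.rpow_add (by norm_num), e1] at h2
  have h3 : (2 : ℝ) ^ (((y : ℝ) + 1 - x) / 2) ≤ 2 * ((n : ℝ) / m) ^ (1 / 2 : ℝ) := by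
    have e2 : (2 : ℝ) ^ (((y : ℝ) + 1 - x) / 2) = ((2 : ℝ) ^ ((y : ℝ) + 1 - x)) ^ (1 / 2 : ℝ) := by
      rw [← Real.rpow_mul (by norm_num)]
      congr 1
      ring
    have e3 : (2 : ℝ) * ((n : ℝ) / m) ^ (1 / 2 : ℝ) = (4 * ((n : ℝ) / m)) ^ (1 / 2 : ℝ) := by
      rw [Real.mul_rpow (by norm_num) (by positivity)]
      congr 1
      rw [show (4 : ℝ) = 2 ^ (2 : ℝ) by norm_num, ← Real.rpow_mul (by norm_num)]
      norm_num
    rw [e2, e3]
    refine Real.rpow_le_rpow (Real.rpow_nonneg (by norm_num) _) ?_ (by norm_num)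
    have e4 : (2 : ℝ) ^ ((y : ℝ) + 1 - x) = 2 * (2 : ℝ) ^ y / (2 : ℝ) ^ x := by
      rw [Real.rpow_sub (by norm_num), Real.rpow_add (by norm_num), Real.rpow_one, Real.rpow_natCast, Real.rpow_natCast]
      ring
    rw [e4, div_le_iff₀ (by positivity)]
    have e5 : (2 : ℝ) ^ y ≤ n := by exact_mod_cast hy1
    have e6 : (m : ℝ) ≤ 2 * (2 : ℝ) ^ x := by
      have : (m : ℝ) ≤ (2 : ℝ) ^ (x + 1) := by exact_mod_cast hx2.le
      rw [pow_succ] at this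
      linarith
    calc 2 * (2 : ℝ) ^ y ≤ 2 * n := by linarith
      _ = 2 * ((n : ℝ) / m) * m := by field_simp
      _ ≤ 2 * ((n : ℝ) / m) * (2 * (2 : ℝ) ^ x) := mul_le_mul_of_nonneg_left e6 (by positivity)
      _ = 4 * ((n : ℝ) / m) * (2 : ℝ) ^ x := by ring
  have h4 : EE μ s n ≤ EE μ s (2 ^ (y + 1)) := EE_mono hy2.le
  have h5 : EE μ s (2 ^ x) ≤ EE μ s m := EE_mono hx1
  have h6 := EE_pos (μ := μ) (s := s) (2 ^ x)
  have h7 : 0 ≤ ((n : ℝ) / m) ^ (1 / 2 : ℝ) := by positivity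
  have h8 : 0 < (2 : ℝ) ^ K := by positivity
  calc EE μ s n ≤ EE μ s (2 ^ x) * (2 : ℝ) ^ (((y : ℝ) + 1 - x) / 2) * (2 : ℝ) ^ K := h4.trans h2
    _ ≤ EE μ s m * (2 * ((n : ℝ) / m) ^ (1 / 2 : ℝ)) * (2 : ℝ) ^ K :=
        mul_le_mul_of_nonneg_right (mul_le_mul h5 h3 (Real.rpow_nonneg (by norm_num) _) (by linarith)) h8.le
    _ = _ := by ring

/-- Iteration of the closing of the cone. -/
theorem cone_iter (h : In μ s c C n₀) : ∃ (a b : ℝ) (x₁ : ℕ), 0 < a ∧ ∀ x j : ℕ, x₁ ≤ x →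
    ff 1 μ s x + a * j - b ≤ ff 1 μ s (x + j) := by
  obtain ⟨L, x₁, δ, hδ, hL, hc⟩ := h.cone
  have hmono : ∀ x y : ℕ, x ≤ y → ff 1 μ s x - 1 ≤ ff 1 μ s y := by
    intro x y hxy
    have h1 := vA_le_two h (m := 2 ^ x) (n := 2 ^ y) Nat.one_le_two_pow (Nat.pow_le_pow_right (by norm_num) hxy)
    have p1 := h.vA_pos (n := 2 ^ x) Nat.one_le_two_pow
    have p2 := h.vA_pos (n := 2 ^ y) Nat.one_le_two_pow
    have h2 := Real.logb_le_logb_of_le one_lt_two p2 h1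
    rw [Real.logb_mul (by norm_num) p1.ne', Real.logb_self_eq_one one_lt_two] at h2
    unfold ff
    linarith
  have hLR : (0 : ℝ) < L := by exact_mod_cast hL
  refine ⟨δ / L, δ + 1, x₁, by positivity, fun x j hx => ?_⟩
  have h1 : ∀ k : ℕ, ff 1 μ s x + δ * k ≤ ff 1 μ s (x + k * L) := by
    intro k
    induction k with
    | zero => simp
    | succ k ih =>
      have h2 := hc (x + k * L) (by omega)
      have h3 : x + k * L + L = x + (k + 1) * L := by ring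
      rw [h3] at h2
      push_cast
      linarith
  have h2 := h1 (j / L)
  have h3 : ff 1 μ s (x + j / L * L) - 1 ≤ ff 1 μ s (x + j) := hmono _ _ (by
    have := Nat.div_mul_le_self j L
    omega)
  have h4 : (j : ℝ) / L ≤ ((j / L : ℕ) : ℝ) + 1 := by
    rw [div_le_iff₀ hLR]
    have h5 : j < L * (j / L + 1) := Nat.lt_mul_div_succ j hL
    have h6 : (j : ℝ) ≤ L * (((j / L : ℕ) : ℝ) + 1) := by exact_mod_cast h5.le
    linarith
  have h5 : δ / L * j = δ * ((j : ℝ) / L) := by ring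
  have h6 := mul_le_mul_of_nonneg_left h4 hδ.le
  rw [h5]
  linarith

/-- The slope of the cone decreases like a power on every stretch. -/
theorem vA_pow (h : In μ s c C n₀) : ∃ (K a : ℝ) (n₁ : ℕ), 0 < K ∧ 0 < a ∧ 1 ≤ n₁ ∧ ∀ m n : ℕ, n₁ ≤ m → m ≤ n →
    vA 1 μ s n ≤ K * ((m : ℝ) / n) ^ a * vA 1 μ s m := by
  obtain ⟨a, b, x₁, ha, hc⟩ := cone_iter h
  obtain ⟨B, hB⟩ : ∃ B : ℝ, B = |b| := ⟨_, rfl⟩
  have hbB : b ≤ B := by rw [hB]; exact le_abs_self b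
  have hB0 : 0 ≤ B := by rw [hB]; exact abs_nonneg b
  refine ⟨4 * (2 : ℝ) ^ (B + 2 * a), a, 2 * 2 ^ x₁ + 1, by positivity, ha, by omega, fun m n hm hmn => ?_⟩
  have hm0 : m ≠ 0 := by omega
  have hn0 : n ≠ 0 := by omega
  have hmR : (0 : ℝ) < m := by exact_mod_cast Nat.pos_of_ne_zero hm0
  have hnR : (0 : ℝ) < n := by exact_mod_cast Nat.pos_of_ne_zero hn0
  obtain ⟨x, hx⟩ : ∃ x : ℕ, x = Nat.log 2 m := ⟨_, rfl⟩
  obtain ⟨y, hy⟩ : ∃ y : ℕ, y = Nat.log 2 n := ⟨_, rfl⟩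
  have hx1 : 2 ^ x ≤ m := by rw [hx]; exact Nat.pow_log_le_self 2 hm0
  have hx2 : m < 2 ^ (x + 1) := by rw [hx]; exact Nat.lt_pow_succ_log_self (by norm_num) m
  have hy1 : 2 ^ y ≤ n := by rw [hy]; exact Nat.pow_log_le_self 2 hn0
  have hy2 : n < 2 ^ (y + 1) := by rw [hy]; exact Nat.lt_pow_succ_log_self (by norm_num) n
  have hxy : x ≤ y := by rw [hx, hy]; exact Nat.log_mono_right hmn
  have hx4 : x₁ ≤ x := by
    have h2 : 2 ^ x₁ < 2 ^ (x + 1) := by omega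
    have := (Nat.pow_lt_pow_iff_right (by norm_num : 1 < 2)).1 h2
    omega
  have hvm := h.vA_pos (n := m) (by omega)
  -- `2 ^ (- a (y - x))` against `(m / n) ^ a`
  have hratio : (2 : ℝ) ^ (-(a * ((y : ℝ) - x))) ≤ (2 : ℝ) ^ a * ((m : ℝ) / n) ^ a := by
    rw [← Real.mul_rpow (by norm_num) (by positivity)]
    have h1 : (2 : ℝ) ^ (-((y : ℝ) - x)) ≤ 2 * ((m : ℝ) / n) := by
      have e1 : (2 : ℝ) ^ (-((y : ℝ) - x)) = (2 : ℝ) ^ x / (2 : ℝ) ^ y := by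
        rw [neg_sub, Real.rpow_sub (by norm_num), Real.rpow_natCast, Real.rpow_natCast]
      rw [e1, div_le_iff₀ (by positivity)]
      have e2 : (2 : ℝ) ^ x ≤ m := by exact_mod_cast hx1
      have e3 : (n : ℝ) ≤ 2 * (2 : ℝ) ^ y := by
        have : (n : ℝ) ≤ (2 : ℝ) ^ (y + 1) := by exact_mod_cast hy2.le
        rw [pow_succ] at this
        linarith
      calc (2 : ℝ) ^ x ≤ m := e2
        _ = (m : ℝ) / n * n := by field_simp
        _ ≤ (m : ℝ) / n * (2 * (2 : ℝ) ^ y) := mul_le_mul_of_nonneg_left e3 (by positivity)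
        _ = 2 * ((m : ℝ) / n) * (2 : ℝ) ^ y := by ring
    have h2 := Real.rpow_le_rpow (Real.rpow_nonneg (by norm_num) _) h1 ha.le
    refine le_trans (le_of_eq ?_) h2
    rw [← Real.rpow_mul (by norm_num)]
    congr 1
    ring
  have hlast : 4 * (2 : ℝ) ^ (B + a) * (2 : ℝ) ^ (-(a * ((y : ℝ) - x))) * vA 1 μ s m ≤
      4 * (2 : ℝ) ^ (B + 2 * a) * ((m : ℝ) / n) ^ a * vA 1 μ s m := by
    refine mul_le_mul_of_nonneg_right ?_ hvm.le
    have e1 : 4 * (2 : ℝ) ^ (B + 2 * a) * ((m : ℝ) / n) ^ a = 4 * (2 : ℝ) ^ (B + a) * ((2 : ℝ) ^ a * ((m : ℝ) / n) ^ a) := by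
      have : B + 2 * a = (B + a) + a := by ring
      rw [this, Real.rpow_add (by norm_num)]
      ring
    rw [e1]
    exact mul_le_mul_of_nonneg_left hratio (by positivity)
  refine le_trans ?_ hlast
  have two_ff : ∀ z : ℕ, (2 : ℝ) ^ (-ff 1 μ s z) = vA 1 μ s (2 ^ z) := fun z => by
    unfold ff
    rw [neg_neg]
    exact Real.rpow_logb (by norm_num) (by norm_num) (h.vA_pos Nat.one_le_two_pow)
  rcases hxy.eq_or_lt with hxy' | hxy'
  · have h1 := vA_le_two h (show 1 ≤ m by omega) hmn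
    have e1 : (2 : ℝ) ^ (-(a * ((y : ℝ) - x))) = 1 := by
      rw [← hxy']
      simp
    rw [e1, mul_one]
    have e2 : (1 : ℝ) ≤ (2 : ℝ) ^ (B + a) := Real.one_le_rpow (by norm_num) (by linarith)
    nlinarith
  · have h1 := vA_le_two h (m := 2 ^ y) (n := n) Nat.one_le_two_pow hy1
    have h2 := vA_le_two h (m := m) (n := 2 ^ (x + 1)) (by omega) hx2.le
    have h3 := hc (x + 1) (y - (x + 1)) (by omega)
    have e1 : x + 1 + (y - (x + 1)) = y := by omega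
    rw [e1, Nat.cast_sub (by omega)] at h3
    push_cast at h3
    have h4 : vA 1 μ s (2 ^ y) ≤ (2 : ℝ) ^ (B + a) * (2 : ℝ) ^ (-(a * ((y : ℝ) - x))) * vA 1 μ s (2 ^ (x + 1)) := by
      rw [← two_ff y, ← two_ff (x + 1), ← Real.rpow_add (by norm_num), ← Real.rpow_add (by norm_num)]
      refine Real.rpow_le_rpow_of_exponent_le (by norm_num) ?_
      linarith
    have h5 : 0 ≤ (2 : ℝ) ^ (B + a) * (2 : ℝ) ^ (-(a * ((y : ℝ) - x))) := by positivity
    calc vA 1 μ s n ≤ 2 * vA 1 μ s (2 ^ y) := h1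
      _ ≤ 2 * ((2 : ℝ) ^ (B + a) * (2 : ℝ) ^ (-(a * ((y : ℝ) - x))) * vA 1 μ s (2 ^ (x + 1))) :=
          mul_le_mul_of_nonneg_left h4 (by norm_num)
      _ ≤ 2 * ((2 : ℝ) ^ (B + a) * (2 : ℝ) ^ (-(a * ((y : ℝ) - x))) * (2 * vA 1 μ s m)) :=
          mul_le_mul_of_nonneg_left (mul_le_mul_of_nonneg_left h2 h5) (by norm_num)
      _ = _ := by ring

/-- The width grows at most like `n ^ (1 - a)` on every stretch. -/
theorem wd_pow (h : In μ s c C n₀) : ∃ (K a : ℝ) (n₁ : ℕ), 0 < K ∧ 0 < a ∧ 1 ≤ n₁ ∧ ∀ m n : ℕ, n₁ ≤ m → m ≤ n →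
    wd μ s n ≤ K * ((n : ℝ) / m) ^ (1 - a) * wd μ s m := by
  obtain ⟨K, a, n₁, hK, ha, hn1, hv⟩ := vA_pow h
  refine ⟨K, a, n₁, hK, ha, hn1, fun m n hm hmn => ?_⟩
  have hmR : (0 : ℝ) < m := by exact_mod_cast (by omega : 0 < m)
  have hnR : (0 : ℝ) < n := by exact_mod_cast (by omega : 0 < n)
  have h1 := mul_le_mul_of_nonneg_left (hv m n hm hmn) hnR.le
  unfold wd
  refine h1.trans (le_of_eq ?_)
  have e1 : ((n : ℝ) / m) ^ (1 - a) = (n : ℝ) / m * ((m : ℝ) / n) ^ a := by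
    rw [Real.rpow_sub (by positivity), Real.rpow_one, ← inv_div (n : ℝ) (m : ℝ), Real.inv_rpow (by positivity)]
    ring
  rw [e1]
  field_simp

/-- **The rate function grows at every scale at least like a power larger than `1` and at most like a power**, on both sides. -/
theorem J_reg (h : In μ s c C n₀) : ∃ a K : ℝ, 0 < a ∧ 1 ≤ K ∧ ∀ x R : ℝ, 1 ≤ R → |R * x| ≤ a →
    a * R ^ (1 + a) * J μ s x ≤ J μ s (R * x) ∧ J μ s (R * x) ≤ K * R ^ K * J μ s x := by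
  obtain ⟨ρ, δ₁, hρ, hρ1, hδ₁, hsup⟩ := h.sup
  obtain ⟨D, δ₂, hD, hδ₂, hsym⟩ := h.sym
  have hD0 : 0 < D := by linarith
  have hrf := h.rf
  -- the exponents
  obtain ⟨e, he⟩ : ∃ e : ℝ, e = Real.logb 2 (1 / ρ) := ⟨_, rfl⟩
  have hρ2 : 1 < 1 / ρ := by rw [lt_div_iff₀ hρ]; linarith
  have he0 : 0 < e := by rw [he]; exact Real.logb_pos (by norm_num) hρ2
  have he2 : (2 : ℝ) ^ e = 1 / ρ := by rw [he]; exact Real.rpow_logb (by norm_num) (by norm_num) (by positivity)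
  obtain ⟨g, hg⟩ : ∃ g : ℝ, g = Real.logb 2 D := ⟨_, rfl⟩
  have hg0 : 0 ≤ g := by rw [hg]; exact Real.logb_nonneg (by norm_num) hD
  have hg2 : (2 : ℝ) ^ g = D := by rw [hg]; exact Real.rpow_logb (by norm_num) (by norm_num) hD0
  obtain ⟨a, ha⟩ : ∃ a : ℝ, a = min (min e ((1 / 2) ^ (1 + e))) (min δ₁ δ₂) := ⟨_, rfl⟩
  have ha0 : 0 < a := by rw [ha]; positivity
  have l1 : a ≤ e := by rw [ha]; exact (min_le_left _ _).trans (min_le_left _ _)
  have l2 : a ≤ (1 / 2) ^ (1 + e) := by rw [ha]; exact (min_le_left _ _).trans (min_le_right _ _)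
  have l3 : a ≤ δ₁ := by rw [ha]; exact (min_le_right _ _).trans (min_le_left _ _)
  have l4 : a ≤ δ₂ := by rw [ha]; exact (min_le_right _ _).trans (min_le_right _ _)
  refine ⟨a, max D g, ha0, hD.trans (le_max_left _ _), fun x R hR hRx => ?_⟩
  have hR0 : 0 < R := by linarith
  have hJx : 0 ≤ J μ s x := hrf.nn x
  -- the number of doublings
  obtain ⟨i, hi⟩ : ∃ i : ℕ, i = ⌊Real.logb 2 R⌋₊ := ⟨_, rfl⟩
  have hlR : 0 ≤ Real.logb 2 R := Real.logb_nonneg (by norm_num) hR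
  have h2R : (2 : ℝ) ^ Real.logb 2 R = R := Real.rpow_logb (by norm_num) (by norm_num) hR0
  have hi1 : (i : ℝ) ≤ Real.logb 2 R := by rw [hi]; exact Nat.floor_le hlR
  have hi2 : Real.logb 2 R ≤ i + 1 := by rw [hi]; exact (Nat.lt_floor_add_one _).le
  have h1 : (2 : ℝ) ^ i ≤ R := by
    calc (2 : ℝ) ^ i = (2 : ℝ) ^ (i : ℝ) := (Real.rpow_natCast _ _).symm
      _ ≤ (2 : ℝ) ^ Real.logb 2 R := Real.rpow_le_rpow_of_exponent_le (by norm_num) hi1
      _ = R := h2R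
  have h2 : R ≤ 2 * 2 ^ i := by
    calc R = (2 : ℝ) ^ Real.logb 2 R := h2R.symm
      _ ≤ (2 : ℝ) ^ ((i : ℝ) + 1) := Real.rpow_le_rpow_of_exponent_le (by norm_num) hi2
      _ = 2 * 2 ^ i := by rw [Real.rpow_add (by norm_num), Real.rpow_natCast, Real.rpow_one, mul_comm]
  have hRx' : R * |x| ≤ a := by rwa [abs_mul, abs_of_pos hR0] at hRx
  have hsm : ∀ k : ℕ, k ≤ i → |(2 : ℝ) ^ k * x| ≤ a := by
    intro k hk
    rw [abs_mul, abs_of_pos (by positivity : (0 : ℝ) < 2 ^ k)]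
    refine le_trans (mul_le_mul_of_nonneg_right ?_ (abs_nonneg x)) hRx'
    exact (pow_le_pow_right₀ (by norm_num) hk).trans h1
  constructor
  · have hit : ∀ k : ℕ, k ≤ i → (2 / ρ) ^ k * J μ s x ≤ J μ s (2 ^ k * x) := by
      intro k
      induction k with
      | zero => intro _; simp
      | succ k ih =>
        intro hk
        have h3 := ih (by omega)
        have h4 := hsup (2 ^ (k + 1) * x) ((hsm (k + 1) hk).trans l3)
        have e1 : (2 : ℝ) ^ (k + 1) * x / 2 = 2 ^ k * x := by ring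
        rw [e1] at h4
        have h5 : 2 / ρ * J μ s (2 ^ k * x) ≤ J μ s (2 ^ (k + 1) * x) := by
          rw [div_mul_eq_mul_div, div_le_iff₀ hρ]
          linarith
        calc (2 / ρ) ^ (k + 1) * J μ s x = 2 / ρ * ((2 / ρ) ^ k * J μ s x) := by ring
          _ ≤ 2 / ρ * J μ s (2 ^ k * x) := mul_le_mul_of_nonneg_left h3 (by positivity)
          _ ≤ _ := h5
    have h3 := hit i le_rfl
    have h4 : J μ s (2 ^ i * x) ≤ J μ s (R * x) := by
      have h5 : 1 ≤ R / 2 ^ i := by rw [le_div_iff₀ (by positivity), one_mul]; exact h1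
      have h6 := hrf.le_mul h5 (2 ^ i * x)
      have e1 : R / 2 ^ i * (2 ^ i * x) = R * x := by field_simp
      rw [e1] at h6
      have h7 := hrf.nn (2 ^ i * x)
      exact (le_mul_of_one_le_left h7 h5).trans h6
    have h5 : (2 / ρ) ^ i = ((2 : ℝ) ^ i) ^ (1 + e) := by
      have e1 : (2 : ℝ) / ρ = (2 : ℝ) ^ (1 + e) := by
        rw [Real.rpow_add (by norm_num), Real.rpow_one, he2]
        ring
      rw [e1, ← Real.rpow_natCast ((2 : ℝ) ^ (1 + e)) i, ← Real.rpow_mul (by norm_num), ← Real.rpow_natCast 2 i,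
        ← Real.rpow_mul (by norm_num)]
      congr 1
      ring
    have h6 : (1 / 2 * R) ^ (1 + e) ≤ ((2 : ℝ) ^ i) ^ (1 + e) :=
      Real.rpow_le_rpow (by positivity) (by linarith) (by positivity)
    rw [Real.mul_rpow (by norm_num) hR0.le] at h6
    have h7 : a * R ^ (1 + a) ≤ (1 / 2) ^ (1 + e) * R ^ (1 + e) :=
      mul_le_mul l2 (Real.rpow_le_rpow_of_exponent_le hR (by linarith)) (Real.rpow_nonneg hR0.le _) (by positivity)
    calc a * R ^ (1 + a) * J μ s x ≤ (2 / ρ) ^ i * J μ s x := by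
          rw [h5]
          exact mul_le_mul_of_nonneg_right (h7.trans h6) hJx
      _ ≤ J μ s (2 ^ i * x) := h3
      _ ≤ _ := h4
  · have hit : ∀ k : ℕ, k ≤ i + 1 → J μ s (2 ^ k * x) ≤ D ^ k * J μ s x := by
      intro k
      induction k with
      | zero => intro _; simp
      | succ k ih =>
        intro hk
        have h3 := ih (by omega)
        have h4 := (hsym (2 ^ k * x) ((hsm k (by omega)).trans l4)).1
        calc J μ s (2 ^ (k + 1) * x) = J μ s (2 * (2 ^ k * x)) := by congr 1; ring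
          _ ≤ D * J μ s (2 ^ k * x) := h4
          _ ≤ D * (D ^ k * J μ s x) := mul_le_mul_of_nonneg_left h3 hD0.le
          _ = D ^ (k + 1) * J μ s x := by ring
    have h3 := hit (i + 1) le_rfl
    have h4 : J μ s (R * x) ≤ J μ s (2 ^ (i + 1) * x) := by
      have h5 : 1 ≤ 2 ^ (i + 1) / R := by
        rw [le_div_iff₀ hR0, one_mul, pow_succ]
        linarith
      have h6 := hrf.le_mul h5 (R * x)
      have e1 : 2 ^ (i + 1) / R * (R * x) = 2 ^ (i + 1) * x := by field_simp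
      rw [e1] at h6
      have h7 := hrf.nn (R * x)
      exact (le_mul_of_one_le_left h7 h5).trans h6
    have h5 : D ^ (i + 1) ≤ D * R ^ g := by
      have e1 : D ^ i = ((2 : ℝ) ^ i) ^ g := by
        rw [← Real.rpow_natCast 2 i, ← Real.rpow_mul (by norm_num), mul_comm, Real.rpow_mul (by norm_num), hg2,
          Real.rpow_natCast]
      rw [pow_succ, mul_comm, e1]
      exact mul_le_mul_of_nonneg_left (Real.rpow_le_rpow (by positivity) h1 hg0) hD0.le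
    have h6 : R ^ g ≤ R ^ max D g := Real.rpow_le_rpow_of_exponent_le hR (le_max_right _ _)
    calc J μ s (R * x) ≤ D ^ (i + 1) * J μ s x := h4.trans h3
      _ ≤ D * R ^ g * J μ s x := mul_le_mul_of_nonneg_right h5 hJx
      _ ≤ max D g * R ^ max D g * J μ s x :=
          mul_le_mul_of_nonneg_right (mul_le_mul (le_max_left _ _) h6 (Real.rpow_nonneg hR0.le _) (by positivity)) hJx

/-- **The rate function is superlinear at `0`**, with a power, uniformly for bounded tilts. -/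
theorem J_le_pow (hμ : Pool.Agent.W_7d29a1_h47.EM μ) (hnd : Pool.Agent.W_7d29a1_h47.Nondeg μ) (H : ℝ) :
    ∃ K : ℝ, 0 < K ∧ ∀ s : ℝ, |s| ≤ H → ∀ x : ℝ, J μ s x ≤ K * |x| ^ (1 + 1 / 99 : ℝ) := by
  obtain ⟨c, hc, hp⟩ := ex_power hμ hnd H
  refine ⟨(1 / c) ^ (1 / 99 : ℝ), by positivity, fun s hs x => J_le fun r hr => ?_⟩
  have h0 := abs_nonneg x
  have hr0 := abs_nonneg r
  have h1 : r * x ≤ |r| * |x| := (le_abs_self _).trans (abs_mul r x).le
  have h2 := hp s hs r hr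
  have hx0 : 0 ≤ (1 / c) ^ (1 / 99 : ℝ) * |x| ^ (1 + 1 / 99 : ℝ) := by positivity
  rcases eq_or_lt_of_le h0 with hx | hx
  · rw [← hx, mul_zero] at h1
    have h3 : 0 ≤ c * |r| ^ 100 := mul_nonneg hc.le (pow_nonneg hr0 _)
    linarith
  have e1 : (1 / c) ^ (1 / 99 : ℝ) * |x| ^ (1 + 1 / 99 : ℝ) = (|x| / c) ^ (1 / 99 : ℝ) * |x| := by
    rw [Real.rpow_add hx, Real.rpow_one, Real.div_rpow h0 hc.le, Real.div_rpow zero_le_one hc.le, Real.one_rpow]
    ring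
  rw [e1]
  obtain ⟨t, ht⟩ : ∃ t : ℝ, t = (|x| / c) ^ (1 / 99 : ℝ) := ⟨_, rfl⟩
  have ht0 : 0 < t := by rw [ht]; positivity
  have ht99 : t ^ 99 = |x| / c := by
    rw [ht, ← Real.rpow_natCast, ← Real.rpow_mul (by positivity)]
    norm_num
  rw [← ht]
  rcases le_total |r| t with hrt | hrt
  · have h3 : 0 ≤ c * |r| ^ 100 := mul_nonneg hc.le (pow_nonneg hr0 _)
    have h4 := mul_le_mul_of_nonneg_right hrt h0
    linarith
  · have h3 : t ^ 99 ≤ |r| ^ 99 := pow_le_pow_left₀ ht0.le hrt 99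
    have h4 : |r| * |x| ≤ c * |r| ^ 100 := by
      have e2 : |x| = c * t ^ 99 := by rw [ht99]; field_simp
      calc |r| * |x| = |r| * (c * t ^ 99) := by rw [← e2]
        _ ≤ |r| * (c * |r| ^ 99) := mul_le_mul_of_nonneg_left (mul_le_mul_of_nonneg_left h3 hc.le) hr0
        _ = c * |r| ^ 100 := by ring
    have h5 : 0 ≤ t * |x| := by positivity
    linarith

end scales

section law

variable {Ω : Type*} [MeasurableSpace Ω] {P : Measure Ω} [IsProbabilityMeasure P] {ω : ℕ × ℤ → Ω → ℝ} {β : ℝ}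
  {μ : Measure ℝ} [IsProbabilityMeasure μ] {h c C : ℝ} {n₀ : ℕ}

/-- The deviation and the width are regular at all scales. -/
theorem regP (hI : In μ (2 * h) c C n₀) (hmp : MeasurePreserving (fun x => toF β fun p => ω p x) P (law μ)) :
    ∃ c' C' : ℝ, 0 < c' ∧ 0 < C' ∧ ∃ n₁ : ℕ, 1 ≤ n₁ ∧ ∀ m n : ℕ, n₁ ≤ m → m ≤ n →
      c' * ((n : ℝ) / m) ^ c' * sgm P β h ω m ≤ sgm P β h ω n ∧
      sgm P β h ω n ≤ C' * ((n : ℝ) / m) ^ (1 / 2 : ℝ) * sgm P β h ω m ∧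
      c' * ((n : ℝ) / m) ^ c' * wth P β h ω (fun v => J μ (2 * h) (v / 2)) m ≤ wth P β h ω (fun v => J μ (2 * h) (v / 2)) n ∧
      wth P β h ω (fun v => J μ (2 * h) (v / 2)) n ≤
        C' * ((n : ℝ) / m) ^ (1 - c') * wth P β h ω (fun v => J μ (2 * h) (v / 2)) m := by
  obtain ⟨A₀, hA₀, n₂, hn₂, hsub⟩ := sub_rpow hI
  obtain ⟨a, A, b, B, ha, hA, hb, hB, n₃, hn₃, hsc⟩ := scales (P := P) (β := β) (ω := ω) hI hmp
  obtain ⟨a₁, k₁, ha₁, hk₁, n₄, hn₄, hE⟩ := EE_ratio hI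
  obtain ⟨a₂, k₂, ha₂, hk₂, n₅, hn₅, hW⟩ := wd_ratio hI
  obtain ⟨K, a₃, n₆, hK, ha₃, hn₆, hV⟩ := wd_pow hI
  obtain ⟨c', hc'⟩ : ∃ c' : ℝ, c' = min (min (min a₁ a₂) a₃) (min (a * k₁ / A) (b * k₂ / B)) := ⟨_, rfl⟩
  have k0 : 0 < c' := by rw [hc']; positivity
  have k1 : c' ≤ a₁ := by rw [hc']; exact (min_le_left _ _).trans ((min_le_left _ _).trans (min_le_left _ _))
  have k2 : c' ≤ a₂ := by rw [hc']; exact (min_le_left _ _).trans ((min_le_left _ _).trans (min_le_right _ _))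
  have k3 : c' ≤ a₃ := by rw [hc']; exact (min_le_left _ _).trans (min_le_right _ _)
  have k4 : c' ≤ a * k₁ / A := by rw [hc']; exact (min_le_right _ _).trans (min_le_left _ _)
  have k5 : c' ≤ b * k₂ / B := by rw [hc']; exact (min_le_right _ _).trans (min_le_right _ _)
  refine ⟨c', max (A * A₀ / a) (B * K / b), k0, by positivity, max (max n₂ n₃) (max n₄ (max n₅ n₆)),
    hn₃.trans ((le_max_right _ _).trans (le_max_left _ _)), fun m n hm hmn => ?_⟩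
  have l2 : n₂ ≤ m := (le_max_left _ _).trans ((le_max_left _ _).trans hm)
  have l3 : n₃ ≤ m := (le_max_right _ _).trans ((le_max_left _ _).trans hm)
  have l4 : n₄ ≤ m := (le_max_left _ _).trans ((le_max_right _ _).trans hm)
  have l5 : n₅ ≤ m := (le_max_left _ _).trans ((le_max_right _ _).trans ((le_max_right _ _).trans hm))
  have l6 : n₆ ≤ m := (le_max_right _ _).trans ((le_max_right _ _).trans ((le_max_right _ _).trans hm))
  have hm1 : 1 ≤ m := hn₃.trans l3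
  have hmR : (0 : ℝ) < m := by exact_mod_cast hm1
  have hr : (1 : ℝ) ≤ (n : ℝ) / m := by
    rw [le_div_iff₀ hmR, one_mul]
    exact_mod_cast hmn
  have hr0 : (0 : ℝ) < (n : ℝ) / m := by linarith
  obtain ⟨s1, s2, s3, s4, s5⟩ := hsc m l3
  obtain ⟨t1, t2, t3, t4, t5⟩ := hsc n (l3.trans hmn)
  have hEm := lt_of_lt_of_le one_pos (one_le_EE (μ := μ) (s := 2 * h) m)
  have hEn := lt_of_lt_of_le one_pos (one_le_EE (μ := μ) (s := 2 * h) n)
  have p1 : ((n : ℝ) / m) ^ c' ≤ ((n : ℝ) / m) ^ a₁ := Real.rpow_le_rpow_of_exponent_le hr k1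
  have p2 : ((n : ℝ) / m) ^ c' ≤ ((n : ℝ) / m) ^ a₂ := Real.rpow_le_rpow_of_exponent_le hr k2
  have p3 : ((n : ℝ) / m) ^ (1 - a₃) ≤ ((n : ℝ) / m) ^ (1 - c') := Real.rpow_le_rpow_of_exponent_le hr (by linarith)
  have q0 : 0 ≤ ((n : ℝ) / m) ^ c' := Real.rpow_nonneg hr0.le _
  have qg : 0 ≤ ((n : ℝ) / m) ^ (1 / 2 : ℝ) := Real.rpow_nonneg hr0.le _
  have q3 : 0 ≤ ((n : ℝ) / m) ^ (1 - c') := Real.rpow_nonneg hr0.le _
  have hσm : 0 < sgm P β h ω m := lt_of_lt_of_le (by positivity) s1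
  have hwm : 0 < wth P β h ω (fun v => J μ (2 * h) (v / 2)) m := lt_of_lt_of_le (by positivity) s3
  refine ⟨?_, ?_, ?_, ?_⟩
  · calc c' * ((n : ℝ) / m) ^ c' * sgm P β h ω m ≤ a * k₁ / A * ((n : ℝ) / m) ^ c' * (A * EE μ (2 * h) m) :=
          mul_le_mul (mul_le_mul_of_nonneg_right k4 q0) s2 hσm.le (by positivity)
      _ = a * (k₁ * ((n : ℝ) / m) ^ c' * EE μ (2 * h) m) := by field_simp
      _ ≤ a * (k₁ * ((n : ℝ) / m) ^ a₁ * EE μ (2 * h) m) :=
          mul_le_mul_of_nonneg_left (mul_le_mul_of_nonneg_right (mul_le_mul_of_nonneg_left p1 hk₁.le) hEm.le) ha.le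
      _ ≤ a * EE μ (2 * h) n := mul_le_mul_of_nonneg_left (hE m n l4 hmn) ha.le
      _ ≤ _ := t1
  · calc sgm P β h ω n ≤ A * EE μ (2 * h) n := t2
      _ ≤ A * (A₀ * ((n : ℝ) / m) ^ (1 / 2 : ℝ) * EE μ (2 * h) m) := mul_le_mul_of_nonneg_left (hsub m n l2 hmn) hA.le
      _ = A * A₀ / a * ((n : ℝ) / m) ^ (1 / 2 : ℝ) * (a * EE μ (2 * h) m) := by field_simp
      _ ≤ A * A₀ / a * ((n : ℝ) / m) ^ (1 / 2 : ℝ) * sgm P β h ω m := mul_le_mul_of_nonneg_left s1 (by positivity)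
      _ ≤ _ := mul_le_mul_of_nonneg_right (mul_le_mul_of_nonneg_right (le_max_left _ _) qg) hσm.le
  · calc c' * ((n : ℝ) / m) ^ c' * wth P β h ω (fun v => J μ (2 * h) (v / 2)) m ≤
          b * k₂ / B * ((n : ℝ) / m) ^ c' * (B * wd μ (2 * h) m) :=
          mul_le_mul (mul_le_mul_of_nonneg_right k5 q0) s4 hwm.le (by positivity)
      _ = b * (k₂ * ((n : ℝ) / m) ^ c' * wd μ (2 * h) m) := by field_simp
      _ ≤ b * (k₂ * ((n : ℝ) / m) ^ a₂ * wd μ (2 * h) m) :=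
          mul_le_mul_of_nonneg_left (mul_le_mul_of_nonneg_right (mul_le_mul_of_nonneg_left p2 hk₂.le) (by linarith)) hb.le
      _ ≤ b * wd μ (2 * h) n := mul_le_mul_of_nonneg_left (hW m n l5 hmn) hb.le
      _ ≤ _ := t3
  · calc wth P β h ω (fun v => J μ (2 * h) (v / 2)) n ≤ B * wd μ (2 * h) n := t4
      _ ≤ B * (K * ((n : ℝ) / m) ^ (1 - a₃) * wd μ (2 * h) m) := mul_le_mul_of_nonneg_left (hV m n l6 hmn) hB.le
      _ ≤ B * (K * ((n : ℝ) / m) ^ (1 - c') * wd μ (2 * h) m) :=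
          mul_le_mul_of_nonneg_left (mul_le_mul_of_nonneg_right (mul_le_mul_of_nonneg_left p3 hK.le) (by linarith)) hB.le
      _ = B * K / b * ((n : ℝ) / m) ^ (1 - c') * (b * wd μ (2 * h) m) := by field_simp
      _ ≤ B * K / b * ((n : ℝ) / m) ^ (1 - c') * wth P β h ω (fun v => J μ (2 * h) (v / 2)) m :=
          mul_le_mul_of_nonneg_left s3 (by positivity)
      _ ≤ _ := mul_le_mul_of_nonneg_right (mul_le_mul_of_nonneg_right (le_max_right _ _) q3) hwm.le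

end law

end Pool.Agent.W_7d29a1_HS
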