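import Pool.Agent.W_7d29a1_HS.Defs
import Pool.Agent.W_7d29a1_SR.TransB
import Pool.Agent.W_7d29a1_F.VlD
import Pool.Agent.W_7d29a1_F.Final

/-!
MP_7d29a1_pr, TRACK H, part 3, section (i): transfer from the coordinates of `W_7d29a1_F` at the tilt `2 h` to the polymer with
the force `h` (`parZ`, `forceP`). The case `h = 0` is helper12's `W_7d29a1_SR.Trans`; the environment map `toF` and its law
(`mp_toF`) are those of that file. (helper40)
-/

set_option autoImplicit false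

namespace Pool.Agent.W_7d29a1_HS

open MeasureTheory ProbabilityTheory Filter Topology
open Pool.Agent.W_7d29a1_F Pool.Agent.W_7d29a1_h4g Pool.Agent.W_7d29a1_H
open Pool.Agent.W_7d29a1_g (TA_q TA_pw TA_q_zero TA_q_succ TA_q_nonneg TA_q_le TA_Zr)
open Pool.Agent.W_7d29a1_h47 (Lam walk energy polE endMGF forceP ext pos walk_eq sum_T_eq)
open Pool.Agent.W_7d29a1_SR (toF)

/-- The event `max_{0 ≤ i ≤ n} |S_i - i v| ≤ r`. -/
def bal (n : ℕ) (v r : ℝ) : Set (Fin n → Bool) := {s | ∀ i ≤ n, |(walk s i : ℝ) - v * i| ≤ r}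

/-- The velocity of the force `h` in the coordinates of the problem: `Lam' (h)`. -/
noncomputable def vel (μ : Measure ℝ) (h : ℝ) : ℝ := 2 * sl μ (2 * h) - 1

/-- The velocity is the derivative of the free energy. -/
theorem vel_eq {μ : Measure ℝ} [IsProbabilityMeasure μ] (hμ : Pool.Agent.W_7d29a1_h47.EM μ)
    (hnd : Pool.Agent.W_7d29a1_h47.Nondeg μ) (h : ℝ) : vel μ h = deriv (Lam μ) h := by
  have h1 : HasDerivAt (lam μ) (sl μ (2 * h)) (2 * h) := (differentiable_lam hμ hnd (2 * h)).hasDerivAt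
  have h2 : Lam μ = fun x => lam μ (2 * x) - x := by
    funext x
    unfold lam
    rw [mul_div_cancel_left₀ _ (two_ne_zero' ℝ)]
    ring
  have h3 : HasDerivAt (fun x : ℝ => 2 * x) 2 h := by simpa using (hasDerivAt_id h).const_mul 2
  have h4 : HasDerivAt (fun x => lam μ (2 * x) - x) (sl μ (2 * h) * 2 - 1) h :=
    (HasDerivAt.comp h h1 h3).sub (hasDerivAt_id h)
  rw [h2, h4.deriv]
  unfold vel
  ring

private lemma pos_eq (s : ℕ → Bool) (i : ℕ) : pos s i = 2 * TA_q s i - i := by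
  induction i with
  | zero => simp [pos, TA_q_zero]
  | succ i ih =>
    have h1 : pos s (i + 1) = pos s i + Pool.Agent.W_7d29a1_h47.stp (s i) := by
      unfold pos
      rw [Finset.sum_range_succ]
    rw [h1, ih, TA_q_succ]
    unfold Pool.Agent.W_7d29a1_h47.stp
    push_cast
    split_ifs <;> ring

/-- The weighted sum over the end points as a sum over the walks. -/
private lemma sum_Zr (f : ℤ → ℝ) (R : Set Pt) (η : Env) (n : ℕ) :
    ∑ y ∈ Finset.Icc (0 : ℤ) n, f y * Zr R η 0 n y =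
      ∑ s ∈ Pool.Agent.W_7d29a1_h47.T n, f (TA_q s n) * TA_pw R η 0 n s := by
  have h1 : ∀ y : ℤ, f y * Zr R η 0 n y =
      ∑ s ∈ Pool.Agent.W_7d29a1_h47.T n, if TA_q s n = y then f (TA_q s n) * TA_pw R η 0 n s else 0 := by
    intro y
    rw [TA_Zr, Finset.mul_sum]
    refine Finset.sum_congr rfl fun s _ => ?_
    by_cases h : TA_q s n = y
    · rw [if_pos h, if_pos h, h]
    · rw [if_neg h, if_neg h, mul_zero]
  simp only [h1]
  rw [Finset.sum_comm]
  refine Finset.sum_congr rfl fun s _ => ?_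
  rw [Finset.sum_ite_eq, if_pos]
  rw [Finset.mem_Icc]
  exact ⟨TA_q_nonneg s n, TA_q_le s n⟩

open Classical in
/-- The weight of a walk. -/
private lemma pw_toF (R : Set Pt) (β : ℝ) (ω : ℕ × ℤ → ℝ) {n : ℕ} (s : Fin n → Bool) :
    TA_pw R (toF β ω) 0 n (ext s) =
      if ∀ i < n, (((i : ℤ) + 1, TA_q (ext s) (i + 1)) : Pt) ∈ R then Real.exp (β * energy ω s) else 0 := by
  unfold TA_pw
  have e0 : ∀ i : ℕ, (((0 : Pt).1 + ((i : ℤ) + 1), (0 : Pt).2 + TA_q (ext s) (i + 1)) : Pt) =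
      ((i : ℤ) + 1, TA_q (ext s) (i + 1)) := by
    intro i
    simp
  simp only [e0]
  by_cases h : ∀ i < n, (((i : ℤ) + 1, TA_q (ext s) (i + 1)) : Pt) ∈ R
  · rw [if_pos h]
    have h1 : ∀ i ∈ Finset.range n, R.indicator (fun p => Real.exp (toF β ω p))
        (((i : ℤ) + 1, TA_q (ext s) (i + 1)) : Pt) = Real.exp (β * ω (i + 1, pos (ext s) (i + 1))) := by
      intro i hi
      rw [Set.indicator_of_mem (h i (Finset.mem_range.1 hi))]
      congr 1
      unfold Pool.Agent.W_7d29a1_SR.toF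
      rw [if_pos (by simp only; omega), pos_eq]
      congr 2
    rw [Finset.prod_congr rfl h1, ← Real.exp_sum]
    congr 1
    unfold energy
    rw [Finset.sum_range fun i => _, Finset.mul_sum]
    refine Finset.sum_congr rfl fun i _ => ?_
    rw [walk_eq s (by omega)]
  · rw [if_neg h]
    push Not at h
    obtain ⟨i, hi, hR⟩ := h
    exact Finset.prod_eq_zero (Finset.mem_range.2 hi) (Set.indicator_of_notMem hR _)

/-- The factor of the end point. -/
private lemma fac (μ : Measure ℝ) (h : ℝ) {n : ℕ} (s : Fin n → Bool) :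
    Real.exp (2 * h * (TA_q (ext s) n : ℝ) - n * lam μ (2 * h)) =
      Real.exp (-(n * Lam μ h)) * Real.exp (h * (walk s n : ℝ)) := by
  rw [← Real.exp_add, walk_eq s le_rfl, pos_eq]
  congr 1
  unfold lam
  rw [mul_div_cancel_left₀ _ (two_ne_zero' ℝ)]
  push_cast
  ring

open Classical in
private lemma sum_WR (μ : Measure ℝ) (R : Set Pt) (β h : ℝ) (ω : ℕ × ℤ → ℝ) (n : ℕ) :
    ∑ y ∈ Finset.Icc (0 : ℤ) n, WR μ (2 * h) R (toF β ω) 0 n y =
      Real.exp (-(n * Lam μ h)) * ∑ s : Fin n → Bool,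
        if ∀ i < n, (((i : ℤ) + 1, TA_q (ext s) (i + 1)) : Pt) ∈ R then
          Real.exp (h * (walk s n : ℝ) + β * energy ω s) else 0 := by
  unfold WR
  rw [sum_Zr (fun y => Real.exp (2 * h * (y : ℝ) - n * lam μ (2 * h))), sum_T_eq, Finset.mul_sum]
  refine Finset.sum_congr rfl fun s _ => ?_
  rw [fac, pw_toF, mul_assoc]
  congr 1
  by_cases hR : ∀ i < n, (((i : ℤ) + 1, TA_q (ext s) (i + 1)) : Pt) ∈ R
  · rw [if_pos hR, if_pos hR, Real.exp_add]
  · rw [if_neg hR, if_neg hR, mul_zero]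

private lemma sum_pos' (β h : ℝ) (ω : ℕ × ℤ → ℝ) (n : ℕ) :
    0 < ∑ s : Fin n → Bool, Real.exp (h * (walk s n : ℝ) + β * energy ω s) :=
  Finset.sum_pos (fun _ _ => Real.exp_pos _) Finset.univ_nonempty

private lemma exp_V (μ : Measure ℝ) (β h : ℝ) (ω : ℕ × ℤ → ℝ) (n : ℕ) :
    Real.exp (V μ (2 * h) (toF β ω) 0 n) = Real.exp (-(n * Lam μ h)) *
      ∑ s : Fin n → Bool, Real.exp (h * (walk s n : ℝ) + β * energy ω s) := by
  classical
  have h1 : WS μ (2 * h) (toF β ω) 0 n (Finset.Icc (0 : ℤ) n) = Real.exp (-(n * Lam μ h)) *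
      ∑ s : Fin n → Bool, Real.exp (h * (walk s n : ℝ) + β * energy ω s) := by
    unfold WS W
    rw [sum_WR]
    congr 1
    refine Finset.sum_congr rfl fun s _ => ?_
    rw [if_pos fun _ _ => Set.mem_univ _]
  unfold V
  rw [h1, Real.exp_log (mul_pos (Real.exp_pos _) (sum_pos' β h ω n))]

/-- The luck at the tilt `2 h` is the free energy with the force `h`. -/
theorem V_toF (μ : Measure ℝ) (β h : ℝ) (ω : ℕ × ℤ → ℝ) (n : ℕ) :
    V μ (2 * h) (toF β ω) 0 n = Real.log (parZ β h ω n) - n * (Lam μ h - Real.log 2) := by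
  have h2 := sum_pos' β h ω n
  have h3 : V μ (2 * h) (toF β ω) 0 n = -(n * Lam μ h) +
      Real.log (∑ s : Fin n → Bool, Real.exp (h * (walk s n : ℝ) + β * energy ω s)) := by
    rw [← Real.log_exp (V μ (2 * h) (toF β ω) 0 n), exp_V, Real.log_mul (Real.exp_pos _).ne' h2.ne', Real.log_exp]
  unfold parZ
  rw [h3, Real.log_div h2.ne' (by positivity), Real.log_pow]
  ring

open Classical in
/-- The probability of a set of walks with the force `h` as a quotient of two sums. -/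
theorem forceP_eq (β h : ℝ) (ω : ℕ × ℤ → ℝ) (n : ℕ) (A : Set (Fin n → Bool)) :
    forceP β h ω n A = (∑ s : Fin n → Bool, if s ∈ A then Real.exp (h * (walk s n : ℝ) + β * energy ω s) else 0) /
      ∑ s : Fin n → Bool, Real.exp (h * (walk s n : ℝ) + β * energy ω s) := by
  have h0 : (0 : ℝ) < ∑ s : Fin n → Bool, Real.exp (β * energy ω s) :=
    Finset.sum_pos (fun _ _ => Real.exp_pos _) Finset.univ_nonempty
  unfold forceP endMGF polE
  rw [div_div_div_cancel_right₀ h0.ne']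
  congr 1
  · refine Finset.sum_congr rfl fun s _ => ?_
    beta_reduce
    by_cases hA : s ∈ A
    · rw [if_pos hA, if_pos hA, Real.exp_add]
    · rw [if_neg hA, if_neg hA, zero_mul]
  · refine Finset.sum_congr rfl fun s _ => ?_
    rw [Real.exp_add]

/-- The confined walks. -/
theorem cf_toF (μ : Measure ℝ) (β h : ℝ) (ω : ℕ × ℤ → ℝ) (n : ℕ) {r : ℝ} (hr : 0 ≤ r) :
    cf μ (2 * h) r (toF β ω) 0 n / Real.exp (V μ (2 * h) (toF β ω) 0 n) =
      forceP β h ω n (bal n (vel μ h) (2 * r)) := by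
  classical
  have hcf : cf μ (2 * h) r (toF β ω) 0 n = Real.exp (-(n * Lam μ h)) * ∑ s : Fin n → Bool,
        if ∀ i < n, (((i : ℤ) + 1, TA_q (ext s) (i + 1)) : Pt) ∈ St μ (2 * h) r 0 then
          Real.exp (h * (walk s n : ℝ) + β * energy ω s) else 0 := sum_WR μ (St μ (2 * h) r 0) β h ω n
  rw [hcf, exp_V, mul_div_mul_left _ _ (Real.exp_pos _).ne', forceP_eq]
  congr 1
  refine Finset.sum_congr rfl fun s _ => ?_
  have h3 : ∀ i < n, ((((i : ℤ) + 1, TA_q (ext s) (i + 1)) : Pt) ∈ St μ (2 * h) r 0 ↔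
      |(walk s (i + 1) : ℝ) - vel μ h * ((i + 1 : ℕ) : ℝ)| ≤ 2 * r) := by
    intro i hi
    rw [walk_eq s (by omega), pos_eq]
    unfold St tb vel
    rw [Set.mem_ofPred_eq]
    have e1 : ((2 * TA_q (ext s) (i + 1) - ((i + 1 : ℕ) : ℤ) : ℤ) : ℝ) - (2 * sl μ (2 * h) - 1) * ((i + 1 : ℕ) : ℝ) =
        2 * (((TA_q (ext s) (i + 1) - (0 : Pt).2 : ℤ) : ℝ) - sl μ (2 * h) * ((((i : ℤ) + 1 - (0 : Pt).1 : ℤ)) : ℝ)) := by
      push_cast
      simp only [Prod.snd_zero, Prod.fst_zero, Int.cast_zero, sub_zero]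
      ring
    rw [e1, abs_mul, abs_of_pos (two_pos : (0 : ℝ) < 2)]
    exact ⟨fun h => by linarith, fun h => by linarith⟩
  have h2 : (∀ i < n, (((i : ℤ) + 1, TA_q (ext s) (i + 1)) : Pt) ∈ St μ (2 * h) r 0) ↔
      s ∈ bal n (vel μ h) (2 * r) := by
    constructor
    · intro h' i hi
      rcases Nat.eq_zero_or_pos i with h0 | h0
      · rw [h0, walk_eq s (Nat.zero_le n)]
        simp only [pos, Finset.range_zero, Finset.sum_empty, Int.cast_zero, Nat.cast_zero, mul_zero, sub_zero, abs_zero]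
        positivity
      · obtain ⟨j, rfl⟩ : ∃ j, i = j + 1 := ⟨i - 1, by omega⟩
        exact (h3 j (by omega)).1 (h' j (by omega))
    · intro h' i hi
      exact (h3 i hi).2 (h' (i + 1) (by omega))
  by_cases h' : s ∈ bal n (vel μ h) (2 * r)
  · rw [if_pos (h2.2 h'), if_pos h']
  · rw [if_neg fun h'' => h' (h2.1 h''), if_neg h']

end Pool.Agent.W_7d29a1_HS
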