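import Pool.Agent.W_7d29a1_HS.Mom

/-!
MP_7d29a1_pr, TRACK H, part 3, section (S4) at one tilt `s`, stretched exponential form (model: `W_7d29a1_SR.MomE`): the tail of
the bad luck, the tail of the good luck, and the deviations of the luck from the mean, in units. (helper87)
-/

set_option autoImplicit false

namespace Pool.Agent.W_7d29a1_HS

open MeasureTheory ProbabilityTheory Filter Topology
open Pool.Agent.W_7d29a1_F Pool.Agent.W_7d29a1_h4g Pool.Agent.W_7d29a1_H
open Pool.Agent.W_7d29a1_L (Mh T kap Bx mem_Bx Mh_nonneg le_Mh Sub_Mh)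

variable {μ : Measure ℝ} [IsProbabilityMeasure μ] {s c C : ℝ} {n₀ : ℕ}

private theorem MomE_tail (h : In μ s c C n₀) : ∃ A a g : ℝ, 0 < A ∧ 0 < a ∧ 0 < g ∧ g ≤ 1 ∧ ∀ n : ℕ, 1 ≤ n → ∀ u : ℝ, 0 ≤ u →
    (law μ).real {η | V μ s η 0 n ≤ -(u * EE μ s n)} ≤ A * Real.exp (-(a * u ^ g)) := by
  obtain ⟨A, a, g, hA, ha, hg, hg1, hU⟩ := unlucky_exp h
  refine ⟨A, a, g, hA, ha, hg, hg1, fun n hn u hu => ?_⟩
  have h0 := h.md_nonneg n
  have h1 := h.md_le_nat n
  have h2 := md_abs (μ := μ) (s := s) n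
  have h4 : 0 ≤ c / 16 * vA 1 μ s n * n :=
    mul_nonneg (mul_nonneg (by have := h.c0; positivity) (h.vA_nonneg n)) (Nat.cast_nonneg n)
  refine le_trans (measureReal_mono (fun η hη => ?_) (measure_ne_top _ _))
    (hU n hn (md μ s n) h0 h1 (by linarith) u hu)
  rw [Set.mem_ofPred_eq] at hη ⊢
  have h5 := neg_X_le_V (μ := μ) (s := s) η 0 h0 h1
  linarith

/-- The tail of the bad luck, stretched exponential form. -/
theorem tail_V_exp (h : In μ s c C n₀) : ∃ A a g : ℝ, 0 < a ∧ 0 < g ∧ g ≤ 1 ∧ ∀ n : ℕ, 1 ≤ n → ∀ u : ℝ, 0 ≤ u →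
    (law μ).real {η | V μ s η 0 n ≤ -(u * EE μ s n)} ≤ A * Real.exp (-(a * u ^ g)) := by
  obtain ⟨A, a, g, -, ha, hg, hg1, hT⟩ := MomE_tail h
  exact ⟨A, a, g, ha, hg, hg1, hT⟩

omit [IsProbabilityMeasure μ] in
private theorem MomE_markov {f : Env → ℝ} (hf : Integrable (fun η => Real.exp (f η)) (law μ)) (t : ℝ) :
    (law μ).real {η | t ≤ f η} ≤ (∫ η, Real.exp (f η) ∂(law μ)) * Real.exp (-t) := by
  have h1 := mul_meas_ge_le_integral_of_nonneg (μ := law μ) (Eventually.of_forall fun η => (Real.exp_pos (f η)).le) hf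
    (Real.exp t)
  have h2 : {η | t ≤ f η} = {η | Real.exp t ≤ Real.exp (f η)} := by
    ext η
    rw [Set.mem_ofPred_eq, Set.mem_ofPred_eq, Real.exp_le_exp]
  rw [h2, Real.exp_neg, ← div_eq_mul_inv, le_div_iff₀ (Real.exp_pos t), mul_comm]
  exact h1

/-- The tail of the good luck, exponential. -/
theorem upper_V_exp (h : In μ s c C n₀) : ∃ A a : ℝ, 0 < A ∧ 0 < a ∧ ∀ n : ℕ, 1 ≤ n → ∀ u : ℝ, 0 ≤ u →
    (law μ).real {η | u * EE μ s n ≤ V μ s η 0 n} ≤ A * Real.exp (-(a * u)) := by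
  have hC := h.C1
  have hC0 : 0 < C := by linarith
  obtain ⟨c', hc', n1, hn1⟩ := wd_ge h
  obtain ⟨N, hN⟩ : ∃ N : ℕ, N = max n₀ n1 := ⟨_, rfl⟩
  obtain ⟨D, hD⟩ : ∃ D : ℕ → ℝ, ∀ n, D n = ∫ η, Real.exp (V μ s η 0 n) ∂(law μ) := ⟨_, fun _ => rfl⟩
  have hD0 : ∀ n, 0 ≤ D n := fun n => by
    rw [hD]
    exact integral_nonneg fun η => (Real.exp_pos _).le
  have hS : 0 ≤ ∑ n ∈ Finset.range N, D n := Finset.sum_nonneg fun n _ => hD0 n
  refine ⟨C + ∑ n ∈ Finset.range N, D n, 1 / C, by linarith, by positivity, fun n hn u hu => ?_⟩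
  have hE := one_le_EE (μ := μ) (s := s) n
  by_cases hn0 : N ≤ n
  · have hnn0 : n₀ ≤ n := le_trans (by rw [hN]; exact le_max_left _ _) hn0
    have hnn1 : n1 ≤ n := le_trans (by rw [hN]; exact le_max_right _ _) hn0
    have hw : 0 < wd μ s n := lt_of_lt_of_le (by positivity) (hn1 n hnn1)
    have hl := h.luck n hnn0 0 (-(wd μ s n / 2)) (by
      rw [abs_zero, zero_mul]
      have := h.c0
      positivity)
    have hMS : Sub fun η => Mh μ s (sl μ s) 0 (wd μ s n) (-(wd μ s n / 2)) (4 * n) η / (C * EE μ s n) := by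
      have h1 := (Sub_Mh (μ := μ) (s := s) (v := sl μ s) (h := 0) (w := wd μ s n) (z := -(wd μ s n / 2))
        (n := 4 * n)).const_mul (C * EE μ s n)⁻¹
      simpa only [div_eq_inv_mul] using h1
    have h1 := MomE_markov (hMS.exp_int h.em) (u / C)
    refine le_trans (measureReal_mono (fun η hη => ?_) (measure_ne_top _ _)) (h1.trans ?_)
    · rw [Set.mem_ofPred_eq] at hη ⊢
      have hq : (((0 : ℕ), (0 : ℤ)), n) ∈ Bx (sl μ s) (wd μ s n) (-(wd μ s n / 2)) (4 * n) := by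
        rw [mem_Bx h.sl_pos.le h.sl_lt.le]
        refine ⟨?_, ?_, ?_⟩
        · show 0 + n ≤ 4 * n
          omega
        · show -(wd μ s n / 2) < ((0 : ℤ) : ℝ) - sl μ s * ((0 : ℕ) : ℝ)
          push_cast
          linarith
        · show ((0 : ℤ) : ℝ) - sl μ s * ((0 : ℕ) : ℝ) ≤ -(wd μ s n / 2) + wd μ s n
          push_cast
          linarith
      have h2 := le_Mh (μ := μ) (s := s) (v := sl μ s) (h := 0) η hq
      have h3 : T μ s (sl μ s) 0 η (((0 : ℕ) : ℤ), (0 : ℤ)) n = V μ s η 0 n := by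
        unfold T kap
        simp only [add_zero, sub_self, zero_mul, mul_zero]
        rfl
      have h4 : V μ s η 0 n ≤ Mh μ s (sl μ s) 0 (wd μ s n) (-(wd μ s n / 2)) (4 * n) η := by
        rw [← h3]
        exact h2
      rw [le_div_iff₀ (by positivity)]
      have h5 : u / C * (C * EE μ s n) = u * EE μ s n := by
        field_simp
      rw [h5]
      exact hη.trans h4
    · have h6 : u / C = 1 / C * u := by ring
      rw [h6]
      refine mul_le_mul_of_nonneg_right ?_ (Real.exp_pos _).le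
      linarith
  · push Not at hn0
    have h1 := MomE_markov ((Sub_V (μ := μ) (s := s) (0 : Pt) n).exp_int h.em) (u * EE μ s n)
    refine h1.trans ?_
    rw [← hD]
    refine mul_le_mul ?_ (Real.exp_le_exp.2 ?_) (Real.exp_pos _).le (by linarith)
    · have := Finset.single_le_sum (f := D) (fun n _ => hD0 n) (Finset.mem_range.2 hn0)
      linarith
    · have h2 : 1 / C ≤ 1 := by
        rw [div_le_one hC0]
        exact hC
      have h3 : 1 / C * u ≤ 1 * u := mul_le_mul_of_nonneg_right h2 hu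
      have h4 : u * 1 ≤ u * EE μ s n := mul_le_mul_of_nonneg_left hE hu
      linarith

/-- The deviations of the luck from the mean, stretched exponential form. -/
theorem dev_V_exp (h : In μ s c C n₀) : ∃ A a g : ℝ, 0 < a ∧ 0 < g ∧ g ≤ 1 ∧ ∀ n : ℕ, 1 ≤ n → ∀ u : ℝ, 0 ≤ u →
    (law μ).real {η | u * EE μ s n ≤ |V μ s η 0 n - ∫ ξ, V μ s ξ 0 n ∂(law μ)|} ≤ A * Real.exp (-(a * u ^ g)) := by
  obtain ⟨A, a, g, hA, ha, hg, hg1, hT⟩ := MomE_tail h
  obtain ⟨B, b, hB, hb, hV⟩ := upper_V_exp h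
  obtain ⟨d, hd, hda, hdb⟩ : ∃ d : ℝ, 0 < d ∧ d ≤ a ∧ d ≤ b := ⟨min a b, lt_min ha hb, min_le_left _ _, min_le_right _ _⟩
  have hBb : 0 < B * Real.exp b := mul_pos hB (Real.exp_pos b)
  refine ⟨A + B * Real.exp b + Real.exp d, d, g, hd, hg, hg1, fun n hn u hu => ?_⟩
  have hug : 0 ≤ u ^ g := by positivity
  have hE := one_le_EE (μ := μ) (s := s) n
  have hx := Real.exp_pos (-(d * u ^ g))
  rcases le_or_gt u 1 with hu1 | hu1
  · refine measureReal_le_one.trans ?_
    have h1 : u ^ g ≤ 1 := Real.rpow_le_one hu hu1 hg.le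
    have h2 : 1 ≤ Real.exp d * Real.exp (-(d * u ^ g)) := by
      rw [← Real.exp_add]
      refine Real.one_le_exp ?_
      have := mul_le_mul_of_nonneg_left h1 hd.le
      linarith
    have h3 : 0 ≤ (A + B * Real.exp b) * Real.exp (-(d * u ^ g)) := by positivity
    calc (1 : ℝ) ≤ (A + B * Real.exp b) * Real.exp (-(d * u ^ g)) + Real.exp d * Real.exp (-(d * u ^ g)) := by linarith
      _ = _ := by ring
  · obtain ⟨hm1, hm2⟩ := mean_V h n
    have h1 := hT n hn u hu
    have h2 := hV n hn (u - 1) (by linarith)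
    have h3 : (law μ).real {η | u * EE μ s n ≤ |V μ s η 0 n - ∫ ξ, V μ s ξ 0 n ∂(law μ)|} ≤
        (law μ).real ({η | V μ s η 0 n ≤ -(u * EE μ s n)} ∪ {η | (u - 1) * EE μ s n ≤ V μ s η 0 n}) := by
      refine measureReal_mono (fun η hη => ?_) (measure_ne_top _ _)
      rw [Set.mem_ofPred_eq] at hη
      rw [Set.mem_union, Set.mem_ofPred_eq, Set.mem_ofPred_eq]
      rcases le_abs.1 hη with h4 | h4
      · right
        have h5 : (u - 1) * EE μ s n = u * EE μ s n - EE μ s n := by ring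
        rw [h5]
        linarith
      · left
        linarith
    have h6 : A * Real.exp (-(a * u ^ g)) ≤ A * Real.exp (-(d * u ^ g)) := by
      refine mul_le_mul_of_nonneg_left (Real.exp_le_exp.2 ?_) hA.le
      have := mul_le_mul_of_nonneg_right hda hug
      linarith
    have h7 : B * Real.exp (-(b * (u - 1))) ≤ B * Real.exp b * Real.exp (-(d * u ^ g)) := by
      rw [mul_assoc, ← Real.exp_add]
      refine mul_le_mul_of_nonneg_left (Real.exp_le_exp.2 ?_) hB.le
      have e1 : u ^ g ≤ u := by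
        calc u ^ g ≤ u ^ (1 : ℝ) := Real.rpow_le_rpow_of_exponent_le hu1.le hg1
          _ = u := Real.rpow_one u
      have e2 : d * u ^ g ≤ b * u := mul_le_mul hdb e1 hug hb.le
      linarith
    have h8 := measureReal_union_le (μ := law μ) {η | V μ s η 0 n ≤ -(u * EE μ s n)} {η | (u - 1) * EE μ s n ≤ V μ s η 0 n}
    have h9 : 0 ≤ Real.exp d * Real.exp (-(d * u ^ g)) := by positivity
    calc _ ≤ A * Real.exp (-(d * u ^ g)) + B * Real.exp b * Real.exp (-(d * u ^ g)) + Real.exp d * Real.exp (-(d * u ^ g)) := by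
          linarith
      _ = _ := by ring

end Pool.Agent.W_7d29a1_HS
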