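import Pool.Agent.W_7d29a1_HS.VarA
import Pool.Agent.W_7d29a1_HS.Lucky

/-!
MP_7d29a1_pr, TRACK H, part 3, section (S4) at one tilt `s`: the lower bound of the variance. (helper21, helper43; helper87)
-/

set_option autoImplicit false

namespace Pool.Agent.W_7d29a1_HS

open MeasureTheory ProbabilityTheory Filter Topology
open Pool.Agent.W_7d29a1_F Pool.Agent.W_7d29a1_h4g Pool.Agent.W_7d29a1_H

variable {μ : Measure ℝ} [IsProbabilityMeasure μ] {s c C : ℝ} {n₀ : ℕ}

/-- The variance of the free energy is at least of the order of the square of the unit. -/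
theorem var_ge (h : In μ s c C n₀) : ∃ a : ℝ, 0 < a ∧ ∀ n : ℕ, 1 ≤ n →
    a * EE μ s n ^ 2 ≤ Var[fun η => V μ s η 0 n; law μ] :=
  var_ge_of_lucky h (lucky h 1)

end Pool.Agent.W_7d29a1_HS
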