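import Pool.Agent.W_7d29a1_HS.Defs
import Pool.Agent.W_7d29a1_SR.VarA

/-!
MP_7d29a1_pr, TRACK H, part 3 (tilt `s`): the variance of the free energy is positive at every scale.
(model `W_7d29a1_SR.VarA`, `VarS`; helper21)
-/

set_option autoImplicit false

namespace Pool.Agent.W_7d29a1_HS

open MeasureTheory ProbabilityTheory Filter Topology
open Pool.Agent.W_7d29a1_F Pool.Agent.W_7d29a1_h4g Pool.Agent.W_7d29a1_H
open Pool.Agent.W_7d29a1_SR (var_lower real_box V_gap)

variable {μ : Measure ℝ} [IsProbabilityMeasure μ] {s c C : ℝ} {n₀ : ℕ}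

/-- The variance of the free energy is positive. -/
theorem var_V_pos (hEM : Pool.Agent.W_7d29a1_h47.EM μ) (hnd : Pool.Agent.W_7d29a1_h47.Nondeg μ) (s : ℝ) {n : ℕ}
    (hn : 1 ≤ n) : 0 < Var[fun η => V μ s η 0 n; law μ] := by
  classical
  obtain ⟨p, q, hpq, hp, hq⟩ := Pool.Agent.W_7d29a1_h47.exists_gap hnd
  obtain ⟨B, hB⟩ : ∃ B : Finset Pt, B = Finset.Icc (1 : ℤ) n ×ˢ Finset.Icc (0 : ℤ) n := ⟨_, rfl⟩
  have hsB : ∀ x ∈ sites 0 n, x ∈ B := by
    rintro x ⟨h1, h2, h3, h4⟩
    rw [hB, Finset.mem_product, Finset.mem_Icc, Finset.mem_Icc]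
    have e1 : ((0 : Pt).1 : ℤ) = 0 := rfl
    have e2 : ((0 : Pt).2 : ℤ) = 0 := rfl
    rw [e1] at h1 h2
    rw [e2] at h3 h4
    refine ⟨⟨by omega, by omega⟩, by omega, by omega⟩
  have hn' : (1 : ℝ) ≤ n := by exact_mod_cast hn
  obtain ⟨m, hm⟩ : ∃ m : ℝ, m = ∫ ξ, V μ s ξ 0 n ∂(law μ) := ⟨_, rfl⟩
  have hgap : 0 < n * (q - p) := mul_pos (by linarith) (by linarith)
  have key : V μ s (fun _ => p) 0 n + n * (q - p) ≤ V μ s (fun _ => q) 0 n := V_gap fun x _ => by linarith
  have hmS : ∀ T : Set ℝ, MeasurableSet T → MeasurableSet {η : Env | ∀ x ∈ B, η x ∈ T} := by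
    intro T hT
    have : {η : Env | ∀ x ∈ B, η x ∈ T} = ⋂ x ∈ B, (fun η : Env => η x) ⁻¹' T := by
      ext η
      simp
    rw [this]
    exact Finset.measurableSet_biInter _ fun x _ => measurable_pi_apply x hT
  rcases le_total m (V μ s (fun _ => p) 0 n + n * (q - p) / 2) with hc | hc
  · -- all sites are at least `q`
    have h1 := var_lower (μ := μ) hEM (F := fun η => V μ s η 0 n) (Sub_V 0 n)
      (hmS (Set.Ici q) measurableSet_Ici) (r := n * (q - p) / 2) (by linarith) (by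
        intro η hη
        rw [Set.mem_ofPred_eq] at hη
        have h2 : V μ s (fun _ => q) 0 n + n * (0 : ℝ) ≤ V μ s η 0 n := V_gap fun x hx => by
          have := hη x (hsB x hx)
          rw [Set.mem_Ici] at this
          linarith
        rw [← hm]
        refine le_trans ?_ (le_abs_self _)
        linarith)
    rw [real_box B measurableSet_Ici] at h1
    refine lt_of_lt_of_le ?_ h1
    have := hgap
    positivity
  · have h1 := var_lower (μ := μ) hEM (F := fun η => V μ s η 0 n) (Sub_V 0 n)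
      (hmS (Set.Iic p) measurableSet_Iic) (r := n * (q - p) / 2) (by linarith) (by
        intro η hη
        rw [Set.mem_ofPred_eq] at hη
        have h2 : V μ s η 0 n + n * (0 : ℝ) ≤ V μ s (fun _ => p) 0 n := V_gap fun x hx => by
          have := hη x (hsB x hx)
          rw [Set.mem_Iic] at this
          linarith
        rw [← hm]
        refine le_trans ?_ (neg_le_abs _)
        linarith)
    rw [real_box B measurableSet_Iic] at h1
    refine lt_of_lt_of_le ?_ h1
    have := hgap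
    positivity

/-- A positive lower bound for finitely many positive numbers. -/
private lemma fin_min21 {f : ℕ → ℝ} (hf : ∀ n, 1 ≤ n → 0 < f n) (N : ℕ) :
    ∃ a : ℝ, 0 < a ∧ ∀ n, 1 ≤ n → n < N → a ≤ f n := by
  induction N with
  | zero => exact ⟨1, one_pos, fun n _ h => absurd h (Nat.not_lt_zero n)⟩
  | succ N ih =>
    obtain ⟨a, ha, h⟩ := ih
    rcases Nat.eq_zero_or_pos N with hN | hN
    · exact ⟨a, ha, fun n h1 h2 => by omega⟩
    · refine ⟨min a (f N), lt_min ha (hf N hN), fun n h1 h2 => ?_⟩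
      rcases Nat.lt_succ_iff_lt_or_eq.1 h2 with h3 | h3
      · exact (min_le_left _ _).trans (h n h1 h3)
      · rw [h3]
        exact min_le_right _ _

/-- The lower bound of the variance, from a luck of one unit with positive probability and `∫ V ≤ 0`. -/
theorem var_ge_of_lucky (h : In μ s c C n₀) (hl : ∃ p : ℝ, 0 < p ∧ ∃ n1 : ℕ, ∀ n : ℕ, n1 ≤ n →
      p ≤ (law μ).real {η | 1 * EE μ s n ≤ V μ s η 0 n}) :
    ∃ a : ℝ, 0 < a ∧ ∀ n : ℕ, 1 ≤ n → a * EE μ s n ^ 2 ≤ Var[fun η => V μ s η 0 n; law μ] := by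
  obtain ⟨p, hp, n1, hn1⟩ := hl
  have hE1 : ∀ n : ℕ, 1 ≤ EE μ s n := fun n => one_le_EU (μ := μ) (s := s) (z := zs μ s) n
  have hpos : ∀ n : ℕ, 1 ≤ n → 0 < Var[fun η => V μ s η 0 n; law μ] / EE μ s n ^ 2 := fun n hn =>
    div_pos (var_V_pos h.em h.nd s hn) (pow_pos (lt_of_lt_of_le one_pos (hE1 n)) 2)
  obtain ⟨a, ha, ha1⟩ := fin_min21 hpos n1
  refine ⟨min p a, lt_min hp ha, fun n hn => ?_⟩
  have hE : 0 < EE μ s n := lt_of_lt_of_le one_pos (hE1 n)
  rcases lt_or_ge n n1 with hlt | hge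
  · have h1 := ha1 n hn hlt
    rw [le_div_iff₀ (pow_pos hE 2)] at h1
    exact le_trans (mul_le_mul_of_nonneg_right (min_le_right _ _) (sq_nonneg _)) h1
  · have h1 := hn1 n hge
    have h2 := var_lower (μ := μ) h.em (F := fun η => V μ s η 0 n) (Sub_V 0 n)
      (S := {η | 1 * EE μ s n ≤ V μ s η 0 n}) (measurableSet_le measurable_const (measurable_V 0 n)) hE.le
      (fun η hη => by
        rw [Set.mem_ofPred_eq, one_mul] at hη
        have h3 := integral_V_nonpos (μ := μ) h.em s n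
        refine le_trans ?_ (le_abs_self _)
        linarith)
    refine le_trans ?_ h2
    rw [mul_comm]
    exact mul_le_mul_of_nonneg_left ((min_le_left _ _).trans h1) (sq_nonneg _)

end Pool.Agent.W_7d29a1_HS
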