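import Pool.Agent.W_7d29a1_HS.InOut
import Pool.Agent.W_7d29a1_H.MainH92

/-!
MP_7d29a1_pr, TRACK H: the input of the scaling law at every tilt, without hypotheses.
-/

set_option autoImplicit false

namespace Pool.Agent.W_7d29a1_HS

open MeasureTheory ProbabilityTheory
open Pool.Agent.W_7d29a1_H
open Pool.Agent.W_7d29a1_h47 (EM Nondeg)

variable {μ : Measure ℝ} [IsProbabilityMeasure μ]

/-- **The input at every tilt**, with constants which do not depend on the tilt in a bounded interval. -/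
theorem in_Icc (hμ : EM μ) (hnd : Nondeg μ) (H : ℝ) : ∃ (c C : ℝ) (n₀ : ℕ), ∀ s ∈ Set.Icc (-H) H, In μ s c C n₀ :=
  in_out (out_all hμ hnd H)

/-- **The input at every tilt.** -/
theorem in_tilt (hμ : EM μ) (hnd : Nondeg μ) (s : ℝ) : ∃ (c C : ℝ) (n₀ : ℕ), In μ s c C n₀ :=
  in_one (fun H => out_all hμ hnd H) s

end Pool.Agent.W_7d29a1_HS
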