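import Pool.Agent.W_7d29a1_HS.Scale

/-!
MP_7d29a1_pr, TRACK H, at one tilt `s`: the unit grows at most like a square root, in the form of two scales (model: `sub_half` of
`W_7d29a1_SR.SubH`; here it is a consequence of the field `half`). (helper4)
-/

set_option autoImplicit false

namespace Pool.Agent.W_7d29a1_HS

open MeasureTheory ProbabilityTheory Filter Topology
open Pool.Agent.W_7d29a1_F Pool.Agent.W_7d29a1_h4g Pool.Agent.W_7d29a1_H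

variable {μ : Measure ℝ} [IsProbabilityMeasure μ] {s c C : ℝ} {n₀ : ℕ}

/-- The unit along the octaves. -/
theorem gg_pow4 (x : ℕ) : (2 : ℝ) ^ gg μ s x = EE μ s (2 ^ x) :=
  Real.rpow_logb two_pos (by norm_num) (EE_pos _)

theorem sub_half (h : In μ s c C n₀) : ∃ A : ℝ, 0 < A ∧ ∃ n₁ : ℕ, 1 ≤ n₁ ∧ ∀ m n : ℕ, n₁ ≤ m → m ≤ n →
    EE μ s n ^ 2 ≤ A * (n / m) * EE μ s m ^ 2 := by
  obtain ⟨K, x₀, hK⟩ := h.half
  refine ⟨4 * ((2 : ℝ) ^ K) ^ 2, by positivity, 2 ^ x₀, Nat.one_le_two_pow, fun m n hm hmn => ?_⟩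
  have hm1 : 1 ≤ m := Nat.one_le_two_pow.trans hm
  have hn1 : 1 ≤ n := hm1.trans hmn
  obtain ⟨x, hx⟩ : ∃ x : ℕ, x = Nat.log 2 m := ⟨_, rfl⟩
  obtain ⟨y, hy⟩ : ∃ y : ℕ, y = Nat.log 2 n + 1 := ⟨_, rfl⟩
  have hx1 : 2 ^ x ≤ m := by rw [hx]; exact Nat.pow_log_le_self 2 (by omega)
  have hx2 : m < 2 ^ (x + 1) := by rw [hx]; exact Nat.lt_pow_succ_log_self (by norm_num) m
  have hy1 : 2 ^ y ≤ 2 * n := by
    rw [hy, pow_succ, mul_comm]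
    exact Nat.mul_le_mul_left 2 (Nat.pow_log_le_self 2 (by omega))
  have hy2 : n ≤ 2 ^ y := by rw [hy]; exact (Nat.lt_pow_succ_log_self (by norm_num) n).le
  have hx0 : x₀ ≤ x := by rw [hx]; exact Nat.le_log_of_pow_le (by norm_num) hm
  have hxy : x ≤ y := by
    rw [hx, hy]
    exact (Nat.log_mono_right hmn).trans (Nat.le_succ _)
  obtain ⟨j, hj⟩ : ∃ j : ℕ, y = x + j := ⟨y - x, by omega⟩
  have h1 := hK x j hx0
  rw [← hj] at h1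
  have h2 : EE μ s (2 ^ y) ≤ EE μ s (2 ^ x) * (2 : ℝ) ^ ((j : ℝ) / 2) * (2 : ℝ) ^ K := by
    rw [← gg_pow4, ← gg_pow4, ← Real.rpow_add two_pos, ← Real.rpow_add two_pos]
    exact Real.rpow_le_rpow_of_exponent_le one_le_two h1
  have h3 : EE μ s n ≤ EE μ s m * (2 : ℝ) ^ ((j : ℝ) / 2) * (2 : ℝ) ^ K := by
    refine (EE_mono hy2).trans (h2.trans ?_)
    refine mul_le_mul_of_nonneg_right (mul_le_mul_of_nonneg_right (EE_mono hx1) (by positivity)) (by positivity)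
  have hEn := EE_pos (μ := μ) (s := s) n
  have h4 : EE μ s n ^ 2 ≤ (EE μ s m * (2 : ℝ) ^ ((j : ℝ) / 2) * (2 : ℝ) ^ K) ^ 2 := pow_le_pow_left₀ hEn.le h3 2
  have h5 : ((2 : ℝ) ^ ((j : ℝ) / 2)) ^ 2 = (2 : ℝ) ^ j := by
    rw [← Real.rpow_natCast, ← Real.rpow_mul two_pos.le, ← Real.rpow_natCast]
    congr 1
    push_cast
    ring
  have hmr : (0 : ℝ) < m := by exact_mod_cast hm1
  have h6 : (2 : ℝ) ^ j ≤ 4 * (n / m) := by
    have e1 : ((2 : ℕ) : ℝ) ^ y ≤ 2 * n := by exact_mod_cast hy1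
    have e2 : (m : ℝ) ≤ 2 * 2 ^ x := by
      have : m ≤ 2 * 2 ^ x := by rw [pow_succ] at hx2; omega
      exact_mod_cast this
    have e3 : (2 : ℝ) ^ y = 2 ^ x * 2 ^ j := by rw [hj, pow_add]
    push_cast at e1
    rw [e3] at e1
    rw [show 4 * ((n : ℝ) / m) = 4 * n / m by ring, le_div_iff₀ hmr]
    have e4 : (2 : ℝ) ^ j * m ≤ 2 ^ j * (2 * 2 ^ x) := mul_le_mul_of_nonneg_left e2 (by positivity)
    linarith
  have hEm2 : 0 ≤ EE μ s m ^ 2 := sq_nonneg _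
  calc EE μ s n ^ 2 ≤ (EE μ s m * (2 : ℝ) ^ ((j : ℝ) / 2) * (2 : ℝ) ^ K) ^ 2 := h4
    _ = (2 : ℝ) ^ j * (((2 : ℝ) ^ K) ^ 2 * EE μ s m ^ 2) := by rw [mul_pow, mul_pow, h5]; ring
    _ ≤ 4 * (n / m) * (((2 : ℝ) ^ K) ^ 2 * EE μ s m ^ 2) := mul_le_mul_of_nonneg_right h6 (by positivity)
    _ = 4 * ((2 : ℝ) ^ K) ^ 2 * (n / m) * EE μ s m ^ 2 := by ring

end Pool.Agent.W_7d29a1_HS
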