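import Pool.Agent.W_7d29a1_HS.Scale
import Pool.Agent.W_7d29a1_HS.Lucky
import Pool.Agent.W_7d29a1_HS.VarS
import Pool.Agent.W_7d29a1_HS.Mom
import Pool.Agent.W_7d29a1_HS.MomE
import Pool.Agent.W_7d29a1_h4g.VarL

/-!
MP_7d29a1_pr, TRACK H, part 3 (row 660), section (h): the scales `σ_n` and `EE μ s s n` are comparable and powers, at the tilt `s`
(model: `W_7d29a1_SR.CoreS`). (helper40)
-/

set_option autoImplicit false

namespace Pool.Agent.W_7d29a1_HS

open MeasureTheory ProbabilityTheory Filter Topology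
open Pool.Agent.W_7d29a1_F Pool.Agent.W_7d29a1_h4g Pool.Agent.W_7d29a1_H

variable {μ : Measure ℝ} [IsProbabilityMeasure μ] {s c C : ℝ} {n₀ : ℕ}

/-- The standard deviation of the luck. -/
noncomputable def sV (μ : Measure ℝ) (s : ℝ) (n : ℕ) : ℝ := Real.sqrt (Var[fun η => V μ s η 0 n; law μ])

/-- `σ_n` is of the order of the unit. -/
theorem sV_EE (h : In μ s c C n₀) : ∃ a A : ℝ, 0 < a ∧ 0 < A ∧ ∀ n : ℕ, 1 ≤ n → a * EE μ s n ≤ sV μ s n ∧ sV μ s n ≤ A * EE μ s n := by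
  obtain ⟨a, ha, h1⟩ := var_ge h
  obtain ⟨A, h2⟩ := moments h 2
  refine ⟨Real.sqrt a, Real.sqrt (|A| + 1), Real.sqrt_pos.2 ha, Real.sqrt_pos.2 (by positivity), fun n hn => ?_⟩
  have hE := one_le_EE (μ := μ) (s := s) n
  have hE0 : 0 ≤ EE μ s n := by linarith
  constructor
  · rw [sV, Real.le_sqrt' (by have := Real.sqrt_pos.2 ha; positivity), mul_pow, Real.sq_sqrt ha.le]
    exact h1 n hn
  · rw [sV, Real.sqrt_le_left (by positivity), mul_pow, Real.sq_sqrt (by positivity)]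
    obtain ⟨i2, m2⟩ := h2 n hn
    have hm : AEStronglyMeasurable (fun η => V μ s η 0 n) (law μ) := (measurable_V 0 n).aestronglyMeasurable
    refine (variance_le_expectation_sq hm).trans ?_
    have e : ∫ η, V μ s η 0 n ^ 2 ∂(law μ) = ∫ η, |V μ s η 0 n| ^ 2 ∂(law μ) := by simp
    have e' : (fun η => V μ s η 0 n) ^ 2 = fun η => V μ s η 0 n ^ 2 := rfl
    rw [e', e]
    refine m2.trans (mul_le_mul_of_nonneg_right ?_ (by positivity))
    have := le_abs_self A
    linarith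

/-- The unit grows at least like a power. -/
theorem EE_pow (h : In μ s c C n₀) : ∃ b K : ℝ, 0 < b ∧ 0 < K ∧ ∀ n : ℕ, 1 ≤ n → K * (n : ℝ) ^ b ≤ EE μ s n := by
  obtain ⟨J, n₁, hJ⟩ := scale_a h 2
  obtain ⟨b, hb⟩ : ∃ b : ℝ, b = 1 / (J + 1) := ⟨_, rfl⟩
  have hJ0 : (0 : ℝ) < J + 1 := by positivity
  have hb0 : 0 < b := by rw [hb]; positivity
  obtain ⟨N, hN⟩ : ∃ N : ℕ, N = max n₁ (2 ^ J) := ⟨_, rfl⟩
  have hN1 : 1 ≤ N := by rw [hN]; exact (Nat.one_le_two_pow).trans (le_max_right _ _)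
  have hNR : (1 : ℝ) ≤ N := by exact_mod_cast hN1
  have hNp : (1 : ℝ) ≤ (N : ℝ) ^ b := Real.one_le_rpow hNR hb0.le
  refine ⟨b, 1 / (N : ℝ) ^ b, hb0, by positivity, fun n hn => ?_⟩
  induction n using Nat.strong_induction_on with
  | _ n ih =>
    have hnR : (1 : ℝ) ≤ n := by exact_mod_cast hn
    rcases le_or_gt n N with hnN | hnN
    · have h1 : (n : ℝ) ^ b ≤ (N : ℝ) ^ b := Real.rpow_le_rpow (by linarith) (by exact_mod_cast hnN) hb0.le
      have h2 : 1 / (N : ℝ) ^ b * (n : ℝ) ^ b ≤ 1 := by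
        rw [one_div, inv_mul_le_iff₀ (by linarith), mul_one]
        exact h1
      exact h2.trans (one_le_EE (μ := μ) (s := s) n)
    · obtain ⟨m, hm⟩ : ∃ m : ℕ, m = n / 2 ^ J := ⟨_, rfl⟩
      have h2J : 0 < 2 ^ J := by positivity
      have hnJ : 2 ^ J < n := lt_of_le_of_lt (by rw [hN]; exact le_max_right _ _) hnN
      have hm1 : 1 ≤ m := by
        rw [hm, Nat.one_le_div_iff h2J]
        exact hnJ.le
      have hmn : 2 ^ J * m ≤ n := by
        rw [hm]
        exact Nat.mul_div_le n (2 ^ J)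
      have hlt : n < 2 ^ (J + 1) * m := by
        have h1 : n < 2 ^ J * (m + 1) := by
          rw [hm]
          exact Nat.lt_mul_div_succ n h2J
        have h2 : 2 ^ J * (m + 1) ≤ 2 ^ J * (2 * m) := Nat.mul_le_mul_left _ (by omega)
        calc n < 2 ^ J * (m + 1) := h1
          _ ≤ 2 ^ J * (2 * m) := h2
          _ = 2 ^ (J + 1) * m := by ring
      have h3 := hJ m n ((by rw [hN] at hnN; exact (le_max_left _ _).trans hnN.le)) hmn
      rcases Nat.eq_zero_or_pos J with hJz | hJp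
      · exfalso
        subst hJz
        simp only [pow_zero, one_mul, Nat.div_one] at hm hmn h3
        subst hm
        have hE := one_le_EE (μ := μ) (s := s) m
        linarith
      · have hmlt : m < n := by
          have h4 : 2 * m ≤ 2 ^ J * m := by
            refine Nat.mul_le_mul_right _ ?_
            calc 2 = 2 ^ 1 := rfl
              _ ≤ 2 ^ J := Nat.pow_le_pow_right (by norm_num) hJp
          omega
        have h4 := ih m hmlt hm1
        have h5 : (n : ℝ) ^ b ≤ 2 * (m : ℝ) ^ b := by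
          have h6 : (n : ℝ) ≤ 2 ^ (J + 1) * m := by exact_mod_cast hlt.le
          calc (n : ℝ) ^ b ≤ (2 ^ (J + 1) * (m : ℝ)) ^ b := Real.rpow_le_rpow (by linarith) h6 hb0.le
            _ = (2 ^ (J + 1) : ℝ) ^ b * (m : ℝ) ^ b := Real.mul_rpow (by positivity) (by positivity)
            _ = 2 * (m : ℝ) ^ b := by
              congr 1
              rw [← Real.rpow_natCast 2 (J + 1), ← Real.rpow_mul (by norm_num), hb]
              push_cast
              rw [mul_one_div_cancel hJ0.ne', Real.rpow_one]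
        have hK : 0 < 1 / (N : ℝ) ^ b := by positivity
        calc 1 / (N : ℝ) ^ b * (n : ℝ) ^ b ≤ 1 / (N : ℝ) ^ b * (2 * (m : ℝ) ^ b) := mul_le_mul_of_nonneg_left h5 hK.le
          _ = 2 * (1 / (N : ℝ) ^ b * (m : ℝ) ^ b) := by ring
          _ ≤ 2 * EE μ s m := by linarith
          _ ≤ EE μ s n := h3

/-- The unit is at most of the order of the square root of the time. -/
theorem EE_sqrt (h : In μ s c C n₀) : ∃ K : ℝ, 0 < K ∧ ∀ n : ℕ, 1 ≤ n → EE μ s n ≤ K * Real.sqrt n := by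
  obtain ⟨p, hp, n₁, hl⟩ := lucky h 1
  obtain ⟨D, hD, hcheb⟩ := cheb_law h.em
  obtain ⟨K, hK⟩ : ∃ K : ℝ, K = Real.sqrt (D / p) + EE μ s n₁ + 1 := ⟨_, rfl⟩
  have hE1 := one_le_EE (μ := μ) (s := s) n₁
  have hs := Real.sqrt_nonneg (D / p)
  refine ⟨K, by rw [hK]; linarith, fun n hn => ?_⟩
  have hnR : (1 : ℝ) ≤ n := by exact_mod_cast hn
  have hsn : 1 ≤ Real.sqrt n := Real.one_le_sqrt.2 hnR
  rcases le_or_gt n₁ n with hn1 | hn1
  · have hV := hl n hn1
    have hE := one_le_EE (μ := μ) (s := s) n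
    have hE0 : 0 < EE μ s n := by linarith
    have hP : Poly (rows 0 n) fun η => WS μ s η 0 n (Finset.Icc (0 : ℤ) n) := by
      refine (poly_WS (μ := μ) (s := s) (0 : Pt) n (Finset.Icc (0 : ℤ) n)).mono ?_
      intro q hq
      refine ⟨hq.1, ?_⟩
      have h2 := hq.2.1
      simpa using h2
    have hpos : ∀ η, 0 < WS μ s η 0 n (Finset.Icc (0 : ℤ) n) := fun η => by
      rw [← exp_V]
      exact Real.exp_pos _
    have h1 := hcheb s _ (fun η => WS μ s η 0 n (Finset.Icc (0 : ℤ) n)) n hP hpos (fun η => le_rfl) (EE μ s n) hE0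
    have h2 := (mean_V h n).2
    have h3 : p ≤ (law μ).real {η | EE μ s n ≤ |Real.log (WS μ s η 0 n (Finset.Icc (0 : ℤ) n)) -
        ∫ ξ, Real.log (WS μ s ξ 0 n (Finset.Icc (0 : ℤ) n)) ∂(law μ)|} := by
      refine hV.trans (measureReal_mono (fun η hη => ?_) (measure_ne_top _ _))
      rw [Set.mem_ofPred_eq, one_mul] at hη
      rw [Set.mem_ofPred_eq]
      refine le_trans ?_ (le_abs_self _)
      have e1 : Real.log (WS μ s η 0 n (Finset.Icc (0 : ℤ) n)) = V μ s η 0 n := rfl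
      have e2 : ∫ ξ, Real.log (WS μ s ξ 0 n (Finset.Icc (0 : ℤ) n)) ∂(law μ) = ∫ ξ, V μ s ξ 0 n ∂(law μ) := rfl
      rw [e1, e2]
      linarith
    have h4 : EE μ s n ^ 2 * p ≤ D * n := (mul_le_mul_of_nonneg_left h3 (sq_nonneg _)).trans h1
    have h5 : EE μ s n ^ 2 ≤ D / p * n := by
      rw [div_mul_eq_mul_div, le_div_iff₀ hp]
      exact h4
    have h6 : EE μ s n ≤ Real.sqrt (D / p * n) := Real.le_sqrt_of_sq_le h5
    rw [Real.sqrt_mul (by positivity)] at h6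
    refine h6.trans (mul_le_mul_of_nonneg_right ?_ (by linarith))
    rw [hK]
    linarith
  · have h1 : EE μ s n ≤ EE μ s n₁ := EE_mono hn1.le
    have h2 : EE μ s n₁ ≤ K := by rw [hK]; linarith
    have hK0 : 0 ≤ K := by rw [hK]; linarith
    nlinarith

/-- The unit grows by any factor. -/
theorem EE_grow40 (h : In μ s c C n₀) (B : ℝ) : ∃ J n₁ : ℕ, ∀ n : ℕ, n₁ ≤ n → B * EE μ s n ≤ EE μ s (2 ^ J * n) := by
  obtain ⟨J, n₁, hJ⟩ := scale_a h B
  refine ⟨J, n₁, fun n hn => hJ n (2 ^ J * n) ?_ le_rfl⟩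
  exact hn.trans (Nat.le_mul_of_pos_left n (by positivity))

/-- The width grows by any factor. -/
theorem wd_grow (h : In μ s c C n₀) (B : ℝ) (hB : 0 ≤ B) : ∃ J n₁ : ℕ, ∀ n : ℕ, n₁ ≤ n → B * EE μ s n ≤ EE μ s (2 ^ J * n) ∧
    B * wd μ s n ≤ wd μ s (2 ^ J * n) := by
  obtain ⟨J, n₁, hJ⟩ := EE_grow40 h (2 * B)
  obtain ⟨n₂, hg⟩ := wd_growth h
  refine ⟨J, max n₁ n₂, fun n hn => ?_⟩
  have hE := one_le_EE (μ := μ) (s := s) n
  have h1 := hJ n ((le_max_left _ _).trans hn)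
  have h2 := hg n (2 ^ J * n) ((le_max_right _ _).trans hn) (Nat.le_mul_of_pos_left n (by positivity))
  have hw : 0 ≤ wd μ s n := h.wd_nonneg n
  refine ⟨by nlinarith, ?_⟩
  have h3 : wd μ s n * (2 * B * EE μ s n) ≤ 2 * EE μ s n * wd μ s (2 ^ J * n) := (mul_le_mul_of_nonneg_left h1 hw).trans h2
  have hE0 : 0 < 2 * EE μ s n := by linarith
  refine le_of_mul_le_mul_left ?_ hE0
  nlinarith

end Pool.Agent.W_7d29a1_HS
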