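import Pool.Agent.W_7d29a1_HS.Scale
import Pool.Agent.W_7d29a1_H.MeanA
import Pool.Agent.W_7d29a1_H.Soft4
import Pool.Agent.W_7d29a1_h95g.TubeDet
import Pool.Agent.W_7d29a1_h95g.TubeProb
import Pool.Agent.W_7d29a1_g.TubeSoft
import Pool.Agent.W_7d29a1_L.LsA1

/-!
MP_7d29a1_pr, TRACK H, part 3, section (S2) at one tilt `s`: the mean cost of the polymer confined to the strip of slope `sl μ s` and half
width `R wd n` is of the order of the unit (model: `W_7d29a1_SR.TubeS`). (helper87)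
-/

set_option autoImplicit false

namespace Pool.Agent.W_7d29a1_HS

open MeasureTheory ProbabilityTheory Filter Topology
open Pool.Agent.W_7d29a1_F Pool.Agent.W_7d29a1_h4g Pool.Agent.W_7d29a1_H
open Pool.Agent.W_7d29a1_L (Mh T kap Bx mem_Bx exp_T le_Mh Sub_Mh)
open Pool.Agent.W_7d29a1_h95g
open Pool.Agent.W_7d29a1_g (HasPath log_WR_le_V)

private lemma tu_T0 {μ : Measure ℝ} {s v : ℝ} (η : Env) (a : Pt) (m : ℕ) : T μ s v 0 η a m = V μ s η a m := by
  unfold T kap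
  simp

private lemma tu_W {μ : Measure ℝ} {s v h : ℝ} (η : Env) (a : Pt) (n : ℕ) (y : ℤ) :
    W μ s η a n y ≤ Real.exp (T μ s v h η a n - h * ((y : ℝ) - v * n)) := by
  by_cases hy : 0 ≤ y ∧ y ≤ n
  · have h1 := exp_T (μ := μ) (s := s) (v := v) (h := h) η a n
    have h2 : W μ s η a n y * Real.exp (h * ((y : ℝ) - v * n)) ≤ Real.exp (T μ s v h η a n) := by
      rw [h1]
      exact Finset.single_le_sum (f := fun y : ℤ => W μ s η a n y * Real.exp (h * ((y : ℝ) - v * n)))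
        (fun y _ => mul_nonneg (W_nonneg _ _ _ _) (Real.exp_nonneg _)) (Finset.mem_Icc.2 hy)
    rw [Real.exp_sub, le_div_iff₀ (Real.exp_pos _)]
    exact h2
  · rw [W_eq_zero η a hy]
    exact (Real.exp_pos _).le

/-- The exits through one line. -/
private lemma tu_line {μ : Measure ℝ} {s : ℝ} (l : ℤ → ℤ) (η : Env) (n : ℕ) {B : ℝ}
    (hB : ∀ k : ℕ, k < n → W μ s η 0 (k + 1) (l ((k + 1 : ℕ) : ℤ)) *
      Real.exp (V μ s η (((k + 1 : ℕ) : ℤ), l ((k + 1 : ℕ) : ℤ)) (n - (k + 1))) ≤ B) :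
    ∑ y ∈ Finset.Icc (0 : ℤ) n, ∑ k ∈ Finset.range n, W μ s η 0 (k + 1) (l ((k + 1 : ℕ) : ℤ)) *
      W μ s η (((k + 1 : ℕ) : ℤ), l ((k + 1 : ℕ) : ℤ)) (n - (k + 1)) (y - l ((k + 1 : ℕ) : ℤ)) ≤ n * B := by
  rw [Finset.sum_comm]
  have h1 : ∀ k ∈ Finset.range n, ∑ y ∈ Finset.Icc (0 : ℤ) n, W μ s η 0 (k + 1) (l ((k + 1 : ℕ) : ℤ)) *
      W μ s η (((k + 1 : ℕ) : ℤ), l ((k + 1 : ℕ) : ℤ)) (n - (k + 1)) (y - l ((k + 1 : ℕ) : ℤ)) ≤ B := by
    intro k hk
    rw [Finset.mem_range] at hk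
    rw [← Finset.mul_sum]
    refine le_trans (mul_le_mul_of_nonneg_left ?_ (W_nonneg _ _ _ _)) (hB k hk)
    have h2 := WS_le_exp_V (μ := μ) (s := s) η (((k + 1 : ℕ) : ℤ), l ((k + 1 : ℕ) : ℤ)) (n - (k + 1))
      ((Finset.Icc (0 : ℤ) n).map (Equiv.subRight (l ((k + 1 : ℕ) : ℤ))).toEmbedding)
    unfold WS at h2
    rw [Finset.sum_map] at h2
    simpa using h2
  calc ∑ k ∈ Finset.range n, _ ≤ ∑ k ∈ Finset.range n, B := Finset.sum_le_sum h1
    _ = n * B := by rw [Finset.sum_const, Finset.card_range, nsmul_eq_mul]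

/-- THE DETERMINISTIC PART: the paths which leave the strip, against four box maxima. -/
private lemma tu_det {μ : Measure ℝ} [IsProbabilityMeasure μ] {s h w b ρ : ℝ} {K n N : ℕ} (hv : 0 < sl μ s ∧ sl μ s < 1)
    (hN : n ≤ N) (hh : 0 ≤ h) (hw : 2 ≤ w) (hK : 1 ≤ K) (hρ : (K : ℝ) ≤ ρ) (η : Env)
    (m1 : Mh μ s (sl μ s) h w (-(w / 2)) N η ≤ b)
    (m2 : Mh μ s (sl μ s) (-h) w (-(w / 2)) N η ≤ b)
    (m3 : Mh μ s (sl μ s) 0 w (K - 1 - w / 4) N η ≤ b)
    (m4 : Mh μ s (sl μ s) 0 w (-K - 1 - w / 4) N η ≤ b) :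
    Real.exp (V μ s η 0 n) - ∑ y ∈ Finset.Icc (0 : ℤ) n, WR μ s (St μ s ρ 0) η 0 n y ≤
      2 * n * Real.exp (2 * b - h * (K - 1)) := by
  obtain ⟨v, hvd⟩ : ∃ v : ℝ, v = sl μ s := ⟨_, rfl⟩
  have hst : St μ s ρ 0 = {p : Pt | |(p.2 : ℝ) - v * (p.1 : ℝ)| ≤ ρ} := by
    unfold St tb
    rw [← hvd]
    simp
  rw [hst]
  rw [← hvd] at hv m1 m2 m3 m4
  obtain ⟨hv0, hv1⟩ := hv
  obtain ⟨lp, hlp⟩ : ∃ lp : ℤ → ℤ, lp = fun t : ℤ => ⌊v * (t : ℝ)⌋ + (K : ℤ) := ⟨_, rfl⟩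
  obtain ⟨lm, hlm⟩ : ∃ lm : ℤ → ℤ, lm = fun t : ℤ => ⌊v * (t : ℝ)⌋ - (K : ℤ) := ⟨_, rfl⟩
  have hf1 : ∀ t : ℤ, ⌊v * (t : ℝ)⌋ ≤ ⌊v * ((t + 1 : ℤ) : ℝ)⌋ := fun t => by
    refine Int.floor_mono ?_
    push_cast
    linarith
  have hf2 : ∀ t : ℤ, ⌊v * ((t + 1 : ℤ) : ℝ)⌋ ≤ ⌊v * (t : ℝ)⌋ + 1 := fun t => by
    have h1 : ⌊v * ((t + 1 : ℤ) : ℝ)⌋ ≤ ⌊v * (t : ℝ) + 1⌋ := by
      refine Int.floor_mono ?_
      push_cast
      linarith
    rwa [Int.floor_add_one] at h1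
  have hp : IsLine lp := ⟨fun t => by
    have := hf1 t
    rw [hlp]; dsimp only; linarith, fun t => by
    have := hf2 t
    rw [hlp]; dsimp only; linarith⟩
  have hm : IsLine lm := ⟨fun t => by
    have := hf1 t
    rw [hlm]; dsimp only; linarith, fun t => by
    have := hf2 t
    rw [hlm]; dsimp only; linarith⟩
  have hp0 : 0 < lp 0 := by
    rw [hlp]; dsimp only
    simp only [Int.cast_zero, mul_zero, Int.floor_zero]
    omega
  have hm0 : lm 0 < 0 := by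
    rw [hlm]; dsimp only
    simp only [Int.cast_zero, mul_zero, Int.floor_zero]
    omega
  -- positions of the lines
  have hpR : ∀ t : ℤ, (K : ℝ) - 1 < (lp t : ℝ) - v * (t : ℝ) ∧ (lp t : ℝ) - v * (t : ℝ) ≤ K := by
    intro t
    have h1 := Int.floor_le (v * (t : ℝ))
    have h2 := Int.lt_floor_add_one (v * (t : ℝ))
    rw [hlp]
    push_cast
    constructor <;> linarith
  have hmR : ∀ t : ℤ, -(K : ℝ) - 1 < (lm t : ℝ) - v * (t : ℝ) ∧ (lm t : ℝ) - v * (t : ℝ) ≤ -K := by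
    intro t
    have h1 := Int.floor_le (v * (t : ℝ))
    have h2 := Int.lt_floor_add_one (v * (t : ℝ))
    rw [hlm]
    push_cast
    constructor <;> linarith
  -- the region
  have hsub : Tb lm lp ⊆ {p : Pt | |(p.2 : ℝ) - v * (p.1 : ℝ)| ≤ ρ} := by
    rintro ⟨t, x⟩ hx
    obtain ⟨h1, h2⟩ := hx
    change lm t < x at h1
    change x < lp t at h2
    have h1' : ((lm t : ℝ)) + 1 ≤ x := by exact_mod_cast h1
    have h2' : ((x : ℝ)) + 1 ≤ lp t := by exact_mod_cast h2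
    have h3 := hpR t
    have h4 := hmR t
    show |(x : ℝ) - v * (t : ℝ)| ≤ ρ
    rw [abs_le]
    constructor <;> linarith [h3.2, h4.1]
  -- the four lucks
  have hv0' : (0 : ℝ) ≤ v := hv0.le
  have hv1' : v ≤ 1 := hv1.le
  have l1 : ∀ k : ℕ, k < n → T μ s v h η 0 (k + 1) ≤ b := by
    intro k hk
    refine le_trans ?_ m1
    refine le_Mh (μ := μ) (s := s) (v := v) (h := h) (w := w) (z := -(w / 2)) (n := N) η
      (q := ((0, 0), k + 1)) ((mem_Bx hv0' hv1').2 ⟨by dsimp only; omega, ?_, ?_⟩)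
    · push_cast
      linarith
    · push_cast
      linarith
  have l2 : ∀ k : ℕ, k < n → T μ s v (-h) η 0 (k + 1) ≤ b := by
    intro k hk
    refine le_trans ?_ m2
    refine le_Mh (μ := μ) (s := s) (v := v) (h := -h) (w := w) (z := -(w / 2)) (n := N) η
      (q := ((0, 0), k + 1)) ((mem_Bx hv0' hv1').2 ⟨by dsimp only; omega, ?_, ?_⟩)
    · push_cast
      linarith
    · push_cast
      linarith
  have l3 : ∀ k : ℕ, k < n → V μ s η (((k + 1 : ℕ) : ℤ), lp ((k + 1 : ℕ) : ℤ)) (n - (k + 1)) ≤ b := by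
    intro k hk
    rw [← tu_T0 (v := v)]
    refine le_trans ?_ m3
    have hx := hpR ((k + 1 : ℕ) : ℤ)
    have hcast : ((((k + 1 : ℕ) : ℤ)) : ℝ) = ((k + 1 : ℕ) : ℝ) := by push_cast; ring
    rw [hcast] at hx
    refine le_Mh (μ := μ) (s := s) (v := v) (h := 0) (w := w) (z := K - 1 - w / 4) (n := N) η
      (q := ((k + 1, lp ((k + 1 : ℕ) : ℤ)), n - (k + 1))) ((mem_Bx hv0' hv1').2 ⟨by dsimp only; omega, ?_, ?_⟩)
    · dsimp only
      linarith [hx.1]
    · dsimp only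
      linarith [hx.2]
  have l4 : ∀ k : ℕ, k < n → V μ s η (((k + 1 : ℕ) : ℤ), lm ((k + 1 : ℕ) : ℤ)) (n - (k + 1)) ≤ b := by
    intro k hk
    rw [← tu_T0 (v := v)]
    refine le_trans ?_ m4
    have hx := hmR ((k + 1 : ℕ) : ℤ)
    have hcast : ((((k + 1 : ℕ) : ℤ)) : ℝ) = ((k + 1 : ℕ) : ℝ) := by push_cast; ring
    rw [hcast] at hx
    refine le_Mh (μ := μ) (s := s) (v := v) (h := 0) (w := w) (z := -K - 1 - w / 4) (n := N) η
      (q := ((k + 1, lm ((k + 1 : ℕ) : ℤ)), n - (k + 1))) ((mem_Bx hv0' hv1').2 ⟨by dsimp only; omega, ?_, ?_⟩)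
    · dsimp only
      linarith [hx.1]
    · dsimp only
      linarith [hx.2]
  -- the two lines
  have q1 := tu_line (μ := μ) (s := s) lp η n (B := Real.exp (2 * b - h * (K - 1))) (fun k hk => by
    have hx := hpR ((k + 1 : ℕ) : ℤ)
    have hcast : ((((k + 1 : ℕ) : ℤ)) : ℝ) = ((k + 1 : ℕ) : ℝ) := by push_cast; ring
    rw [hcast] at hx
    have h1 := tu_W (μ := μ) (s := s) (v := v) (h := h) η 0 (k + 1) (lp ((k + 1 : ℕ) : ℤ))
    have h2 : Real.exp (T μ s v h η 0 (k + 1) - h * ((lp ((k + 1 : ℕ) : ℤ) : ℝ) - v * ((k + 1 : ℕ) : ℝ))) ≤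
        Real.exp (b - h * (K - 1)) := by
      refine Real.exp_le_exp.2 ?_
      have h3 : h * (K - 1) ≤ h * ((lp ((k + 1 : ℕ) : ℤ) : ℝ) - v * ((k + 1 : ℕ) : ℝ)) :=
        mul_le_mul_of_nonneg_left (by linarith [hx.1]) hh
      linarith [l1 k hk]
    have h3 := Real.exp_le_exp.2 (l3 k hk)
    calc _ ≤ Real.exp (b - h * (K - 1)) * Real.exp b :=
          mul_le_mul (h1.trans h2) h3 (Real.exp_nonneg _) (Real.exp_nonneg _)
      _ = Real.exp (2 * b - h * (K - 1)) := by rw [← Real.exp_add]; congr 1; ring)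
  have q2 := tu_line (μ := μ) (s := s) lm η n (B := Real.exp (2 * b - h * (K - 1))) (fun k hk => by
    have hx := hmR ((k + 1 : ℕ) : ℤ)
    have hcast : ((((k + 1 : ℕ) : ℤ)) : ℝ) = ((k + 1 : ℕ) : ℝ) := by push_cast; ring
    rw [hcast] at hx
    have h1 := tu_W (μ := μ) (s := s) (v := v) (h := -h) η 0 (k + 1) (lm ((k + 1 : ℕ) : ℤ))
    have h2 : Real.exp (T μ s v (-h) η 0 (k + 1) - -h * ((lm ((k + 1 : ℕ) : ℤ) : ℝ) - v * ((k + 1 : ℕ) : ℝ))) ≤
        Real.exp (b - h * (K - 1)) := by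
      refine Real.exp_le_exp.2 ?_
      have h3 : h * (K - 1) ≤ h * (v * ((k + 1 : ℕ) : ℝ) - (lm ((k + 1 : ℕ) : ℤ) : ℝ)) :=
        mul_le_mul_of_nonneg_left (by linarith [hx.2]) hh
      nlinarith [l2 k hk]
    have h3 := Real.exp_le_exp.2 (l4 k hk)
    calc _ ≤ Real.exp (b - h * (K - 1)) * Real.exp b :=
          mul_le_mul (h1.trans h2) h3 (Real.exp_nonneg _) (Real.exp_nonneg _)
      _ = Real.exp (2 * b - h * (K - 1)) := by rw [← Real.exp_add]; congr 1; ring)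
  have hsum : Real.exp (V μ s η 0 n) ≤ ∑ y ∈ Finset.Icc (0 : ℤ) n, (WR μ s (Tb lm lp) η 0 n y +
      (∑ k ∈ Finset.range n, W μ s η 0 (k + 1) (lp ((k + 1 : ℕ) : ℤ)) *
        W μ s η (((k + 1 : ℕ) : ℤ), lp ((k + 1 : ℕ) : ℤ)) (n - (k + 1)) (y - lp ((k + 1 : ℕ) : ℤ))) +
      ∑ k ∈ Finset.range n, W μ s η 0 (k + 1) (lm ((k + 1 : ℕ) : ℤ)) *
        W μ s η (((k + 1 : ℕ) : ℤ), lm ((k + 1 : ℕ) : ℤ)) (n - (k + 1)) (y - lm ((k + 1 : ℕ) : ℤ))) := by
    rw [exp_V]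
    unfold WS
    exact Finset.sum_le_sum fun y _ => tube_split (μ := μ) (s := s) hm hp hm0 hp0 η n y
  rw [Finset.sum_add_distrib, Finset.sum_add_distrib] at hsum
  have hreg : ∑ y ∈ Finset.Icc (0 : ℤ) n, WR μ s (Tb lm lp) η 0 n y ≤ ∑ y ∈ Finset.Icc (0 : ℤ) n,
      WR μ s {p : Pt | |(p.2 : ℝ) - v * (p.1 : ℝ)| ≤ ρ} η 0 n y := by
    refine Finset.sum_le_sum fun y _ => ?_
    rw [WR_def', WR_def']
    exact mul_le_mul_of_nonneg_left (Zr_mono hsub η 0 n y) (Real.exp_nonneg _)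
  linarith

variable {μ : Measure ℝ} [IsProbabilityMeasure μ] {s c C : ℝ} {n₀ : ℕ}

private lemma tu_markov (h : In μ s c C n₀) {n : ℕ}
    (hn : n₀ ≤ n) {t z b : ℝ} (ht : |t| * wd μ s n ≤ c * EE μ s n) :
    (law μ).real {η | b < Mh μ s (sl μ s) t (wd μ s n) z (4 * n) η} ≤ C * Real.exp (-(b / (C * EE μ s n))) := by
  have hE : 0 < EE μ s n := lt_of_lt_of_le one_pos (one_le_EE n)
  have hC : 0 < C := lt_of_lt_of_le one_pos h.C1
  have hCE : 0 < C * EE μ s n := mul_pos hC hE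
  have hint : Integrable (fun η : Env => Real.exp (Mh μ s (sl μ s) t (wd μ s n) z (4 * n) η / (C * EE μ s n))) (law μ) := by
    have h1 := ((Sub_Mh (μ := μ) (s := s) (v := sl μ s) (h := t) (w := wd μ s n) (z := z) (n := 4 * n)).const_mul
      (C * EE μ s n)⁻¹).exp_int h.em
    refine h1.congr (Eventually.of_forall fun η => ?_)
    show Real.exp ((C * EE μ s n)⁻¹ * Mh μ s (sl μ s) t (wd μ s n) z (4 * n) η) =
      Real.exp (Mh μ s (sl μ s) t (wd μ s n) z (4 * n) η / (C * EE μ s n))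
    congr 1
    ring
  have h1 := mul_meas_ge_le_integral_of_nonneg (μ := law μ)
    (Eventually.of_forall fun η => (Real.exp_pos (Mh μ s (sl μ s) t (wd μ s n) z (4 * n) η / (C * EE μ s n))).le) hint
    (Real.exp (b / (C * EE μ s n)))
  have h2 : (law μ).real {η | b < Mh μ s (sl μ s) t (wd μ s n) z (4 * n) η} ≤
      (law μ).real {η | Real.exp (b / (C * EE μ s n)) ≤ Real.exp (Mh μ s (sl μ s) t (wd μ s n) z (4 * n) η / (C * EE μ s n))} := by
    refine measureReal_mono (fun η hη => ?_)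
    have hη' : b < Mh μ s (sl μ s) t (wd μ s n) z (4 * n) η := hη
    show Real.exp (b / (C * EE μ s n)) ≤ Real.exp (Mh μ s (sl μ s) t (wd μ s n) z (4 * n) η / (C * EE μ s n))
    exact Real.exp_le_exp.2 (div_le_div_of_nonneg_right hη'.le hCE.le)
  have h3 : Real.exp (b / (C * EE μ s n)) * (law μ).real {η | b < Mh μ s (sl μ s) t (wd μ s n) z (4 * n) η} ≤ C :=
    (mul_le_mul_of_nonneg_left h2 (Real.exp_nonneg _)).trans (h1.trans (h.luck n hn t z ht))
  rw [Real.exp_neg, ← div_eq_mul_inv, le_div_iff₀ (Real.exp_pos _), mul_comm]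
  exact h3

omit [IsProbabilityMeasure μ] in
/-- A straight path in the strip. -/
private lemma tu_path {m : ℕ} {y : ℤ} (h0 : 0 ≤ y) (h1 : y ≤ m) {r : ℝ} (hr : |(y : ℝ) - sl μ s * m| + 1 ≤ r) :
    HasPath (St μ s r 0) 0 m y := by
  rcases Nat.eq_zero_or_pos m with hm | hm
  · subst hm
    have hy : y = 0 := by
      have : y ≤ 0 := by simpa using h1
      omega
    subst hy
    exact ⟨fun _ => 0, rfl, rfl, fun k hk => absurd hk (Nat.not_lt_zero k), fun k h1 h2 => by omega⟩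
  have hmz : (0 : ℤ) < m := by exact_mod_cast hm
  have hmr : (0 : ℝ) < m := by exact_mod_cast hm
  refine ⟨fun k => (k : ℤ) * y / m, by simp, ?_, fun k hk => ?_, fun k hk1 hk2 => ?_⟩
  · show (m : ℤ) * y / m = y
    exact Int.mul_ediv_cancel_left y hmz.ne'
  · show (((k + 1 : ℕ) : ℤ) * y / m = (k : ℤ) * y / m) ∨ (((k + 1 : ℕ) : ℤ) * y / m = (k : ℤ) * y / m + 1)
    have e1 : ((k + 1 : ℕ) : ℤ) * y = (k : ℤ) * y + y := by push_cast; ring
    rw [e1]
    have a1 : (k : ℤ) * y / m ≤ ((k : ℤ) * y + y) / m := Int.ediv_le_ediv hmz (by linarith)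
    have a2 : ((k : ℤ) * y + y) / m ≤ (k : ℤ) * y / m + 1 := by
      have a3 : ((k : ℤ) * y + y) / m ≤ ((k : ℤ) * y + m) / m := Int.ediv_le_ediv hmz (by linarith)
      have a4 : ((k : ℤ) * y + m) / m = (k : ℤ) * y / m + 1 := by
        have := Int.add_mul_ediv_right ((k : ℤ) * y) 1 hmz.ne'
        rwa [one_mul] at this
      rwa [a4] at a3
    omega
  · show |((((0 : Pt).2 + (k : ℤ) * y / m - (0 : Pt).2 : ℤ) : ℝ)) - sl μ s * ((((0 : Pt).1 + (k : ℤ) - (0 : Pt).1 : ℤ) : ℝ))| ≤ r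
    simp only [Prod.fst_zero, Prod.snd_zero, sub_zero, zero_add, Int.cast_natCast]
    obtain ⟨v, hv⟩ : ∃ v : ℝ, v = sl μ s := ⟨_, rfl⟩
    rw [← hv] at hr ⊢
    have b1 : ((k : ℤ) * y / m) * m ≤ (k : ℤ) * y := Int.ediv_mul_le _ hmz.ne'
    have b2 : (k : ℤ) * y < ((k : ℤ) * y / m + 1) * m := Int.lt_ediv_add_one_mul_self _ hmz
    obtain ⟨q, hq⟩ : ∃ q : ℤ, q = (k : ℤ) * y / m := ⟨_, rfl⟩
    rw [← hq] at b1 b2 ⊢
    have c1 : (q : ℝ) * m ≤ (k : ℝ) * y := by exact_mod_cast b1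
    have c2 : (k : ℝ) * y < ((q : ℝ) + 1) * m := by exact_mod_cast b2
    have hk : (k : ℝ) ≤ m := by exact_mod_cast hk2
    have hk0 : (0 : ℝ) ≤ k := Nat.cast_nonneg k
    obtain ⟨d, hd⟩ : ∃ d, d = |(y : ℝ) - v * m| := ⟨_, rfl⟩
    have hd0 : 0 ≤ d := by rw [hd]; exact abs_nonneg _
    rw [← hd] at hr
    have hdd := abs_le.1 (le_of_eq hd.symm)
    have c3 : (k : ℝ) * (y - v * m) ≤ m * d := by
      calc (k : ℝ) * (y - v * m) ≤ k * d := mul_le_mul_of_nonneg_left hdd.2 hk0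
        _ ≤ m * d := mul_le_mul_of_nonneg_right hk hd0
    have c4 : -(m * d) ≤ (k : ℝ) * (y - v * m) := by
      have : -(k * d) ≤ (k : ℝ) * (y - v * m) := by
        have := mul_le_mul_of_nonneg_left hdd.1 hk0
        linarith
      have := mul_le_mul_of_nonneg_right hk hd0
      linarith
    have c6 : m * (d + 1) ≤ m * r := mul_le_mul_of_nonneg_left hr hmr.le
    rw [abs_le]
    constructor
    · have c5 : m * (-r) ≤ m * ((q : ℝ) - v * k) := by nlinarith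
      exact le_of_mul_le_mul_left c5 hmr
    · have c5 : m * ((q : ℝ) - v * k) ≤ m * r := by nlinarith
      exact le_of_mul_le_mul_left c5 hmr

/-- (S2) CONFINED PIECE. -/
theorem tubeS (h : In μ s c C n₀) : ∃ R C' : ℝ, 0 < R ∧ 0 < C' ∧ ∃ n₁ : ℕ, ∀ n, n₁ ≤ n → ∀ (m : ℕ) (y : ℤ), m ≤ n →
    0 ≤ y → y ≤ m → |(y : ℝ) - sl μ s * m| ≤ c * vA 1 μ s n * m + 1 →
    (∀ η, 0 < WR μ s (St μ s (R * wd μ s n) 0) η 0 m y) ∧
      ∫ η, max (-Real.log (WR μ s (St μ s (R * wd μ s n) 0) η 0 m y)) 0 ∂(law μ) ≤ C' * EE μ s n := by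
  have hc0 := h.c0
  have hC1 := h.C1
  have hc1 := h.c1
  have hC0 : 0 < C := lt_of_lt_of_le one_pos hC1
  obtain ⟨T, C1, hT1, hC10, hMC⟩ := mc0 (μ := μ) h.em h.nd (p := 1 / 2) (by norm_num)
  obtain ⟨B, hB⟩ : ∃ B : ℝ, B = C * Real.log (16 * C) := ⟨_, rfl⟩
  have hlog16 : 0 < Real.log (16 * C) := Real.log_pos (by linarith)
  have hB0 : 0 < B := by rw [hB]; positivity
  have hBexp : C * Real.exp (-(B / C)) = 1 / 16 := by
    have e1 : B / C = Real.log (16 * C) := by rw [hB]; field_simp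
    rw [e1, Real.exp_neg, Real.exp_log (by positivity)]
    field_simp
  obtain ⟨R, hR⟩ : ∃ R : ℝ, R = 4 + (2 * B + 5 * C + 3) / c := ⟨_, rfl⟩
  have hR4 : 4 ≤ R := by
    rw [hR]
    have : 0 ≤ (2 * B + 5 * C + 3) / c := by positivity
    linarith
  have hRc : 2 * B + 5 * C + 3 ≤ c * (R - 4) := by
    rw [hR]
    field_simp
    linarith
  obtain ⟨n₂, hn₂⟩ := eventually_atTop.1 ((wd_tendsto h).eventually_ge_atTop 4)
  obtain ⟨Cm, hCm⟩ : ∃ Cm : ℝ, Cm = max (max (2 * (4 * C + 1)) |C1|) (12 * (T + 1)) := ⟨_, rfl⟩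
  have hCm1 : 2 * (4 * C + 1) ≤ Cm := by rw [hCm]; exact (le_max_left _ _).trans (le_max_left _ _)
  have hCm2 : |C1| ≤ Cm := by rw [hCm]; exact (le_max_right _ _).trans (le_max_left _ _)
  have hCm3 : 12 * ((T : ℝ) + 1) ≤ Cm := by rw [hCm]; exact le_max_right _ _
  have hCm0 : 0 < Cm := by linarith
  refine ⟨R, Cm + 1, by linarith, by linarith, max (max n₀ n₂) 1, fun n hn m y hmn hy0 hy1 hy => ?_⟩
  have hn0 : n₀ ≤ n := (le_max_left _ _).trans ((le_max_left _ _).trans hn)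
  have hn2 : n₂ ≤ n := (le_max_right _ _).trans ((le_max_left _ _).trans hn)
  have hn1 : 1 ≤ n := (le_max_right _ _).trans hn
  have hw4 : 4 ≤ wd μ s n := hn₂ n hn2
  have hw0 : 0 < wd μ s n := by linarith
  have hE1 : 1 ≤ EE μ s n := one_le_EE n
  have hE0 : 0 < EE μ s n := by linarith
  have hmn' : (m : ℝ) ≤ n := by exact_mod_cast hmn
  have hv0 : 0 ≤ vA 1 μ s n := h.vA_nonneg n
  -- the path
  have hyw : |(y : ℝ) - sl μ s * m| ≤ wd μ s n + 1 := by
    refine hy.trans ?_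
    have h1 : c * vA 1 μ s n * m ≤ 1 * vA 1 μ s n * n :=
      mul_le_mul (mul_le_mul_of_nonneg_right hc1 hv0) hmn' (Nat.cast_nonneg m) (by positivity)
    have h2 : wd μ s n = n * vA 1 μ s n := rfl
    linarith
  have hRw : 4 * wd μ s n ≤ R * wd μ s n := mul_le_mul_of_nonneg_right hR4 hw0.le
  have hpath : HasPath (St μ s (R * wd μ s n) 0) 0 m y := tu_path hy0 hy1 (by linarith)
  have hpos : ∀ η, 0 < WR μ s (St μ s (R * wd μ s n) 0) η 0 m y := fun η => hpath.wr_pos η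
  refine ⟨hpos, ?_⟩
  -- the numbers
  obtain ⟨t, htd⟩ : ∃ t : ℝ, t = c * EE μ s n / wd μ s n := ⟨_, rfl⟩
  have ht0 : 0 ≤ t := by rw [htd]; positivity
  have htw : t * wd μ s n = c * EE μ s n := by rw [htd]; field_simp
  obtain ⟨K, hKd⟩ : ∃ K : ℕ, K = ⌊R * wd μ s n⌋₊ := ⟨_, rfl⟩
  have hK1 : (K : ℝ) ≤ R * wd μ s n := by rw [hKd]; exact Nat.floor_le (by positivity)
  have hK2 : R * wd μ s n < K + 1 := by rw [hKd]; exact Nat.lt_floor_add_one _
  have hK0 : 1 ≤ K := by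
    have : (1 : ℝ) < (K : ℝ) := by linarith
    have h2 : 1 < K := by exact_mod_cast this
    omega
  obtain ⟨b, hb⟩ : ∃ b : ℝ, b = B * EE μ s n := ⟨_, rfl⟩
  have htK : c * (R - 1) * EE μ s n ≤ t * (K - 1) := by
    have h1 : (R - 1) * wd μ s n ≤ K - 1 := by linarith
    have h2 := mul_le_mul_of_nonneg_left h1 ht0
    have h3 : t * ((R - 1) * wd μ s n) = (R - 1) * (t * wd μ s n) := by ring
    rw [h3, htw] at h2
    linarith
  have habs1 : |t| * wd μ s n ≤ c * EE μ s n := by rw [abs_of_nonneg ht0, htw]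
  have habs2 : |(-t)| * wd μ s n ≤ c * EE μ s n := by rw [abs_neg]; exact habs1
  have habs3 : |(0 : ℝ)| * wd μ s n ≤ c * EE μ s n := by rw [abs_zero, zero_mul]; positivity
  have hmark : ∀ {t' z : ℝ}, |t'| * wd μ s n ≤ c * EE μ s n →
      (law μ).real {η | b < Mh μ s (sl μ s) t' (wd μ s n) z (4 * n) η} ≤ 1 / 16 := by
    intro t' z ht'
    have h1 := tu_markov h hn0 (t := t') (z := z) (b := b) ht'
    have h2 : b / (C * EE μ s n) = B / C := by
      rw [hb]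
      field_simp
    rw [h2, hBexp] at h1
    exact h1
  -- the free polymer
  have hinn := h.inn n hn0 m y (by omega) hy0 hy1 hy
  have hX := half_X (μ := μ) (s := s) h.em 0 hy0 hy1 (B := C * EE μ s n) (c := 4 * C * EE μ s n) hinn (by positivity)
  have hX' : 3 / 4 ≤ (law μ).real {η | X μ s η 0 m y ≤ 4 * C * EE μ s n} := by
    have h1 : C * EE μ s n / (4 * C * EE μ s n) = 1 / 4 := by field_simp
    rw [h1] at hX
    linarith
  -- the event
  have hlog : (n : ℝ) * 2 ≤ Real.exp ((C + 1) * EE μ s n) := by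
    have hnp : (0 : ℝ) < n := by exact_mod_cast (by omega : 0 < n)
    have h1 : Real.log ((n : ℝ) * 2) ≤ (C + 1) * EE μ s n := by
      rw [Real.log_mul hnp.ne' (by norm_num)]
      have h2 := h.lg n hn1
      have h3 : Real.log 2 ≤ 1 := by
        have := Real.log_two_lt_d9
        linarith
      linarith
    calc (n : ℝ) * 2 = Real.exp (Real.log ((n : ℝ) * 2)) := (Real.exp_log (by positivity)).symm
      _ ≤ _ := Real.exp_le_exp.2 h1
  have hsub : {η : Env | X μ s η 0 m y ≤ 4 * C * EE μ s n} ⊆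
      {η | -((4 * C + 1) * EE μ s n) ≤ Real.log (WR μ s (St μ s (R * wd μ s n) 0) η 0 m y)} ∪
      ((({η : Env | b < Mh μ s (sl μ s) t (wd μ s n) (-(wd μ s n / 2)) (4 * n) η} ∪
        {η : Env | b < Mh μ s (sl μ s) (-t) (wd μ s n) (-(wd μ s n / 2)) (4 * n) η}) ∪
        {η : Env | b < Mh μ s (sl μ s) 0 (wd μ s n) (K - 1 - wd μ s n / 4) (4 * n) η}) ∪
        {η : Env | b < Mh μ s (sl μ s) 0 (wd μ s n) (-K - 1 - wd μ s n / 4) (4 * n) η}) := by
    intro η hη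
    by_contra hcon
    simp only [Set.mem_union, Set.mem_ofPred_eq, not_or, not_lt, not_le] at hcon hη
    obtain ⟨g1, ⟨⟨g2, g3⟩, g4⟩, g5⟩ := hcon
    have k1 := tu_det (μ := μ) (s := s) (h := t) (w := wd μ s n) (b := b) (ρ := R * wd μ s n) (K := K) (n := m) (N := 4 * n)
      ⟨h.sl_pos, h.sl_lt⟩ (by omega) ht0 (by linarith) hK0 hK1 η g2 g3 g4 g5
    have k2 : W μ s η 0 m y - WR μ s (St μ s (R * wd μ s n) 0) η 0 m y ≤ Real.exp (V μ s η 0 m) -
        ∑ y ∈ Finset.Icc (0 : ℤ) m, WR μ s (St μ s (R * wd μ s n) 0) η 0 m y := by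
      rw [exp_V]
      unfold WS
      rw [← Finset.sum_sub_distrib]
      exact Finset.single_le_sum (f := fun y : ℤ => W μ s η 0 m y - WR μ s (St μ s (R * wd μ s n) 0) η 0 m y)
        (fun y _ => sub_nonneg.2 (WR_le_W _ _ _ _ _)) (Finset.mem_Icc.2 ⟨hy0, hy1⟩)
    have k3 : W μ s η 0 m y - WR μ s (St μ s (R * wd μ s n) 0) η 0 m y ≤ 2 * m * Real.exp (2 * b - t * (K - 1)) :=
      k2.trans k1
    have k4 : 2 * (m : ℝ) * Real.exp (2 * b - t * (K - 1)) ≤ Real.exp (-((4 * C + 1) * EE μ s n)) := by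
      calc 2 * (m : ℝ) * Real.exp (2 * b - t * (K - 1)) ≤ Real.exp ((C + 1) * EE μ s n) *
            Real.exp (2 * b - t * (K - 1)) := mul_le_mul_of_nonneg_right (by linarith) (Real.exp_pos _).le
        _ = Real.exp ((C + 1) * EE μ s n + (2 * b - t * (K - 1))) := by rw [Real.exp_add]
        _ ≤ _ := by
            refine Real.exp_le_exp.2 ?_
            have h1 : (2 * B + 5 * C + 3) * EE μ s n ≤ c * (R - 4) * EE μ s n := mul_le_mul_of_nonneg_right hRc hE0.le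
            have h2 : 0 ≤ c * EE μ s n := by positivity
            rw [hb]
            nlinarith
    have k5 : Real.exp (-(4 * C * EE μ s n)) ≤ W μ s η 0 m y := by
      have h1 : X μ s η 0 m y = -Real.log (W μ s η 0 m y) := rfl
      rw [h1] at hη
      rw [← Real.le_log_iff_exp_le (W_pos η 0 hy0 hy1)]
      linarith
    have k6 : Real.exp (-((4 * C + 1) * EE μ s n)) ≤ Real.exp (-(4 * C * EE μ s n)) / 2 := by
      have h1 : Real.exp (-((4 * C + 1) * EE μ s n)) = Real.exp (-(4 * C * EE μ s n)) * Real.exp (-EE μ s n) := by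
        rw [← Real.exp_add]
        congr 1
        ring
      have h2 : Real.exp (-EE μ s n) ≤ 1 / 2 := by
        have h3 : Real.exp (-EE μ s n) ≤ Real.exp (-Real.log 2) := Real.exp_le_exp.2 (by
          have := Real.log_two_lt_d9
          linarith)
        rw [Real.exp_neg (Real.log 2), Real.exp_log (by norm_num)] at h3
        linarith
      rw [h1]
      have := mul_le_mul_of_nonneg_left h2 (Real.exp_pos (-(4 * C * EE μ s n))).le
      linarith
    have k7 : Real.exp (-((4 * C + 1) * EE μ s n)) ≤ WR μ s (St μ s (R * wd μ s n) 0) η 0 m y := by linarith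
    have k8 : -((4 * C + 1) * EE μ s n) ≤ Real.log (WR μ s (St μ s (R * wd μ s n) 0) η 0 m y) := by
      rw [Real.le_log_iff_exp_le (hpos η)]
      exact k7
    linarith
  have hprob : 1 / 2 ≤ (law μ).real {η | -((4 * C + 1) * EE μ s n) ≤ Real.log (WR μ s (St μ s (R * wd μ s n) 0) η 0 m y)} := by
    have h1 := (measureReal_mono (μ := law μ) hsub (measure_ne_top _ _)).trans (measureReal_union_le _ _)
    have h2 := (measureReal_union_le (μ := law μ) ((({η : Env | b < Mh μ s (sl μ s) t (wd μ s n) (-(wd μ s n / 2)) (4 * n) η} ∪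
        {η : Env | b < Mh μ s (sl μ s) (-t) (wd μ s n) (-(wd μ s n / 2)) (4 * n) η}) ∪
        {η : Env | b < Mh μ s (sl μ s) 0 (wd μ s n) (K - 1 - wd μ s n / 4) (4 * n) η}))
        {η : Env | b < Mh μ s (sl μ s) 0 (wd μ s n) (-K - 1 - wd μ s n / 4) (4 * n) η})
    have h3 := (measureReal_union_le (μ := law μ) ({η : Env | b < Mh μ s (sl μ s) t (wd μ s n) (-(wd μ s n / 2)) (4 * n) η} ∪
        {η : Env | b < Mh μ s (sl μ s) (-t) (wd μ s n) (-(wd μ s n / 2)) (4 * n) η})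
        {η : Env | b < Mh μ s (sl μ s) 0 (wd μ s n) (K - 1 - wd μ s n / 4) (4 * n) η})
    have h4 := (measureReal_union_le (μ := law μ) {η : Env | b < Mh μ s (sl μ s) t (wd μ s n) (-(wd μ s n / 2)) (4 * n) η}
        {η : Env | b < Mh μ s (sl μ s) (-t) (wd μ s n) (-(wd μ s n / 2)) (4 * n) η})
    have g1 := hmark (z := -(wd μ s n / 2)) habs1
    have g2 := hmark (z := -(wd μ s n / 2)) habs2
    have g3 := hmark (z := K - 1 - wd μ s n / 4) habs3
    have g4 := hmark (z := -K - 1 - wd μ s n / 4) habs3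
    linarith
  -- the mean
  have hmean := hMC s m ((T + 1) * n) (by
      calc T * m ≤ T * n := Nat.mul_le_mul_left T hmn
        _ ≤ (T + 1) * n := Nat.mul_le_mul_right n (Nat.le_succ T))
    (fun η => WR μ s (St μ s (R * wd μ s n) 0) η 0 m y) (poly_WR4 (St μ s (R * wd μ s n) 0) m y) hpos
    (log_WR_le_V (St μ s (R * wd μ s n) 0) 0 hy0 hy1 hpos) ((4 * C + 1) * EE μ s n) hprob
  have hET : EE μ s ((T + 1) * n) ≤ 2 * ((T + 1) * EE μ s n) := by
    have h1 := scale_b h (m := n) (n := (T + 1) * n) hn1 (Nat.le_mul_of_pos_left n (Nat.succ_pos T))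
    have hnp : (0 : ℝ) < n := by exact_mod_cast (by omega : 0 < n)
    have h2 : (n : ℝ) * EE μ s ((T + 1) * n) ≤ n * (2 * ((T + 1) * EE μ s n)) := by
      refine h1.trans (le_of_eq ?_)
      push_cast
      ring
    exact le_of_mul_le_mul_left h2 hnp
  have hmean2 : -∫ η, Real.log (WR μ s (St μ s (R * wd μ s n) 0) η 0 m y) ∂(law μ) ≤ Cm * EE μ s n := by
    refine hmean.trans (max_le (max_le ?_ ?_) ?_)
    · have := mul_le_mul_of_nonneg_right hCm1 hE0.le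
      linarith
    · calc C1 ≤ |C1| := le_abs_self _
        _ ≤ Cm := hCm2
        _ = Cm * 1 := (mul_one _).symm
        _ ≤ Cm * EE μ s n := mul_le_mul_of_nonneg_left hE1 hCm0.le
    · have := mul_le_mul_of_nonneg_right hCm3 hE0.le
      linarith
  have hVp := Vp_mean_le (μ := μ) h.em s 0 m
  have hEm : es μ s m + 1 ≤ EE μ s n := le_EE hmn
  have hS := hpath.sub (μ := μ) (s := s)
  have hi1 : Integrable (fun η => Real.log (WR μ s (St μ s (R * wd μ s n) 0) η 0 m y)) (law μ) := hS.integrable h.em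
  have hi2 : Integrable (fun η => max (V μ s η 0 m) 0) (law μ) :=
    ((Sub_V (μ := μ) (s := s) 0 m).max (Sub.const 0)).integrable h.em
  have hpt : ∀ η, max (-Real.log (WR μ s (St μ s (R * wd μ s n) 0) η 0 m y)) 0 ≤
      -Real.log (WR μ s (St μ s (R * wd μ s n) 0) η 0 m y) + max (V μ s η 0 m) 0 := by
    intro η
    have h1 := log_WR_le_V (μ := μ) (s := s) (St μ s (R * wd μ s n) 0) 0 hy0 hy1 hpos η
    have h2 : V μ s η 0 m ≤ max (V μ s η 0 m) 0 := le_max_left _ _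
    have h3 : 0 ≤ max (V μ s η 0 m) 0 := le_max_right _ _
    exact max_le (by linarith) (by linarith)
  have h5 := integral_mono ((hS.neg.max (Sub.const 0)).integrable h.em) (hi1.neg.add hi2) hpt
  have h6 : ∫ η, (-Real.log (WR μ s (St μ s (R * wd μ s n) 0) η 0 m y) + max (V μ s η 0 m) 0) ∂(law μ) =
      -∫ η, Real.log (WR μ s (St μ s (R * wd μ s n) 0) η 0 m y) ∂(law μ) + ∫ η, max (V μ s η 0 m) 0 ∂(law μ) := by
    rw [← integral_neg]
    exact integral_add hi1.neg hi2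
  have h7 : ∫ η, max (-Real.log (WR μ s (St μ s (R * wd μ s n) 0) η 0 m y)) 0 ∂(law μ) ≤
      ∫ η, (-Real.log (WR μ s (St μ s (R * wd μ s n) 0) η 0 m y) + max (V μ s η 0 m) 0) ∂(law μ) := h5
  linarith

end Pool.Agent.W_7d29a1_HS
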