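import Pool.Agent.W_7d29a1_HS.TransB
import Pool.Agent.W_7d29a1_H.LamH2

/-!
MP_7d29a1_pr, TRACK H, part 3, section (i): the rate function. With `v = Lam' (h)` and the rate function `J` of the problem
(the Legendre transform of the free energy), `J μ (2 h) (u / 2) = J (v + u) - J (v) - h u` for small `u`. (helper40)
-/

set_option autoImplicit false

namespace Pool.Agent.W_7d29a1_HS

open MeasureTheory ProbabilityTheory Filter Topology
open Pool.Agent.W_7d29a1_F Pool.Agent.W_7d29a1_H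
open Pool.Agent.W_7d29a1_h47 (Lam)

variable {μ : Measure ℝ} [IsProbabilityMeasure μ]

/-- The exponent of the force `r` around the tilt `2 h` in the coordinates of the problem. -/
theorem ex_vel (h r : ℝ) : ex μ (2 * h) r = Lam μ (h + r / 2) - Lam μ h - r / 2 * vel μ h := by
  unfold ex vel lam
  have e1 : (2 * h + r) / 2 = h + r / 2 := by ring
  have e2 : 2 * h / 2 = h := by ring
  rw [e1, e2]
  ring

/-- The tangent of the free energy. -/
theorem Lam_tangent (hμ : Pool.Agent.W_7d29a1_h47.EM μ) (hnd : Pool.Agent.W_7d29a1_h47.Nondeg μ) (h h' : ℝ) :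
    Lam μ h + vel μ h * (h' - h) ≤ Lam μ h' := by
  have h1 := ex_nonneg hμ hnd (2 * h) (2 * (h' - h))
  rw [ex_vel] at h1
  have e1 : h + 2 * (h' - h) / 2 = h' := by ring
  rw [e1] at h1
  linarith

/-- The rate function of the problem at the velocity of the force `h`. -/
theorem lub_vel (hμ : Pool.Agent.W_7d29a1_h47.EM μ) (hnd : Pool.Agent.W_7d29a1_h47.Nondeg μ) {lam' : ℝ → ℝ}
    (hlam : ∀ h, lam' h = Lam μ h - Lam μ 0) (h : ℝ) :
    IsLUB (Set.range fun h' => h' * vel μ h - lam' h') (h * vel μ h - lam' h) := by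
  constructor
  · rintro _ ⟨h', rfl⟩
    have h1 := Lam_tangent hμ hnd h h'
    simp only [hlam]
    linarith
  · exact fun b hb => hb ⟨h, rfl⟩

/-- The rate function near the velocity of the force `h`. -/
theorem J_of_lub (hμ : Pool.Agent.W_7d29a1_h47.EM μ) (hnd : Pool.Agent.W_7d29a1_h47.Nondeg μ) {lam' : ℝ → ℝ}
    (hlam : ∀ h, lam' h = Lam μ h - Lam μ 0) (H : ℝ) :
    ∃ ρ : ℝ, 0 < ρ ∧ ∀ h : ℝ, |h| ≤ H → ∀ u : ℝ, |u| ≤ ρ → ∀ j j0 : ℝ,
      IsLUB (Set.range fun h' => h' * (vel μ h + u) - lam' h') j → IsLUB (Set.range fun h' => h' * vel μ h - lam' h') j0 →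
      J μ (2 * h) (u / 2) = j - j0 - h * u := by
  obtain ⟨ρ, hρ, hJ⟩ := J_true hμ hnd (2 * H)
  refine ⟨2 * ρ, by positivity, fun h hh u hu j j0 hj hj0 => ?_⟩
  have e0 : j0 = h * vel μ h - lam' h := hj0.unique (lub_vel hμ hnd hlam h)
  have hs : |2 * h| ≤ 2 * H := by
    rw [abs_mul, abs_of_pos (two_pos : (0 : ℝ) < 2)]
    linarith
  have hx : |u / 2| ≤ ρ := by
    rw [abs_div, abs_of_pos (two_pos : (0 : ℝ) < 2)]
    linarith
  have key : ∀ r : ℝ, r * (u / 2) - ex μ (2 * h) r =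
      ((h + r / 2) * (vel μ h + u) - lam' (h + r / 2)) - j0 - h * u := by
    intro r
    rw [ex_vel, e0, hlam, hlam]
    ring
  refine le_antisymm (J_le fun r _ => ?_) ?_
  · rw [key]
    have := hj.1 ⟨h + r / 2, rfl⟩
    simp only at this
    linarith
  · have h1 : j ≤ J μ (2 * h) (u / 2) + j0 + h * u := by
      refine hj.2 ?_
      rintro _ ⟨h', rfl⟩
      have h2 := hJ (2 * h) hs (u / 2) hx (2 * (h' - h))
      rw [key] at h2
      have e1 : h + 2 * (h' - h) / 2 = h' := by ring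
      rw [e1] at h2
      linarith
    linarith

end Pool.Agent.W_7d29a1_HS
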