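import Pool.Agent.W_7d29a1_HS.Defs

/-!
MP_7d29a1_pr, TRACK H, part 3, unlucky tail: the trivial exponential bound of the cost at the tilt `s` (model:
`W_7d29a1_h10.Triv`).
-/

set_option autoImplicit false

namespace Pool.Agent.W_7d29a1_HS

open MeasureTheory ProbabilityTheory Filter Topology
open Pool.Agent.W_7d29a1_F Pool.Agent.W_7d29a1_h4g Pool.Agent.W_7d29a1_H

variable {μ : Measure ℝ} [IsProbabilityMeasure μ]

private theorem site_sub (p : Pt) : Sub fun η : Env => -η p := by
  refine ⟨(measurable_pi_apply p).neg, {p}, 1, zero_le_one, fun η => ?_⟩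
  rw [Finset.sum_singleton, abs_neg]
  have := abs_nonneg (η p)
  linarith

private theorem site_int (p : Pt) : ∫ η : Env, Real.exp (-η p) ∂(law μ) = ∫ η : Env, Real.exp (-η 0) ∂(law μ) := by
  have h : ∀ η : Env, η p = sh p η 0 := fun η => by simp [sh]
  simp only [h]
  have hm : Measurable fun η : Env => Real.exp (-η 0) := (measurable_pi_apply (0 : Pt)).neg.exp
  conv_rhs => rw [← (mp_sh (μ := μ) p).map_eq]
  rw [integral_map (mp_sh (μ := μ) p).measurable.aemeasurable hm.aestronglyMeasurable]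

/-- The exponential moment of the cost. -/
theorem exp_X_le (hμ : Pool.Agent.W_7d29a1_h47.EM μ) (s : ℝ) (n : ℕ) {y : ℤ} (h0 : 0 ≤ y) (h1 : y ≤ n) :
    ∫ η, Real.exp (X μ s η 0 n y) ∂(law μ) ≤
      (Real.exp (lam μ s + |s|) * ∫ η : Env, Real.exp (-η 0) ∂(law μ)) ^ n := by
  set κ : ℝ := Real.exp (lam μ s + |s|) * ∫ η : Env, Real.exp (-η 0) ∂(law μ) with hκ
  have hI0 : 0 ≤ ∫ η : Env, Real.exp (-η 0) ∂(law μ) := integral_nonneg fun _ => (Real.exp_pos _).le
  have hκ0 : 0 ≤ κ := mul_nonneg (Real.exp_pos _).le hI0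
  induction n generalizing y with
  | zero =>
    have hy : y = 0 := le_antisymm (by simpa using h1) h0
    subst hy
    have : ∀ η : Env, X μ s η 0 0 0 = 0 := by
      intro η
      unfold X W WR
      simp [Zr]
    simp [this]
  | succ n ih =>
    obtain ⟨y', hy0, hy1, hy2⟩ : ∃ y' : ℤ, 0 ≤ y' ∧ y' ≤ n ∧ (y' = y ∨ y' = y - 1) := by
      rcases le_or_gt y n with h | h
      · exact ⟨y, h0, h, Or.inl rfl⟩
      · refine ⟨y - 1, ?_, ?_, Or.inr rfl⟩
        · have : (0 : ℤ) ≤ n := Int.natCast_nonneg n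
          omega
        · push_cast at h1
          omega
    set p : Pt := ((0 : Pt).1 + ((n : ℤ) + 1), (0 : Pt).2 + y) with hp
    have hle : ∀ η : Env, Real.exp (X μ s η 0 (n + 1) y) ≤
        Real.exp (lam μ s + |s|) * (Real.exp (-η p) * Real.exp (X μ s η 0 n y')) := by
      intro η
      have e1 : W μ s η 0 (n + 1) y =
          Real.exp (-lam μ s) * (Real.exp (η p) * (W μ s η 0 n y + Real.exp s * W μ s η 0 n (y - 1))) := by
        unfold W WR
        have e2 : Zr Set.univ η 0 (n + 1) y = Real.exp (η p) * (Zr Set.univ η 0 n y + Zr Set.univ η 0 n (y - 1)) := by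
          show Set.univ.indicator (fun p => Real.exp (η p)) ((0 : Pt).1 + ((n : ℤ) + 1), (0 : Pt).2 + y) *
            (Zr Set.univ η 0 n y + Zr Set.univ η 0 n (y - 1)) = _
          rw [Set.indicator_univ]
        rw [e2]
        have e3 : Real.exp (s * (y : ℝ) - ((n + 1 : ℕ) : ℝ) * lam μ s) =
            Real.exp (-lam μ s) * Real.exp (s * (y : ℝ) - (n : ℝ) * lam μ s) := by
          rw [← Real.exp_add]
          congr 1
          push_cast
          ring
        have e4 : Real.exp (s * (y : ℝ) - (n : ℝ) * lam μ s) =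
            Real.exp s * Real.exp (s * ((y - 1 : ℤ) : ℝ) - (n : ℝ) * lam μ s) := by
          rw [← Real.exp_add]
          congr 1
          push_cast
          ring
        rw [e3, e4]
        ring
      have hW' : 0 < W μ s η 0 n y' := W_pos η 0 hy0 hy1
      have hWn : ∀ x : ℤ, 0 ≤ W μ s η 0 n x := fun x => W_nonneg η 0 n x
      have hs1 : Real.exp (-|s|) ≤ Real.exp s := Real.exp_le_exp.2 (neg_abs_le s)
      have hs2 : Real.exp (-|s|) ≤ 1 := Real.exp_le_one_iff.2 (neg_nonpos.2 (abs_nonneg s))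
      have hW : Real.exp (-lam μ s) * (Real.exp (η p) * (Real.exp (-|s|) * W μ s η 0 n y')) ≤ W μ s η 0 (n + 1) y := by
        rw [e1]
        refine mul_le_mul_of_nonneg_left (mul_le_mul_of_nonneg_left ?_ (Real.exp_pos _).le) (Real.exp_pos _).le
        rcases hy2 with h | h
        · rw [h]
          have a1 : Real.exp (-|s|) * W μ s η 0 n y ≤ 1 * W μ s η 0 n y := mul_le_mul_of_nonneg_right hs2 (hWn y)
          have a2 : 0 ≤ Real.exp s * W μ s η 0 n (y - 1) := mul_nonneg (Real.exp_pos _).le (hWn _)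
          linarith
        · rw [h]
          have a1 : Real.exp (-|s|) * W μ s η 0 n (y - 1) ≤ Real.exp s * W μ s η 0 n (y - 1) :=
            mul_le_mul_of_nonneg_right hs1 (hWn _)
          linarith [hWn y]
      have hpos : 0 < Real.exp (-lam μ s) * (Real.exp (η p) * (Real.exp (-|s|) * W μ s η 0 n y')) := by positivity
      have h2 := Real.log_le_log hpos hW
      rw [Real.log_mul (Real.exp_pos _).ne' (by positivity), Real.log_exp, Real.log_mul (Real.exp_pos _).ne'
        (by positivity), Real.log_exp, Real.log_mul (Real.exp_pos _).ne' hW'.ne', Real.log_exp] at h2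
      rw [← Real.exp_add, ← Real.exp_add]
      refine Real.exp_le_exp.2 ?_
      unfold X
      linarith
    have hSX : Sub fun η => X μ s η 0 n y' := Sub_X 0 hy0 hy1
    have hSX' : Sub fun η => X μ s η 0 (n + 1) y := Sub_X 0 h0 h1
    have hint2 : Integrable (fun η : Env => Real.exp (-η p) * Real.exp (X μ s η 0 n y')) (law μ) := by
      have h2 := ((site_sub p).add hSX).exp_int hμ
      refine h2.congr (Eventually.of_forall fun η => ?_)
      exact Real.exp_add _ _
    have hind : ∫ η, Real.exp (-η p) * Real.exp (X μ s η 0 n y') ∂(law μ) =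
        (∫ η : Env, Real.exp (-η p) ∂(law μ)) * ∫ η, Real.exp (X μ s η 0 n y') ∂(law μ) := by
      refine integral_indep (A := {p}) (B := cone 0 n y') (measurable_pi_apply p).neg.exp hSX.1.exp ?_ ?_ ?_
      · intro η η' h
        have := h p rfl
        show Real.exp (-η p) = Real.exp (-η' p)
        rw [this]
      · intro η η' h
        have h2 := X_dep (μ := μ) (s := s) 0 n y' h
        show Real.exp (X μ s η 0 n y') = Real.exp (X μ s η' 0 n y')
        exact congrArg Real.exp h2
      · rw [Set.disjoint_singleton_left]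
        intro hcon
        have h2 : p.1 ≤ (0 : Pt).1 + n := by
          have := hcon
          unfold cone at this
          exact this.2.1
        rw [hp] at h2
        simp only [Prod.fst_zero, zero_add] at h2
        omega
    calc ∫ η, Real.exp (X μ s η 0 (n + 1) y) ∂(law μ)
        ≤ ∫ η, Real.exp (lam μ s + |s|) * (Real.exp (-η p) * Real.exp (X μ s η 0 n y')) ∂(law μ) :=
          integral_mono (hSX'.exp_int hμ) (hint2.const_mul _) hle
      _ = Real.exp (lam μ s + |s|) *
          ((∫ η : Env, Real.exp (-η 0) ∂(law μ)) * ∫ η, Real.exp (X μ s η 0 n y') ∂(law μ)) := by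
          rw [integral_const_mul, hind, site_int p]
      _ = κ * ∫ η, Real.exp (X μ s η 0 n y') ∂(law μ) := by rw [hκ]; ring
      _ ≤ κ * κ ^ n := mul_le_mul_of_nonneg_left (ih hy0 hy1) hκ0
      _ = κ ^ (n + 1) := by ring

/-- The trivial bound: the cost of time `n` exceeds `t ≥ C n` with probability at most `e ^ (- t / 2)`. -/
theorem triv (hμ : Pool.Agent.W_7d29a1_h47.EM μ) (s : ℝ) : ∃ C : ℝ, 0 < C ∧ ∀ (n : ℕ) (y : ℤ) (t E : ℝ), 0 ≤ y → y ≤ n →
    1 ≤ E → C * n ≤ t → (law μ).real {η | t * E ≤ X μ s η 0 n y} ≤ Real.exp (-(1 / 2 * t)) := by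
  set κ : ℝ := max (Real.exp (lam μ s + |s|) * ∫ η : Env, Real.exp (-η 0) ∂(law μ)) (Real.exp 1) with hκ
  have hκ1 : Real.exp 1 ≤ κ := le_max_right _ _
  have hκ0 : 0 < κ := (Real.exp_pos 1).trans_le hκ1
  have hlog : 1 ≤ Real.log κ := by
    rw [Real.le_log_iff_exp_le hκ0]
    exact hκ1
  refine ⟨2 * Real.log κ, by linarith, fun n y t E h0 h1 hE hs => ?_⟩
  have hn : (0 : ℝ) ≤ n := Nat.cast_nonneg n
  have hs0 : 0 ≤ t := le_trans (by positivity) hs
  have hSX : Sub fun η => X μ s η 0 n y := Sub_X 0 h0 h1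
  have h2 := mul_meas_ge_le_integral_of_nonneg (μ := law μ) (f := fun η => Real.exp (X μ s η 0 n y))
    (Eventually.of_forall fun η => (Real.exp_pos _).le) (hSX.exp_int hμ) (Real.exp (t * E))
  have h3 : {η | t * E ≤ X μ s η 0 n y} = {η | Real.exp (t * E) ≤ Real.exp (X μ s η 0 n y)} := by
    ext η
    simp only [Set.mem_ofPred_eq, Real.exp_le_exp]
  have h4 : ∫ η, Real.exp (X μ s η 0 n y) ∂(law μ) ≤ κ ^ n := by
    refine (exp_X_le hμ s n h0 h1).trans ?_
    exact pow_le_pow_left₀ (mul_nonneg (Real.exp_pos _).le (integral_nonneg fun _ => (Real.exp_pos _).le))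
      (le_max_left _ _) n
  have h5 : κ ^ n = Real.exp (n * Real.log κ) := by
    rw [mul_comm, Real.exp_mul, Real.exp_log hκ0, Real.rpow_natCast]
  rw [h3]
  have h6 : Real.exp (t * E) * (law μ).real {η | Real.exp (t * E) ≤ Real.exp (X μ s η 0 n y)} ≤
      Real.exp (t * E) * Real.exp (-(1 / 2 * t)) := by
    refine (h2.trans (h4.trans_eq h5)).trans ?_
    rw [← Real.exp_add]
    refine Real.exp_le_exp.2 ?_
    nlinarith
  exact le_of_mul_le_mul_left h6 (Real.exp_pos _)

end Pool.Agent.W_7d29a1_HS
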