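import Pool.Agent.W_7d29a1_HS.UnlD
import Pool.Agent.W_7d29a1_HS.Triv
import Pool.Agent.W_7d29a1_h10.RecU

/-!
MP_7d29a1_pr, TRACK H, part 3: THE UNLUCKY TAIL at the tilt `s`. If the unit doubles in boundedly many octaves and the polymer in a
tube of the width of the scale costs a bounded number of units, then the costs of the cheap displacements have stretched exponential
tails in the unit: `P (X (0; n, y) ≥ u EE n) ≤ A exp (- c u ^ γ)`.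
-/

set_option autoImplicit false

namespace Pool.Agent.W_7d29a1_HS

open MeasureTheory ProbabilityTheory Filter Topology
open Pool.Agent.W_7d29a1_F Pool.Agent.W_7d29a1_h4g Pool.Agent.W_7d29a1_H

variable {μ : Measure ℝ} [IsProbabilityMeasure μ] {s c C : ℝ} {n₀ : ℕ}

/-- **THE UNLUCKY TAIL**, for a given opening `κ` of the class of displacements. -/
theorem unluckyK (h : In μ s c C n₀) {κ₀ κ : ℝ} (hκ0 : 0 < κ)
    (hκ8 : κ ≤ 1 / 8) (hκκ : 8 * κ ≤ κ₀) (hT : TubeInK μ s κ₀) (hD : Dbl μ s) :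
    ∃ A c' γ : ℝ, 0 < A ∧ 0 < c' ∧ 0 < γ ∧ γ ≤ 1 ∧ ∀ (n : ℕ) (y : ℤ) (u : ℝ), 1 ≤ n → 0 ≤ y → y ≤ n →
      |(y : ℝ) - sl μ s * n| ≤ κ * wd μ s n + 1 → 0 ≤ u →
        (law μ).real {η | u * EE μ s n ≤ X μ s η 0 n y} ≤ A * Real.exp (-(c' * u ^ γ)) := by
  obtain ⟨C₁, hC, htriv⟩ := triv (μ := μ) h.em s
  obtain ⟨c₃, γ, s₀, n₁, hc₃, hγ, hγ1, hstep⟩ := rec_step h hκ0 hκ8 hκκ hT hD hC
  obtain ⟨A, c', hA, hc, hU⟩ := Pool.Agent.W_7d29a1_h10.rec_tail (T := TT μ s κ) (C := C₁) (c₄ := 1 / 2) (s₀ := s₀)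
    (n₁ := n₁) (by norm_num) hc₃ hγ hγ1 (TT_le_one κ)
    (fun n u _ hs => TT_le (Real.exp_pos _).le fun y h0 h1 _ => htriv n y u _ h0 h1 (one_le_EE n) hs) hstep
  exact ⟨A, c', γ, hA, hc, hγ, hγ1, fun n y u hn h0 h1 h2 hu => (le_TT h0 h1 h2).trans (hU n u hn hu)⟩

end Pool.Agent.W_7d29a1_HS
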