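import Pool.Agent.W_7d29a1_HS.Scale
import Pool.Agent.W_7d29a1_H.MirH52
import Pool.Agent.W_7d29a1_L.LsA1

/-!
MP_7d29a1_pr, TRACK H, part 4: the reflection. The input at the tilt `s` gives the input at the tilt `- s`. (helper14)
-/

set_option autoImplicit false

namespace Pool.Agent.W_7d29a1_HS

open MeasureTheory ProbabilityTheory Filter Topology
open Pool.Agent.W_7d29a1_F Pool.Agent.W_7d29a1_h4g Pool.Agent.W_7d29a1_H
open Pool.Agent.W_7d29a1_L (Mh T kap Bx mem_Bx Mh_nonneg le_Mh Mh_le Sub_Mh)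

variable {μ : Measure ℝ} [IsProbabilityMeasure μ] {s c C : ℝ} {n₀ : ℕ}

section mirror

variable (hEM : Pool.Agent.W_7d29a1_h47.EM μ) (s : ℝ)

include hEM

theorem kap_mir (v h : ℝ) : kap μ (-s) (1 - v) h = kap μ s v (-h) := by
  unfold kap
  rw [show -s + h = -(s + -h) by ring, lam_neg hEM (s + -h), lam_neg hEM s]
  ring

theorem T_mir (v h : ℝ) (η : Env) (a : Pt) (n : ℕ) :
    T μ (-s) (1 - v) h (mir η) (phiM a) n = T μ s v (-h) η a n := by
  unfold T
  rw [kap_mir hEM, show -s + h = -(s + -h) by ring, V_mir hEM (s + -h)]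

/-- The luck of a box is at most the larger one of two lucks of the reflected tilt. -/
theorem Mh_mir_le {v h w z : ℝ} (hv0 : 0 ≤ v) (hv1 : v ≤ 1) (n : ℕ) (η : Env) :
    Mh μ (-s) (1 - v) h w z n (mir η) ≤ max (Mh μ s v (-h) w (-z - 2 * w) n η) (Mh μ s v (-h) w (-z - w) n η) := by
  refine Mh_le _ (le_max_of_le_left (Mh_nonneg _)) fun q hq => ?_
  rw [mem_Bx (by linarith) (by linarith)] at hq
  obtain ⟨h1, h2, h3⟩ := hq
  obtain ⟨⟨t, x⟩, j⟩ := q
  simp only at h1 h2 h3 ⊢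
  have e : (((t : ℤ), x) : Pt) = phiM ((t : ℤ), (t : ℤ) - x) := by
    ext
    · rfl
    · simp
  rw [e, T_mir hEM]
  have hx : (((t : ℤ) - x : ℤ) : ℝ) - v * t = -((x : ℝ) - (1 - v) * t) := by
    push_cast
    ring
  rcases le_or_gt (((t : ℤ) - x : ℤ) - v * t : ℝ) (-z - w) with h4 | h4
  · refine le_max_of_le_left (le_Mh η (q := ((t, (t : ℤ) - x), j)) ?_)
    rw [mem_Bx hv0 hv1]
    refine ⟨h1, ?_, ?_⟩
    · show -z - 2 * w < (((t : ℤ) - x : ℤ) : ℝ) - v * t
      by_contra hcon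
      rw [not_lt] at hcon
      rw [hx] at hcon
      -- the case `w = 0` is excluded by the box
      linarith
    · show (((t : ℤ) - x : ℤ) : ℝ) - v * t ≤ -z - 2 * w + w
      linarith
  · refine le_max_of_le_right (le_Mh η (q := ((t, (t : ℤ) - x), j)) ?_)
    rw [mem_Bx hv0 hv1]
    refine ⟨h1, h4, ?_⟩
    show (((t : ℤ) - x : ℤ) : ℝ) - v * t ≤ -z - w + w
    rw [hx]
    linarith

end mirror

omit [IsProbabilityMeasure μ] in
theorem md_mir (hsl : sl μ (-s) = 1 - sl μ s) (m : ℕ) : md μ s m ≤ m - md μ (-s) m ∧ m - md μ (-s) m ≤ md μ s m + 1 := by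
  have h1 := md_le (μ := μ) (s := s) m
  have h2 := lt_md (μ := μ) (s := s) m
  have h3 := md_le (μ := μ) (s := -s) m
  have h4 := lt_md (μ := μ) (s := -s) m
  rw [hsl] at h3 h4
  constructor
  · have : (md μ s m : ℝ) < ((m - md μ (-s) m + 1 : ℤ) : ℝ) := by
      push_cast
      linarith
    have h5 : md μ s m < m - md μ (-s) m + 1 := by exact_mod_cast this
    omega
  · have : ((m - md μ (-s) m : ℤ) : ℝ) < ((md μ s m + 1 + 1 : ℤ) : ℝ) := by
      push_cast
      linarith
    have h5 : m - md μ (-s) m < md μ s m + 1 + 1 := by exact_mod_cast this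
    omega

theorem In.sl_neg (h : In μ s c C n₀) : sl μ (-s) = 1 - sl μ s := sl_mir h.em s h.nd

theorem In.wd_neg (h : In μ s c C n₀) (n : ℕ) : wd μ (-s) n = wd μ s n := by
  unfold wd
  rw [vA_mir h.em s h.nd]

theorem In.St_mir (h : In μ s c C n₀) (r : ℝ) (a : Pt) : mirS (St μ s r a) = St μ (-s) r (phiM a) := by
  unfold St
  rw [mirS_tb, h.sl_neg]

theorem In.cf_mir (h : In μ s c C n₀) (r : ℝ) (η : Env) (a : Pt) (n : ℕ) :
    cf μ (-s) r (mir η) (phiM a) n = cf μ s r η a n := by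
  unfold cf
  have h1 : Finset.Icc (0 : ℤ) n = (Finset.Icc (0 : ℤ) n).image fun y => (n : ℤ) - y := by
    ext y
    rw [Finset.mem_image]
    constructor
    · intro hy
      rw [Finset.mem_Icc] at hy
      exact ⟨(n : ℤ) - y, Finset.mem_Icc.2 (by omega), by ring⟩
    · rintro ⟨z, hz, rfl⟩
      rw [Finset.mem_Icc] at hz ⊢
      omega
  conv_lhs => rw [h1]
  rw [Finset.sum_image fun a _ b _ h => by simpa using h]
  refine Finset.sum_congr rfl fun y _ => ?_
  rw [← h.St_mir]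
  exact WR_mir h.em s (St μ s r a) η a n y

/-- **The input at the tilt `- s`.** -/
theorem In.mir (h : In μ s c C n₀) : In μ (-s) c (2 * C) n₀ where
  em := h.em
  nd := h.nd
  dir := by
    obtain ⟨H, δ, hD⟩ := h.dir
    refine ⟨H, δ, ?_⟩
    have h1 := hD.mir
    have h2 : ng {s} = {-s} := by
      ext t
      simp only [mem_ng, Set.mem_singleton_iff]
      constructor <;> intro h3 <;> linarith
    rwa [h2] at h1
  c0 := h.c0
  c1 := h.c1
  C1 := by
    have := h.C1
    linarith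
  lg n hn := by
    have h1 := h.lg n hn
    rw [EE_mir h.em]
    have h2 := EE_pos (μ := μ) (s := s) n
    have h3 : 0 ≤ C * EE μ s n := mul_nonneg (by have := h.C1; linarith) h2.le
    linarith
  tE := by
    have h1 : EE μ (-s) = EE μ s := funext fun n => EE_mir h.em s n
    rw [h1]
    exact h.tE
  tv := by
    have h1 : vA 1 μ (-s) = vA 1 μ s := funext fun n => vA_mir h.em s h.nd 1 n
    rw [h1]
    exact h.tv
  soft := by
    obtain ⟨α, x₀, h1⟩ := h.soft
    exact ⟨α, x₀, fun x hx => (Sf_mir h.em s x α).2 (h1 x hx)⟩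
  dbl := by
    obtain ⟨T, x₀, h1⟩ := h.dbl
    refine ⟨T, x₀, fun x hx => ?_⟩
    rw [gg_mir h.em, gg_mir h.em]
    exact h1 x hx
  half := by
    obtain ⟨K, x₀, h1⟩ := h.half
    refine ⟨K, x₀, fun x j hx => ?_⟩
    rw [gg_mir h.em, gg_mir h.em]
    exact h1 x j hx
  cone := by
    obtain ⟨L, x₁, δ, hδ, hL, h1⟩ := h.cone
    refine ⟨L, x₁, δ, hδ, hL, fun x hx => ?_⟩
    rw [ff_mir h.em s h.nd, ff_mir h.em s h.nd]
    exact h1 x hx
  sym := by
    obtain ⟨D, δ, hD, hδ, h1⟩ := h.sym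
    refine ⟨D ^ 2, δ / 2, by nlinarith, by positivity, fun x hx => ?_⟩
    have hx' : |-x| ≤ δ := by
      rw [abs_neg]
      linarith
    obtain ⟨h2, h3⟩ := h1 (-x) hx'
    rw [J_mir h.em s h.nd, J_mir h.em s h.nd, J_mir h.em s h.nd, neg_neg]
    rw [neg_neg] at h3
    have h4 : -(2 * x) = 2 * -x := by ring
    rw [h4]
    have h5 := h.rf.nn (-x)
    have h6 : D * J μ s (-x) ≤ D ^ 2 * J μ s (-x) := mul_le_mul_of_nonneg_right (by nlinarith) h5
    exact ⟨h2.trans h6, h3.trans h6⟩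
  sup := by
    obtain ⟨ρ, δ, h0, h1, hδ, h2⟩ := h.sup
    refine ⟨ρ, δ, h0, h1, hδ, fun x hx => ?_⟩
    rw [J_mir h.em s h.nd, J_mir h.em s h.nd]
    have h3 := h2 (-x) (by rwa [abs_neg])
    rwa [neg_div] at h3
  inn n hn m y hm h0 h1 hy := by
    have h2 := h.inn n hn m (m - y) hm (by linarith) (by linarith) (by
      rw [vA_mir h.em s h.nd, h.sl_neg] at hy
      push_cast
      have e : (m : ℝ) - y - sl μ s * m = -((y : ℝ) - (1 - sl μ s) * m) := by ring
      rw [e, abs_neg]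
      exact hy)
    have h3 := ep_mir h.em s m (m - y)
    rw [show (m : ℤ) - (m - y) = y by ring] at h3
    rw [h3, EE_mir h.em]
    have h4 := EE_pos (μ := μ) (s := s) n
    have h5 : 0 ≤ C * EE μ s n := mul_nonneg (by have := h.C1; linarith) h4.le
    linarith
  luck n hn hh z hz := by
    have hE := EE_pos (μ := μ) (s := s) n
    have hC : 0 < C := by have := h.C1; linarith
    have hsl0 := h.sl_pos
    have hsl1 := h.sl_lt
    have hw0 := h.wd_nonneg n
    rw [h.wd_neg, EE_mir h.em] at hz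
    rw [h.sl_neg, h.wd_neg, EE_mir h.em]
    have hz' : |-hh| * wd μ s n ≤ c * EE μ s n := by rwa [abs_neg]
    have i1 := h.luck n hn (-hh) (-z - 2 * wd μ s n) hz'
    have i2 := h.luck n hn (-hh) (-z - wd μ s n) hz'
    have hint : ∀ z' : ℝ, Integrable (fun η => Real.exp (Mh μ s (sl μ s) (-hh) (wd μ s n) z' (4 * n) η / (C * EE μ s n)))
        (law μ) := fun z' => by
      have h1 := ((Sub_Mh (μ := μ) (s := s) (v := sl μ s) (h := -hh) (w := wd μ s n) (z := z')
        (n := 4 * n)).const_mul (1 / (C * EE μ s n))).exp_int h.em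
      refine h1.congr (Eventually.of_forall fun η => ?_)
      show Real.exp (1 / (C * EE μ s n) * Mh μ s (sl μ s) (-hh) (wd μ s n) z' (4 * n) η) = _
      congr 1
      ring
    rw [← integral_mir]
    refine le_trans (integral_mono_of_nonneg (Eventually.of_forall fun η => (Real.exp_pos _).le)
      ((hint (-z - 2 * wd μ s n)).add (hint (-z - wd μ s n))) (Eventually.of_forall fun η => ?_)) ?_
    · show Real.exp (Mh μ (-s) (1 - sl μ s) hh (wd μ s n) z (4 * n) (Pool.Agent.W_7d29a1_H.mir η) / (2 * C * EE μ s n)) ≤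
        Real.exp (Mh μ s (sl μ s) (-hh) (wd μ s n) (-z - 2 * wd μ s n) (4 * n) η / (C * EE μ s n)) +
          Real.exp (Mh μ s (sl μ s) (-hh) (wd μ s n) (-z - wd μ s n) (4 * n) η / (C * EE μ s n))
      have h1 := Mh_mir_le h.em s hsl0.le hsl1.le (h := hh) (w := wd μ s n) (z := z) (4 * n) η
      have h2 : Mh μ (-s) (1 - sl μ s) hh (wd μ s n) z (4 * n) (Pool.Agent.W_7d29a1_H.mir η) / (2 * C * EE μ s n) ≤
          Mh μ (-s) (1 - sl μ s) hh (wd μ s n) z (4 * n) (Pool.Agent.W_7d29a1_H.mir η) / (C * EE μ s n) := by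
        refine div_le_div_of_nonneg_left (Mh_nonneg _) (by positivity) ?_
        have : 0 ≤ C * EE μ s n := by positivity
        linarith
      refine (Real.exp_le_exp.2 h2).trans ?_
      rcases max_choice (Mh μ s (sl μ s) (-hh) (wd μ s n) (-z - 2 * wd μ s n) (4 * n) η)
        (Mh μ s (sl μ s) (-hh) (wd μ s n) (-z - wd μ s n) (4 * n) η) with h3 | h3 <;> rw [h3] at h1
      · have h4 := Real.exp_le_exp.2 (div_le_div_of_nonneg_right h1 (show 0 ≤ C * EE μ s n by positivity))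
        have h5 := Real.exp_pos (Mh μ s (sl μ s) (-hh) (wd μ s n) (-z - wd μ s n) (4 * n) η / (C * EE μ s n))
        linarith
      · have h4 := Real.exp_le_exp.2 (div_le_div_of_nonneg_right h1 (show 0 ≤ C * EE μ s n by positivity))
        have h5 := Real.exp_pos (Mh μ s (sl μ s) (-hh) (wd μ s n) (-z - 2 * wd μ s n) (4 * n) η / (C * EE μ s n))
        linarith
    · have h6 := integral_add (hint (-z - 2 * wd μ s n)) (hint (-z - wd μ s n))
      have h7 : ∫ η, ((fun η => Real.exp (Mh μ s (sl μ s) (-hh) (wd μ s n) (-z - 2 * wd μ s n) (4 * n) η / (C * EE μ s n))) +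
          (fun η => Real.exp (Mh μ s (sl μ s) (-hh) (wd μ s n) (-z - wd μ s n) (4 * n) η / (C * EE μ s n)))) η ∂(law μ) =
          ∫ η, (Real.exp (Mh μ s (sl μ s) (-hh) (wd μ s n) (-z - 2 * wd μ s n) (4 * n) η / (C * EE μ s n)) +
          Real.exp (Mh μ s (sl μ s) (-hh) (wd μ s n) (-z - wd μ s n) (4 * n) η / (C * EE μ s n))) ∂(law μ) := rfl
      rw [h7, h6]
      linarith

end Pool.Agent.W_7d29a1_HS
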