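import Pool.Agent.W_7d29a1_H.DenseH2
import Pool.Agent.W_7d29a1_HS.Trans
import Mathlib.Analysis.Calculus.Monotone

/-!
MP_7d29a1_pr, TRACK H, part 3 (KPZRelation, helper20): for almost every force the rate function is at least quadratic, for almost
every velocity it is at most quadratic (Lebesgue's theorem for the derivative of the free energy and its inverse).
-/

set_option autoImplicit false

namespace Pool.Agent.W_7d29a1_HS

open MeasureTheory ProbabilityTheory Filter Topology Set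
open Pool.Agent.W_7d29a1_F Pool.Agent.W_7d29a1_H
open Pool.Agent.W_7d29a1_h47 (EM Nondeg)

section pure

/-- A differentiable function is Lipschitz at the point. -/
theorem lip_of_diff20 {φ : ℝ → ℝ} {h : ℝ} (hd : DifferentiableAt ℝ φ h) : ∃ C r₀ : ℝ, 0 < C ∧ 0 < r₀ ∧ ∀ r : ℝ, |r| ≤ r₀ →
    |φ (h + r) - φ h| ≤ C * |r| := by
  have h1 := (hasDerivAt_iff_isLittleO.1 hd.hasDerivAt).def one_pos
  rw [Metric.eventually_nhds_iff] at h1
  obtain ⟨ρ, hρ, h1⟩ := h1
  refine ⟨|deriv φ h| + 1, ρ / 2, by positivity, by positivity, fun r hr => ?_⟩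
  have h2 := h1 (y := h + r) (by rw [Real.dist_eq, add_sub_cancel_left]; linarith)
  rw [add_sub_cancel_left, Real.norm_eq_abs, Real.norm_eq_abs, smul_eq_mul, one_mul] at h2
  have h3 : |φ (h + r) - φ h| ≤ |φ (h + r) - φ h - r * deriv φ h| + |r * deriv φ h| := by
    have := abs_add_le (φ (h + r) - φ h - r * deriv φ h) (r * deriv φ h)
    rwa [sub_add_cancel] at this
  rw [abs_mul r] at h3
  linarith [mul_comm |r| |deriv φ h|]

/-- Lebesgue's theorem for a monotone function. -/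
theorem ae_lip20 {φ : ℝ → ℝ} (hφ : Monotone φ) : ∀ᵐ h : ℝ, ∃ C r₀ : ℝ, 0 < C ∧ 0 < r₀ ∧ ∀ r : ℝ, |r| ≤ r₀ →
    |φ (h + r) - φ h| ≤ C * |r| := by
  filter_upwards [hφ.ae_differentiableAt] with h hh
  exact lip_of_diff20 hh

/-- The inverse of a monotone function, truncated. -/
noncomputable def inv20 (φ : ℝ → ℝ) (N : ℕ) (v : ℝ) : ℝ := sSup (insert (-(N : ℝ)) {s : ℝ | |s| ≤ N ∧ φ s ≤ v})

theorem inv20_bdd (φ : ℝ → ℝ) (N : ℕ) (v : ℝ) : BddAbove (insert (-(N : ℝ)) {s : ℝ | |s| ≤ N ∧ φ s ≤ v}) := by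
  refine ⟨N, ?_⟩
  rintro x (rfl | ⟨h1, -⟩)
  · have : (0 : ℝ) ≤ N := Nat.cast_nonneg N
    linarith
  · exact (le_abs_self x).trans h1

theorem inv20_mono (φ : ℝ → ℝ) (N : ℕ) : Monotone (inv20 φ N) := by
  intro v w hvw
  refine csSup_le_csSup (inv20_bdd φ N w) (insert_nonempty _ _) ?_
  exact insert_subset_insert fun s hs => ⟨hs.1, hs.2.trans hvw⟩

theorem inv20_apply {φ : ℝ → ℝ} (hφ : StrictMono φ) {N : ℕ} {s : ℝ} (hs : |s| ≤ N) : inv20 φ N (φ s) = s := by
  refine le_antisymm (csSup_le (insert_nonempty _ _) ?_) (le_csSup (inv20_bdd φ N _) (mem_insert_of_mem _ ⟨hs, le_rfl⟩))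
  rintro x (rfl | ⟨-, h2⟩)
  · exact (abs_le.1 hs).1
  · exact hφ.le_iff_le.1 h2

/-- Lebesgue's theorem for the inverse of a monotone function. -/
theorem ae_inv20 {φ : ℝ → ℝ} (hφ : StrictMono φ) : ∀ᵐ v : ℝ, ∀ h : ℝ, φ h = v → ∃ C ρ : ℝ, 0 < C ∧ 0 < ρ ∧ ∀ T : ℝ,
    |T - h| ≤ 1 → |φ T - φ h| ≤ ρ → |T - h| ≤ C * |φ T - φ h| := by
  have h1 : ∀ᵐ v : ℝ, ∀ N : ℕ, DifferentiableAt ℝ (inv20 φ N) v :=
    ae_all_iff.2 fun N => (inv20_mono φ N).ae_differentiableAt
  filter_upwards [h1] with v hv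
  rintro h rfl
  obtain ⟨N, hN⟩ := exists_nat_ge (|h| + 1)
  obtain ⟨C, ρ, hC, hρ, hlip⟩ := lip_of_diff20 (hv N)
  refine ⟨C, ρ, hC, hρ, fun T hT hTρ => ?_⟩
  have h2 := hlip (φ T - φ h) hTρ
  rw [show φ h + (φ T - φ h) = φ T by ring, inv20_apply hφ (by linarith : |h| ≤ N), inv20_apply hφ (by
    have : |T| ≤ |T - h| + |h| := by
      have := abs_add_le (T - h) h
      rwa [sub_add_cancel] at this
    linarith : |T| ≤ N)] at h2
  exact h2

end pure

variable {μ : Measure ℝ} [IsProbabilityMeasure μ]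

theorem vel_strictMono20 (hμ : EM μ) (hnd : Nondeg μ) : StrictMono (vel μ) := by
  intro x y hxy
  have h1 := sl_strictMono hμ hnd (show 2 * x < 2 * y by linarith)
  unfold vel
  linarith

/-- **For almost every force the rate function is at least quadratic.** -/
theorem ae_force20 (hμ : EM μ) (hnd : Nondeg μ) : ∀ᵐ h : ℝ, ∃ c₀ δ : ℝ, 0 < c₀ ∧ 0 < δ ∧ ∀ x : ℝ, |x| ≤ δ →
    c₀ * x ^ 2 ≤ J μ (2 * h) x := by
  filter_upwards [ae_lip20 (vel_strictMono20 hμ hnd).monotone] with h hh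
  obtain ⟨C, r₀, hC, hr₀, hlip⟩ := hh
  obtain ⟨D, hD⟩ : ∃ D, D = max C (1 / r₀) := ⟨_, rfl⟩
  have hD0 : 0 < D := by rw [hD]; exact lt_max_of_lt_left hC
  -- the excess is at most quadratic
  have hex : ∀ r : ℝ, |r| ≤ 1 → ex μ (2 * h) r ≤ D * r ^ 2 := by
    intro r hr
    have h1 := ex_le_sl hμ hnd (2 * h) r
    have h2 : r * (sl μ (2 * h + r) - sl μ (2 * h)) ≤ |r| * |sl μ (2 * h + r) - sl μ (2 * h)| := by
      rw [← abs_mul]
      exact le_abs_self _
    have h3 : |sl μ (2 * h + r) - sl μ (2 * h)| ≤ D * |r| := by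
      rcases le_total |r / 2| r₀ with h4 | h4
      · have h5 := hlip (r / 2) h4
        have e1 : vel μ (h + r / 2) - vel μ h = 2 * (sl μ (2 * h + r) - sl μ (2 * h)) := by
          unfold vel
          rw [show 2 * (h + r / 2) = 2 * h + r by ring]
          ring
        rw [e1, abs_mul, abs_of_pos (two_pos : (0 : ℝ) < 2), abs_div, abs_of_pos (two_pos : (0 : ℝ) < 2)] at h5
        have h6 : C * |r| ≤ D * |r| := mul_le_mul_of_nonneg_right (by rw [hD]; exact le_max_left _ _) (abs_nonneg r)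
        have h7 : 0 ≤ C * |r| := by positivity
        linarith
      · have m1 := sl_mem hμ hnd (2 * h + r)
        have m2 := sl_mem hμ hnd (2 * h)
        have h5 : |sl μ (2 * h + r) - sl μ (2 * h)| ≤ 1 := abs_le.2 ⟨by linarith, by linarith⟩
        rw [abs_div, abs_of_pos (two_pos : (0 : ℝ) < 2)] at h4
        have h6 : r₀ ≤ |r| := by
          have := abs_nonneg r
          linarith
        have h7 : 1 ≤ 1 / r₀ * |r| := by
          rw [div_mul_eq_mul_div, one_mul, le_div_iff₀ hr₀]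
          linarith
        exact h5.trans (h7.trans (mul_le_mul_of_nonneg_right (by rw [hD]; exact le_max_right _ _) (abs_nonneg r)))
    have h4 := mul_le_mul_of_nonneg_left h3 (abs_nonneg r)
    calc ex μ (2 * h) r ≤ |r| * (D * |r|) := by linarith
      _ = D * r ^ 2 := by rw [← sq_abs r]; ring
  refine ⟨1 / (4 * D), 2 * D, by positivity, by positivity, fun x hx => ?_⟩
  have hr : |x / (2 * D)| ≤ 1 := by
    rw [abs_div, abs_of_pos (by positivity : 0 < 2 * D), div_le_one (by positivity)]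
    exact hx
  have h1 := le_J hμ hnd (2 * h) x hr
  have h2 := hex _ hr
  have h3 : x / (2 * D) * x - D * (x / (2 * D)) ^ 2 = 1 / (4 * D) * x ^ 2 := by
    field_simp
    ring
  linarith

/-- **For almost every velocity the rate function is at most quadratic.** -/
theorem ae_vel20 (hμ : EM μ) (hnd : Nondeg μ) : ∀ᵐ v : ℝ, ∀ h : ℝ, vel μ h = v → ∃ C₀ δ : ℝ, 0 < C₀ ∧ 0 < δ ∧ ∀ x : ℝ,
    |x| ≤ δ → J μ (2 * h) x ≤ C₀ * x ^ 2 := by
  filter_upwards [ae_inv20 (vel_strictMono20 hμ hnd)] with v hv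
  intro h hh
  obtain ⟨C, ρ, hC, hρ, hlip⟩ := hv h hh
  obtain ⟨c, hc, ht⟩ := tilt_ex20 hμ hnd |2 * h| one_pos le_rfl
  refine ⟨4 * C, min c (ρ / 2), by positivity, lt_min hc (by positivity), fun x hx => ?_⟩
  obtain ⟨T, hT, hTe⟩ := ht (2 * h) le_rfl x (hx.trans (min_le_left _ _))
  have h1 := J_up20 hμ hnd hT hTe
  have e1 : vel μ (T / 2) - vel μ h = 2 * x := by
    unfold vel
    rw [show 2 * (T / 2) = T by ring, hTe]
    ring
  have h2 := hlip (T / 2) (by
    rw [show T / 2 - h = (T - 2 * h) / 2 by ring, abs_div, abs_of_pos (two_pos : (0 : ℝ) < 2)]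
    linarith) (by
    rw [e1, abs_mul, abs_of_pos (two_pos : (0 : ℝ) < 2)]
    have := hx.trans (min_le_right _ _)
    linarith)
  rw [e1, show T / 2 - h = (T - 2 * h) / 2 by ring, abs_div, abs_of_pos (two_pos : (0 : ℝ) < 2), abs_mul,
    abs_of_pos (two_pos : (0 : ℝ) < 2)] at h2
  have h3 : (T - 2 * h) * x ≤ |T - 2 * h| * |x| := by
    rw [← abs_mul]
    exact le_abs_self _
  have h4 : |T - 2 * h| ≤ 4 * C * |x| := by linarith
  have h5 := mul_le_mul_of_nonneg_right h4 (abs_nonneg x)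
  calc J μ (2 * h) x ≤ 4 * C * |x| * |x| := by linarith
    _ = 4 * C * x ^ 2 := by rw [← sq_abs x]; ring

end Pool.Agent.W_7d29a1_HS
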