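import Pool.Agent.W_7d29a1_HS.KPZ
import Pool.Agent.W_7d29a1_HS.AeK20
import Pool.Agent.W_7d29a1_HS.TransC

/-!
MP_7d29a1_pr, TRACK H, part 3 (helper20): the relation `w ^ 2 ~ n σ` at a dense set of forces, one half of it at almost every force,
the other half at almost every velocity. Everything is for sequences `σ h n`, `w h n` of the orders of the unit `EE μ (2 h) n` and of
the width `wd μ (2 h) n`.
-/

set_option autoImplicit false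

namespace Pool.Agent.W_7d29a1_HS

open MeasureTheory ProbabilityTheory Filter Topology Set
open Pool.Agent.W_7d29a1_F Pool.Agent.W_7d29a1_h4g Pool.Agent.W_7d29a1_H
open Pool.Agent.W_1b8d5d_p (wR wL Rf)
open Pool.Agent.W_7d29a1_h47 (EM Nondeg Lam)

variable {μ : Measure ℝ} [IsProbabilityMeasure μ] {s c C : ℝ} {n₀ : ℕ}

/-! ### The two halves for the unit and the width -/

/-- If the rate function is at least quadratic then `wd ^ 2 ≤ A n EE`. -/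
theorem kpz_up20 (h : In μ s c C n₀) {c₀ δ : ℝ} (hc₀ : 0 < c₀) (hδ : 0 < δ)
    (hq : ∀ x : ℝ, |x| ≤ δ → c₀ * x ^ 2 ≤ J μ s x) : ∃ A : ℝ, 0 < A ∧ ∃ n₁ : ℕ, ∀ n : ℕ, n₁ ≤ n →
    wd μ s n ^ 2 ≤ A * (n * EE μ s n) := by
  obtain ⟨n₁, hn₁⟩ := eventually_atTop.1 (h.tv.eventually (Iio_mem_nhds hδ))
  refine ⟨4 / c₀, by positivity, max n₁ 1, fun n hn => ?_⟩
  have hn1 : 1 ≤ n := (le_max_right _ _).trans hn
  have hnR : (0 : ℝ) < n := by exact_mod_cast hn1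
  have hE := EE_pos (μ := μ) (s := s) n
  have hB : 0 ≤ 1 * EE μ s n / n := by positivity
  have hR := h.rf96
  have pr := vr_pos96 h hn1
  have pl := vl_pos96 h hn1
  have hv : vA 1 μ s n < δ := hn₁ n ((le_max_left _ _).trans hn)
  have hv' : vr 1 μ s n + vl 1 μ s n < δ := hv
  have e1 : J μ s (vr 1 μ s n) = 1 * EE μ s n / n := hR.J_wR hB
  have e2 : J μ s (-vl 1 μ s n) = 1 * EE μ s n / n := hR.J_wL hB
  have h1 := hq (vr 1 μ s n) (by rw [abs_of_pos pr]; linarith)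
  have h3 := hq (-vl 1 μ s n) (by rw [abs_neg, abs_of_pos pl]; linarith)
  rw [e1, one_mul] at h1
  rw [e2, one_mul, neg_sq] at h3
  rw [le_div_iff₀ hnR] at h1 h3
  have hwd : wd μ s n = n * (vr 1 μ s n + vl 1 μ s n) := rfl
  rw [hwd, div_mul_eq_mul_div, le_div_iff₀ hc₀, mul_pow]
  have h5 : (vr 1 μ s n + vl 1 μ s n) ^ 2 ≤ 2 * vr 1 μ s n ^ 2 + 2 * vl 1 μ s n ^ 2 := by
    nlinarith [sq_nonneg (vr 1 μ s n - vl 1 μ s n)]
  calc (n : ℝ) ^ 2 * (vr 1 μ s n + vl 1 μ s n) ^ 2 * c₀ ≤ n ^ 2 * (2 * vr 1 μ s n ^ 2 + 2 * vl 1 μ s n ^ 2) * c₀ :=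
        mul_le_mul_of_nonneg_right (mul_le_mul_of_nonneg_left h5 (by positivity)) hc₀.le
    _ = n * (2 * (c₀ * vr 1 μ s n ^ 2 * n) + 2 * (c₀ * vl 1 μ s n ^ 2 * n)) := by ring
    _ ≤ n * (2 * EE μ s n + 2 * EE μ s n) := mul_le_mul_of_nonneg_left (by linarith) hnR.le
    _ = 4 * (n * EE μ s n) := by ring

/-- If the rate function is at most quadratic then `wd ^ 2 ≥ a n EE`. -/
theorem kpz_low20 (h : In μ s c C n₀) {C₀ δ : ℝ} (hC₀ : 0 < C₀) (hδ : 0 < δ)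
    (hq : ∀ x : ℝ, |x| ≤ δ → J μ s x ≤ C₀ * x ^ 2) : ∃ a : ℝ, 0 < a ∧ ∃ n₁ : ℕ, ∀ n : ℕ, n₁ ≤ n →
    a * (n * EE μ s n) ≤ wd μ s n ^ 2 := by
  obtain ⟨n₁, hn₁⟩ := eventually_atTop.1 (h.tv.eventually (Iio_mem_nhds hδ))
  refine ⟨1 / C₀, by positivity, max n₁ 1, fun n hn => ?_⟩
  have hn1 : 1 ≤ n := (le_max_right _ _).trans hn
  have hnR : (0 : ℝ) < n := by exact_mod_cast hn1
  have hE := EE_pos (μ := μ) (s := s) n
  have hB : 0 ≤ 1 * EE μ s n / n := by positivity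
  have hR := h.rf96
  have pr := vr_pos96 h hn1
  have pl := vl_pos96 h hn1
  have hv : vA 1 μ s n < δ := hn₁ n ((le_max_left _ _).trans hn)
  have hv' : vr 1 μ s n + vl 1 μ s n < δ := hv
  have e1 : J μ s (vr 1 μ s n) = 1 * EE μ s n / n := hR.J_wR hB
  have h2 := hq (vr 1 μ s n) (by rw [abs_of_pos pr]; linarith)
  rw [e1, one_mul, div_le_iff₀ hnR] at h2
  have hwd : wd μ s n = n * (vr 1 μ s n + vl 1 μ s n) := rfl
  rw [hwd, one_div, inv_mul_le_iff₀ hC₀, mul_pow]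
  have h5 : vr 1 μ s n ^ 2 ≤ (vr 1 μ s n + vl 1 μ s n) ^ 2 := by nlinarith [mul_pos pr pl, sq_nonneg (vl 1 μ s n)]
  calc (n : ℝ) * EE μ s n ≤ n * (C₀ * vr 1 μ s n ^ 2 * n) := mul_le_mul_of_nonneg_left h2 hnR.le
    _ = C₀ * (n ^ 2 * vr 1 μ s n ^ 2) := by ring
    _ ≤ C₀ * (n ^ 2 * (vr 1 μ s n + vl 1 μ s n) ^ 2) :=
        mul_le_mul_of_nonneg_left (mul_le_mul_of_nonneg_left h5 (by positivity)) hC₀.le

/-! ### Powers (pure) -/

/-- `σ ≥ c n ^ (1 / 5)` from `w ^ 2 ≤ A n σ` and `b n ≤ w σ ^ 2`. -/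
theorem fifth20 {x y n A b : ℝ} (hn : 0 < n) (hA : 0 < A) (hb : 0 < b) (hx : 0 < x) (hy : 0 < y)
    (h1 : y ^ 2 ≤ A * (n * x)) (h2 : b * n ≤ y * x ^ 2) : (b ^ 2 / A) ^ (1 / 5 : ℝ) * n ^ (1 / 5 : ℝ) ≤ x := by
  have h3 : b ^ 2 / A * n ≤ x ^ 5 := by
    rw [div_mul_eq_mul_div, div_le_iff₀ hA]
    have g6 : (b * n) ^ 2 ≤ (y * x ^ 2) ^ 2 := pow_le_pow_left₀ (by positivity) h2 2
    have g7 : (y * x ^ 2) ^ 2 ≤ A * (n * x) * x ^ 4 := by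
      calc (y * x ^ 2) ^ 2 = y ^ 2 * x ^ 4 := by ring
        _ ≤ A * (n * x) * x ^ 4 := mul_le_mul_of_nonneg_right h1 (by positivity)
    have g8 : n * (b ^ 2 * n) ≤ n * (x ^ 5 * A) := by
      calc n * (b ^ 2 * n) = (b * n) ^ 2 := by ring
        _ ≤ A * (n * x) * x ^ 4 := g6.trans g7
        _ = n * (x ^ 5 * A) := by ring
    exact le_of_mul_le_mul_left g8 hn
  rw [← Real.mul_rpow (by positivity) hn.le]
  have h4 := Real.rpow_le_rpow (by positivity) h3 (show (0 : ℝ) ≤ 1 / 5 by norm_num)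
  have h5 : (x ^ 5) ^ (1 / 5 : ℝ) = x := by
    rw [← Real.rpow_natCast x 5, ← Real.rpow_mul hx.le]
    norm_num
  rwa [h5] at h4

/-- `w ≤ C n ^ (3 / 4)` from `w ^ 2 ≤ A n σ` and `σ ≤ B n ^ (1 / 2)`. -/
theorem threequarter20 {x y n A B : ℝ} (hn : 0 < n) (hA : 0 < A) (hB : 0 < B) (hy : 0 < y)
    (h1 : y ^ 2 ≤ A * (n * x)) (h2 : x ≤ B * n ^ (1 / 2 : ℝ)) : y ≤ Real.sqrt (A * B) * n ^ (3 / 4 : ℝ) := by
  refine (pow_le_pow_iff_left₀ hy.le (by positivity) two_ne_zero).1 ?_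
  rw [mul_pow, Real.sq_sqrt (by positivity)]
  have e1 : (n ^ (3 / 4 : ℝ)) ^ 2 = n * n ^ (1 / 2 : ℝ) := by
    rw [← Real.rpow_natCast, ← Real.rpow_mul hn.le]
    nth_rewrite 2 [← Real.rpow_one n]
    rw [← Real.rpow_add hn]
    norm_num
  rw [e1]
  calc y ^ 2 ≤ A * (n * x) := h1
    _ ≤ A * (n * (B * n ^ (1 / 2 : ℝ))) := mul_le_mul_of_nonneg_left (mul_le_mul_of_nonneg_left h2 hn.le) hA.le
    _ = A * B * (n * n ^ (1 / 2 : ℝ)) := by ring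

/-- `w ≥ c n ^ (3 / 5)` from `a n σ ≤ w ^ 2` and `b n ≤ w σ ^ 2`. -/
theorem threefifth20 {x y n a b : ℝ} (hn : 0 < n) (ha : 0 < a) (hb : 0 < b) (hx : 0 < x) (hy : 0 < y)
    (h1 : a * (n * x) ≤ y ^ 2) (h2 : b * n ≤ y * x ^ 2) : (b * a ^ 2) ^ (1 / 5 : ℝ) * n ^ (3 / 5 : ℝ) ≤ y := by
  have h3 : b * a ^ 2 * n ^ 3 ≤ y ^ 5 := by
    have g1 : (a * (n * x)) ^ 2 ≤ (y ^ 2) ^ 2 := pow_le_pow_left₀ (by positivity) h1 2
    calc b * a ^ 2 * n ^ 3 = b * n * (a * n) ^ 2 := by ring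
      _ ≤ y * x ^ 2 * (a * n) ^ 2 := mul_le_mul_of_nonneg_right h2 (by positivity)
      _ = y * (a * (n * x)) ^ 2 := by ring
      _ ≤ y * (y ^ 2) ^ 2 := mul_le_mul_of_nonneg_left g1 hy.le
      _ = y ^ 5 := by ring
  have h4 := Real.rpow_le_rpow (by positivity) h3 (show (0 : ℝ) ≤ 1 / 5 by norm_num)
  have h5 : (y ^ 5) ^ (1 / 5 : ℝ) = y := by
    rw [← Real.rpow_natCast y 5, ← Real.rpow_mul hy.le]
    norm_num
  have h6 : (n ^ 3) ^ (1 / 5 : ℝ) = n ^ (3 / 5 : ℝ) := by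
    rw [← Real.rpow_natCast n 3, ← Real.rpow_mul hn.le]
    norm_num
  rwa [h5, Real.mul_rpow (by positivity) (by positivity), h6] at h4

/-! ### The theorem -/

/-- The orders of the standard deviation and of the width at the force `h`. -/
structure Ord20 (μ : Measure ℝ) (h : ℝ) (σ w : ℕ → ℝ) (a A : ℝ) (n₂ : ℕ) : Prop where
  a0 : 0 < a
  A0 : 0 < A
  sg : ∀ n, n₂ ≤ n → a * EE μ (2 * h) n ≤ σ n ∧ σ n ≤ A * EE μ (2 * h) n
  wi : ∀ n, n₂ ≤ n → a * wd μ (2 * h) n ≤ w n ∧ w n ≤ A * wd μ (2 * h) n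

/-- The lower bound of the variance and the square root bound, for `σ`, `w`. -/
theorem ord_basic20 {h : ℝ} (hI : In μ (2 * h) c C n₀) (hV : VW96 μ (2 * h)) {σ w : ℕ → ℝ} {a A : ℝ} {n₂ : ℕ}
    (ho : Ord20 μ h σ w a A n₂) : ∃ b B : ℝ, 0 < b ∧ 0 < B ∧ ∃ n₁ : ℕ, ∀ n : ℕ, n₁ ≤ n → 0 < (n : ℝ) ∧ 0 < σ n ∧ 0 < w n ∧
      b * n ≤ w n * σ n ^ 2 ∧ σ n ≤ B * (n : ℝ) ^ (1 / 2 : ℝ) := by
  obtain ⟨A₂, hA₂, m₂, hm₂⟩ := EE_half96 hI
  obtain ⟨a₃, ha₃, m₃, hm₃⟩ := hV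
  have ha := ho.a0
  have hA := ho.A0
  refine ⟨a₃ * a ^ 3, A * A₂, by positivity, by positivity, max (max n₂ 1) (max m₂ m₃), fun n hn => ?_⟩
  have k1 : n₂ ≤ n := (le_max_left _ _).trans ((le_max_left _ _).trans hn)
  have k2 : 1 ≤ n := (le_max_right _ _).trans ((le_max_left _ _).trans hn)
  have k4 : m₂ ≤ n := (le_max_left _ _).trans ((le_max_right _ _).trans hn)
  have k5 : m₃ ≤ n := (le_max_right _ _).trans ((le_max_right _ _).trans hn)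
  have hnR : (0 : ℝ) < n := by exact_mod_cast k2
  have hE := EE_pos (μ := μ) (s := 2 * h) n
  have hW := wd_pos96 hI k2
  obtain ⟨g1, g2⟩ := ho.sg n k1
  obtain ⟨g3, g4⟩ := ho.wi n k1
  have pσ : 0 < σ n := lt_of_lt_of_le (by positivity) g1
  have pw : 0 < w n := lt_of_lt_of_le (by positivity) g3
  refine ⟨hnR, pσ, pw, ?_, ?_⟩
  · have g7 : a ^ 2 * EE μ (2 * h) n ^ 2 ≤ σ n ^ 2 := by
      rw [← mul_pow]
      exact pow_le_pow_left₀ (by positivity) g1 2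
    calc a₃ * a ^ 3 * n = a ^ 3 * (a₃ * n) := by ring
      _ ≤ a ^ 3 * (wd μ (2 * h) n * EE μ (2 * h) n ^ 2) := mul_le_mul_of_nonneg_left (hm₃ n k5) (by positivity)
      _ = (a * wd μ (2 * h) n) * (a ^ 2 * EE μ (2 * h) n ^ 2) := by ring
      _ ≤ w n * σ n ^ 2 := mul_le_mul g3 g7 (by positivity) pw.le
  · calc σ n ≤ A * EE μ (2 * h) n := g2
      _ ≤ A * (A₂ * (n : ℝ) ^ (1 / 2 : ℝ)) := mul_le_mul_of_nonneg_left (hm₂ n k4) hA.le
      _ = A * A₂ * (n : ℝ) ^ (1 / 2 : ℝ) := by ring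

/-- **The relation `w ^ 2 ~ n σ`**: both halves at a dense set of forces, where the free energy is quadratic; the upper half at almost
every force; the lower half at almost every velocity. -/
theorem kpz_P20 (hμ : EM μ) (hnd : Nondeg μ) (hdbl : ∀ H : ℝ, DblH μ (Icc (-H) H))
    (hIn : ∀ s : ℝ, ∃ (c C : ℝ) (n₀ : ℕ), In μ s c C n₀) (hV : ∀ s : ℝ, VW96 μ s) {σ w : ℝ → ℕ → ℝ}
    (ho : ∀ h : ℝ, ∃ (a A : ℝ) (n₂ : ℕ), Ord20 μ h (σ h) (w h) a A n₂) :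
    (∃ T : Set ℝ, Dense T ∧ ∀ h ∈ T, ∃ c C : ℝ, 0 < c ∧
      (∀ r : ℝ, |r| ≤ 1 → c * r ^ 2 ≤ Lam μ (h + r) - Lam μ h - r * vel μ h ∧
        Lam μ (h + r) - Lam μ h - r * vel μ h ≤ C * r ^ 2) ∧
      (∀ᶠ n : ℕ in atTop, c * (n * σ h n) ≤ w h n ^ 2 ∧ w h n ^ 2 ≤ C * (n * σ h n) ∧
        c * (n : ℝ) ^ (1 / 5 : ℝ) ≤ σ h n ∧ σ h n ≤ C * (n : ℝ) ^ (1 / 2 : ℝ) ∧
        c * (n : ℝ) ^ (3 / 5 : ℝ) ≤ w h n ∧ w h n ≤ C * (n : ℝ) ^ (3 / 4 : ℝ)) ∧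
      limsup (fun n : ℕ => Real.log (σ h n) / Real.log n) atTop =
        2 * limsup (fun n : ℕ => Real.log (w h n) / Real.log n) atTop - 1 ∧
      liminf (fun n : ℕ => Real.log (σ h n) / Real.log n) atTop =
        2 * liminf (fun n : ℕ => Real.log (w h n) / Real.log n) atTop - 1) ∧
    (∀ᵐ h : ℝ, ∃ c C : ℝ, 0 < c ∧ ∀ᶠ n : ℕ in atTop, w h n ^ 2 ≤ C * (n * σ h n) ∧
      c * (n : ℝ) ^ (1 / 5 : ℝ) ≤ σ h n ∧ w h n ≤ C * (n : ℝ) ^ (3 / 4 : ℝ)) ∧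
    (∀ᵐ v : ℝ, ∀ h : ℝ, vel μ h = v → ∃ c : ℝ, 0 < c ∧ ∀ᶠ n : ℕ in atTop, c * (n * σ h n) ≤ w h n ^ 2 ∧
      c * (n : ℝ) ^ (3 / 5 : ℝ) ≤ w h n) := by
  refine ⟨?_, ?_, ?_⟩
  · -- the dense set
    refine ⟨{h : ℝ | ∃ c C ρ : ℝ, 0 < c ∧ 0 < C ∧ 0 < ρ ∧ (∀ x : ℝ, |x| ≤ ρ → c * x ^ 2 ≤ J μ (2 * h) x ∧
      J μ (2 * h) x ≤ C * x ^ 2) ∧ ∀ r : ℝ, |r| ≤ 1 → c * r ^ 2 ≤ ex μ (2 * h) r ∧ ex μ (2 * h) r ≤ C * r ^ 2}, ?_, ?_⟩
    · rw [Metric.dense_iff]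
      intro x r hr
      obtain ⟨s, hs1, hs2, c, C, ρ, hc, hC, hρ, hJ, hex⟩ := quadH hμ hnd hdbl (a := 2 * x - r) (b := 2 * x + r) (by linarith)
      refine ⟨s / 2, ?_, c, C, ρ, hc, hC, hρ, ?_, ?_⟩
      · rw [Metric.mem_ball, Real.dist_eq, abs_lt]
        constructor <;> linarith
      · rw [mul_div_cancel₀ s (two_ne_zero' ℝ)]
        exact hJ
      · rw [mul_div_cancel₀ s (two_ne_zero' ℝ)]
        exact hex
    · rintro h ⟨c, C, ρ, hc, hC, hρ, hJ, hex⟩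
      obtain ⟨c₁, C₁, n₁, hI⟩ := hIn (2 * h)
      obtain ⟨a, A, n₂, hor⟩ := ho h
      obtain ⟨c', C', hc', N, hN, hsup, hinf⟩ := kpz_all96 hI hc hρ hJ (hV (2 * h)) (σ := σ h) (w := w h) hor.a0 (n₂ := n₂)
        hor.sg hor.wi
      obtain ⟨C₂, hC₂⟩ : ∃ C₂ : ℝ, C₂ = max (max (4 * C) 4) C' := ⟨_, rfl⟩
      have hC21 : 4 * C ≤ C₂ := by rw [hC₂]; exact (le_max_left _ _).trans (le_max_left _ _)
      have hC22 : 4 ≤ C₂ := by rw [hC₂]; exact (le_max_right _ _).trans (le_max_left _ _)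
      have hC23 : C' ≤ C₂ := by rw [hC₂]; exact le_max_right _ _
      refine ⟨min (2 * c) c', C₂, lt_min (by positivity) hc', fun r hr => ?_,
        eventually_atTop.2 ⟨max N n₂, fun n hn => ?_⟩, hsup, hinf⟩
      · -- the free energy
        have hsq : 0 ≤ r ^ 2 := sq_nonneg r
        have key : Lam μ (h + r) - Lam μ h - r * vel μ h = ex μ (2 * h) (2 * r) := by
          rw [ex_vel, mul_div_cancel_left₀ r (two_ne_zero' ℝ)]
        rw [key]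
        constructor
        · have h1 := ex_mul_le (μ := μ) hμ (2 * h) (t := 1 / 2) (by norm_num) (by norm_num) (2 * r)
          rw [show (1 / 2 : ℝ) * (2 * r) = r by ring] at h1
          have h2 := (hex r hr).1
          have h3 : min (2 * c) c' * r ^ 2 ≤ 2 * c * r ^ 2 := mul_le_mul_of_nonneg_right (min_le_left _ _) hsq
          linarith
        · rcases le_total |r| (1 / 2) with h1 | h1
          · have h2 := (hex (2 * r) (by rw [abs_mul, abs_of_pos (two_pos : (0 : ℝ) < 2)]; linarith)).2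
            have h3 : 4 * C * r ^ 2 ≤ C₂ * r ^ 2 := mul_le_mul_of_nonneg_right hC21 hsq
            calc ex μ (2 * h) (2 * r) ≤ C * (2 * r) ^ 2 := h2
              _ = 4 * C * r ^ 2 := by ring
              _ ≤ C₂ * r ^ 2 := h3
          · have h2 := ex_le hμ hnd (2 * h) (2 * r)
            rw [abs_mul, abs_of_pos (two_pos : (0 : ℝ) < 2)] at h2
            have h3 : |r| ^ 2 = r ^ 2 := sq_abs r
            have h4 : 2 * |r| ≤ 4 * r ^ 2 := by nlinarith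
            have h5 : 4 * r ^ 2 ≤ C₂ * r ^ 2 := mul_le_mul_of_nonneg_right hC22 hsq
            linarith
      · obtain ⟨g1, g2, g3, g4, g5, g6, -, -, -⟩ := hN n ((le_max_left _ _).trans hn)
        have hn2 := (le_max_right _ _).trans hn
        have hσ : 0 ≤ σ h n := by
          have hE := EE_pos (μ := μ) (s := 2 * h) n
          have ha := hor.a0
          exact le_trans (by positivity) (hor.sg n hn2).1
        have hnn : (0 : ℝ) ≤ n := Nat.cast_nonneg n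
        have hns : 0 ≤ (n : ℝ) * σ h n := mul_nonneg hnn hσ
        have hm : min (2 * c) c' ≤ c' := min_le_right _ _
        exact ⟨(mul_le_mul_of_nonneg_right hm hns).trans g1, g2.trans (mul_le_mul_of_nonneg_right hC23 hns),
          (mul_le_mul_of_nonneg_right hm (Real.rpow_nonneg hnn _)).trans g3,
          g4.trans (mul_le_mul_of_nonneg_right hC23 (Real.rpow_nonneg hnn _)),
          (mul_le_mul_of_nonneg_right hm (Real.rpow_nonneg hnn _)).trans g5,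
          g6.trans (mul_le_mul_of_nonneg_right hC23 (Real.rpow_nonneg hnn _))⟩
  · -- almost every force
    filter_upwards [ae_force20 hμ hnd] with h hh
    obtain ⟨c₀, δ, hc₀, hδ, hJ⟩ := hh
    obtain ⟨c₁, C₁, n₁, hI⟩ := hIn (2 * h)
    obtain ⟨a, A, n₂, hor⟩ := ho h
    obtain ⟨b, B, hb, hB, n₃, h3⟩ := ord_basic20 hI (hV (2 * h)) hor
    obtain ⟨A₁, hA₁, n₄, h4⟩ := kpz_up20 hI hc₀ hδ hJ
    have ha := hor.a0
    have hA := hor.A0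
    obtain ⟨A₂, hA₂⟩ : ∃ A₂ : ℝ, A₂ = A₁ * A ^ 2 / a := ⟨_, rfl⟩
    have hA₂0 : 0 < A₂ := by rw [hA₂]; positivity
    refine ⟨(b ^ 2 / A₂) ^ (1 / 5 : ℝ), max A₂ (Real.sqrt (A₂ * B)), by positivity, eventually_atTop.2
      ⟨max n₂ (max n₃ n₄), fun n hn => ?_⟩⟩
    have k2 : n₂ ≤ n := (le_max_left _ _).trans hn
    have k3 : n₃ ≤ n := (le_max_left _ _).trans ((le_max_right _ _).trans hn)
    have k4 : n₄ ≤ n := (le_max_right _ _).trans ((le_max_right _ _).trans hn)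
    obtain ⟨hn0, hσ, hw, p1, p2⟩ := h3 n k3
    obtain ⟨g1, g2⟩ := hor.sg n k2
    obtain ⟨g3, g4⟩ := hor.wi n k2
    have g5 := h4 n k4
    have hE := EE_pos (μ := μ) (s := 2 * h) n
    have q1 : w h n ^ 2 ≤ A₂ * (n * σ h n) := by
      calc w h n ^ 2 ≤ (A * wd μ (2 * h) n) ^ 2 := pow_le_pow_left₀ hw.le g4 2
        _ = A ^ 2 * wd μ (2 * h) n ^ 2 := by ring
        _ ≤ A ^ 2 * (A₁ * (n * EE μ (2 * h) n)) := mul_le_mul_of_nonneg_left g5 (by positivity)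
        _ = A₁ * A ^ 2 / a * (n * (a * EE μ (2 * h) n)) := by field_simp
        _ ≤ A₁ * A ^ 2 / a * (n * σ h n) :=
            mul_le_mul_of_nonneg_left (mul_le_mul_of_nonneg_left g1 hn0.le) (by positivity)
        _ = A₂ * (n * σ h n) := by rw [hA₂]
    refine ⟨q1.trans (mul_le_mul_of_nonneg_right (le_max_left _ _) (by positivity)),
      fifth20 hn0 hA₂0 hb hσ hw q1 p1, (threequarter20 hn0 hA₂0 hB hw q1 p2).trans
        (mul_le_mul_of_nonneg_right (le_max_right _ _) (by positivity))⟩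
  · -- almost every velocity
    filter_upwards [ae_vel20 hμ hnd] with v hv
    intro h hh
    obtain ⟨C₀, δ, hC₀, hδ, hJ⟩ := hv h hh
    obtain ⟨c₁, C₁, n₁, hI⟩ := hIn (2 * h)
    obtain ⟨a, A, n₂, hor⟩ := ho h
    obtain ⟨b, B, hb, hB, n₃, h3⟩ := ord_basic20 hI (hV (2 * h)) hor
    obtain ⟨a₁, ha₁, n₄, h4⟩ := kpz_low20 hI hC₀ hδ hJ
    have ha := hor.a0
    have hA := hor.A0
    obtain ⟨a₂, ha₂⟩ : ∃ a₂ : ℝ, a₂ = a₁ * a ^ 2 / A := ⟨_, rfl⟩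
    have ha₂0 : 0 < a₂ := by rw [ha₂]; positivity
    refine ⟨min a₂ ((b * a₂ ^ 2) ^ (1 / 5 : ℝ)), by positivity, eventually_atTop.2 ⟨max n₂ (max n₃ n₄), fun n hn => ?_⟩⟩
    have k2 : n₂ ≤ n := (le_max_left _ _).trans hn
    have k3 : n₃ ≤ n := (le_max_left _ _).trans ((le_max_right _ _).trans hn)
    have k4 : n₄ ≤ n := (le_max_right _ _).trans ((le_max_right _ _).trans hn)
    obtain ⟨hn0, hσ, hw, p1, p2⟩ := h3 n k3
    obtain ⟨g1, g2⟩ := hor.sg n k2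
    obtain ⟨g3, g4⟩ := hor.wi n k2
    have g5 := h4 n k4
    have hE := EE_pos (μ := μ) (s := 2 * h) n
    have hW : 0 ≤ wd μ (2 * h) n := by
      have := hw.le.trans g4
      exact nonneg_of_mul_nonneg_right this hA
    have q1 : a₂ * (n * σ h n) ≤ w h n ^ 2 := by
      calc a₂ * (n * σ h n) ≤ a₂ * (n * (A * EE μ (2 * h) n)) :=
            mul_le_mul_of_nonneg_left (mul_le_mul_of_nonneg_left g2 hn0.le) ha₂0.le
        _ = a ^ 2 * (a₁ * (n * EE μ (2 * h) n)) := by rw [ha₂]; field_simp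
        _ ≤ a ^ 2 * wd μ (2 * h) n ^ 2 := mul_le_mul_of_nonneg_left g5 (by positivity)
        _ = (a * wd μ (2 * h) n) ^ 2 := by ring
        _ ≤ w h n ^ 2 := pow_le_pow_left₀ (by positivity) g3 2
    exact ⟨(mul_le_mul_of_nonneg_right (min_le_left _ _) (by positivity)).trans q1,
      (mul_le_mul_of_nonneg_right (min_le_right _ _) (by positivity)).trans (threefifth20 hn0 ha₂0 hb hσ hw q1 p1)⟩

end Pool.Agent.W_7d29a1_HS
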