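import Pool.Agent.W_7d29a1_HS.Width
import Pool.Agent.W_7d29a1_SR.Kappa

/-!
MP_7d29a1_pr, TRACK H, part 3, (l): the width and the unit at a tilt where the rate function is quadratic near `0`.

`Quad96 μ s c₀ C₀ δ` is the hypothesis `c₀ x ^ 2 ≤ J μ s x ≤ C₀ x ^ 2` for `|x| ≤ δ`. Then `wd ^ 2` is of the order of `n EE`.
`VW96 μ s` is the lower bound of the variance (`HS.VarW` with `HS.VarS`): `a n ≤ wd EE ^ 2`.
-/

set_option autoImplicit false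

namespace Pool.Agent.W_7d29a1_HS

open MeasureTheory ProbabilityTheory Filter Topology
open Pool.Agent.W_7d29a1_F Pool.Agent.W_7d29a1_h4g Pool.Agent.W_7d29a1_H
open Pool.Agent.W_1b8d5d_p (wR wL Rf)
open Pool.Agent.W_7d29a1_SR (wid)

variable {μ : Measure ℝ} {s c C : ℝ} {n₀ : ℕ}

/-- The rate function of the tilt `s` is quadratic near `0`. -/
def Quad96 (μ : Measure ℝ) (s c₀ C₀ δ : ℝ) : Prop := ∀ x : ℝ, |x| ≤ δ → c₀ * x ^ 2 ≤ J μ s x ∧ J μ s x ≤ C₀ * x ^ 2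

/-- The lower bound of the variance, in terms of the unit. -/
def VW96 (μ : Measure ℝ) (s : ℝ) : Prop := ∃ a : ℝ, 0 < a ∧ ∃ n₁ : ℕ, ∀ n : ℕ, n₁ ≤ n → a * n ≤ wd μ s n * EE μ s n ^ 2

/-- **(KPZ relation)** `wd ^ 2` is of the order of `n EE`. -/
theorem kpz_wd [IsProbabilityMeasure μ] (h : In μ s c C n₀) {c₀ C₀ δ : ℝ} (hc₀ : 0 < c₀) (hδ : 0 < δ)
    (hq : Quad96 μ s c₀ C₀ δ) : ∃ a A : ℝ, 0 < a ∧ 0 < A ∧ ∃ n₁ : ℕ, ∀ n : ℕ, n₁ ≤ n →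
    a * (n * EE μ s n) ≤ wd μ s n ^ 2 ∧ wd μ s n ^ 2 ≤ A * (n * EE μ s n) := by
  have hC₀ : 0 < C₀ := by
    have h1 := hq δ (by rw [abs_of_pos hδ])
    have h2 : 0 < δ ^ 2 := by positivity
    have h3 : c₀ * δ ^ 2 ≤ C₀ * δ ^ 2 := h1.1.trans h1.2
    exact lt_of_lt_of_le hc₀ (le_of_mul_le_mul_right h3 h2)
  obtain ⟨n₁, hn₁⟩ := eventually_atTop.1 (h.tv.eventually (Iio_mem_nhds hδ))
  refine ⟨1 / C₀, 4 / c₀, by positivity, by positivity, max n₁ 1, fun n hn => ?_⟩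
  have hn1 : 1 ≤ n := (le_max_right _ _).trans hn
  have hnR : (0 : ℝ) < n := by exact_mod_cast hn1
  have hE := EE_pos (μ := μ) (s := s) n
  have hB : 0 ≤ 1 * EE μ s n / n := by positivity
  have hR := h.rf96
  have pr := vr_pos96 h hn1
  have pl := vl_pos96 h hn1
  have hv : vA 1 μ s n < δ := hn₁ n ((le_max_left _ _).trans hn)
  have hv' : vr 1 μ s n + vl 1 μ s n < δ := hv
  have e1 : J μ s (vr 1 μ s n) = 1 * EE μ s n / n := hR.J_wR hB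
  have e2 : J μ s (-vl 1 μ s n) = 1 * EE μ s n / n := hR.J_wL hB
  obtain ⟨h1, h2⟩ := hq (vr 1 μ s n) (by rw [abs_of_pos pr]; linarith)
  obtain ⟨h3, h4⟩ := hq (-vl 1 μ s n) (by rw [abs_neg, abs_of_pos pl]; linarith)
  rw [e1, one_mul] at h1 h2
  rw [e2, one_mul, neg_sq] at h3 h4
  rw [le_div_iff₀ hnR] at h1 h3
  rw [div_le_iff₀ hnR] at h2 h4
  have hwd : wd μ s n = n * (vr 1 μ s n + vl 1 μ s n) := rfl
  rw [hwd]
  constructor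
  · rw [one_div, inv_mul_le_iff₀ hC₀, mul_pow]
    have h5 : vr 1 μ s n ^ 2 ≤ (vr 1 μ s n + vl 1 μ s n) ^ 2 := by nlinarith [mul_pos pr pl, sq_nonneg (vl 1 μ s n)]
    calc (n : ℝ) * EE μ s n ≤ n * (C₀ * vr 1 μ s n ^ 2 * n) := mul_le_mul_of_nonneg_left h2 hnR.le
      _ = C₀ * (n ^ 2 * vr 1 μ s n ^ 2) := by ring
      _ ≤ C₀ * (n ^ 2 * (vr 1 μ s n + vl 1 μ s n) ^ 2) :=
          mul_le_mul_of_nonneg_left (mul_le_mul_of_nonneg_left h5 (by positivity)) hC₀.le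
  · rw [div_mul_eq_mul_div, le_div_iff₀ hc₀, mul_pow]
    have h5 : (vr 1 μ s n + vl 1 μ s n) ^ 2 ≤ 2 * vr 1 μ s n ^ 2 + 2 * vl 1 μ s n ^ 2 := by
      nlinarith [sq_nonneg (vr 1 μ s n - vl 1 μ s n)]
    calc (n : ℝ) ^ 2 * (vr 1 μ s n + vl 1 μ s n) ^ 2 * c₀ ≤ n ^ 2 * (2 * vr 1 μ s n ^ 2 + 2 * vl 1 μ s n ^ 2) * c₀ :=
          mul_le_mul_of_nonneg_right (mul_le_mul_of_nonneg_left h5 (by positivity)) hc₀.le
      _ = n * (2 * (c₀ * vr 1 μ s n ^ 2 * n) + 2 * (c₀ * vl 1 μ s n ^ 2 * n)) := by ring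
      _ ≤ n * (2 * EE μ s n + 2 * EE μ s n) := mul_le_mul_of_nonneg_left (by linarith) hnR.le
      _ = 4 * (n * EE μ s n) := by ring

/-- The unit is at most of the order of `√n` (at every tilt). -/
theorem EE_half96 [IsProbabilityMeasure μ] (h : In μ s c C n₀) : ∃ A : ℝ, 0 < A ∧ ∃ n₁ : ℕ, ∀ n : ℕ, n₁ ≤ n →
    EE μ s n ≤ A * (n : ℝ) ^ (1 / 2 : ℝ) := by
  obtain ⟨K, x₀, hK⟩ := h.half
  refine ⟨(2 : ℝ) ^ (gg μ s x₀ + K + 1 / 2), by positivity, 2 ^ x₀, fun n hn => ?_⟩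
  have hn0 : n ≠ 0 := by
    have : 0 < 2 ^ x₀ := by positivity
    omega
  obtain ⟨y, hy⟩ : ∃ y : ℕ, y = Nat.log 2 n := ⟨_, rfl⟩
  have h1 : n < 2 ^ (y + 1) := by
    rw [hy]
    exact Nat.lt_pow_succ_log_self (by norm_num) n
  have h2 : 2 ^ y ≤ n := by
    rw [hy]
    exact Nat.pow_log_le_self 2 hn0
  have h3 : x₀ ≤ y := by
    by_contra hcon
    have h4 : 2 ^ (y + 1) ≤ 2 ^ x₀ := Nat.pow_le_pow_right (by norm_num) (by omega)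
    omega
  have h5 := hK x₀ (y + 1 - x₀) le_rfl
  rw [show x₀ + (y + 1 - x₀) = y + 1 by omega] at h5
  have h6 : ((y + 1 - x₀ : ℕ) : ℝ) ≤ y + 1 := by
    have : ((y + 1 - x₀ : ℕ) : ℝ) ≤ ((y + 1 : ℕ) : ℝ) := Nat.cast_le.2 (Nat.sub_le _ _)
    push_cast at this
    exact this
  have h7 : gg μ s (y + 1) ≤ (gg μ s x₀ + K + 1 / 2) + y / 2 := by linarith
  have e1 : (2 : ℝ) ^ (gg μ s (y + 1)) = EE μ s (2 ^ (y + 1)) := by
    unfold gg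
    exact Real.rpow_logb (by norm_num) (by norm_num) (EE_pos _)
  have h8 := Real.rpow_le_rpow_of_exponent_le (x := 2) (by norm_num) h7
  rw [e1, Real.rpow_add (by norm_num)] at h8
  have h9 : EE μ s n ≤ EE μ s (2 ^ (y + 1)) := EE_mono h1.le
  refine h9.trans (h8.trans (mul_le_mul_of_nonneg_left ?_ (by positivity)))
  have e2 : (2 : ℝ) ^ ((y : ℝ) / 2) = ((2 : ℝ) ^ y) ^ (1 / 2 : ℝ) := by
    rw [← Real.rpow_natCast 2 y, ← Real.rpow_mul (by norm_num)]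
    congr 1
    ring
  rw [e2]
  refine Real.rpow_le_rpow (by positivity) ?_ (by norm_num)
  exact_mod_cast h2

/-- `x ^ 5 ≥ b n` gives `x ≥ b ^ (1 / 5) n ^ (1 / 5)`. -/
private lemma fifth96 {x b : ℝ} (hx : 0 ≤ x) (hb : 0 ≤ b) {n : ℕ} (h : b * n ≤ x ^ 5) :
    b ^ (1 / 5 : ℝ) * (n : ℝ) ^ (1 / 5 : ℝ) ≤ x := by
  rw [← Real.mul_rpow hb (Nat.cast_nonneg n)]
  have h1 := Real.rpow_le_rpow (by positivity) h (show (0 : ℝ) ≤ 1 / 5 by norm_num)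
  refine h1.trans (le_of_eq ?_)
  rw [← Real.rpow_natCast x 5, ← Real.rpow_mul hx]
  norm_num

/-- **The exponents `1 / 5` and `3 / 5`, `1 / 2` and `3 / 4`** for sequences `σ`, `w` (pure): `w ^ 2` is of the order of `n σ`,
`n ≤ C w σ ^ 2` and `σ ≤ C √n`. -/
theorem kpz_pow96 {σ w : ℕ → ℝ} {n₁ : ℕ} {a A b B : ℝ} (ha : 0 < a) (hA : 0 < A) (hb : 0 < b) (hB : 0 < B)
    (hσ : ∀ n, n₁ ≤ n → 0 < σ n) (hw : ∀ n, n₁ ≤ n → 0 < w n)
    (h1 : ∀ n : ℕ, n₁ ≤ n → a * (n * σ n) ≤ w n ^ 2) (h2 : ∀ n : ℕ, n₁ ≤ n → w n ^ 2 ≤ A * (n * σ n))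
    (h3 : ∀ n : ℕ, n₁ ≤ n → b * n ≤ w n * σ n ^ 2) (h4 : ∀ n : ℕ, n₁ ≤ n → σ n ≤ B * (n : ℝ) ^ (1 / 2 : ℝ)) :
    ∃ c' C' : ℝ, 0 < c' ∧ 0 < C' ∧ ∀ n : ℕ, max n₁ 1 ≤ n → c' * (n : ℝ) ^ (1 / 5 : ℝ) ≤ σ n ∧
      c' * (n : ℝ) ^ (3 / 5 : ℝ) ≤ w n ∧ w n ≤ C' * (n : ℝ) ^ (3 / 4 : ℝ) := by
  obtain ⟨d, hd⟩ : ∃ d, d = (b ^ 2 / A) ^ (1 / 5 : ℝ) := ⟨_, rfl⟩
  have hd0 : 0 < d := by
    rw [hd]
    positivity
  refine ⟨min d (Real.sqrt (a * d)), Real.sqrt (A * B), lt_min hd0 (Real.sqrt_pos.2 (mul_pos ha hd0)),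
    Real.sqrt_pos.2 (mul_pos hA hB), fun n hn => ?_⟩
  have hn1 : n₁ ≤ n := (le_max_left _ _).trans hn
  have hn' : 1 ≤ n := (le_max_right _ _).trans hn
  have hnR : (0 : ℝ) < n := by exact_mod_cast hn'
  have pσ := hσ n hn1
  have pw := hw n hn1
  have g1 := h1 n hn1
  have g2 := h2 n hn1
  have g3 := h3 n hn1
  have g4 := h4 n hn1
  -- `σ ^ 5 ≥ (b ^ 2 / A) n`
  have g5 : b ^ 2 / A * n ≤ σ n ^ 5 := by
    rw [div_mul_eq_mul_div, div_le_iff₀ hA]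
    have g6 : (b * n) ^ 2 ≤ (w n * σ n ^ 2) ^ 2 := pow_le_pow_left₀ (by positivity) g3 2
    have g7 : (w n * σ n ^ 2) ^ 2 ≤ A * (n * σ n) * σ n ^ 4 := by
      rw [mul_pow]
      calc w n ^ 2 * (σ n ^ 2) ^ 2 = w n ^ 2 * σ n ^ 4 := by ring
        _ ≤ A * (n * σ n) * σ n ^ 4 := mul_le_mul_of_nonneg_right g2 (by positivity)
    have g8 : (n : ℝ) * (b ^ 2 * n) ≤ n * (σ n ^ 5 * A) := by
      calc (n : ℝ) * (b ^ 2 * n) = (b * n) ^ 2 := by ring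
        _ ≤ A * (n * σ n) * σ n ^ 4 := g6.trans g7
        _ = n * (σ n ^ 5 * A) := by ring
    exact le_of_mul_le_mul_left g8 hnR
  have g9 : d * (n : ℝ) ^ (1 / 5 : ℝ) ≤ σ n := by
    rw [hd]
    exact fifth96 pσ.le (by positivity) g5
  have p5 : (0 : ℝ) < (n : ℝ) ^ (1 / 5 : ℝ) := by positivity
  have p35 : (0 : ℝ) < (n : ℝ) ^ (3 / 5 : ℝ) := by positivity
  refine ⟨(mul_le_mul_of_nonneg_right (min_le_left _ _) p5.le).trans g9, ?_, ?_⟩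
  · refine (mul_le_mul_of_nonneg_right (min_le_right _ _) p35.le).trans ?_
    refine (pow_le_pow_iff_left₀ (by positivity) pw.le two_ne_zero).1 ?_
    rw [mul_pow, Real.sq_sqrt (by positivity)]
    have e1 : ((n : ℝ) ^ (3 / 5 : ℝ)) ^ 2 = n * (n : ℝ) ^ (1 / 5 : ℝ) := by
      rw [← Real.rpow_natCast, ← Real.rpow_mul hnR.le]
      nth_rewrite 2 [← Real.rpow_one (n : ℝ)]
      rw [← Real.rpow_add hnR]
      norm_num
    rw [e1]
    calc a * d * (n * (n : ℝ) ^ (1 / 5 : ℝ)) = a * (n * (d * (n : ℝ) ^ (1 / 5 : ℝ))) := by ring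
      _ ≤ a * (n * σ n) := mul_le_mul_of_nonneg_left (mul_le_mul_of_nonneg_left g9 hnR.le) ha.le
      _ ≤ w n ^ 2 := g1
  · refine (pow_le_pow_iff_left₀ pw.le (by positivity) two_ne_zero).1 ?_
    rw [mul_pow, Real.sq_sqrt (by positivity)]
    have e1 : ((n : ℝ) ^ (3 / 4 : ℝ)) ^ 2 = n * (n : ℝ) ^ (1 / 2 : ℝ) := by
      rw [← Real.rpow_natCast, ← Real.rpow_mul hnR.le]
      nth_rewrite 2 [← Real.rpow_one (n : ℝ)]
      rw [← Real.rpow_add hnR]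
      norm_num
    rw [e1]
    calc w n ^ 2 ≤ A * (n * σ n) := g2
      _ ≤ A * (n * (B * (n : ℝ) ^ (1 / 2 : ℝ))) :=
          mul_le_mul_of_nonneg_left (mul_le_mul_of_nonneg_left g4 hnR.le) hA.le
      _ = A * B * (n * (n : ℝ) ^ (1 / 2 : ℝ)) := by ring

/-- **The exponents** (pure): `w ^ 2` is of the order of `n σ` gives `2 ν - 1 = χ` for the upper and for the lower exponents. -/
theorem kpz_exp96 {σ w : ℕ → ℝ} {n₁ : ℕ} {a A c' : ℝ} (ha : 0 < a) (hA : 0 < A) (hc' : 0 < c')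
    (hσ : ∀ n, n₁ ≤ n → 0 < σ n) (hw1 : ∀ n, n₁ ≤ n → 1 ≤ w n) (hw2 : ∀ n, n₁ ≤ n → w n ≤ (n : ℝ) ^ (1 - c'))
    (h1 : ∀ n : ℕ, n₁ ≤ n → a * (n * σ n) ≤ w n ^ 2) (h2 : ∀ n : ℕ, n₁ ≤ n → w n ^ 2 ≤ A * (n * σ n)) :
    limsup (fun n : ℕ => Real.log (σ n) / Real.log n) atTop =
        2 * limsup (fun n : ℕ => Real.log (w n) / Real.log n) atTop - 1 ∧
      liminf (fun n : ℕ => Real.log (σ n) / Real.log n) atTop =
        2 * liminf (fun n : ℕ => Real.log (w n) / Real.log n) atTop - 1 := by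
  have hκ : Tendsto (fun v : ℝ => Real.log ((fun u : ℝ => u ^ 2) v) / Real.log v) (𝓝[>] 0) (𝓝 2) := by
    refine tendsto_const_nhds.congr' ?_
    have hmem : Set.Ioo (0 : ℝ) 1 ∈ 𝓝[>] (0 : ℝ) := Ioo_mem_nhdsGT one_pos
    filter_upwards [hmem] with v hv
    have h3 : Real.log v < 0 := Real.log_neg hv.1 hv.2
    rw [Real.log_pow, mul_div_assoc, div_self h3.ne, mul_one]
    norm_num
  have e1 : ∀ n : ℕ, max n₁ 1 ≤ n → (n : ℝ) * (fun u : ℝ => u ^ 2) (w n / n) = w n ^ 2 / n := by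
    intro n hn
    have hn' : 1 ≤ n := (le_max_right _ _).trans hn
    have hnR : (0 : ℝ) < n := by exact_mod_cast hn'
    field_simp
  obtain ⟨g1, g2⟩ := Pool.Agent.W_7d29a1_SR.kappa_relation (J := fun u : ℝ => u ^ 2) (σ := σ) (w := w) (n₁ := max n₁ 1)
    (κ := 2) (a := 1 / A) (A := 1 / a) (c := c') hκ (by norm_num) hc'
    (fun n hn => hw1 n ((le_max_left _ _).trans hn)) (fun n hn => hw2 n ((le_max_left _ _).trans hn)) (by positivity)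
    (by positivity) (fun n hn => hσ n ((le_max_left _ _).trans hn)) (fun n hn => by
      have hn' : 1 ≤ n := (le_max_right _ _).trans hn
      have hnR : (0 : ℝ) < n := by exact_mod_cast hn'
      have h3 := h2 n ((le_max_left _ _).trans hn)
      rw [e1 n hn, one_div, inv_mul_le_iff₀ hA, div_le_iff₀ hnR]
      linarith) (fun n hn => by
      have hn' : 1 ≤ n := (le_max_right _ _).trans hn
      have hnR : (0 : ℝ) < n := by exact_mod_cast hn'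
      have h3 := h1 n ((le_max_left _ _).trans hn)
      rw [e1 n hn, one_div, inv_mul_eq_div, le_div_iff₀ ha, le_div_iff₀ hnR]
      linarith)
  rw [g1, g2]
  constructor <;> ring

/-- **The theorem at a tilt with a quadratic rate function.** For sequences `σ`, `w` of the orders of the unit and of the width:
`w ^ 2` is of the order of `n σ`, `c n ^ (1 / 5) ≤ σ ≤ C n ^ (1 / 2)`, `c n ^ (3 / 5) ≤ w ≤ C n ^ (3 / 4)` and `χ = 2 ν - 1` for the upper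
and for the lower exponents. -/
theorem kpz_all96 [IsProbabilityMeasure μ] (h : In μ s c C n₀) {c₀ C₀ δ : ℝ} (hc₀ : 0 < c₀) (hδ : 0 < δ)
    (hq : Quad96 μ s c₀ C₀ δ) (hV : VW96 μ s) {σ w : ℕ → ℝ} {a A : ℝ} (ha : 0 < a) {n₂ : ℕ}
    (hσ : ∀ n, n₂ ≤ n → a * EE μ s n ≤ σ n ∧ σ n ≤ A * EE μ s n)
    (hw : ∀ n, n₂ ≤ n → a * wd μ s n ≤ w n ∧ w n ≤ A * wd μ s n) :
    ∃ c' C' : ℝ, 0 < c' ∧ ∃ n₁ : ℕ,
      (∀ n : ℕ, n₁ ≤ n → c' * (n * σ n) ≤ w n ^ 2 ∧ w n ^ 2 ≤ C' * (n * σ n) ∧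
        c' * (n : ℝ) ^ (1 / 5 : ℝ) ≤ σ n ∧ σ n ≤ C' * (n : ℝ) ^ (1 / 2 : ℝ) ∧
        c' * (n : ℝ) ^ (3 / 5 : ℝ) ≤ w n ∧ w n ≤ C' * (n : ℝ) ^ (3 / 4 : ℝ) ∧
        (n : ℝ) ^ (1 / 6 : ℝ) ≤ σ n ∧ (n : ℝ) ^ (1 / 2 : ℝ) ≤ w n ∧ w n ≤ (n : ℝ) ^ (1 - 1 / 8 : ℝ)) ∧
      limsup (fun n : ℕ => Real.log (σ n) / Real.log n) atTop =
        2 * limsup (fun n : ℕ => Real.log (w n) / Real.log n) atTop - 1 ∧
      liminf (fun n : ℕ => Real.log (σ n) / Real.log n) atTop =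
        2 * liminf (fun n : ℕ => Real.log (w n) / Real.log n) atTop - 1 := by
  obtain ⟨a₁, A₁, ha₁, hA₁, m₁, hm₁⟩ := kpz_wd h hc₀ hδ hq
  obtain ⟨A₂, hA₂, m₂, hm₂⟩ := EE_half96 h
  obtain ⟨a₃, ha₃, m₃, hm₃⟩ := hV
  obtain ⟨N, hN⟩ : ∃ N, N = max (max n₂ 1) (max m₁ (max m₂ m₃)) := ⟨_, rfl⟩
  have hNn : ∀ n, N ≤ n → n₂ ≤ n ∧ 1 ≤ n ∧ m₁ ≤ n ∧ m₂ ≤ n ∧ m₃ ≤ n := by
    intro n hn
    rw [hN] at hn
    omega
  have hA : 0 < A := by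
    obtain ⟨k1, k2, -, -, -⟩ := hNn N le_rfl
    have hE := EE_pos (μ := μ) (s := s) N
    obtain ⟨g1, g2⟩ := hσ N k1
    have g3 : a * EE μ s N ≤ A * EE μ s N := g1.trans g2
    exact lt_of_lt_of_le ha (le_of_mul_le_mul_right g3 hE)
  have facts : ∀ n, N ≤ n → 0 < σ n ∧ 0 < w n ∧ a₁ * a ^ 2 / A * (n * σ n) ≤ w n ^ 2 ∧ w n ^ 2 ≤ A₁ * A ^ 2 / a * (n * σ n) ∧
      a₃ * a ^ 3 * n ≤ w n * σ n ^ 2 ∧ σ n ≤ A * A₂ * (n : ℝ) ^ (1 / 2 : ℝ) := by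
    intro n hn
    obtain ⟨k1, k2, k3, k4, k5⟩ := hNn n hn
    have hnR : (0 : ℝ) < n := by exact_mod_cast k2
    have hE := EE_pos (μ := μ) (s := s) n
    have hW := wd_pos96 h k2
    obtain ⟨g1, g2⟩ := hσ n k1
    obtain ⟨g3, g4⟩ := hw n k1
    obtain ⟨g5, g6⟩ := hm₁ n k3
    have pσ : 0 < σ n := lt_of_lt_of_le (by positivity) g1
    have pw : 0 < w n := lt_of_lt_of_le (by positivity) g3
    refine ⟨pσ, pw, ?_, ?_, ?_, ?_⟩
    · calc a₁ * a ^ 2 / A * (n * σ n) ≤ a₁ * a ^ 2 / A * (n * (A * EE μ s n)) :=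
            mul_le_mul_of_nonneg_left (mul_le_mul_of_nonneg_left g2 hnR.le) (by positivity)
        _ = a ^ 2 * (a₁ * (n * EE μ s n)) := by field_simp
        _ ≤ a ^ 2 * wd μ s n ^ 2 := mul_le_mul_of_nonneg_left g5 (by positivity)
        _ = (a * wd μ s n) ^ 2 := by ring
        _ ≤ w n ^ 2 := pow_le_pow_left₀ (by positivity) g3 2
    · calc w n ^ 2 ≤ (A * wd μ s n) ^ 2 := pow_le_pow_left₀ pw.le g4 2
        _ = A ^ 2 * wd μ s n ^ 2 := by ring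
        _ ≤ A ^ 2 * (A₁ * (n * EE μ s n)) := mul_le_mul_of_nonneg_left g6 (by positivity)
        _ = A₁ * A ^ 2 / a * (n * (a * EE μ s n)) := by field_simp
        _ ≤ A₁ * A ^ 2 / a * (n * σ n) :=
            mul_le_mul_of_nonneg_left (mul_le_mul_of_nonneg_left g1 hnR.le) (by positivity)
    · have g7 : a ^ 2 * EE μ s n ^ 2 ≤ σ n ^ 2 := by
        rw [← mul_pow]
        exact pow_le_pow_left₀ (by positivity) g1 2
      calc a₃ * a ^ 3 * n = a ^ 3 * (a₃ * n) := by ring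
        _ ≤ a ^ 3 * (wd μ s n * EE μ s n ^ 2) := mul_le_mul_of_nonneg_left (hm₃ n k5) (by positivity)
        _ = (a * wd μ s n) * (a ^ 2 * EE μ s n ^ 2) := by ring
        _ ≤ w n * σ n ^ 2 := mul_le_mul g3 g7 (by positivity) pw.le
    · calc σ n ≤ A * EE μ s n := g2
        _ ≤ A * (A₂ * (n : ℝ) ^ (1 / 2 : ℝ)) := mul_le_mul_of_nonneg_left (hm₂ n k4) hA.le
        _ = A * A₂ * (n : ℝ) ^ (1 / 2 : ℝ) := by ring
  obtain ⟨d, D, hd, hD, hpow⟩ := kpz_pow96 (σ := σ) (w := w) (n₁ := N) (a := a₁ * a ^ 2 / A) (A := A₁ * A ^ 2 / a)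
    (b := a₃ * a ^ 3) (B := A * A₂) (by positivity) (by positivity) (by positivity) (by positivity)
    (fun n hn => (facts n hn).1) (fun n hn => (facts n hn).2.1) (fun n hn => (facts n hn).2.2.1)
    (fun n hn => (facts n hn).2.2.2.1) (fun n hn => (facts n hn).2.2.2.2.1) (fun n hn => (facts n hn).2.2.2.2.2)
  -- powers of `n` against constants
  have hbig : ∀ (K e : ℝ), 0 < e → ∀ᶠ n : ℕ in atTop, K ≤ (n : ℝ) ^ e := by
    intro K e he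
    exact ((tendsto_rpow_atTop he).comp tendsto_natCast_atTop_atTop).eventually_ge_atTop K
  obtain ⟨N₁, hN₁⟩ := eventually_atTop.1
    ((hbig (1 / d) (1 / 30) (by norm_num)).and ((hbig (1 / d) (1 / 10) (by norm_num)).and (hbig D (1 / 8) (by norm_num))))
  have hfin : ∀ n : ℕ, max N N₁ ≤ n → (n : ℝ) ^ (1 / 6 : ℝ) ≤ σ n ∧ (n : ℝ) ^ (1 / 2 : ℝ) ≤ w n ∧
      w n ≤ (n : ℝ) ^ (1 - 1 / 8 : ℝ) := by
    intro n hn
    have hnN : N ≤ n := (le_max_left _ _).trans hn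
    obtain ⟨k1, k2, k3, k4, k5⟩ := hNn n hnN
    have hnR : (0 : ℝ) < n := by exact_mod_cast k2
    obtain ⟨g1, g2, g3⟩ := hpow n (max_le hnN k2)
    obtain ⟨g4, g5, g6⟩ := hN₁ n ((le_max_right _ _).trans hn)
    rw [div_le_iff₀ hd] at g4 g5
    refine ⟨le_trans ?_ g1, le_trans ?_ g2, g3.trans ?_⟩
    · have e1 : (n : ℝ) ^ (1 / 5 : ℝ) = (n : ℝ) ^ (1 / 30 : ℝ) * (n : ℝ) ^ (1 / 6 : ℝ) := by
        rw [← Real.rpow_add hnR]
        norm_num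
      rw [e1]
      have p : (0 : ℝ) < (n : ℝ) ^ (1 / 6 : ℝ) := by positivity
      nlinarith
    · have e1 : (n : ℝ) ^ (3 / 5 : ℝ) = (n : ℝ) ^ (1 / 10 : ℝ) * (n : ℝ) ^ (1 / 2 : ℝ) := by
        rw [← Real.rpow_add hnR]
        norm_num
      rw [e1]
      have p : (0 : ℝ) < (n : ℝ) ^ (1 / 2 : ℝ) := by positivity
      nlinarith
    · have e1 : (n : ℝ) ^ (1 - 1 / 8 : ℝ) = (n : ℝ) ^ (1 / 8 : ℝ) * (n : ℝ) ^ (3 / 4 : ℝ) := by
        rw [← Real.rpow_add hnR]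
        norm_num
      rw [e1]
      exact mul_le_mul_of_nonneg_right g6 (by positivity)
  obtain ⟨e1, e2⟩ := kpz_exp96 (σ := σ) (w := w) (n₁ := max N N₁) (a := a₁ * a ^ 2 / A) (A := A₁ * A ^ 2 / a) (c' := 1 / 8)
    (by positivity) (by positivity) (by norm_num) (fun n hn => (facts n ((le_max_left _ _).trans hn)).1)
    (fun n hn => by
      obtain ⟨-, g2, -⟩ := hfin n hn
      refine le_trans ?_ g2
      have k2 := (hNn n ((le_max_left _ _).trans hn)).2.1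
      have k3 : (1 : ℝ) ≤ n := by exact_mod_cast k2
      exact Real.one_le_rpow k3 (by norm_num))
    (fun n hn => (hfin n hn).2.2) (fun n hn => (facts n ((le_max_left _ _).trans hn)).2.2.1)
    (fun n hn => (facts n ((le_max_left _ _).trans hn)).2.2.2.1)
  refine ⟨min d (a₁ * a ^ 2 / A), max (max (A₁ * A ^ 2 / a) (A * A₂)) D, lt_min hd (by positivity), max N N₁,
    fun n hn => ?_, e1, e2⟩
  have hnN : N ≤ n := (le_max_left _ _).trans hn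
  obtain ⟨k1, k2, k3, k4, k5⟩ := hNn n hnN
  have hnR : (0 : ℝ) < n := by exact_mod_cast k2
  obtain ⟨f1, f2, f3, f4, f5, f6⟩ := facts n hnN
  obtain ⟨g1, g2, g3⟩ := hpow n (max_le hnN k2)
  obtain ⟨g4, g5, g6⟩ := hfin n hn
  refine ⟨?_, ?_, ?_, ?_, ?_, ?_, g4, g5, g6⟩
  · exact (mul_le_mul_of_nonneg_right (min_le_right _ _) (by positivity)).trans f3
  · exact f4.trans (mul_le_mul_of_nonneg_right ((le_max_left _ _).trans (le_max_left _ _)) (by positivity))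
  · exact (mul_le_mul_of_nonneg_right (min_le_left _ _) (by positivity)).trans g1
  · exact f6.trans (mul_le_mul_of_nonneg_right ((le_max_right _ _).trans (le_max_left _ _)) (by positivity))
  · exact (mul_le_mul_of_nonneg_right (min_le_left _ _) (by positivity)).trans g2
  · exact g3.trans (mul_le_mul_of_nonneg_right (le_max_right _ _) (by positivity))

end Pool.Agent.W_7d29a1_HS
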