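import Pool.Agent.W_7d29a1_HS.Defs
import Pool.Agent.W_7d29a1_H.LamH
import Pool.Agent.W_7d29a1_SR.ModelS

/-!
MP_7d29a1_pr, TRACK H, part 3, (a): the width by the standard deviation, at the tilt `s` (the case `s = 0` is `W_7d29a1_SR.Width`).
Both sides are treated: the function `v ↦ J μ s (v / 2)` and its reflection `v ↦ J μ s (-(v / 2))`.
-/

set_option autoImplicit false

namespace Pool.Agent.W_7d29a1_HS

open MeasureTheory ProbabilityTheory Filter Topology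
open Pool.Agent.W_7d29a1_F Pool.Agent.W_7d29a1_h4g Pool.Agent.W_7d29a1_H
open Pool.Agent.W_1b8d5d_p (wR wL Rf)
open Pool.Agent.W_7d29a1_SR (wid)

variable {μ : Measure ℝ} {s c C : ℝ} {n₀ : ℕ}

/-! ### Level sets (pure) -/

/-- The set in the definition of the width. -/
theorem wid_bdd96 (J : ℝ → ℝ) (t : ℝ) (n : ℕ) : BddAbove {w : ℝ | 0 ≤ w ∧ w < n ∧ n * J (w / n) ≤ t} :=
  ⟨n, fun _ hw => hw.2.1.le⟩

theorem wR_pos96 {J : ℝ → ℝ} (h : Rf J) {B : ℝ} (hB : 0 < B) : 0 < wR J B := by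
  refine lt_of_le_of_ne (h.wR_nonneg hB.le) fun h0 => ?_
  have h1 := h.J_wR hB.le
  rw [← h0, h.zero] at h1
  exact hB.ne h1

/-- One scale, lower bound, one side. -/
theorem le_wid_side96 {J : ℝ → ℝ} (h : Rf J) {E t a : ℝ} (hE : 0 ≤ E) (ha : 0 < a) (ha1 : a ≤ 1) {n : ℕ} (hn : 1 ≤ n)
    (hv : wR J (E / n) < 1) (hs : a * E ≤ t) : a * (n * wR J (E / n)) ≤ wid (fun v => J (v / 2)) t n := by
  have hnR : (0 : ℝ) < n := by exact_mod_cast hn
  have hB : 0 ≤ E / n := by positivity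
  have h0 := h.wR_nonneg hB
  refine le_csSup (wid_bdd96 (fun v => J (v / 2)) t n) ⟨by positivity, ?_, ?_⟩
  · have h1 : a * wR J (E / n) ≤ 1 * wR J (E / n) := mul_le_mul_of_nonneg_right ha1 h0
    have h2 : a * wR J (E / n) < 1 := by linarith
    nlinarith
  · have e1 : a * (n * wR J (E / n)) / n / 2 = (a / 2) * wR J (E / n) := by
      field_simp
    simp only
    rw [e1]
    have h1 := h.mul_le (t := a / 2) (by positivity) (by linarith) (wR J (E / n))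
    rw [h.J_wR hB] at h1
    have h2 := mul_le_mul_of_nonneg_left h1 hnR.le
    have e2 : (n : ℝ) * (a / 2 * (E / n)) = a * E / 2 := by
      field_simp
    rw [e2] at h2
    have h3 : 0 ≤ a * E := by positivity
    linarith

/-- One scale, upper bound, one side. -/
theorem wid_le_side96 {J : ℝ → ℝ} (h : Rf J) {E t A : ℝ} (hE : 0 ≤ E) (hA : 1 ≤ A) {n : ℕ} (hn : 1 ≤ n)
    (hs : t ≤ A * E) : wid (fun v => J (v / 2)) t n ≤ 2 * A * (n * wR J (E / n)) := by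
  have hnR : (0 : ℝ) < n := by exact_mod_cast hn
  have hB : 0 ≤ E / n := by positivity
  have h0 := h.wR_nonneg hB
  have hA0 : 0 < A := by linarith
  refine Real.sSup_le ?_ (by positivity)
  rintro w ⟨h1, h2, h3⟩
  simp only at h3
  have h4 : 0 ≤ w / n / 2 := by positivity
  have h5 : J (w / n / 2) ≤ A * (E / n) := by
    rw [← mul_div_assoc, le_div_iff₀ hnR, mul_comm]
    exact h3.trans hs
  have h6 := (h.le_wR h4 h5).trans (h.wR_mul hB hA)
  have h7 : w / n ≤ 2 * A * wR J (E / n) := by linarith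
  rw [div_le_iff₀ hnR] at h7
  linarith

/-! ### The two sides of the level set at a tilt -/

theorem In.rf96 [IsProbabilityMeasure μ] (h : In μ s c C n₀) : Rf (J μ s) := by
  obtain ⟨H, δ, hD⟩ := h.dir
  exact hD.rf (Set.mem_singleton s)

theorem vr_pos96 [IsProbabilityMeasure μ] (h : In μ s c C n₀) {n : ℕ} (hn : 1 ≤ n) : 0 < vr 1 μ s n := by
  have hE := EE_pos (μ := μ) (s := s) n
  have hnR : (0 : ℝ) < n := by exact_mod_cast hn
  exact wR_pos96 h.rf96 (by positivity)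

theorem vl_pos96 [IsProbabilityMeasure μ] (h : In μ s c C n₀) {n : ℕ} (hn : 1 ≤ n) : 0 < vl 1 μ s n := by
  have hE := EE_pos (μ := μ) (s := s) n
  have hnR : (0 : ℝ) < n := by exact_mod_cast hn
  exact wR_pos96 h.rf96.neg (by positivity)

theorem vA_pos96 [IsProbabilityMeasure μ] (h : In μ s c C n₀) {n : ℕ} (hn : 1 ≤ n) : 0 < vA 1 μ s n := by
  have h1 := vr_pos96 h hn
  have h2 := vl_pos96 h hn
  unfold vA
  linarith

theorem wd_pos96 [IsProbabilityMeasure μ] (h : In μ s c C n₀) {n : ℕ} (hn : 1 ≤ n) : 0 < wd μ s n := by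
  have hnR : (0 : ℝ) < n := by exact_mod_cast hn
  unfold wd
  exact mul_pos hnR (vA_pos96 h hn)

/-- The two sides are comparable. -/
theorem sides96 [IsProbabilityMeasure μ] (h : In μ s c C n₀) : ∃ (D : ℝ) (n₁ : ℕ), 1 ≤ D ∧ ∀ n, n₁ ≤ n →
    vl 1 μ s n ≤ D * vr 1 μ s n ∧ vr 1 μ s n ≤ D * vl 1 μ s n := by
  obtain ⟨D, δ, hD, hδ, hs⟩ := h.sym
  obtain ⟨n₁, hn₁⟩ := eventually_atTop.1 (h.tv.eventually (Iio_mem_nhds hδ))
  refine ⟨D, max n₁ 1, hD, fun n hn => ?_⟩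
  have hn1 : 1 ≤ n := (le_max_right _ _).trans hn
  have hnR : (0 : ℝ) < n := by exact_mod_cast hn1
  have hE := EE_pos (μ := μ) (s := s) n
  have hB : 0 ≤ 1 * EE μ s n / n := by positivity
  have hR := h.rf96
  have pr := vr_pos96 h hn1
  have pl := vl_pos96 h hn1
  have hv : vA 1 μ s n < δ := hn₁ n ((le_max_left _ _).trans hn)
  have hv' : vr 1 μ s n + vl 1 μ s n < δ := hv
  have e1 : J μ s (vr 1 μ s n) = 1 * EE μ s n / n := hR.J_wR hB
  have e2 : J μ s (-vl 1 μ s n) = 1 * EE μ s n / n := hR.J_wL hB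
  constructor
  · have h1 := (hs (-vl 1 μ s n) (by rw [abs_neg, abs_of_pos pl]; linarith)).2
    rw [neg_neg, e2] at h1
    exact (hR.le_wR pl.le h1).trans (hR.wR_mul hB hD)
  · have h1 := (hs (vr 1 μ s n) (by rw [abs_of_pos pr]; linarith)).2
    rw [e1] at h1
    have h2 : vr 1 μ s n ≤ wL (J μ s) (D * (1 * EE μ s n / n)) := hR.neg.le_wR pr.le h1
    exact h2.trans (hR.wL_mul hB hD)

/-- The unit is `o(n)`. -/
theorem EE_div96 [IsProbabilityMeasure μ] (h : In μ s c C n₀) : Tendsto (fun n : ℕ => EE μ s n / n) atTop (𝓝 0) := by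
  refine squeeze_zero' (Eventually.of_forall fun n => ?_) (eventually_atTop.2 ⟨1, fun n hn => ?_⟩) h.tv
  · have hE := EE_pos (μ := μ) (s := s) n
    positivity
  · have hE := EE_pos (μ := μ) (s := s) n
    have hnR : (0 : ℝ) < n := by exact_mod_cast hn
    have hB : 0 ≤ 1 * EE μ s n / n := by positivity
    have e1 : J μ s (vr 1 μ s n) = 1 * EE μ s n / n := h.rf96.J_wR hB
    have h2 := J_le_abs h.em h.nd s (vr 1 μ s n)
    have pr := vr_pos96 h hn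
    have pl := vl_pos96 h hn
    rw [e1, abs_of_pos pr, one_mul] at h2
    unfold vA
    linarith

/-! ### The width by the standard deviation -/

/-- **(S7) at the tilt `s`, both sides.** If `σ n` is of the order of `EE n` then the widths by `σ` are of the order of `wd`. -/
theorem widthS2 [IsProbabilityMeasure μ] (h : In μ s c C n₀) {σ : ℕ → ℝ} {a A : ℝ} (ha : 0 < a) {n₂ : ℕ}
    (hσ : ∀ n, n₂ ≤ n → a * EE μ s n ≤ σ n ∧ σ n ≤ A * EE μ s n) : ∃ b B : ℝ, 0 < b ∧ ∃ n₁ : ℕ, ∀ n, n₁ ≤ n →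
    (b * wd μ s n ≤ wid (fun v => J μ s (v / 2)) (σ n) n ∧ wid (fun v => J μ s (v / 2)) (σ n) n ≤ B * wd μ s n) ∧
    (b * wd μ s n ≤ wid (fun v => J μ s (-(v / 2))) (σ n) n ∧
      wid (fun v => J μ s (-(v / 2))) (σ n) n ≤ B * wd μ s n) := by
  obtain ⟨D, n₃, hD, hs⟩ := sides96 h
  obtain ⟨n₄, hn₄⟩ := eventually_atTop.1 (h.tv.eventually (Iio_mem_nhds one_pos))
  have hD0 : 0 < D := by linarith
  obtain ⟨a', ha'⟩ : ∃ a', a' = min a 1 := ⟨_, rfl⟩
  have ha0 : 0 < a' := by rw [ha']; exact lt_min ha one_pos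
  refine ⟨a' / (1 + D), 2 * max A 1, by positivity, max (max n₂ 1) (max n₃ n₄), fun n hn => ?_⟩
  have hn2 : n₂ ≤ n := (le_max_left _ _).trans ((le_max_left _ _).trans hn)
  have hn1 : 1 ≤ n := (le_max_right _ _).trans ((le_max_left _ _).trans hn)
  have hn3 : n₃ ≤ n := (le_max_left _ _).trans ((le_max_right _ _).trans hn)
  have hn4 : n₄ ≤ n := (le_max_right _ _).trans ((le_max_right _ _).trans hn)
  have hnR : (0 : ℝ) < n := by exact_mod_cast hn1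
  have hE := EE_pos (μ := μ) (s := s) n
  have hR := h.rf96
  have pr := vr_pos96 h hn1
  have pl := vl_pos96 h hn1
  obtain ⟨h1, h2⟩ := hσ n hn2
  obtain ⟨h3, h4⟩ := hs n hn3
  have h5 : vA 1 μ s n < 1 := hn₄ n hn4
  have h5' : vr 1 μ s n + vl 1 μ s n < 1 := h5
  have er : vr 1 μ s n = wR (J μ s) (EE μ s n / n) := by unfold vr; rw [one_mul]
  have el : vl 1 μ s n = wR (fun x => J μ s (-x)) (EE μ s n / n) := by unfold vl wL; rw [one_mul]
  have hlow : a' * EE μ s n ≤ σ n := by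
    refine le_trans ?_ h1
    rw [ha']
    exact mul_le_mul_of_nonneg_right (min_le_left _ _) hE.le
  have hup : σ n ≤ max A 1 * EE μ s n := h2.trans (mul_le_mul_of_nonneg_right (le_max_left _ _) hE.le)
  have ha1 : a' ≤ 1 := by rw [ha']; exact min_le_right _ _
  have hM : (0 : ℝ) < max A 1 := lt_of_lt_of_le one_pos (le_max_right _ _)
  have hwd : wd μ s n = n * (vr 1 μ s n + vl 1 μ s n) := rfl
  have key : ∀ v : ℝ, 0 < v → vr 1 μ s n + vl 1 μ s n ≤ (1 + D) * v → a' / (1 + D) * wd μ s n ≤ a' * (n * v) := by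
    intro v hv hv2
    rw [hwd, div_mul_eq_mul_div, div_le_iff₀ (by positivity)]
    have h6 := mul_le_mul_of_nonneg_left hv2 (show 0 ≤ a' * n by positivity)
    linarith
  refine ⟨⟨?_, ?_⟩, ⟨?_, ?_⟩⟩
  · have h6 := le_wid_side96 hR hE.le ha0 ha1 hn1 (by rw [← er]; linarith) hlow
    rw [← er] at h6
    exact (key _ pr (by linarith)).trans h6
  · have h6 := wid_le_side96 hR hE.le (le_max_right A 1) hn1 hup
    rw [← er] at h6
    refine h6.trans ?_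
    rw [hwd]
    have h7 : (n : ℝ) * vr 1 μ s n ≤ n * (vr 1 μ s n + vl 1 μ s n) := mul_le_mul_of_nonneg_left (by linarith) hnR.le
    exact mul_le_mul_of_nonneg_left h7 (by positivity)
  · have h6 := le_wid_side96 hR.neg hE.le ha0 ha1 hn1 (by rw [← el]; linarith) hlow
    rw [← el] at h6
    exact (key _ pl (by linarith)).trans h6
  · have h6 := wid_le_side96 hR.neg hE.le (le_max_right A 1) hn1 hup
    rw [← el] at h6
    refine h6.trans ?_
    rw [hwd]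
    have h7 : (n : ℝ) * vl 1 μ s n ≤ n * (vr 1 μ s n + vl 1 μ s n) := mul_le_mul_of_nonneg_left (by linarith) hnR.le
    exact mul_le_mul_of_nonneg_left h7 (by positivity)

/-- **(S7) at the tilt `s`.** -/
theorem widthS [IsProbabilityMeasure μ] (h : In μ s c C n₀) {σ : ℕ → ℝ} {a A : ℝ} (ha : 0 < a) {n₂ : ℕ}
    (hσ : ∀ n, n₂ ≤ n → a * EE μ s n ≤ σ n ∧ σ n ≤ A * EE μ s n) : ∃ b B : ℝ, 0 < b ∧ ∃ n₁ : ℕ, ∀ n, n₁ ≤ n →
    b * wd μ s n ≤ wid (fun v => J μ s (v / 2)) (σ n) n ∧ wid (fun v => J μ s (v / 2)) (σ n) n ≤ B * wd μ s n := by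
  obtain ⟨b, B, hb, n₁, hn₁⟩ := widthS2 h ha hσ
  exact ⟨b, B, hb, n₁, fun n hn => (hn₁ n hn).1⟩

/-- **(S7) at the tilt `s`, the left side.** -/
theorem widthS_neg [IsProbabilityMeasure μ] (h : In μ s c C n₀) {σ : ℕ → ℝ} {a A : ℝ} (ha : 0 < a) {n₂ : ℕ}
    (hσ : ∀ n, n₂ ≤ n → a * EE μ s n ≤ σ n ∧ σ n ≤ A * EE μ s n) : ∃ b B : ℝ, 0 < b ∧ ∃ n₁ : ℕ, ∀ n, n₁ ≤ n →
    b * wd μ s n ≤ wid (fun v => J μ s (-(v / 2))) (σ n) n ∧ wid (fun v => J μ s (-(v / 2))) (σ n) n ≤ B * wd μ s n := by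
  obtain ⟨b, B, hb, n₁, hn₁⟩ := widthS2 h ha hσ
  exact ⟨b, B, hb, n₁, fun n hn => (hn₁ n hn).2⟩

/-! ### Another function -/

/-- The width only depends on the function near `0`, if it is bounded below away from `0` and the level is `o(n)`. The range of the
widths of `K` is `[0, e n)` with `e ≤ 1`. -/
theorem wid_end96 {K L : ℝ → ℝ} {δ κ t e : ℝ} {n : ℕ} (hn : 1 ≤ n) (hδe : δ ≤ e) (he : e ≤ 1)
    (heq : ∀ v, 0 ≤ v → v < δ → K v = L v) (hK : ∀ v, δ ≤ v → v < e → κ ≤ K v) (hL : ∀ v, δ ≤ v → v < 1 → κ ≤ L v)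
    (ht : t < n * κ) : sSup {w : ℝ | 0 ≤ w ∧ w < e * n ∧ n * K (w / n) ≤ t} = wid L t n := by
  have hnR : (0 : ℝ) < n := by exact_mod_cast hn
  unfold wid
  congr 1
  ext w
  constructor
  · rintro ⟨h1, h2, h3⟩
    have h5 : w / n < e := (div_lt_iff₀ hnR).2 h2
    have h4 : w / n < δ := by
      by_contra hcon
      push Not at hcon
      have h6 := mul_le_mul_of_nonneg_left (hK (w / n) hcon h5) hnR.le
      linarith
    refine ⟨h1, (div_lt_one hnR).1 (h5.trans_le he), ?_⟩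
    rwa [← heq _ (by positivity) h4]
  · rintro ⟨h1, h2, h3⟩
    have h4 : w / n < δ := by
      by_contra hcon
      push Not at hcon
      have h6 := mul_le_mul_of_nonneg_left (hL (w / n) hcon ((div_lt_one hnR).2 h2)) hnR.le
      linarith
    refine ⟨h1, (div_lt_iff₀ hnR).1 (h4.trans_le hδe), ?_⟩
    rwa [heq _ (by positivity) h4]

theorem wid_congr96 {K L : ℝ → ℝ} {δ κ t : ℝ} {n : ℕ} (hn : 1 ≤ n) (hδ1 : δ ≤ 1) (heq : ∀ v, 0 ≤ v → v < δ → K v = L v)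
    (hK : ∀ v, δ ≤ v → v < 1 → κ ≤ K v) (hL : ∀ v, δ ≤ v → v < 1 → κ ≤ L v) (ht : t < n * κ) : wid K t n = wid L t n := by
  rw [← wid_end96 hn hδ1 le_rfl heq hK hL ht, one_mul]
  rfl

/-- A nonnegative level function of the class `Rf` is bounded below away from `0` (from above its width of a positive level). -/
theorem Rf_lower96 {J : ℝ → ℝ} (h : Rf J) {δ : ℝ} (hδ : 0 < δ) (hpos : ∀ x, 0 < x → 0 < J x) :
    ∃ κ : ℝ, 0 < κ ∧ ∀ x, δ ≤ x → κ ≤ J x :=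
  ⟨J δ, hpos δ hδ, fun _ hx => h.mono hδ.le hx⟩

/-- The rate function is positive away from `0`. -/
theorem J_pos96 (h : In μ s c C n₀) {x : ℝ} (hx : x ≠ 0) : 0 < J μ s x := by
  obtain ⟨H, δ, hD⟩ := h.dir
  obtain ⟨j, hj, h1⟩ := hD.strict |x| (abs_pos.2 hx)
  exact lt_of_lt_of_le (mul_pos hj (abs_pos.2 hx)) (h1 s (Set.mem_singleton s) x le_rfl)

/-- **(S7) for the true rate function.** `K` is equal to `J μ s (v / 2)` near `0` (on the right) and bounded below away from `0` on the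
range `[0, e)`. -/
theorem widthS_of_eq_end [IsProbabilityMeasure μ] (h : In μ s c C n₀) {K : ℝ → ℝ} {δ κ e : ℝ} (hδ : 0 < δ) (hκ : 0 < κ)
    (hδe : δ ≤ e) (he : e ≤ 1) (heq : ∀ v, 0 ≤ v → v < δ → K v = J μ s (v / 2)) (hK : ∀ v, δ ≤ v → v < e → κ ≤ K v)
    {σ : ℕ → ℝ} {a A : ℝ} (ha : 0 < a) {n₂ : ℕ}
    (hσ : ∀ n, n₂ ≤ n → a * EE μ s n ≤ σ n ∧ σ n ≤ A * EE μ s n) : ∃ b B : ℝ, 0 < b ∧ ∃ n₁ : ℕ, ∀ n, n₁ ≤ n →
    b * wd μ s n ≤ sSup {w : ℝ | 0 ≤ w ∧ w < e * n ∧ n * K (w / n) ≤ σ n} ∧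
      sSup {w : ℝ | 0 ≤ w ∧ w < e * n ∧ n * K (w / n) ≤ σ n} ≤ B * wd μ s n := by
  obtain ⟨b, B, hb, n₁, hn₁⟩ := widthS h ha hσ
  obtain ⟨κ', hκ', h1⟩ := Rf_lower96 h.rf96 (half_pos hδ) fun x hx => J_pos96 h hx.ne'
  have h2 : Tendsto (fun n : ℕ => max A 1 * (EE μ s n / n)) atTop (𝓝 0) := by
    simpa using (EE_div96 h).const_mul (max A 1)
  obtain ⟨n₃, hn₃⟩ := eventually_atTop.1 (h2.eventually (Iio_mem_nhds (lt_min hκ hκ')))
  refine ⟨b, B, hb, max (max n₁ 1) (max n₂ n₃), fun n hn => ?_⟩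
  have hnn1 : n₁ ≤ n := (le_max_left _ _).trans ((le_max_left _ _).trans hn)
  have hn1 : 1 ≤ n := (le_max_right _ _).trans ((le_max_left _ _).trans hn)
  have hn2 : n₂ ≤ n := (le_max_left _ _).trans ((le_max_right _ _).trans hn)
  have hn3 : n₃ ≤ n := (le_max_right _ _).trans ((le_max_right _ _).trans hn)
  have hnR : (0 : ℝ) < n := by exact_mod_cast hn1
  have hE := EE_pos (μ := μ) (s := s) n
  have h3 : max A 1 * (EE μ s n / n) < min κ κ' := hn₃ n hn3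
  have h4 : σ n < n * min κ κ' := by
    have h5 : σ n ≤ max A 1 * EE μ s n := (hσ n hn2).2.trans (mul_le_mul_of_nonneg_right (le_max_left _ _) hE.le)
    rw [← mul_div_assoc, div_lt_iff₀ hnR] at h3
    linarith
  rw [wid_end96 (L := fun v => J μ s (v / 2)) hn1 hδe he heq (fun v hv hv1 => (min_le_left _ _).trans (hK v hv hv1))
    (fun v hv _ => (min_le_right _ _).trans (h1 (v / 2) (by linarith))) h4]
  exact hn₁ n hnn1

/-- The case `e = 1`. -/
theorem widthS_of_eq [IsProbabilityMeasure μ] (h : In μ s c C n₀) {K : ℝ → ℝ} {δ κ : ℝ} (hδ : 0 < δ) (hδ1 : δ ≤ 1) (hκ : 0 < κ)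
    (heq : ∀ v, 0 ≤ v → v < δ → K v = J μ s (v / 2)) (hK : ∀ v, δ ≤ v → v < 1 → κ ≤ K v)
    {σ : ℕ → ℝ} {a A : ℝ} (ha : 0 < a) {n₂ : ℕ}
    (hσ : ∀ n, n₂ ≤ n → a * EE μ s n ≤ σ n ∧ σ n ≤ A * EE μ s n) : ∃ b B : ℝ, 0 < b ∧ ∃ n₁ : ℕ, ∀ n, n₁ ≤ n →
    b * wd μ s n ≤ wid K (σ n) n ∧ wid K (σ n) n ≤ B * wd μ s n := by
  obtain ⟨b, B, hb, n₁, hn₁⟩ := widthS_of_eq_end h hδ hκ hδ1 le_rfl heq hK ha hσ
  refine ⟨b, B, hb, n₁, fun n hn => ?_⟩
  have h1 := hn₁ n hn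
  rw [one_mul] at h1
  exact h1

end Pool.Agent.W_7d29a1_HS
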