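import Pool.Agent.W_7d29a1_HS.Trans

/-!
MP_7d29a1_pr, TRACK H, part 3, section (i): transfer, second part (the objects of the hand-in with the force `h`, measurability,
means and variances). The case `h = 0` is `W_7d29a1_SR.TransB`. (helper40)
-/

set_option autoImplicit false

namespace Pool.Agent.W_7d29a1_HS

open MeasureTheory ProbabilityTheory Filter Topology
open Pool.Agent.W_7d29a1_F Pool.Agent.W_7d29a1_h4g Pool.Agent.W_7d29a1_H
open Pool.Agent.W_7d29a1_h47 (Lam walk energy polE endMGF forceP)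
open Pool.Agent.W_7d29a1_SR (toF pZ polP ball nuP chiP energy_meas toF_integral toF_real)

/-! ### The objects -/

section defs

variable {Ω : Type*} [MeasurableSpace Ω]

/-- The wandering exponent of the polymer with the force `h` around the line of velocity `v` (for `h = v = 0` it is the wandering
exponent `ν` of the problem in dimension `1`). -/
noncomputable def nuH (P : Measure Ω) (β h v : ℝ) (ω : ℕ × ℤ → Ω → ℝ) : ℝ :=
  sInf {a | 0 < a ∧ ∫ x, liminf (fun n : ℕ => forceP β h (fun p => ω p x) n (bal n v ((n : ℝ) ^ a))) atTop ∂P = 1}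

/-- The fluctuation exponent of the partition function with the force `h` (for `h = 0` it is the exponent `χ` of the problem in
dimension `1`). -/
noncomputable def chiH (P : Measure Ω) (β h : ℝ) (ω : ℕ × ℤ → Ω → ℝ) : ℝ :=
  sSup {a | 0 < a ∧ ∀ᶠ n : ℕ in atTop, (n : ℝ) ^ (2 * a) ≤ Var[fun x => Real.log (parZ β h (fun p => ω p x) n); P]}

/-- The standard deviation of `log Z_n(h)`. -/
noncomputable def sgm (P : Measure Ω) (β h : ℝ) (ω : ℕ × ℤ → Ω → ℝ) (n : ℕ) : ℝ :=
  Real.sqrt (Var[fun x => Real.log (parZ β h (fun p => ω p x) n); P])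

end defs

section model

variable {β : ℝ}

theorem parZ_pos (β h : ℝ) (η : ℕ × ℤ → ℝ) (n : ℕ) : 0 < parZ β h η n :=
  div_pos (Finset.sum_pos (fun _ _ => Real.exp_pos _) Finset.univ_nonempty) (by positivity)

private lemma den_pos (β h : ℝ) (η : ℕ × ℤ → ℝ) (n : ℕ) :
    0 < ∑ s : Fin n → Bool, Real.exp (h * (walk s n : ℝ) + β * energy η s) :=
  Finset.sum_pos (fun _ _ => Real.exp_pos _) Finset.univ_nonempty

theorem forceP_nonneg (β h : ℝ) (η : ℕ × ℤ → ℝ) (n : ℕ) (A : Set (Fin n → Bool)) : 0 ≤ forceP β h η n A := by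
  classical
  rw [forceP_eq]
  exact div_nonneg (Finset.sum_nonneg fun s _ => by split_ifs <;> positivity) (den_pos β h η n).le

theorem forceP_mono (β h : ℝ) (η : ℕ × ℤ → ℝ) (n : ℕ) {A B : Set (Fin n → Bool)} (hAB : A ⊆ B) :
    forceP β h η n A ≤ forceP β h η n B := by
  classical
  rw [forceP_eq, forceP_eq]
  refine div_le_div_of_nonneg_right (Finset.sum_le_sum fun s _ => ?_) (den_pos β h η n).le
  by_cases hA : s ∈ A
  · rw [if_pos hA, if_pos (hAB hA)]
  · rw [if_neg hA]
    split_ifs <;> positivity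

theorem forceP_univ (β h : ℝ) (η : ℕ × ℤ → ℝ) (n : ℕ) : forceP β h η n Set.univ = 1 := by
  classical
  rw [forceP_eq]
  simp only [Set.mem_univ, if_true]
  exact div_self (den_pos β h η n).ne'

theorem forceP_le_one (β h : ℝ) (η : ℕ × ℤ → ℝ) (n : ℕ) (A : Set (Fin n → Bool)) : forceP β h η n A ≤ 1 :=
  (forceP_mono β h η n (Set.subset_univ A)).trans_eq (forceP_univ β h η n)

theorem forceP_compl (β h : ℝ) (η : ℕ × ℤ → ℝ) (n : ℕ) (A : Set (Fin n → Bool)) :
    forceP β h η n Aᶜ = 1 - forceP β h η n A := by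
  classical
  rw [← forceP_univ β h η n, forceP_eq, forceP_eq, forceP_eq, ← sub_div, ← Finset.sum_sub_distrib]
  congr 1
  refine Finset.sum_congr rfl fun s _ => ?_
  by_cases hA : s ∈ A
  · rw [if_neg (show ¬ s ∈ Aᶜ from fun h' => h' hA), if_pos (Set.mem_univ _), if_pos hA]
    ring
  · rw [if_pos (show s ∈ Aᶜ from hA), if_pos (Set.mem_univ _), if_neg hA]
    ring

theorem bal_mono (n : ℕ) (v : ℝ) {r r' : ℝ} (h : r ≤ r') : bal n v r ⊆ bal n v r' := fun _ hs i hi => (hs i hi).trans h

theorem parZ_zero (β : ℝ) (η : ℕ × ℤ → ℝ) (n : ℕ) : parZ β 0 η n = pZ β η n := by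
  unfold parZ pZ
  simp

theorem forceP_zero (β : ℝ) (η : ℕ × ℤ → ℝ) (n : ℕ) (A : Set (Fin n → Bool)) : forceP β 0 η n A = polP β η n A := by
  classical
  rw [forceP_eq]
  unfold polP polE
  simp only [zero_mul, zero_add]
  congr 1
  refine Finset.sum_congr rfl fun s _ => ?_
  by_cases hA : s ∈ A
  · rw [if_pos hA, if_pos hA, one_mul]
  · rw [if_neg hA, if_neg hA, zero_mul]

theorem bal_zero (n : ℕ) (r : ℝ) : bal n 0 r = ball n r := by
  unfold bal ball
  simp

variable {Ω : Type*} [MeasurableSpace Ω] {ω : ℕ × ℤ → Ω → ℝ}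

theorem nuH_zero (P : Measure Ω) (β : ℝ) (ω : ℕ × ℤ → Ω → ℝ) : nuH P β 0 0 ω = nuP P β ω := by
  unfold nuH nuP
  simp only [forceP_zero, bal_zero]

theorem chiH_zero (P : Measure Ω) (β : ℝ) (ω : ℕ × ℤ → Ω → ℝ) : chiH P β 0 ω = chiP P β ω := by
  unfold chiH chiP
  simp only [parZ_zero]

theorem parZ_meas (hmeas : ∀ p, Measurable (ω p)) (β h : ℝ) (n : ℕ) : Measurable fun x => parZ β h (fun p => ω p x) n := by
  unfold parZ
  exact (Finset.measurable_sum _ fun s _ => (((energy_meas hmeas s).const_mul β).const_add _).exp).div_const _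

theorem forceP_meas (hmeas : ∀ p, Measurable (ω p)) (β h : ℝ) (n : ℕ) (A : Set (Fin n → Bool)) :
    Measurable fun x => forceP β h (fun p => ω p x) n A := by
  classical
  simp only [forceP_eq]
  refine (Finset.measurable_sum _ fun s _ => ?_).div
    (Finset.measurable_sum _ fun s _ => (((energy_meas hmeas s).const_mul β).const_add _).exp)
  by_cases hA : s ∈ A
  · simp only [if_pos hA]
    exact (((energy_meas hmeas s).const_mul β).const_add _).exp
  · simp only [if_neg hA]
    exact measurable_const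

end model

section law

variable {Ω : Type*} [MeasurableSpace Ω] {P : Measure Ω} [IsProbabilityMeasure P] {ω : ℕ × ℤ → Ω → ℝ} {β : ℝ}
  {μ : Measure ℝ} [IsProbabilityMeasure μ]

/-- The mean of `log Z_n(h)`. -/
theorem mean_parZ (hμ : Pool.Agent.W_7d29a1_h47.EM μ)
    (hmp : MeasurePreserving (fun x => toF β fun p => ω p x) P (law μ)) (h : ℝ) (n : ℕ) :
    ∫ x, Real.log (parZ β h (fun p => ω p x) n) ∂P =
      ∫ η, V μ (2 * h) η 0 n ∂(law μ) + n * (Lam μ h - Real.log 2) := by
  have h1 : ∀ x, Real.log (parZ β h (fun p => ω p x) n) =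
      V μ (2 * h) (toF β fun p => ω p x) 0 n + n * (Lam μ h - Real.log 2) := by
    intro x
    rw [V_toF]
    ring
  simp only [h1]
  have hi : Integrable (fun x => V μ (2 * h) (toF β fun p => ω p x) 0 n) P := by
    have h2 : Integrable (fun η => V μ (2 * h) η 0 n) (law μ) := (Sub_V (μ := μ) (s := 2 * h) 0 n).integrable hμ
    exact (hmp.integrable_comp (g := fun η => V μ (2 * h) η 0 n) h2.aestronglyMeasurable).2 h2
  rw [integral_add hi (integrable_const _), toF_integral hmp (measurable_V 0 n)]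
  simp

/-- The variance of `log Z_n(h)`. -/
theorem var_parZ (hmp : MeasurePreserving (fun x => toF β fun p => ω p x) P (law μ)) (h : ℝ) (n : ℕ) :
    Var[fun x => Real.log (parZ β h (fun p => ω p x) n); P] = Var[fun η => V μ (2 * h) η 0 n; law μ] := by
  have h1 : (fun x => Real.log (parZ β h (fun p => ω p x) n)) =
      fun x => V μ (2 * h) (toF β fun p => ω p x) 0 n + n * (Lam μ h - Real.log 2) := by
    funext x
    rw [V_toF]
    ring
  have hV : Measurable fun η : Env => V μ (2 * h) η 0 n := measurable_V 0 n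
  have hc : AEMeasurable (fun x => V μ (2 * h) (toF β fun p => ω p x) 0 n) P :=
    (hV.comp hmp.measurable).aemeasurable
  rw [h1, variance_add_const hc.aestronglyMeasurable, variance_eq_integral hc,
    variance_eq_integral hV.aemeasurable, toF_integral hmp hV]
  exact toF_integral hmp (F := fun η => (V μ (2 * h) η 0 n - ∫ η, V μ (2 * h) η 0 n ∂(law μ)) ^ 2)
    ((hV.sub measurable_const).pow_const 2)

theorem forceP_integrable (hmeas : ∀ p, Measurable (ω p)) (β h : ℝ) (n : ℕ) (A : Set (Fin n → Bool)) :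
    Integrable (fun x => forceP β h (fun p => ω p x) n A) P := by
  refine (integrable_const (1 : ℝ)).mono' (forceP_meas hmeas β h n A).aestronglyMeasurable
    (Filter.Eventually.of_forall fun x => ?_)
  rw [Real.norm_eq_abs, abs_of_nonneg (forceP_nonneg _ _ _ _ _)]
  exact forceP_le_one _ _ _ _ _

end law

end Pool.Agent.W_7d29a1_HS
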