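import Pool.Agent.W_7d29a1_HS.Main2
import Pool.Agent.W_7d29a1_HS.Reg
import Pool.Agent.W_7d29a1_HS.TransC
import Pool.Agent.W_7d29a1_F.MainV

/-!
MP_7d29a1_pr, TRACK H, part 3 (row 660), section (h): the scaling law at every force `h` on the probability space of the problem
(models `W_7d29a1_SR.Main3`, `Main4`). (helper40)
-/

set_option autoImplicit false

namespace Pool.Agent.W_7d29a1_HS

open MeasureTheory ProbabilityTheory Filter Topology
open Pool.Agent.W_7d29a1_F Pool.Agent.W_7d29a1_h4g Pool.Agent.W_7d29a1_H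
open Pool.Agent.W_7d29a1_h47 (Lam LamN walk energy polE endMGF endP forceP forceE tendsto_logZ EM_of Nondeg_of map_toEnv
  log_endMGF)
open Pool.Agent.W_7d29a1_SR (toF mp_toF wid)

section law

variable {μ : Measure ℝ} [IsProbabilityMeasure μ] {s c C : ℝ} {n₀ : ℕ}

/-- The velocities are smaller than `1`. -/
theorem abs_vel (hμ : Pool.Agent.W_7d29a1_h47.EM μ) (hnd : Pool.Agent.W_7d29a1_h47.Nondeg μ) (h : ℝ) : |vel μ h| < 1 := by
  have h1 := sl_mem hμ hnd (2 * h)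
  unfold vel
  rw [abs_lt]
  constructor <;> linarith [h1.1, h1.2]

/-- The rate function of the problem is at least the one of the chain. -/
theorem J_le_lub (hμ : Pool.Agent.W_7d29a1_h47.EM μ) (hnd : Pool.Agent.W_7d29a1_h47.Nondeg μ) {lam' : ℝ → ℝ}
    (hlam : ∀ h, lam' h = Lam μ h - Lam μ 0) (h u j j0 : ℝ)
    (hj : IsLUB (Set.range fun h' => h' * (vel μ h + u) - lam' h') j)
    (hj0 : IsLUB (Set.range fun h' => h' * vel μ h - lam' h') j0) : J μ (2 * h) (u / 2) ≤ j - j0 - h * u := by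
  have e0 : j0 = h * vel μ h - lam' h := hj0.unique (lub_vel hμ hnd hlam h)
  refine J_le fun r _ => ?_
  have key : r * (u / 2) - ex μ (2 * h) r = ((h + r / 2) * (vel μ h + u) - lam' (h + r / 2)) - j0 - h * u := by
    rw [ex_vel, e0, hlam, hlam]
    ring
  rw [key]
  have := hj.1 ⟨h + r / 2, rfl⟩
  simp only at this
  linarith

/-- **The rate function is at least a power.** -/
theorem J_ge_pow (h : In μ s c C n₀) : ∃ c' K : ℝ, 0 < c' ∧ 0 < K ∧ ∀ x : ℝ, |x| ≤ 1 → c' * |x| ^ K ≤ J μ s x := by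
  obtain ⟨a₀, K, ha₀, hK, hreg⟩ := J_reg h
  obtain ⟨a, haa⟩ : ∃ a : ℝ, a = min a₀ 1 := ⟨_, rfl⟩
  have ha : 0 < a := by rw [haa]; exact lt_min ha₀ one_pos
  have ha1 : a ≤ a₀ := by rw [haa]; exact min_le_left _ _
  have ha2 : a ≤ 1 := by rw [haa]; exact min_le_right _ _
  have hrf := h.rf
  have hK0 : 0 < K := by linarith
  obtain ⟨m, hm⟩ : ∃ m : ℝ, m = min (J μ s a) (J μ s (-a)) := ⟨_, rfl⟩
  have hm0 : 0 < m := by rw [hm]; exact lt_min (J_pos96 h ha.ne') (J_pos96 h (by linarith))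
  have hm1 : m ≤ J μ s a := by rw [hm]; exact min_le_left _ _
  have hm2 : m ≤ J μ s (-a) := by rw [hm]; exact min_le_right _ _
  have hma : ∀ x : ℝ, |x| = a → m ≤ J μ s x := by
    intro x hx
    rcases abs_eq ha.le |>.1 hx with rfl | rfl
    · exact hm1
    · exact hm2
  refine ⟨min (m / (K * a ^ (-K))) m / 1, K, by positivity, hK0, fun x hx => ?_⟩
  rw [div_one]
  have hx0 := abs_nonneg x
  rcases eq_or_lt_of_le hx0 with h0 | h0
  · rw [← h0, Real.zero_rpow hK0.ne', mul_zero]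
    exact hrf.nn x
  rcases le_total |x| a with h1 | h1
  · have hR : 1 ≤ a / |x| := (one_le_div h0).2 h1
    have e1 : |a / |x| * x| = a := by
      rw [abs_mul, abs_div, abs_abs, abs_of_pos ha]
      field_simp
    have h2 := (hreg x (a / |x|) hR (by rw [e1]; exact ha1)).2
    have h3 := (hma _ e1).trans h2
    have e2 : (a / |x|) ^ K = a ^ K * |x| ^ (-K) := by
      rw [Real.div_rpow ha.le hx0, Real.rpow_neg hx0, div_eq_mul_inv]
    have e3 : a ^ (-K) * a ^ K = 1 := by rw [← Real.rpow_add ha]; simp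
    have e4 : |x| ^ (-K) * |x| ^ K = 1 := by rw [← Real.rpow_add h0]; simp
    have p1 : 0 < a ^ K := by positivity
    have p2 : 0 < |x| ^ K := by positivity
    have p3 : 0 < a ^ (-K) := by positivity
    -- `m |x| ^ K ≤ K a ^ K J x`, and `min ≤ m / (K a ^ (-K))`; note `a ^ K ≤ 1 ≤ a ^ (-K)`
    have h4 : m * |x| ^ K ≤ K * a ^ K * J μ s x := by
      have h5 := mul_le_mul_of_nonneg_right h3 p2.le
      rw [e2] at h5
      calc m * |x| ^ K ≤ K * (a ^ K * |x| ^ (-K)) * J μ s x * |x| ^ K := h5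
        _ = K * a ^ K * J μ s x * (|x| ^ (-K) * |x| ^ K) := by ring
        _ = K * a ^ K * J μ s x := by rw [e4, mul_one]
    have h5 : a ^ K ≤ 1 := Real.rpow_le_one ha.le ha2 hK0.le
    have h6 : 1 ≤ a ^ (-K) := by
      by_contra hcon
      push Not at hcon
      nlinarith
    have hJx := hrf.nn x
    have h7 : min (m / (K * a ^ (-K))) m * |x| ^ K ≤ m / (K * a ^ (-K)) * |x| ^ K :=
      mul_le_mul_of_nonneg_right (min_le_left _ _) p2.le
    refine h7.trans ?_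
    rw [div_mul_eq_mul_div, div_le_iff₀ (by positivity)]
    calc m * |x| ^ K ≤ K * a ^ K * J μ s x := h4
      _ ≤ K * a ^ (-K) * J μ s x :=
          mul_le_mul_of_nonneg_right (mul_le_mul_of_nonneg_left (h5.trans h6) hK0.le) hJx
      _ = J μ s x * (K * a ^ (-K)) := by ring
  · have h2 : m ≤ J μ s x := by
      have h3 : 1 ≤ |x| / a := (one_le_div ha).2 h1
      have e1 : |a / |x| * x| = a := by
        rw [abs_mul, abs_div, abs_abs, abs_of_pos ha]
        field_simp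
      have h4 := hrf.le_mul h3 (a / |x| * x)
      have e2 : |x| / a * (a / |x| * x) = x := by field_simp
      rw [e2] at h4
      have h5 := hma _ e1
      have h6 := hrf.nn (a / |x| * x)
      exact h5.trans ((le_mul_of_one_le_left h6 h3).trans h4)
    have h3 : |x| ^ K ≤ 1 := Real.rpow_le_one hx0 hx hK0.le
    have h4 : 0 ≤ |x| ^ K := Real.rpow_nonneg hx0 K
    calc min (m / (K * a ^ (-K))) m * |x| ^ K ≤ m * |x| ^ K := mul_le_mul_of_nonneg_right (min_le_right _ _) h4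
      _ ≤ m * 1 := mul_le_mul_of_nonneg_left h3 hm0.le
      _ ≤ _ := by rw [mul_one]; exact h2

/-- The true rate function around the velocity of the force `h`. -/
theorem rate_near (hμ : Pool.Agent.W_7d29a1_h47.EM μ) (hnd : Pool.Agent.W_7d29a1_h47.Nondeg μ) {lam' J' : ℝ → ℝ}
    (hlam : ∀ h, lam' h = Lam μ h - Lam μ 0)
    (hJ' : ∀ v, |v| < 1 → IsLUB (Set.range fun h' => h' * v - lam' h') (J' v)) (h : ℝ) :
    ∃ ρ : ℝ, 0 < ρ ∧ ρ < 1 - |vel μ h| ∧
      (∀ u, |u| ≤ ρ → J' (vel μ h + u) - J' (vel μ h) - h * u = J μ (2 * h) (u / 2)) ∧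
      ∀ u, |u| < 1 - |vel μ h| → J μ (2 * h) (u / 2) ≤ J' (vel μ h + u) - J' (vel μ h) - h * u := by
  have hv := abs_vel hμ hnd h
  obtain ⟨ρ, hρ, hJ⟩ := J_of_lub hμ hnd hlam |h|
  obtain ⟨ρ', hρ'⟩ : ∃ ρ' : ℝ, ρ' = min ρ ((1 - |vel μ h|) / 2) := ⟨_, rfl⟩
  have h0 : 0 < 1 - |vel μ h| := by linarith
  have h1 : 0 < ρ' := by rw [hρ']; positivity
  have h2 : ρ' ≤ ρ := by rw [hρ']; exact min_le_left _ _
  have h3 : ρ' ≤ (1 - |vel μ h|) / 2 := by rw [hρ']; exact min_le_right _ _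
  have hlt : ∀ u, |u| < 1 - |vel μ h| → |vel μ h + u| < 1 := fun u hu => by
    have := abs_add_le (vel μ h) u
    linarith
  refine ⟨ρ', h1, by linarith, fun u hu => ?_, fun u hu => ?_⟩
  · exact (hJ h le_rfl u (hu.trans h2) _ _ (hJ' _ (hlt u (by linarith))) (hJ' _ hv)).symm
  · exact J_le_lub hμ hnd hlam h u _ _ (hJ' _ (hlt u hu)) (hJ' _ hv)

end law

/-- **THE SCALING LAW AT EVERY FORCE**, from the results of the chain at every tilt and the lower bound of the non random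
fluctuation. -/
theorem main_H
    (hIn : ∀ (μ : Measure ℝ) [IsProbabilityMeasure μ], Pool.Agent.W_7d29a1_h47.EM μ → Pool.Agent.W_7d29a1_h47.Nondeg μ →
      ∀ s : ℝ, ∃ (c C : ℝ) (n₀ : ℕ), In μ s c C n₀)
    (hNR : ∀ (μ : Measure ℝ) [IsProbabilityMeasure μ] (s c C : ℝ) (n₀ : ℕ), In μ s c C n₀ →
      ∃ c' : ℝ, 0 < c' ∧ ∃ n₁ : ℕ, ∀ m : ℕ, n₁ ≤ m → c' * EE μ s m ≤ -∫ η, V μ s η 0 m ∂(law μ))
    {Ω : Type*} [MeasurableSpace Ω] (P : Measure Ω) [IsProbabilityMeasure P]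
    (ω : ℕ × ℤ → Ω → ℝ) (hmeas : ∀ p, Measurable (ω p)) (hindep : iIndepFun ω P)
    (hident : ∀ p q, IdentDistrib (ω p) (ω q) P P) (hnc : ¬ ∃ c : ℝ, ∀ᵐ x ∂P, ω (0, 0) x = c)
    (hexp : ∀ b : ℝ, Integrable (fun x => Real.exp (b * ω (0, 0) x)) P) {β : ℝ} (hβ : 0 < β) :
    ∃ lam J : ℝ → ℝ, Differentiable ℝ lam ∧
      -- the free energy and the rate function of the end point
      (∀ h, ∀ᵐ x ∂P, Tendsto (fun n : ℕ => Real.log (endMGF β h (fun p => ω p x) n) / n) atTop (𝓝 (lam h))) ∧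
      (∀ v, |v| < 1 → ∀ y : ℕ → ℤ, (∀ n, (y n - n) % 2 = 0) → Tendsto (fun n : ℕ => (y n : ℝ) / n) atTop (𝓝 v) →
        ∀ᵐ x ∂P, Tendsto (fun n : ℕ => -Real.log (endP β (fun p => ω p x) n (y n)) / n) atTop (𝓝 (J v))) ∧
      (∀ v, |v| < 1 → IsLUB (Set.range fun h => h * v - lam h) (J v)) ∧
      ∀ h : ℝ, ∃ (v F : ℝ) (I : ℝ → ℝ) (σ w : ℕ → ℝ) (c C : ℝ) (n₁ : ℕ), 0 < c ∧ v = deriv lam h ∧ |v| < 1 ∧
        (∀ᵐ x ∂P, Tendsto (fun n : ℕ => Real.log (parZ β h (fun p => ω p x) n) / n) atTop (𝓝 F)) ∧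
        -- the rate function around the velocity `v`
        (∀ u, I u = J (v + u) - J v - h * u) ∧
        (∀ u, |u| ≤ c → c * |u| ^ C ≤ I u ∧ I u ≤ C * |u| ^ (1 + c) ∧ I (-u) ≤ C * I u) ∧
        (∀ u R : ℝ, 1 ≤ R → |R * u| ≤ c → c * R ^ (1 + c) * I u ≤ I (R * u) ∧ I (R * u) ≤ C * R ^ C * I u) ∧
        -- the standard deviation and the width
        (∀ n, σ n = Real.sqrt (Var[fun x => Real.log (parZ β h (fun p => ω p x) n); P])) ∧
        (∀ n, w n = sSup {r : ℝ | 0 ≤ r ∧ r < (1 - |v|) * n ∧ n * I (r / n) ≤ σ n}) ∧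
        (∀ᶠ n : ℕ in atTop, (n : ℝ) ^ c ≤ σ n ∧ σ n ≤ C * (n : ℝ) ^ (1 / 2 : ℝ) ∧
          (n : ℝ) ^ (1 / 3 + c) ≤ w n ∧ w n ≤ (n : ℝ) ^ (1 - c) ∧
          n * I (w n / n) = σ n ∧ c * n ≤ w n * σ n ^ 2 ∧ (n : ℝ) ^ c * σ n ≤ w n ∧
          c * σ n ≤ n * F - ∫ x, Real.log (parZ β h (fun p => ω p x) n) ∂P ∧
          n * F - ∫ x, Real.log (parZ β h (fun p => ω p x) n) ∂P ≤ C * σ n) ∧
        (∀ m n : ℕ, n₁ ≤ m → m ≤ n →
          c * ((n : ℝ) / m) ^ c * σ m ≤ σ n ∧ σ n ≤ C * ((n : ℝ) / m) ^ (1 / 2 : ℝ) * σ m ∧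
          c * ((n : ℝ) / m) ^ c * w m ≤ w n ∧ w n ≤ C * ((n : ℝ) / m) ^ (1 - c) * w m) ∧
        -- the fluctuations of the free energy
        (∀ᶠ n : ℕ in atTop, ∀ s : ℝ, 0 ≤ s →
          P.real {x | s * σ n ≤ |Real.log (parZ β h (fun p => ω p x) n) - ∫ y, Real.log (parZ β h (fun p => ω p y) n) ∂P|} ≤
            C * Real.exp (-(c * s ^ c))) ∧
        (∀ K : ℝ, ∃ p : ℝ, 0 < p ∧ ∀ᶠ n : ℕ in atTop,
          p ≤ P.real {x | K * σ n ≤
            Real.log (parZ β h (fun p => ω p x) n) - ∫ y, Real.log (parZ β h (fun p => ω p y) n) ∂P}) ∧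
        -- the fluctuations of the path around the line of velocity `v`
        (∀ᶠ n : ℕ in atTop, ∀ R : ℝ, 1 ≤ R →
          1 - ∫ x, forceP β h (fun p => ω p x) n (bal n v (R * w n)) ∂P ≤ C * Real.exp (-(c * R ^ c))) ∧
        (∀ ε : ℝ, 0 < ε → ∃ a : ℝ, 0 < a ∧ ∀ᶠ n : ℕ in atTop,
          ∫ x, forceP β h (fun p => ω p x) n (bal n v (a * w n)) ∂P ≤ ε) ∧
        (∀ q : ℕ, ∃ a A : ℝ, 0 < a ∧ ∀ᶠ n : ℕ in atTop,
          a * w n ^ q ≤ ∫ x, forceE β h (fun p => ω p x) n (fun s => mx v s ^ q) ∂P ∧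
          ∫ x, forceE β h (fun p => ω p x) n (fun s => mx v s ^ q) ∂P ≤ A * w n ^ q) ∧
        -- the exponents
        nuH P β h v ω = limsup (fun n : ℕ => Real.log (w n) / Real.log n) atTop ∧
        chiH P β h ω = liminf (fun n : ℕ => Real.log (σ n) / Real.log n) atTop ∧
        1 / 3 + c ≤ liminf (fun n : ℕ => Real.log (w n) / Real.log n) atTop ∧
        liminf (fun n : ℕ => Real.log (w n) / Real.log n) atTop ≤ nuH P β h v ω ∧ nuH P β h v ω ≤ 1 - c ∧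
        c ≤ chiH P β h ω ∧ chiH P β h ω ≤ 1 / 2 ∧ (1 - nuH P β h v ω) / 2 ≤ chiH P β h ω ∧
        ∀ κ : ℝ, Tendsto (fun u : ℝ => Real.log (I u) / Real.log u) (𝓝[>] 0) (𝓝 κ) →
          limsup (fun n : ℕ => Real.log (σ n) / Real.log n) atTop = 1 - κ * (1 - nuH P β h v ω) ∧
          chiH P β h ω = 1 - κ * (1 - liminf (fun n : ℕ => Real.log (w n) / Real.log n) atTop) ∧
          (2 * κ - 1) / (2 * κ + 1) ≤ liminf (fun n : ℕ => Real.log (w n) / Real.log n) atTop ∧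
          nuH P β h v ω ≤ 1 - 1 / (2 * κ) := by
  obtain ⟨⟨lam, J', -, hdiff, -, -, -, h4, -, h6, h7, -, -, -⟩, -⟩ :=
    Pool.Agent.W_7d29a1_F.main_FV P ω hmeas hindep hident hnc hexp hβ
  obtain ⟨μ, hμdef⟩ : ∃ μ : Measure ℝ, μ = P.map fun x => β * ω (0, 0) x := ⟨_, rfl⟩
  have hm0 : Measurable fun x => β * ω (0, 0) x := (hmeas _).const_mul β
  have hprob : IsProbabilityMeasure μ := by
    rw [hμdef]
    exact Measure.isProbabilityMeasure_map hm0.aemeasurable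
  have hμ : Pool.Agent.W_7d29a1_h47.EM μ := by
    rw [hμdef]
    exact EM_of (hmeas _) hexp β
  have hnd : Pool.Agent.W_7d29a1_h47.Nondeg μ := by
    rw [hμdef]
    exact Nondeg_of (hmeas _) hnc hβ
  have hmpE := map_toEnv hmeas hindep hident β
  rw [← hμdef] at hmpE
  have hmp := mp_toF hmeas hindep hident β
  rw [← hμdef] at hmp
  have hid : lam = LamN μ := by
    funext h
    have g1 := hmpE.quasiMeasurePreserving.ae (tendsto_logZ hμ h)
    have g2 := hmpE.quasiMeasurePreserving.ae (tendsto_logZ hμ 0)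
    obtain ⟨x, hx1, hx2, hx3⟩ := (g1.and (g2.and (h4 h))).exists
    refine tendsto_nhds_unique hx3 ((hx1.sub hx2).congr fun n => ?_)
    rw [log_endMGF, sub_div]
  have hidL : ∀ h, lam h = Lam μ h - Lam μ 0 := by
    intro h
    rw [hid]
    rfl
  refine ⟨lam, J', hdiff, h4, h7, h6, fun h => ?_⟩
  -- the velocity
  have hvel : vel μ h = deriv lam h := by
    rw [vel_eq hμ hnd, hid]
    have : LamN μ = fun x => Lam μ x - Lam μ 0 := rfl
    rw [this, deriv_sub_const]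
  have hv1 := abs_vel hμ hnd h
  have he0 : 0 < 1 - |vel μ h| := by linarith
  have he1 : 1 - |vel μ h| ≤ 1 := by linarith [abs_nonneg (vel μ h)]
  obtain ⟨ρ, hρ, hρ1, hJe, hJl⟩ := rate_near hμ hnd hidL h6 h
  obtain ⟨I, hIdef⟩ : ∃ I : ℝ → ℝ, ∀ u, I u = J' (vel μ h + u) - J' (vel μ h) - h * u := ⟨_, fun _ => rfl⟩
  simp only [← hIdef] at hJe hJl
  obtain ⟨c₀, C₀, n₀, hI⟩ := hIn μ hμ hnd (2 * h)
  have hrf := hI.rf
  -- the bounds of the rate function
  obtain ⟨cp, Kp, hcp, hKp, hJlow⟩ := J_ge_pow hI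
  obtain ⟨Cu, hCu, hJup⟩ := J_le_pow hμ hnd |2 * h|
  obtain ⟨aj, Kj, haj, hKj, hjreg⟩ := J_reg hI
  obtain ⟨D, δs, hD, hδs, hsym⟩ := hI.sym
  obtain ⟨cr, Cr, hcr, hCr, n₁, hn₁, hreg⟩ := regP (P := P) (β := β) (ω := ω) hI hmp
  obtain ⟨cn, hcn, n₂, hnon⟩ := hNR μ (2 * h) c₀ C₀ n₀ hI
  obtain ⟨as, As, bs, Bs, has, hAs, hbs, hBs, n₃, hn₃, hsc⟩ := scales (P := P) (β := β) (ω := ω) hI hmp
  have hlow : ∀ v, |v| < 1 → cp * (1 / 2) ^ Kp * |v| ^ Kp ≤ J μ (2 * h) (v / 2) := by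
    intro v hv
    have h1 := hJlow (v / 2) (by rw [abs_div, abs_of_pos (two_pos : (0 : ℝ) < 2)]; linarith)
    rw [abs_div, abs_of_pos (two_pos : (0 : ℝ) < 2)] at h1
    refine le_trans (le_of_eq ?_) h1
    rw [show |v| / 2 = 1 / 2 * |v| by ring, Real.mul_rpow (by norm_num) (abs_nonneg v)]
    ring
  have hup : ∀ v : ℝ, J μ (2 * h) (v / 2) ≤ Cu * |v| ^ (1 + 1 / 99 : ℝ) := by
    intro v
    refine (hJup (2 * h) le_rfl (v / 2)).trans (mul_le_mul_of_nonneg_left ?_ hCu.le)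
    refine Real.rpow_le_rpow (abs_nonneg _) ?_ (by norm_num)
    rw [abs_div, abs_of_pos (two_pos : (0 : ℝ) < 2)]
    linarith [abs_nonneg v]
  have hcp' : 0 < cp * (1 / 2) ^ Kp := by positivity
  obtain ⟨c₉, hc₉⟩ : ∃ c₉ : ℝ, c₉ = min (min (min cr (cn / As)) (min aj (cp * (1 / 2) ^ Kp))) (min (min ρ δs) (1 / 99)) := ⟨_, rfl⟩
  have hc₉0 : 0 < c₉ := by rw [hc₉]; positivity
  obtain ⟨C₉, hC₉⟩ : ∃ C₉ : ℝ, C₉ = max (max Cr Cu) (max (max Kj D) Kp) := ⟨_, rfl⟩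
  obtain ⟨σ, w', c, C, M, hσ, hw', hc, hc1, hC, hca, hCa, hS, hdev, hluck, hexit, hspr, hmax, hnu, hchi, e1, e2, e3, e4, e5, e6,
    hκ⟩ := core_P hI hmeas hmp (c₂ := cp * (1 / 2) ^ Kp) (K₂ := Kp) (C₃ := Cu) (a₃ := 1 / 99) hcp' hKp hlow hCu (by norm_num)
      (fun v _ => hup v) (c₉ := c₉) hc₉0 C₉
  have hca' : c ≤ min (min (min cr (cn / As)) (min aj (cp * (1 / 2) ^ Kp))) (min (min ρ δs) (1 / 99)) := hca.trans hc₉.le
  have kcr : c ≤ cr := hca'.trans ((min_le_left _ _).trans ((min_le_left _ _).trans (min_le_left _ _)))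
  have kcn : c ≤ cn / As := hca'.trans ((min_le_left _ _).trans ((min_le_left _ _).trans (min_le_right _ _)))
  have kaj : c ≤ aj := hca'.trans ((min_le_left _ _).trans ((min_le_right _ _).trans (min_le_left _ _)))
  have kcp : c ≤ cp * (1 / 2) ^ Kp := hca'.trans ((min_le_left _ _).trans ((min_le_right _ _).trans (min_le_right _ _)))
  have kρ : c ≤ ρ := hca'.trans ((min_le_right _ _).trans ((min_le_left _ _).trans (min_le_left _ _)))
  have kδ : c ≤ δs := hca'.trans ((min_le_right _ _).trans ((min_le_left _ _).trans (min_le_right _ _)))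
  have k99 : c ≤ 1 / 99 := hca'.trans ((min_le_right _ _).trans (min_le_right _ _))
  have hCa' : max (max Cr Cu) (max (max Kj D) Kp) ≤ C := hC₉.symm.le.trans hCa
  have KCr : Cr ≤ C := ((le_max_left _ _).trans (le_max_left _ _)).trans hCa'
  have KCu : Cu ≤ C := ((le_max_right _ _).trans (le_max_left _ _)).trans hCa'
  have KKj : Kj ≤ C := ((le_max_left _ _).trans ((le_max_left _ _).trans (le_max_right _ _))).trans hCa'
  have KD : D ≤ C := ((le_max_right _ _).trans ((le_max_left _ _).trans (le_max_right _ _))).trans hCa'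
  have KKp : Kp ≤ C := ((le_max_right _ _).trans (le_max_right _ _)).trans hCa'
  -- the width
  obtain ⟨w, hw⟩ : ∃ w : ℕ → ℝ, ∀ n, w n = sSup {r : ℝ | 0 ≤ r ∧ r < (1 - |vel μ h|) * n ∧ n * I (r / n) ≤ σ n} :=
    ⟨_, fun _ => rfl⟩
  have hκ0 : 0 < J μ (2 * h) (ρ / 2) := J_pos96 hI (by positivity)
  have hww : ∀ᶠ n : ℕ in atTop, w n = w' n := by
    filter_upwards [hS, eventually_ge_atTop 1, ev_pow (δ := 1 / 2) (by norm_num) (C / J μ (2 * h) (ρ / 2) + 1)] with n h1 h2 h3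
    have hn0 : (0 : ℝ) < n := by exact_mod_cast h2
    have h5 : σ n < n * J μ (2 * h) (ρ / 2) := by
      have h8 : (n : ℝ) = (n : ℝ) ^ (1 / 2 : ℝ) * (n : ℝ) ^ (1 / 2 : ℝ) := by
        rw [← Real.rpow_add hn0]
        norm_num
      have h9 : 0 < (n : ℝ) ^ (1 / 2 : ℝ) := Real.rpow_pos_of_pos hn0 _
      have h10 : C < J μ (2 * h) (ρ / 2) * (n : ℝ) ^ (1 / 2 : ℝ) := by
        have h11 : C / J μ (2 * h) (ρ / 2) < (n : ℝ) ^ (1 / 2 : ℝ) := by linarith
        rw [div_lt_iff₀ hκ0] at h11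
        linarith
      calc σ n ≤ C * (n : ℝ) ^ (1 / 2 : ℝ) := h1.2.1
        _ < J μ (2 * h) (ρ / 2) * (n : ℝ) ^ (1 / 2 : ℝ) * (n : ℝ) ^ (1 / 2 : ℝ) := mul_lt_mul_of_pos_right h10 h9
        _ = n * J μ (2 * h) (ρ / 2) := by
          rw [mul_assoc, ← h8]
          ring
    rw [hw, hw']
    refine wid_end96 (K := I) (L := fun v => J μ (2 * h) (v / 2)) (δ := ρ) (κ := J μ (2 * h) (ρ / 2)) h2 hρ1.le he1
      (fun v hv0 hv => hJe v (by rw [abs_of_nonneg hv0]; exact hv.le)) (fun v hv0 hv => ?_) (fun v hv0 _ => ?_) h5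
    · exact (hrf.mono (by positivity) (by linarith)).trans (hJl v (by rw [abs_of_nonneg (by linarith)]; exact hv))
    · exact hrf.mono (by positivity) (by linarith)
  obtain ⟨N, hN⟩ := eventually_atTop.1 hww
  have hlog : (fun n : ℕ => Real.log (w n) / Real.log n) =ᶠ[atTop] fun n : ℕ => Real.log (w' n) / Real.log n :=
    hww.mono fun n hn => by show Real.log (w n) / Real.log n = _; rw [hn]
  rw [← limsup_congr hlog] at hnu
  rw [← liminf_congr hlog] at e1 e2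
  refine ⟨vel μ h, Lam μ h - Real.log 2, I, σ, w, c, C, max n₁ N, hc, hvel, hv1, lim_parZ hμ hmpE h, hIdef, ?_, ?_, hσ, hw, ?_, ?_,
    hdev, hluck, ?_, ?_, ?_, hnu, hchi, e1, e2, e3, e4, e5, e6, ?_⟩
  · intro u hu
    have hu1 : |u| < 1 := by
      have : ρ < 1 := hρ1.trans_le he1
      linarith
    have hu0 := abs_nonneg u
    rw [hJe u (hu.trans kρ), hJe (-u) (by rw [abs_neg]; exact hu.trans kρ)]
    refine ⟨?_, ?_, ?_⟩
    · refine le_trans (mul_le_mul kcp ?_ (Real.rpow_nonneg hu0 _) hcp'.le) (hlow u hu1)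
      rcases eq_or_lt_of_le hu0 with h1 | h1
      · rw [← h1, Real.zero_rpow hKp.ne', Real.zero_rpow (by linarith)]
      · exact Real.rpow_le_rpow_of_exponent_ge h1 hu1.le KKp
    · refine (hup u).trans (mul_le_mul KCu ?_ (Real.rpow_nonneg hu0 _) hC.le)
      rcases eq_or_lt_of_le hu0 with h1 | h1
      · rw [← h1, Real.zero_rpow (by norm_num), Real.zero_rpow (by positivity)]
      · exact Real.rpow_le_rpow_of_exponent_ge h1 hu1.le (by linarith)
    · have h1 := (hsym (u / 2) (by rw [abs_div, abs_of_pos (two_pos : (0 : ℝ) < 2)]; linarith)).2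
      rw [show -u / 2 = -(u / 2) by ring]
      exact h1.trans (mul_le_mul_of_nonneg_right KD (hrf.nn _))
  · intro u R hR hRu
    have hR0 : 0 < R := by linarith
    have hu : |u| ≤ |R * u| := by
      rw [abs_mul, abs_of_pos hR0]
      exact le_mul_of_one_le_left (abs_nonneg u) hR
    have h1 := hjreg (u / 2) R hR (by
      rw [show R * (u / 2) = R * u / 2 by ring, abs_div, abs_of_pos (two_pos : (0 : ℝ) < 2)]
      linarith [abs_nonneg (R * u)])
    rw [show R * (u / 2) = R * u / 2 by ring, ← hJe u ((hu.trans hRu).trans kρ), ← hJe _ (hRu.trans kρ)] at h1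
    have hIu : 0 ≤ I u := by
      rw [hJe u ((hu.trans hRu).trans kρ)]
      exact hrf.nn _
    exact ⟨(mul_le_mul_of_nonneg_right (mul_le_mul kaj (Real.rpow_le_rpow_of_exponent_le hR (by linarith))
        (Real.rpow_nonneg hR0.le _) haj.le) hIu).trans h1.1,
      h1.2.trans (mul_le_mul_of_nonneg_right (mul_le_mul KKj (Real.rpow_le_rpow_of_exponent_le hR KKj)
        (Real.rpow_nonneg hR0.le _) hC.le) hIu)⟩
  · filter_upwards [hS, hww, eventually_ge_atTop 1, eventually_ge_atTop n₂, eventually_ge_atTop n₃, ev_pow hc (1 / ρ)]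
      with n h1 hn9 h2 h3 h8 h9
    obtain ⟨m1, m2, m3, m4, m5, m6, -, -, m9, m10, m11⟩ := h1
    rw [hn9]
    have hn0 : (0 : ℝ) < n := by exact_mod_cast h2
    have hw0 : 0 < w' n := (Real.rpow_pos_of_pos hn0 _).trans_le m3
    have hv0 : 0 < w' n / n := div_pos hw0 hn0
    have hvρ : w' n / n ≤ ρ := by
      have h5 : (n : ℝ) ^ (1 - c) * (n : ℝ) ^ c = n := by
        rw [← Real.rpow_add hn0]
        norm_num
      have h10 : 0 < (n : ℝ) ^ (1 - c) := Real.rpow_pos_of_pos hn0 _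
      rw [div_le_iff₀ hn0]
      have h11 : 1 ≤ ρ * (n : ℝ) ^ c := by
        rw [div_le_iff₀ hρ] at h9
        linarith
      calc w' n ≤ (n : ℝ) ^ (1 - c) := m4
        _ ≤ (n : ℝ) ^ (1 - c) * (ρ * (n : ℝ) ^ c) := le_mul_of_one_le_right h10.le h11
        _ = ρ * ((n : ℝ) ^ (1 - c) * (n : ℝ) ^ c) := by ring
        _ = ρ * n := by rw [h5]
    have hσ0 : 0 ≤ σ n := (Real.rpow_nonneg hn0.le _).trans m1
    refine ⟨m1, m2, m3, m4, ?_, m6, m11, ?_, m10⟩
    · rw [hJe _ (by rw [abs_of_pos hv0]; exact hvρ)]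
      exact m5
    · rw [mean_parZ hμ hmp]
      have h10 := hnon n h3
      have h11 := (hsc n h8).2.1
      rw [← hσ n] at h11
      have h12 : c * σ n ≤ cn / As * (As * EE μ (2 * h) n) := mul_le_mul kcn h11 hσ0 (by positivity)
      have h13 : cn / As * (As * EE μ (2 * h) n) = cn * EE μ (2 * h) n := by field_simp
      linarith
  · intro m n hm hmn
    have hm1 : n₁ ≤ m := (le_max_left _ _).trans hm
    have hm2 : N ≤ m := (le_max_right _ _).trans hm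
    obtain ⟨r1, r2, r3, r4⟩ := hreg m n hm1 hmn
    have hmR : (0 : ℝ) < m := by exact_mod_cast (hn₁.trans hm1)
    have hr : (1 : ℝ) ≤ (n : ℝ) / m := by
      rw [le_div_iff₀ hmR, one_mul]
      exact_mod_cast hmn
    have hr0 : (0 : ℝ) < (n : ℝ) / m := by linarith
    have hwe : ∀ n, w' n = wth P β h ω (fun v => J μ (2 * h) (v / 2)) n := by
      intro n
      rw [hw', hσ n]
      rfl
    have s0 : 0 ≤ sgm P β h ω m := Real.sqrt_nonneg _
    have w0 : 0 ≤ wth P β h ω (fun v => J μ (2 * h) (v / 2)) m := by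
      refine Real.sSup_nonneg ?_
      rintro r ⟨h1, -⟩
      exact h1
    have x1 : c * ((n : ℝ) / m) ^ c ≤ cr * ((n : ℝ) / m) ^ cr :=
      mul_le_mul kcr (Real.rpow_le_rpow_of_exponent_le hr kcr) (Real.rpow_nonneg hr0.le _) hcr.le
    have x2 : Cr * ((n : ℝ) / m) ^ (1 - cr) ≤ C * ((n : ℝ) / m) ^ (1 - c) :=
      mul_le_mul KCr (Real.rpow_le_rpow_of_exponent_le hr (by linarith)) (Real.rpow_nonneg hr0.le _) hC.le
    have x3 : Cr * ((n : ℝ) / m) ^ (1 / 2 : ℝ) ≤ C * ((n : ℝ) / m) ^ (1 / 2 : ℝ) :=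
      mul_le_mul_of_nonneg_right KCr (Real.rpow_nonneg hr0.le _)
    rw [hN m hm2, hN n (hm2.trans hmn), hσ m, hσ n, hwe m, hwe n]
    exact ⟨(mul_le_mul_of_nonneg_right x1 s0).trans r1, r2.trans (mul_le_mul_of_nonneg_right x3 s0),
      (mul_le_mul_of_nonneg_right x1 w0).trans r3, r4.trans (mul_le_mul_of_nonneg_right x2 w0)⟩
  · filter_upwards [hexit, hww] with n h1 h2
    rw [h2]
    exact h1
  · intro ε hε
    obtain ⟨a, ha, h1⟩ := hspr ε hε
    refine ⟨a, ha, ?_⟩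
    filter_upwards [h1, hww] with n h2 h3
    rw [h3]
    exact h2
  · intro q
    obtain ⟨a, A, ha, h1⟩ := hmax q
    refine ⟨a, A, ha, ?_⟩
    filter_upwards [h1, hww] with n h2 h3
    rw [h3]
    exact h2
  · intro κ h1
    rw [liminf_congr hlog]
    refine hκ κ (h1.congr' ?_)
    have h2 : ∀ᶠ v : ℝ in 𝓝[>] 0, 0 < v ∧ v < ρ :=
      Filter.Eventually.and self_mem_nhdsWithin ((gt_mem_nhds hρ).filter_mono nhdsWithin_le_nhds)
    filter_upwards [h2] with v hv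
    rw [hJe v (by rw [abs_of_pos hv.1]; exact hv.2.le)]

end Pool.Agent.W_7d29a1_HS
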