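import Pool.Agent.W_7d29a1_HS.Defs
import Pool.Agent.W_7d29a1_H.WidthH
import Pool.Agent.W_7d29a1_H.LamH
import Pool.Agent.W_7d29a1_H.PredST
import Pool.Agent.W_7d29a1_L.LsA1

/-!
MP_7d29a1_pr, TRACK H, part 3 (row 660), section (j): the input `In μ s c C n₀` of the scaling law at the tilt `s` from the
conclusions of the chain (`ConeH 1`), the frame (`LStarH 1`), the symmetry and the superlinearity of the rate functions (`SymH`,
`SupH`), and the cheap displacements around the straight one (`InnH`). The constants are uniform in the tilt.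
-/

set_option autoImplicit false

namespace Pool.Agent.W_7d29a1_HS

open MeasureTheory ProbabilityTheory Filter Topology
open Pool.Agent.W_7d29a1_F Pool.Agent.W_7d29a1_h4g Pool.Agent.W_7d29a1_H
open Pool.Agent.W_7d29a1_L (Mh T kap Bx Mh_nonneg Sub_Mh)

variable {μ : Measure ℝ} [IsProbabilityMeasure μ] {H δ : ℝ} {A : Set ℝ} {s : ℝ}

private theorem luck_one (hD : Dirs μ H δ A) {c C' t z : ℝ} {n : ℕ} (hc : 0 < c) (hC' : 0 < C') (hcC : 1 / C' ≤ c)
    {D : ℝ} (hm : ∫ η, Real.exp (c / EE μ s n * Mh μ s (sl μ s) t (wH 1 μ s n) z (4 * n) η) ∂(law μ) ≤ D) :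
    ∫ η, Real.exp (Mh μ s (sl μ s) t (wd μ s n) z (4 * n) η / (C' * EE μ s n)) ∂(law μ) ≤ D := by
  have hE := EE_pos (μ := μ) (s := s) n
  refine le_trans (integral_mono ?_ ?_ ?_) hm
  · have h1 := ((Sub_Mh (μ := μ) (s := s) (v := sl μ s) (h := t) (w := wd μ s n) (z := z) (n := 4 * n)).const_mul
      (C' * EE μ s n)⁻¹).exp_int hD.em
    refine h1.congr (Eventually.of_forall fun η => ?_)
    show Real.exp ((C' * EE μ s n)⁻¹ * Mh μ s (sl μ s) t (wd μ s n) z (4 * n) η) =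
      Real.exp (Mh μ s (sl μ s) t (wd μ s n) z (4 * n) η / (C' * EE μ s n))
    congr 1
    ring
  · exact ((Sub_Mh (μ := μ) (s := s) (v := sl μ s) (h := t) (w := wH 1 μ s n) (z := z) (n := 4 * n)).const_mul
      (c / EE μ s n)).exp_int hD.em
  · intro η
    refine Real.exp_le_exp.2 ?_
    have h0 : 0 ≤ Mh μ s (sl μ s) t (wH 1 μ s n) z (4 * n) η := Mh_nonneg η
    have h1 : 1 / (C' * EE μ s n) ≤ c / EE μ s n := by
      rw [one_div, mul_inv, ← one_div, ← div_eq_mul_inv]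
      exact div_le_div_of_nonneg_right hcC hE.le
    have h2 := mul_le_mul_of_nonneg_right h1 h0
    calc Mh μ s (sl μ s) t (wd μ s n) z (4 * n) η / (C' * EE μ s n)
        = 1 / (C' * EE μ s n) * Mh μ s (sl μ s) t (wH 1 μ s n) z (4 * n) η := by
          rw [one_div, ← div_eq_inv_mul]
          rfl
      _ ≤ _ := h2

/-- **The input of the scaling law at the tilts of `A`**, with constants which do not depend on the tilt. -/
theorem in_all (hD : Dirs μ H δ A) (hR : Rate μ A) (hG : Grow μ A) (hLg : LogG μ A) (hL : LStarH 1 μ A)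
    (hC : ConeH 1 μ A) (hSy : SymH μ A) (hSu : SupH μ A) (hI : InnH μ A) :
    ∃ (c C : ℝ) (n₀ : ℕ), ∀ s ∈ A, In μ s c C n₀ := by
  obtain ⟨c1, C1, n1, hc1, h1⟩ := hL 4
  obtain ⟨c2, C2, n2, hc2, h2⟩ := hI
  obtain ⟨n3, h3⟩ := hLg 1
  obtain ⟨β, K, δ₀, T, L, x₁, hδ₀, hL1, hsoft, hdbl, hhalf, hcone⟩ := hC
  obtain ⟨D, δ₁, hD1, hδ₁, hsym⟩ := hSy
  obtain ⟨ρ, δ₂, hρ, hρ1, hδ₂, hsup⟩ := hSu
  obtain ⟨C, hCd⟩ : ∃ C : ℝ, C = max (max C1 C2) (max (1 / c1) (max (n3 : ℝ) 1)) := ⟨_, rfl⟩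
  have hC1 : C1 ≤ C := by rw [hCd]; exact (le_max_left _ _).trans (le_max_left _ _)
  have hC2 : C2 ≤ C := by rw [hCd]; exact (le_max_right _ _).trans (le_max_left _ _)
  have hC3 : 1 / c1 ≤ C := by rw [hCd]; exact (le_max_left _ _).trans (le_max_right _ _)
  have hC4 : (n3 : ℝ) ≤ C := by
    rw [hCd]; exact (le_max_left _ _).trans ((le_max_right _ _).trans (le_max_right _ _))
  have hC5 : (1 : ℝ) ≤ C := by
    rw [hCd]; exact (le_max_right _ _).trans ((le_max_right _ _).trans (le_max_right _ _))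
  have hC0 : 0 < C := lt_of_lt_of_le one_pos hC5
  have hCc : 1 / C ≤ c1 := by
    rw [div_le_iff₀ hc1] at hC3
    rw [div_le_iff₀ hC0]
    linarith
  obtain ⟨c, hcd⟩ : ∃ c : ℝ, c = min (min c1 c2) 1 := ⟨_, rfl⟩
  have hcc1 : c ≤ c1 := by rw [hcd]; exact (min_le_left _ _).trans (min_le_left _ _)
  have hcc2 : c ≤ c2 := by rw [hcd]; exact (min_le_left _ _).trans (min_le_right _ _)
  have hcc3 : c ≤ 1 := by rw [hcd]; exact min_le_right _ _
  have hc0 : 0 < c := by rw [hcd]; exact lt_min (lt_min hc1 hc2) one_pos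
  refine ⟨c, C, max n1 n2, fun s hs => ?_⟩
  refine
    { em := hD.em
      nd := hD.nd
      dir := ⟨H, δ, hD.mono_set (Set.singleton_subset_iff.2 hs)⟩
      c0 := hc0
      c1 := hcc3
      C1 := hC5
      lg := ?_
      tE := ?_
      tv := ?_
      soft := ⟨β, x₁, fun x hx => hsoft s hs x hx⟩
      dbl := ⟨T, x₁, fun x hx => hdbl s hs x hx⟩
      half := ⟨K, x₁, fun x j hx => hhalf s hs x j hx⟩
      cone := ⟨L, x₁, δ₀, hδ₀, hL1, fun x hx => hcone s hs x hx⟩
      sym := ⟨D, δ₁, hD1, hδ₁, fun x hx => hsym s hs x hx⟩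
      sup := ⟨ρ, δ₂, hρ, hρ1, hδ₂, fun x hx => hsup s hs x hx⟩
      inn := ?_
      luck := ?_ }
  · intro n hn
    have hE := one_le_EE (μ := μ) (s := s) n
    rcases le_or_gt n3 n with hn3 | hn3
    · have h4 := h3 s hs n hn3
      rw [one_mul] at h4
      refine h4.trans ?_
      exact le_mul_of_one_le_left (by linarith) hC5
    · have h4 : Real.log n ≤ (n : ℝ) := (Real.log_le_sub_one_of_pos (by exact_mod_cast hn)).trans (by linarith)
      have h5 : (n : ℝ) ≤ n3 := by exact_mod_cast hn3.le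
      calc Real.log n ≤ C := by linarith
        _ ≤ C * EE μ s n := le_mul_of_one_le_right hC0.le hE
  · refine tendsto_atTop.2 fun R => ?_
    obtain ⟨n0, h0⟩ := hG R
    exact eventually_atTop.2 ⟨n0, fun n hn => h0 s hs n hn⟩
  · refine Metric.tendsto_atTop.2 fun ε hε => ?_
    obtain ⟨n0, -, h0⟩ := hD.vA_small hR one_pos (half_pos hε)
    refine ⟨max n0 1, fun n hn => ?_⟩
    have h4 := h0 s hs n ((le_max_left _ _).trans hn)
    have h5 := hD.vA_pos hs one_pos (n := n) ((le_max_right _ _).trans hn)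
    rw [Real.dist_eq, sub_zero, abs_of_pos h5]
    linarith
  · intro n hn m y hm hy0 hy1 hy
    have hn1 : n2 ≤ n := (le_max_right _ _).trans hn
    have hv : 0 ≤ vA 1 μ s n := add_nonneg (hD.vr_nonneg hs zero_le_one n) (hD.vl_nonneg hs zero_le_one n)
    have h4 := h2 s hs n hn1 m y hm hy0 hy1 (hy.trans (by
      have h5 : c * vA 1 μ s n * m ≤ c2 * vA 1 μ s n * m :=
        mul_le_mul_of_nonneg_right (mul_le_mul_of_nonneg_right hcc2 hv) (Nat.cast_nonneg m)
      linarith))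
    exact h4.trans (mul_le_mul_of_nonneg_right hC2 (EE_pos (μ := μ) (s := s) n).le)
  · intro n hn t z ht
    have hn1 : n1 ≤ n := (le_max_left _ _).trans hn
    have hE := EE_pos (μ := μ) (s := s) n
    have h4 := h1 s hs n hn1 t z (ht.trans (mul_le_mul_of_nonneg_right hcc1 hE.le))
    exact (luck_one hD hc1 hC0 hCc h4).trans hC1

/-- **The input of the scaling law at the tilt `s`.** -/
theorem in_of (hD : Dirs μ H δ A) (hR : Rate μ A) (hG : Grow μ A) (hLg : LogG μ A) (hL : LStarH 1 μ A)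
    (hC : ConeH 1 μ A) (hSy : SymH μ A) (hSu : SupH μ A) (hI : InnH μ A) (hs : s ∈ A) :
    ∃ (c C : ℝ) (n₀ : ℕ), In μ s c C n₀ := by
  obtain ⟨c, C, n₀, h⟩ := in_all hD hR hG hLg hL hC hSy hSu hI
  exact ⟨c, C, n₀, h s hs⟩

end Pool.Agent.W_7d29a1_HS
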