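import Pool.Agent.W_7d29a1_HS.InOf
import Pool.Agent.W_7d29a1_H.MainA92
import Pool.Agent.W_7d29a1_H.LogH

/-!
MP_7d29a1_pr, TRACK H, part 3 (row 660), section (j): the input `In μ s c C n₀` for all tilts `|s| ≤ H`, with constants which do not
depend on the tilt, from the conclusions `OutH μ H` of parts 1 and 2.
-/

set_option autoImplicit false

namespace Pool.Agent.W_7d29a1_HS

open MeasureTheory ProbabilityTheory Filter Topology
open Pool.Agent.W_7d29a1_F Pool.Agent.W_7d29a1_h4g Pool.Agent.W_7d29a1_H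
open Pool.Agent.W_7d29a1_h47 (EM Nondeg)

variable {μ : Measure ℝ} [IsProbabilityMeasure μ] {H s : ℝ}

/-- All tilts `|s| ≤ H`, from the conclusions of parts 1 and 2. -/
theorem in_out (h : OutH μ H) : ∃ (c C : ℝ) (n₀ : ℕ), ∀ s ∈ Set.Icc (-H) H, In μ s c C n₀ := by
  obtain ⟨δ, hD⟩ := h.dirs
  exact in_all hD hD.rate hD.grow hD.logg h.frame.luck (h.cone 1 one_pos) h.sym h.sup h.inn

/-- One tilt. -/
theorem in_one (h : ∀ H : ℝ, OutH μ H) (s : ℝ) : ∃ (c C : ℝ) (n₀ : ℕ), In μ s c C n₀ := by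
  obtain ⟨c, C, n₀, h1⟩ := in_out (h |s|)
  exact ⟨c, C, n₀, h1 s ⟨neg_abs_le s, le_abs_self s⟩⟩

/-- All tilts `|s| ≤ H`, from the sections. -/
theorem in_sec (hS : SecH μ) (hμ : EM μ) (hnd : Nondeg μ) (H : ℝ) :
    ∃ (c C : ℝ) (n₀ : ℕ), ∀ s ∈ Set.Icc (-H) H, In μ s c C n₀ := in_out (hS.out hμ hnd H)

end Pool.Agent.W_7d29a1_HS
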