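import Pool.Agent.W_7d29a1_HS.Scale

/-!
MP_7d29a1_pr, TRACK H: the two halves of the KPZ relation. At a tilt whose rate function is at least quadratic the width satisfies
`w² ≤ A n σ`, at a tilt whose rate function is at most quadratic `w² ≥ a n σ`; with the strict Newman - Piza inequality and power
superconcentration this gives the strict bounds `1 / 5`, `3 / 4` and `3 / 5` for the exponents. (helper14)
-/

set_option autoImplicit false

namespace Pool.Agent.W_7d29a1_HS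

open MeasureTheory ProbabilityTheory Filter Topology
open Pool.Agent.W_7d29a1_F Pool.Agent.W_7d29a1_h4g Pool.Agent.W_7d29a1_H

section model

variable {μ : Measure ℝ} [IsProbabilityMeasure μ] {s c C : ℝ} {n₀ : ℕ}

/-- A rate function which is at least quadratic: `wd² ≤ A n EE`. -/
theorem wd_up14 (h : In μ s c C n₀) {k ρ : ℝ} (hk : 0 < k) (hρ : 0 < ρ) (hq : ∀ x : ℝ, |x| ≤ ρ → k * x ^ 2 ≤ J μ s x) :
    ∃ A : ℝ, 0 < A ∧ ∃ n₁ : ℕ, ∀ n : ℕ, n₁ ≤ n → wd μ s n ^ 2 ≤ A * (n * EE μ s n) := by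
  obtain ⟨a, A, n₁, ha, hA, hn₁, hJ⟩ := J_wd h one_pos
  obtain ⟨n₂, hn₂⟩ := eventually_atTop.1 (h.tv.eventually_lt_const hρ)
  refine ⟨A / k, by positivity, max n₁ n₂, fun n hn => ?_⟩
  have h1 : 1 ≤ n := hn₁.trans ((le_max_left _ _).trans hn)
  have hn0 : (0 : ℝ) < n := by exact_mod_cast h1
  have hv := h.vA_pos h1
  have h2 := (hJ n ((le_max_left _ _).trans hn) (vA 1 μ s n) (by rw [one_mul, abs_of_pos hv])).2
  have h3 := hq (vA 1 μ s n) (by rw [abs_of_pos hv]; exact (hn₂ n ((le_max_right _ _).trans hn)).le)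
  have h4 : k * wd μ s n ^ 2 ≤ n * (A * EE μ s n) := by
    unfold wd
    calc k * (n * vA 1 μ s n) ^ 2 = n * (n * (k * vA 1 μ s n ^ 2)) := by ring
      _ ≤ n * (n * J μ s (vA 1 μ s n)) :=
          mul_le_mul_of_nonneg_left (mul_le_mul_of_nonneg_left h3 hn0.le) hn0.le
      _ ≤ n * (A * EE μ s n) := mul_le_mul_of_nonneg_left h2 hn0.le
  rw [div_mul_eq_mul_div, le_div_iff₀ hk]
  linarith

/-- A rate function which is at most quadratic: `wd² ≥ a n EE`. -/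
theorem wd_low14 (h : In μ s c C n₀) {K ρ : ℝ} (hK : 0 < K) (hρ : 0 < ρ) (hq : ∀ x : ℝ, |x| ≤ ρ → J μ s x ≤ K * x ^ 2) :
    ∃ a : ℝ, 0 < a ∧ ∃ n₁ : ℕ, ∀ n : ℕ, n₁ ≤ n → a * (n * EE μ s n) ≤ wd μ s n ^ 2 := by
  obtain ⟨a, A, n₁, ha, hA, hn₁, hJ⟩ := J_wd h one_pos
  obtain ⟨n₂, hn₂⟩ := eventually_atTop.1 (h.tv.eventually_lt_const hρ)
  refine ⟨a / K, by positivity, max n₁ n₂, fun n hn => ?_⟩
  have h1 : 1 ≤ n := hn₁.trans ((le_max_left _ _).trans hn)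
  have hn0 : (0 : ℝ) < n := by exact_mod_cast h1
  have hv := h.vA_pos h1
  have h2 := (hJ n ((le_max_left _ _).trans hn) (vA 1 μ s n) (by rw [one_mul, abs_of_pos hv])).1
  have h3 := hq (vA 1 μ s n) (by rw [abs_of_pos hv]; exact (hn₂ n ((le_max_right _ _).trans hn)).le)
  have h4 : n * (a * EE μ s n) ≤ K * wd μ s n ^ 2 := by
    unfold wd
    calc (n : ℝ) * (a * EE μ s n) ≤ n * (n * J μ s (vA 1 μ s n)) := mul_le_mul_of_nonneg_left h2 hn0.le
      _ ≤ n * (n * (K * vA 1 μ s n ^ 2)) := mul_le_mul_of_nonneg_left (mul_le_mul_of_nonneg_left h3 hn0.le) hn0.le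
      _ = K * (n * vA 1 μ s n) ^ 2 := by ring
  rw [div_mul_eq_mul_div, div_le_iff₀ hK]
  linarith

end model

section pure

/-- A power of `n` beats a constant. -/
theorem const_le14 (B : ℝ) {e : ℝ} (he : 0 < e) : ∀ᶠ n : ℕ in atTop, B ≤ (n : ℝ) ^ e :=
  ((tendsto_rpow_atTop he).comp tendsto_natCast_atTop_atTop).eventually_ge_atTop B

/-- `x ^ 5 ≥ b n ^ p` gives `x ≥ n ^ q` for `5 q < p`. -/
theorem root5_14 {x : ℕ → ℝ} {b p q : ℝ} (hb : 0 < b) (hq : 5 * q < p) (hx : ∀ᶠ n : ℕ in atTop, 0 ≤ x n)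
    (h : ∀ᶠ n : ℕ in atTop, b * (n : ℝ) ^ p ≤ x n ^ 5) : ∀ᶠ n : ℕ in atTop, (n : ℝ) ^ q ≤ x n := by
  filter_upwards [hx, h, const_le14 (1 / b) (show 0 < p - 5 * q by linarith), eventually_ge_atTop 1] with n h1 h2 h3 h4
  have hn0 : (0 : ℝ) < n := by exact_mod_cast h4
  have h5 : ((n : ℝ) ^ q) ^ 5 ≤ x n ^ 5 := by
    refine le_trans ?_ h2
    have e1 : ((n : ℝ) ^ q) ^ 5 = (n : ℝ) ^ (5 * q) := by
      rw [← Real.rpow_natCast, ← Real.rpow_mul hn0.le]
      congr 1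
      push_cast
      ring
    have e2 : (n : ℝ) ^ p = (n : ℝ) ^ (p - 5 * q) * (n : ℝ) ^ (5 * q) := by
      rw [← Real.rpow_add hn0]
      congr 1
      ring
    rw [e1, e2]
    have h6 : 1 ≤ b * (n : ℝ) ^ (p - 5 * q) := by
      rw [div_le_iff₀ hb] at h3
      linarith
    have h7 : 0 < (n : ℝ) ^ (5 * q) := Real.rpow_pos_of_pos hn0 _
    calc (n : ℝ) ^ (5 * q) = 1 * (n : ℝ) ^ (5 * q) := (one_mul _).symm
      _ ≤ b * (n : ℝ) ^ (p - 5 * q) * (n : ℝ) ^ (5 * q) := mul_le_mul_of_nonneg_right h6 h7.le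
      _ = b * ((n : ℝ) ^ (p - 5 * q) * (n : ℝ) ^ (5 * q)) := by ring
  exact le_of_pow_le_pow_left₀ (by norm_num) h1 h5

variable {σ w : ℕ → ℝ}

/-- **(A)** `w² ≤ A n σ` and strict Newman - Piza: `σ ≥ n ^ (1 / 5 + d / 5)`. -/
theorem sigma_low14 {A d : ℝ} (hA : 0 < A) (hd : 0 < d) (hσ : ∀ᶠ n : ℕ in atTop, 0 < σ n) (hw : ∀ᶠ n : ℕ in atTop, 0 < w n)
    (h : ∀ᶠ n : ℕ in atTop, w n ^ 2 ≤ A * (n * σ n)) (hnp : ∀ᶠ n : ℕ in atTop, (n : ℝ) ^ (1 + d) ≤ w n * σ n ^ 2) :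
    ∀ᶠ n : ℕ in atTop, (n : ℝ) ^ (1 / 5 + d / 5) ≤ σ n := by
  refine root5_14 (b := 1 / A) (p := 1 + 2 * d) (by positivity) (by linarith) (hσ.mono fun n hn => hn.le) ?_
  filter_upwards [hσ, hw, h, hnp, eventually_ge_atTop 1] with n h1 h2 h3 h4 h5
  have hn0 : (0 : ℝ) < n := by exact_mod_cast h5
  have h6 : ((n : ℝ) ^ (1 + d)) ^ 2 ≤ (w n * σ n ^ 2) ^ 2 := pow_le_pow_left₀ (Real.rpow_nonneg hn0.le _) h4 2
  have h7 : (w n * σ n ^ 2) ^ 2 ≤ A * n * σ n ^ 5 := by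
    calc (w n * σ n ^ 2) ^ 2 = w n ^ 2 * σ n ^ 4 := by ring
      _ ≤ A * (n * σ n) * σ n ^ 4 := mul_le_mul_of_nonneg_right h3 (by positivity)
      _ = A * n * σ n ^ 5 := by ring
  have e1 : ((n : ℝ) ^ (1 + d)) ^ 2 = n * (n : ℝ) ^ (1 + 2 * d) := by
    rw [← Real.rpow_natCast, ← Real.rpow_mul hn0.le]
    have e2 : (n : ℝ) * (n : ℝ) ^ (1 + 2 * d) = (n : ℝ) ^ (1 + (1 + 2 * d)) := by
      rw [Real.rpow_add hn0 1 (1 + 2 * d), Real.rpow_one]
    rw [e2]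
    congr 1
    push_cast
    ring
  rw [e1] at h6
  have h8 : n * (n : ℝ) ^ (1 + 2 * d) ≤ n * (A * σ n ^ 5) := by linarith
  have h9 := le_of_mul_le_mul_left h8 hn0
  rw [one_div, inv_mul_eq_div, div_le_iff₀ hA]
  linarith

/-- **(A)** `w² ≤ A n σ` and superconcentration: `w ≤ n ^ (3 / 4 - e / 8)`. -/
theorem w_up14 {A D e : ℝ} (hA : 0 < A) (he : 0 < e) (hw : ∀ᶠ n : ℕ in atTop, 0 < w n)
    (h : ∀ᶠ n : ℕ in atTop, w n ^ 2 ≤ A * (n * σ n)) (hs : ∀ᶠ n : ℕ in atTop, σ n ≤ D * (n : ℝ) ^ ((1 - e) / 2)) :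
    ∀ᶠ n : ℕ in atTop, w n ≤ (n : ℝ) ^ (3 / 4 - e / 8) := by
  filter_upwards [hw, h, hs, const_le14 (A * D) (show 0 < e / 4 by positivity), eventually_ge_atTop 1] with n h1 h2 h3 h4 h5
  have hn0 : (0 : ℝ) < n := by exact_mod_cast h5
  have h6 : w n ^ 2 ≤ ((n : ℝ) ^ (3 / 4 - e / 8)) ^ 2 := by
    have e1 : ((n : ℝ) ^ (3 / 4 - e / 8)) ^ 2 = (n : ℝ) ^ (e / 4) * (n * (n : ℝ) ^ ((1 - e) / 2)) := by
      have e2 : (n : ℝ) * (n : ℝ) ^ ((1 - e) / 2) = (n : ℝ) ^ (1 + (1 - e) / 2) := by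
        rw [Real.rpow_add hn0 1, Real.rpow_one]
      rw [e2, ← Real.rpow_add hn0, ← Real.rpow_natCast, ← Real.rpow_mul hn0.le]
      congr 1
      push_cast
      ring
    have h7 : 0 < (n : ℝ) ^ ((1 - e) / 2) := Real.rpow_pos_of_pos hn0 _
    rw [e1]
    calc w n ^ 2 ≤ A * (n * σ n) := h2
      _ ≤ A * (n * (D * (n : ℝ) ^ ((1 - e) / 2))) :=
          mul_le_mul_of_nonneg_left (mul_le_mul_of_nonneg_left h3 hn0.le) hA.le
      _ = A * D * (n * (n : ℝ) ^ ((1 - e) / 2)) := by ring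
      _ ≤ (n : ℝ) ^ (e / 4) * (n * (n : ℝ) ^ ((1 - e) / 2)) := mul_le_mul_of_nonneg_right h4 (by positivity)
  exact le_of_pow_le_pow_left₀ two_ne_zero (Real.rpow_nonneg hn0.le _) h6

/-- **(B)** `w² ≥ a n σ` and strict Newman - Piza: `w ≥ n ^ (3 / 5 + d / 10)`. -/
theorem w_low14 {a d : ℝ} (ha : 0 < a) (hd : 0 < d) (hσ : ∀ᶠ n : ℕ in atTop, 0 < σ n) (hw : ∀ᶠ n : ℕ in atTop, 0 < w n)
    (h : ∀ᶠ n : ℕ in atTop, a * (n * σ n) ≤ w n ^ 2) (hnp : ∀ᶠ n : ℕ in atTop, (n : ℝ) ^ (1 + d) ≤ w n * σ n ^ 2) :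
    ∀ᶠ n : ℕ in atTop, (n : ℝ) ^ (3 / 5 + d / 10) ≤ w n := by
  refine root5_14 (b := a ^ 2) (p := 3 + d) (by positivity) (by linarith) (hw.mono fun n hn => hn.le) ?_
  filter_upwards [hσ, hw, h, hnp, eventually_ge_atTop 1] with n h1 h2 h3 h4 h5
  have hn0 : (0 : ℝ) < n := by exact_mod_cast h5
  have h6 : (a * (n * σ n)) ^ 2 ≤ (w n ^ 2) ^ 2 := pow_le_pow_left₀ (by positivity) h3 2
  have e1 : (n : ℝ) ^ (3 + d) = n ^ 2 * (n : ℝ) ^ (1 + d) := by
    have e2 : ((n : ℝ) ^ 2 : ℝ) = (n : ℝ) ^ (2 : ℝ) := by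
      rw [show (2 : ℝ) = ((2 : ℕ) : ℝ) by norm_num, Real.rpow_natCast]
    rw [e2, ← Real.rpow_add hn0]
    congr 1
    ring
  calc a ^ 2 * (n : ℝ) ^ (3 + d) = a ^ 2 * n ^ 2 * (n : ℝ) ^ (1 + d) := by rw [e1]; ring
    _ ≤ a ^ 2 * n ^ 2 * (w n * σ n ^ 2) := mul_le_mul_of_nonneg_left h4 (by positivity)
    _ = w n * (a * (n * σ n)) ^ 2 := by ring
    _ ≤ w n * (w n ^ 2) ^ 2 := mul_le_mul_of_nonneg_left h6 h2.le
    _ = w n ^ 5 := by ring

/-- Bounds of the exponents. -/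
theorem lr_bdd14 {x : ℕ → ℝ} (h : ∀ᶠ n : ℕ in atTop, 1 ≤ x n ∧ x n ≤ n) :
    IsBoundedUnder (· ≤ ·) atTop (fun n : ℕ => Real.log (x n) / Real.log n) ∧
      IsBoundedUnder (· ≥ ·) atTop (fun n : ℕ => Real.log (x n) / Real.log n) := by
  constructor
  · refine ⟨1, ?_⟩
    rw [eventually_map]
    filter_upwards [h, eventually_ge_atTop 2] with n h1 h2
    have hl : 0 < Real.log n := Real.log_pos (by exact_mod_cast h2)
    rw [div_le_one hl]
    exact Real.log_le_log (by linarith [h1.1]) h1.2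
  · refine ⟨0, ?_⟩
    rw [eventually_map]
    filter_upwards [h, eventually_ge_atTop 2] with n h1 h2
    have hl : 0 < Real.log n := Real.log_pos (by exact_mod_cast h2)
    exact div_nonneg (Real.log_nonneg h1.1) hl.le

/-- The logarithm of the relation. -/
theorem lr_up14 {A ε : ℝ} (hA : 0 < A) (hε : 0 < ε) (hσ : ∀ᶠ n : ℕ in atTop, 1 ≤ σ n ∧ σ n ≤ n)
    (hw : ∀ᶠ n : ℕ in atTop, 1 ≤ w n ∧ w n ≤ n) (h : ∀ᶠ n : ℕ in atTop, w n ^ 2 ≤ A * (n * σ n)) :
    ∀ᶠ n : ℕ in atTop, 2 * (Real.log (w n) / Real.log n) - 1 ≤ Real.log (σ n) / Real.log n + ε := by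
  have hlog : Tendsto (fun n : ℕ => Real.log n) atTop atTop := Real.tendsto_log_atTop.comp tendsto_natCast_atTop_atTop
  filter_upwards [hσ, hw, h, eventually_ge_atTop 2, hlog.eventually_ge_atTop (Real.log A / ε)] with n h1 h2 h3 h4 h5
  have hn0 : (0 : ℝ) < n := by exact_mod_cast (show 0 < n by omega)
  have hl : 0 < Real.log n := Real.log_pos (by exact_mod_cast h4)
  have hw0 : 0 < w n := by linarith [h2.1]
  have hs0 : 0 < σ n := by linarith [h1.1]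
  have h6 := Real.log_le_log (by positivity) h3
  rw [Real.log_pow, Real.log_mul hA.ne' (by positivity), Real.log_mul hn0.ne' hs0.ne'] at h6
  push_cast at h6
  rw [div_le_iff₀ hε] at h5
  have e1 : 2 * (Real.log (w n) / Real.log n) - 1 = (2 * Real.log (w n) - Real.log n) / Real.log n := by
    field_simp
  have e2 : Real.log (σ n) / Real.log n + ε = (Real.log (σ n) + ε * Real.log n) / Real.log n := by
    field_simp
  rw [e1, e2]
  exact div_le_div_of_nonneg_right (by linarith) hl.le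

/-- The logarithm of the relation, lower side. -/
theorem lr_low14 {a ε : ℝ} (ha : 0 < a) (hε : 0 < ε) (hσ : ∀ᶠ n : ℕ in atTop, 1 ≤ σ n ∧ σ n ≤ n)
    (hw : ∀ᶠ n : ℕ in atTop, 1 ≤ w n ∧ w n ≤ n) (h : ∀ᶠ n : ℕ in atTop, a * (n * σ n) ≤ w n ^ 2) :
    ∀ᶠ n : ℕ in atTop, Real.log (σ n) / Real.log n ≤ 2 * (Real.log (w n) / Real.log n) - 1 + ε := by
  have hlog : Tendsto (fun n : ℕ => Real.log n) atTop atTop := Real.tendsto_log_atTop.comp tendsto_natCast_atTop_atTop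
  filter_upwards [hσ, hw, h, eventually_ge_atTop 2, hlog.eventually_ge_atTop (-Real.log a / ε)] with n h1 h2 h3 h4 h5
  have hn0 : (0 : ℝ) < n := by exact_mod_cast (show 0 < n by omega)
  have hl : 0 < Real.log n := Real.log_pos (by exact_mod_cast h4)
  have hw0 : 0 < w n := by linarith [h2.1]
  have hs0 : 0 < σ n := by linarith [h1.1]
  have h6 := Real.log_le_log (by positivity) h3
  rw [Real.log_pow, Real.log_mul ha.ne' (by positivity), Real.log_mul hn0.ne' hs0.ne'] at h6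
  push_cast at h6
  rw [div_le_iff₀ hε] at h5
  have e1 : 2 * (Real.log (w n) / Real.log n) - 1 + ε = (2 * Real.log (w n) - Real.log n + ε * Real.log n) / Real.log n := by
    field_simp
  rw [e1]
  exact div_le_div_of_nonneg_right (by linarith) hl.le

/-- **(A)** for the exponents: `2 ν - 1 ≤ χ`, for the upper and for the lower exponents. -/
theorem exp_up14 {A : ℝ} (hA : 0 < A) (hσ : ∀ᶠ n : ℕ in atTop, 1 ≤ σ n ∧ σ n ≤ n)
    (hw : ∀ᶠ n : ℕ in atTop, 1 ≤ w n ∧ w n ≤ n) (h : ∀ᶠ n : ℕ in atTop, w n ^ 2 ≤ A * (n * σ n)) :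
    2 * limsup (fun n : ℕ => Real.log (w n) / Real.log n) atTop - 1 ≤
        limsup (fun n : ℕ => Real.log (σ n) / Real.log n) atTop ∧
      2 * liminf (fun n : ℕ => Real.log (w n) / Real.log n) atTop - 1 ≤
        liminf (fun n : ℕ => Real.log (σ n) / Real.log n) atTop := by
  have bσ := lr_bdd14 hσ
  have bw := lr_bdd14 hw
  constructor
  · refine le_of_forall_pos_le_add fun ε hε => ?_
    have h1 : limsup (fun n : ℕ => Real.log (w n) / Real.log n) atTop ≤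
        (1 + (limsup (fun n : ℕ => Real.log (σ n) / Real.log n) atTop + ε / 2) + ε / 2) / 2 := by
      refine limsup_le_of_le bw.2.isCoboundedUnder_le ?_
      filter_upwards [lr_up14 hA (show 0 < ε / 2 by positivity) hσ hw h, eventually_lt_of_limsup_lt
        (show limsup (fun n : ℕ => Real.log (σ n) / Real.log n) atTop <
          limsup (fun n : ℕ => Real.log (σ n) / Real.log n) atTop + ε / 2 by linarith) bσ.1] with n h2 h3
      linarith
    linarith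
  · refine le_of_forall_pos_le_add fun ε hε => ?_
    have h1 : 2 * liminf (fun n : ℕ => Real.log (w n) / Real.log n) atTop - 1 - ε ≤
        liminf (fun n : ℕ => Real.log (σ n) / Real.log n) atTop := by
      refine le_liminf_of_le bσ.1.isCoboundedUnder_ge ?_
      filter_upwards [lr_up14 hA (show 0 < ε / 2 by positivity) hσ hw h, eventually_lt_of_lt_liminf
        (show liminf (fun n : ℕ => Real.log (w n) / Real.log n) atTop - ε / 4 <
          liminf (fun n : ℕ => Real.log (w n) / Real.log n) atTop by linarith) bw.2] with n h2 h3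
      linarith
    linarith

/-- **(B)** for the exponents: `χ ≤ 2 ν - 1`, for the upper and for the lower exponents. -/
theorem exp_low14 {a : ℝ} (ha : 0 < a) (hσ : ∀ᶠ n : ℕ in atTop, 1 ≤ σ n ∧ σ n ≤ n)
    (hw : ∀ᶠ n : ℕ in atTop, 1 ≤ w n ∧ w n ≤ n) (h : ∀ᶠ n : ℕ in atTop, a * (n * σ n) ≤ w n ^ 2) :
    limsup (fun n : ℕ => Real.log (σ n) / Real.log n) atTop ≤
        2 * limsup (fun n : ℕ => Real.log (w n) / Real.log n) atTop - 1 ∧
      liminf (fun n : ℕ => Real.log (σ n) / Real.log n) atTop ≤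
        2 * liminf (fun n : ℕ => Real.log (w n) / Real.log n) atTop - 1 := by
  have bσ := lr_bdd14 hσ
  have bw := lr_bdd14 hw
  constructor
  · refine le_of_forall_pos_le_add fun ε hε => ?_
    refine limsup_le_of_le bσ.2.isCoboundedUnder_le ?_
    filter_upwards [lr_low14 ha (show 0 < ε / 2 by positivity) hσ hw h, eventually_lt_of_limsup_lt
      (show limsup (fun n : ℕ => Real.log (w n) / Real.log n) atTop <
        limsup (fun n : ℕ => Real.log (w n) / Real.log n) atTop + ε / 4 by linarith) bw.1] with n h2 h3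
    linarith
  · refine le_of_forall_pos_le_add fun ε hε => ?_
    have h1 : (liminf (fun n : ℕ => Real.log (σ n) / Real.log n) atTop - ε + 1) / 2 ≤
        liminf (fun n : ℕ => Real.log (w n) / Real.log n) atTop := by
      refine le_liminf_of_le bw.1.isCoboundedUnder_ge ?_
      filter_upwards [lr_low14 ha (show 0 < ε / 2 by positivity) hσ hw h, eventually_lt_of_lt_liminf
        (show liminf (fun n : ℕ => Real.log (σ n) / Real.log n) atTop - ε / 2 <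
          liminf (fun n : ℕ => Real.log (σ n) / Real.log n) atTop by linarith) bσ.2] with n h2 h3
      linarith
    linarith

end pure

end Pool.Agent.W_7d29a1_HS
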