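import Pool.Agent.W_7d29a1_HS.MainS
import Pool.Agent.W_7d29a1_HS.MaxM
import Pool.Agent.W_7d29a1_HS.Tight
import Pool.Agent.W_7d29a1_SR.NuChi

/-!
MP_7d29a1_pr, TRACK H, part 3 (row 660), section (h): assembly at the force `h`, the exponents (model: `W_7d29a1_SR.Main2`).
(helper40)
-/

set_option autoImplicit false

namespace Pool.Agent.W_7d29a1_HS

open MeasureTheory ProbabilityTheory Filter Topology
open Pool.Agent.W_7d29a1_F Pool.Agent.W_7d29a1_h4g Pool.Agent.W_7d29a1_H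
open Pool.Agent.W_7d29a1_h47 (Lam walk energy polE endMGF forceP forceE tendsto_logZ)
open Pool.Agent.W_7d29a1_SR (toF toF_integral toF_real wid logr_bdd nu_eq_limsup chi_eq_liminf kappa_relation kappa_window)

section pure

/-- The width is larger than `n ^ (1 / 3 + δ)`: from `c n ≤ w σ²` and `σ ≤ C n (w / n) ^ (1 + a)`. -/
theorem w_third {w σ : ℕ → ℝ} {c C a : ℝ} (hc : 0 < c) (hC : 0 < C) (ha : 0 < a)
    (hw : ∀ᶠ n : ℕ in atTop, 0 < w n) (h : ∀ᶠ n : ℕ in atTop, c * n ≤ w n * σ n ^ 2)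
    (hs : ∀ᶠ n : ℕ in atTop, 0 ≤ σ n ∧ σ n ≤ C * n * (w n / n) ^ (1 + a)) :
    ∃ δ : ℝ, 0 < δ ∧ ∀ δ', δ' ≤ δ → ∀ᶠ n : ℕ in atTop, (n : ℝ) ^ (1 / 3 + δ') ≤ w n := by
  obtain ⟨e, he⟩ : ∃ e : ℝ, e = 3 + 2 * a := ⟨_, rfl⟩
  have he0 : 0 < e := by rw [he]; positivity
  have hgap : 0 < (1 - 2 / e) - 1 / 3 := by
    rw [he]
    have : 2 / (3 + 2 * a) < 2 / 3 := div_lt_div_of_pos_left (by norm_num) (by norm_num) (by linarith)
    linarith
  refine ⟨((1 - 2 / e) - 1 / 3) / 2, by positivity, fun δ' hδ' => ?_⟩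
  filter_upwards [hw, h, hs, eventually_ge_atTop 1,
    ev_absorb (b := 1 - 2 / e) (b' := 1 / 3 + δ') (K := (c / C ^ 2) ^ (1 / e)) (by positivity) (by linarith)]
    with n h1 h2 h3 h4 h5
  have hn0 : (0 : ℝ) < n := by exact_mod_cast h4
  obtain ⟨hs0, hs1⟩ := h3
  have hx : 0 < w n / n := div_pos h1 hn0
  have h6 : σ n ^ 2 ≤ (C * n * (w n / n) ^ (1 + a)) ^ 2 := pow_le_pow_left₀ hs0 hs1 2
  have h7 : ((w n / n) ^ (1 + a)) ^ 2 * (w n / n) = (w n / n) ^ e := by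
    rw [← Real.rpow_natCast, ← Real.rpow_mul hx.le, ← Real.rpow_add_one hx.ne', he]
    congr 1
    push_cast
    ring
  have h8 : c * n ≤ C ^ 2 * (n : ℝ) ^ 3 * (w n / n) ^ e := by
    have h9 := mul_le_mul_of_nonneg_left h6 h1.le
    have h10 : w n * (C * n * (w n / n) ^ (1 + a)) ^ 2 = C ^ 2 * (n : ℝ) ^ 3 * (w n / n) ^ e := by
      rw [← h7]
      have : w n = w n / n * n := by field_simp
      calc w n * (C * n * (w n / n) ^ (1 + a)) ^ 2 = (w n / n * n) * (C * n * (w n / n) ^ (1 + a)) ^ 2 := by rw [← this]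
        _ = _ := by ring
    linarith
  have h9 : c / C ^ 2 * (n : ℝ) ^ (-2 : ℝ) ≤ (w n / n) ^ e := by
    have h10 : (n : ℝ) ^ (-2 : ℝ) * (n : ℝ) ^ 3 = n := by
      rw [← Real.rpow_natCast, ← Real.rpow_add hn0]
      norm_num
    have hp : 0 < C ^ 2 * (n : ℝ) ^ 3 := by positivity
    refine le_of_mul_le_mul_left ?_ hp
    calc C ^ 2 * (n : ℝ) ^ 3 * (c / C ^ 2 * (n : ℝ) ^ (-2 : ℝ)) = c * ((n : ℝ) ^ (-2 : ℝ) * (n : ℝ) ^ 3) := by
          field_simp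
      _ = c * n := by rw [h10]
      _ ≤ _ := h8
  have h10 := Real.rpow_le_rpow (by positivity) h9 (show 0 ≤ 1 / e by positivity)
  rw [← Real.rpow_mul hx.le, mul_one_div_cancel he0.ne', Real.rpow_one, Real.mul_rpow (by positivity)
    (Real.rpow_nonneg hn0.le _), ← Real.rpow_mul hn0.le] at h10
  have h11 := mul_le_mul_of_nonneg_right h10 hn0.le
  rw [div_mul_cancel₀ _ hn0.ne'] at h11
  have h12 : (c / C ^ 2) ^ (1 / e) * (n : ℝ) ^ (-2 * (1 / e)) * n = (c / C ^ 2) ^ (1 / e) * (n : ℝ) ^ (1 - 2 / e) := by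
    rw [mul_assoc, ← Real.rpow_add_one hn0.ne']
    congr 2
    ring
  rw [h12] at h11
  exact h5.trans h11

/-- The deviation is smaller than the width by a power: from `σ ≤ C n (w / n) ^ (1 + a)` and `w ≤ n ^ (1 - b)`. -/
theorem sig_le_w {w σ : ℕ → ℝ} {C a b : ℝ} (hC : 0 < C) (ha : 0 < a) (hb : 0 < b)
    (hw : ∀ᶠ n : ℕ in atTop, 0 < w n ∧ w n ≤ (n : ℝ) ^ (1 - b))
    (hs : ∀ᶠ n : ℕ in atTop, σ n ≤ C * n * (w n / n) ^ (1 + a)) :
    ∃ δ : ℝ, 0 < δ ∧ ∀ δ', δ' ≤ δ → ∀ᶠ n : ℕ in atTop, (n : ℝ) ^ δ' * σ n ≤ w n := by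
  have hab : 0 < a * b := mul_pos ha hb
  refine ⟨a * b / 2, by positivity, fun δ' hδ' => ?_⟩
  filter_upwards [hw, hs, eventually_ge_atTop 1, ev_pow (δ := a * b / 2) (by positivity) C] with n h1 h2 h3 h4
  obtain ⟨hw0, hw1⟩ := h1
  have hn1 : (1 : ℝ) ≤ n := by exact_mod_cast h3
  have hn0 : (0 : ℝ) < n := by linarith
  have hx : 0 < w n / n := div_pos hw0 hn0
  have h5 : w n / n ≤ (n : ℝ) ^ (-b) := by
    rw [div_le_iff₀ hn0, ← Real.rpow_add_one hn0.ne']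
    refine hw1.trans (le_of_eq ?_)
    congr 1
    ring
  have h6 : (w n / n) ^ a ≤ (n : ℝ) ^ (-(a * b)) := by
    have := Real.rpow_le_rpow hx.le h5 ha.le
    rw [← Real.rpow_mul hn0.le] at this
    refine this.trans (le_of_eq ?_)
    congr 1
    ring
  have h7 : n * (w n / n) ^ (1 + a) = w n * (w n / n) ^ a := by
    rw [Real.rpow_add hx, Real.rpow_one]
    field_simp
  have h8 : σ n ≤ C * (w n * (n : ℝ) ^ (-(a * b))) := by
    refine h2.trans ?_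
    rw [mul_assoc, h7]
    exact mul_le_mul_of_nonneg_left (mul_le_mul_of_nonneg_left h6 hw0.le) hC.le
  have h9 : 0 ≤ (n : ℝ) ^ δ' := Real.rpow_nonneg hn0.le _
  have h10 : (n : ℝ) ^ δ' * (n : ℝ) ^ (-(a * b)) * C ≤ 1 := by
    have h11 : (n : ℝ) ^ δ' * (n : ℝ) ^ (-(a * b)) ≤ (n : ℝ) ^ (-(a * b / 2)) := by
      rw [← Real.rpow_add hn0]
      exact Real.rpow_le_rpow_of_exponent_le hn1 (by linarith)
    have h12 : (n : ℝ) ^ (-(a * b / 2)) * (n : ℝ) ^ (a * b / 2) = 1 := by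
      rw [← Real.rpow_add hn0]
      norm_num
    calc (n : ℝ) ^ δ' * (n : ℝ) ^ (-(a * b)) * C ≤ (n : ℝ) ^ (-(a * b / 2)) * (n : ℝ) ^ (a * b / 2) :=
          mul_le_mul h11 h4 hC.le (Real.rpow_nonneg hn0.le _)
      _ = 1 := h12
  calc (n : ℝ) ^ δ' * σ n ≤ (n : ℝ) ^ δ' * (C * (w n * (n : ℝ) ^ (-(a * b)))) := mul_le_mul_of_nonneg_left h8 h9
    _ = (n : ℝ) ^ δ' * (n : ℝ) ^ (-(a * b)) * C * w n := by ring
    _ ≤ 1 * w n := mul_le_mul_of_nonneg_right h10 hw0.le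
    _ = w n := one_mul _

/-- Bounds of the exponents. -/
theorem logr_ge {w : ℕ → ℝ} {b B : ℝ} (h1 : ∀ᶠ n : ℕ in atTop, (n : ℝ) ^ b ≤ w n)
    (h2 : ∀ᶠ n : ℕ in atTop, w n ≤ (n : ℝ) ^ B) :
    b ≤ liminf (fun n : ℕ => Real.log (w n) / Real.log n) atTop ∧
      liminf (fun n : ℕ => Real.log (w n) / Real.log n) atTop ≤ limsup (fun n : ℕ => Real.log (w n) / Real.log n) atTop ∧
      limsup (fun n : ℕ => Real.log (w n) / Real.log n) atTop ≤ B := by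
  obtain ⟨n₁, h3⟩ := eventually_atTop.1 (h1.and h2)
  have hb := logr_bdd (w := w) (n₁ := n₁) (b := b) (B := B) (fun n hn => (h3 n hn).1) fun n hn => (h3 n hn).2
  refine ⟨?_, liminf_le_limsup hb.1 hb.2, ?_⟩
  · refine le_liminf_of_le hb.1.isCoboundedUnder_ge ?_
    filter_upwards [h1, eventually_ge_atTop 2] with n h4 h5
    have hn2 : (2 : ℝ) ≤ n := by exact_mod_cast h5
    have hn0 : (0 : ℝ) < n := by linarith
    rw [le_div_iff₀ (Real.log_pos (by linarith)), ← Real.log_rpow hn0]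
    exact Real.log_le_log (Real.rpow_pos_of_pos hn0 _) h4
  · refine limsup_le_of_le hb.2.isCoboundedUnder_le ?_
    filter_upwards [h1, h2, eventually_ge_atTop 2] with n h3 h4 h5
    have hn2 : (2 : ℝ) ≤ n := by exact_mod_cast h5
    have hn0 : (0 : ℝ) < n := by linarith
    rw [div_le_iff₀ (Real.log_pos (by linarith)), ← Real.log_rpow hn0]
    exact Real.log_le_log ((Real.rpow_pos_of_pos hn0 _).trans_le h3) h4

end pure

section core

variable {Ω : Type*} [MeasurableSpace Ω] {P : Measure Ω} [IsProbabilityMeasure P] {ω : ℕ × ℤ → Ω → ℝ} {β : ℝ}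
  {μ : Measure ℝ} [IsProbabilityMeasure μ] {h c C : ℝ} {n₀ : ℕ}

/-- The spread at the scale `w_n`, tight form. -/
theorem tight_P (hI : In μ (2 * h) c C n₀) (hmeas : ∀ p, Measurable (ω p))
    (hmp : MeasurePreserving (fun x => toF β fun p => ω p x) P (law μ)) {ε : ℝ} (hε : 0 < ε) :
    ∃ c' : ℝ, 0 < c' ∧ ∃ n₁ : ℕ, ∀ n, n₁ ≤ n →
      ∫ x, forceP β h (fun p => ω p x) n (bal n (vel μ h) (c' * wth P β h ω (fun v => J μ (2 * h) (v / 2)) n)) ∂P ≤ ε := by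
  obtain ⟨c', hc', n₁, hs⟩ := tight hI hε
  obtain ⟨a₁, A₁, b, B, -, -, hb, hB, n₂, hn₂, hsc⟩ := scales (P := P) (β := β) (ω := ω) hI hmp
  refine ⟨2 * c' / B, by positivity, max n₁ n₂, fun n hn => ?_⟩
  obtain ⟨-, -, hw1, hw2, hwd⟩ := hsc n ((le_max_right _ _).trans hn)
  have h1 := hs n ((le_max_left _ _).trans hn)
  rw [← ball_P (P := P) (β := β) hmp h n (by positivity)] at h1
  refine le_trans (integral_mono (forceP_integrable hmeas β h n _) (forceP_integrable hmeas β h n _) fun x => forceP_mono _ _ _ _ (bal_mono n _ ?_)) h1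
  have h2 := mul_le_mul_of_nonneg_left hw2 (show 0 ≤ 2 * c' / B by positivity)
  refine h2.trans (le_of_eq ?_)
  field_simp

theorem core_P (hI : In μ (2 * h) c C n₀) (hmeas : ∀ p, Measurable (ω p))
    (hmp : MeasurePreserving (fun x => toF β fun p => ω p x) P (law μ)) {c₂ K₂ C₃ a₃ : ℝ}
    (hc₂ : 0 < c₂) (hK₂ : 0 < K₂) (hJ : ∀ v, |v| < 1 → c₂ * |v| ^ K₂ ≤ J μ (2 * h) (v / 2))
    (hC₃ : 0 < C₃) (ha₃ : 0 < a₃) (hJ3 : ∀ v, |v| ≤ 1 / 2 → J μ (2 * h) (v / 2) ≤ C₃ * |v| ^ (1 + a₃))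
    {c₉ : ℝ} (hc₉ : 0 < c₉) (C₉ : ℝ) :
    ∃ (σ w : ℕ → ℝ) (c C : ℝ) (M : ℕ), (∀ n, σ n = sgm P β h ω n) ∧ (∀ n, w n = wid (fun v => J μ (2 * h) (v / 2)) (σ n) n) ∧
      0 < c ∧ c ≤ 1 ∧ 0 < C ∧ c ≤ c₉ ∧ C₉ ≤ C ∧
      (∀ᶠ n : ℕ in atTop, (n : ℝ) ^ c ≤ σ n ∧ σ n ≤ C * (n : ℝ) ^ (1 / 2 : ℝ) ∧
        (n : ℝ) ^ (1 / 3 + c) ≤ w n ∧ w n ≤ (n : ℝ) ^ (1 - c) ∧
        n * J μ (2 * h) (w n / n / 2) = σ n ∧ c * n ≤ w n * σ n ^ 2 ∧ 2 * σ n ≤ σ (M * n) ∧ 2 * w n ≤ w (M * n) ∧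
        0 ≤ n * (Lam μ h - Real.log 2) - ∫ x, Real.log (parZ β h (fun p => ω p x) n) ∂P ∧
        n * (Lam μ h - Real.log 2) - ∫ x, Real.log (parZ β h (fun p => ω p x) n) ∂P ≤ C * σ n ∧
        (n : ℝ) ^ c * σ n ≤ w n) ∧
      (∀ᶠ n : ℕ in atTop, ∀ s : ℝ, 0 ≤ s →
        P.real {x | s * σ n ≤ |Real.log (parZ β h (fun p => ω p x) n) - ∫ y, Real.log (parZ β h (fun p => ω p y) n) ∂P|} ≤
          C * Real.exp (-(c * s ^ c))) ∧
      (∀ K : ℝ, ∃ p : ℝ, 0 < p ∧ ∀ᶠ n : ℕ in atTop,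
        p ≤ P.real {x | K * σ n ≤ Real.log (parZ β h (fun p => ω p x) n) - ∫ y, Real.log (parZ β h (fun p => ω p y) n) ∂P}) ∧
      (∀ᶠ n : ℕ in atTop, ∀ R : ℝ, 1 ≤ R →
        1 - ∫ x, forceP β h (fun p => ω p x) n (bal n (vel μ h) (R * w n)) ∂P ≤ C * Real.exp (-(c * R ^ c))) ∧
      (∀ ε : ℝ, 0 < ε → ∃ a : ℝ, 0 < a ∧ ∀ᶠ n : ℕ in atTop, ∫ x, forceP β h (fun p => ω p x) n (bal n (vel μ h) (a * w n)) ∂P ≤ ε) ∧
      (∀ q : ℕ, ∃ a A : ℝ, 0 < a ∧ ∀ᶠ n : ℕ in atTop,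
        a * w n ^ q ≤ ∫ x, forceE β h (fun p => ω p x) n (fun s => mx (vel μ h) s ^ q) ∂P ∧
        ∫ x, forceE β h (fun p => ω p x) n (fun s => mx (vel μ h) s ^ q) ∂P ≤ A * w n ^ q) ∧
      nuH P β h (vel μ h) ω = limsup (fun n : ℕ => Real.log (w n) / Real.log n) atTop ∧
      chiH P β h ω = liminf (fun n : ℕ => Real.log (σ n) / Real.log n) atTop ∧
      1 / 3 + c ≤ liminf (fun n : ℕ => Real.log (w n) / Real.log n) atTop ∧
      liminf (fun n : ℕ => Real.log (w n) / Real.log n) atTop ≤ nuH P β h (vel μ h) ω ∧ nuH P β h (vel μ h) ω ≤ 1 - c ∧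
      c ≤ chiH P β h ω ∧ chiH P β h ω ≤ 1 / 2 ∧ (1 - nuH P β h (vel μ h) ω) / 2 ≤ chiH P β h ω ∧
      ∀ κ : ℝ, Tendsto (fun v : ℝ => Real.log (J μ (2 * h) (v / 2)) / Real.log v) (𝓝[>] 0) (𝓝 κ) →
        limsup (fun n : ℕ => Real.log (σ n) / Real.log n) atTop = 1 - κ * (1 - nuH P β h (vel μ h) ω) ∧
        chiH P β h ω = 1 - κ * (1 - liminf (fun n : ℕ => Real.log (w n) / Real.log n) atTop) ∧
        (2 * κ - 1) / (2 * κ + 1) ≤ liminf (fun n : ℕ => Real.log (w n) / Real.log n) atTop ∧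
        nuH P β h (vel μ h) ω ≤ 1 - 1 / (2 * κ) := by
  obtain ⟨b₁, C₁, c₁, M, hb₁, hC₁, hc₁, hS⟩ := scaleP hI hmp hc₂ hK₂ hJ
  obtain ⟨σ, hσdef⟩ : ∃ σ : ℕ → ℝ, ∀ n, σ n = sgm P β h ω n := ⟨_, fun _ => rfl⟩
  obtain ⟨w, hwdef⟩ : ∃ w : ℕ → ℝ, ∀ n, w n = wth P β h ω (fun v => J μ (2 * h) (v / 2)) n := ⟨_, fun _ => rfl⟩
  simp only [← hσdef, ← hwdef] at hS
  obtain ⟨A₂, a₂, g₂, ha₂, hg₂, n₂, hdev⟩ := devS (P := P) (β := β) (ω := ω) hI hmp
  obtain ⟨A₄, a₄, g₄, ha₄, hg₄, n₄, hexit⟩ := exitS_P (P := P) (β := β) (ω := ω) hI hmeas hmp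
  obtain ⟨c₅, d₅, hc₅, hd₅, n₅, hspr⟩ := spreadS_P (P := P) (β := β) (ω := ω) hI hmeas hmp
  have hluck := luckS_P (P := P) (β := β) (ω := ω) hI hmp
  have htight := fun (ε : ℝ) (hε : 0 < ε) => tight_P (P := P) (β := β) (ω := ω) hI hmeas hmp hε
  simp only [← hσdef, ← hwdef] at hdev hexit hspr hluck htight
  have hup : ∀ᶠ n : ℕ in atTop, 0 < w n ∧ 0 ≤ σ n ∧ σ n ≤ C₃ * n * (w n / n) ^ (1 + a₃) := by
    filter_upwards [hS, eventually_ge_atTop 1, ev_pow hb₁ 2] with n h1 h2 h3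
    have hn0 : (0 : ℝ) < n := by exact_mod_cast h2
    have hw0 : 0 < w n := (Real.rpow_pos_of_pos hn0 _).trans_le h1.2.2.1
    have hv0 : 0 < w n / n := div_pos hw0 hn0
    have hv1 : w n / n ≤ 1 / 2 := by
      have h4 : (n : ℝ) ^ (1 - b₁) * (n : ℝ) ^ b₁ = n := by
        rw [← Real.rpow_add hn0]
        norm_num
      have h5 : 0 < (n : ℝ) ^ (1 - b₁) := Real.rpow_pos_of_pos hn0 _
      have h6 : w n ≤ (n : ℝ) ^ (1 - b₁) := h1.2.2.2.1
      rw [div_le_iff₀ hn0]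
      nlinarith
    refine ⟨hw0, (Real.rpow_nonneg hn0.le _).trans h1.1, ?_⟩
    have h4 := hJ3 (w n / n) (by rw [abs_of_pos hv0]; exact hv1)
    rw [abs_of_pos hv0] at h4
    have h5 := mul_le_mul_of_nonneg_left h4 hn0.le
    rw [h1.2.2.2.2.1] at h5
    linarith
  -- the lower bound of the width
  obtain ⟨δ₁, hδ₁, hthird⟩ : ∃ δ : ℝ, 0 < δ ∧ ∀ δ', δ' ≤ δ → ∀ᶠ n : ℕ in atTop, (n : ℝ) ^ (1 / 3 + δ') ≤ w n :=
    w_third (σ := σ) (c := c₁) (C := C₃) (a := a₃) hc₁ hC₃ ha₃ (hup.mono fun n h9 => h9.1) (hS.mono fun n h9 => h9.2.2.2.2.2.1)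
      (hup.mono fun n h9 => h9.2)
  obtain ⟨δ₂, hδ₂, hsw⟩ := sig_le_w (w := w) (σ := σ) (C := C₃) (a := a₃) (b := b₁) hC₃ ha₃ hb₁
    ((hup.and hS).mono fun n h9 => ⟨h9.1.1, h9.2.2.2.2.1⟩) (hup.mono fun n h9 => h9.2.2)
  obtain ⟨δ, hδdef⟩ : ∃ δ : ℝ, δ = min δ₁ δ₂ := ⟨_, rfl⟩
  have hδ : 0 < δ := by rw [hδdef]; exact lt_min hδ₁ hδ₂
  -- the constants
  obtain ⟨b₉, hb₉⟩ : ∃ b₉ : ℝ, b₉ = min b₁ c₉ := ⟨_, rfl⟩
  have hb₉0 : 0 < b₉ := by rw [hb₉]; positivity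
  obtain ⟨c', hc'⟩ : ∃ c' : ℝ, c' = min 1 (min b₉ (min c₁ (min (min a₂ g₂) (min (min a₄ g₄) (min (min c₅ d₅) δ))))) := ⟨_, rfl⟩
  have k0 : 0 < c' := by rw [hc']; positivity
  have k1 : c' ≤ 1 := by rw [hc']; exact min_le_left _ _
  have k29 : c' ≤ b₉ := by rw [hc']; exact (min_le_right _ _).trans (min_le_left _ _)
  have k2 : c' ≤ b₁ := k29.trans (by rw [hb₉]; exact min_le_left _ _)
  have k9 : c' ≤ c₉ := k29.trans (by rw [hb₉]; exact min_le_right _ _)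
  have k3 : c' ≤ c₁ := by rw [hc']; exact (min_le_right _ _).trans ((min_le_right _ _).trans (min_le_left _ _))
  have k4 : c' ≤ min a₂ g₂ := by
    rw [hc']; exact (min_le_right _ _).trans ((min_le_right _ _).trans ((min_le_right _ _).trans (min_le_left _ _)))
  have k5 : c' ≤ min a₄ g₄ := by
    rw [hc']
    exact (min_le_right _ _).trans ((min_le_right _ _).trans ((min_le_right _ _).trans ((min_le_right _ _).trans (min_le_left _ _))))
  have k6 : c' ≤ min (min c₅ d₅) δ := by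
    rw [hc']
    exact (min_le_right _ _).trans ((min_le_right _ _).trans ((min_le_right _ _).trans ((min_le_right _ _).trans (min_le_right _ _))))
  have k6c : c' ≤ c₅ := k6.trans ((min_le_left _ _).trans (min_le_left _ _))
  have k6d : c' ≤ d₅ := k6.trans ((min_le_left _ _).trans (min_le_right _ _))
  have k70 : c' ≤ δ := k6.trans (min_le_right _ _)
  have k7 : c' ≤ δ₁ := k70.trans (by rw [hδdef]; exact min_le_left _ _)
  have k10 : c' ≤ δ₂ := k70.trans (by rw [hδdef]; exact min_le_right _ _)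
  obtain ⟨C', hC'⟩ : ∃ C' : ℝ, C' = C₁ + 3 * |A₂| + 3 * |A₄| + |C₉| := ⟨_, rfl⟩
  have hA2 := abs_nonneg A₂
  have hA4 := abs_nonneg A₄
  have hC9 := abs_nonneg C₉
  have l0 : 0 < C' := by rw [hC']; positivity
  have l9 : C₉ ≤ C' := by rw [hC']; have := le_abs_self C₉; linarith
  have l1 : C₁ ≤ C' := by rw [hC']; linarith
  have l2 : 3 * |A₂| ≤ C' := by rw [hC']; linarith
  have l4 : 3 * |A₄| ≤ C' := by rw [hC']; linarith
  -- the scale statements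
  have hscale : ∀ᶠ n : ℕ in atTop, (n : ℝ) ^ c' ≤ σ n ∧ σ n ≤ C' * (n : ℝ) ^ (1 / 2 : ℝ) ∧
        (n : ℝ) ^ (1 / 3 + c') ≤ w n ∧ w n ≤ (n : ℝ) ^ (1 - c') ∧
        n * J μ (2 * h) (w n / n / 2) = σ n ∧ c' * n ≤ w n * σ n ^ 2 ∧ 2 * σ n ≤ σ (M * n) ∧ 2 * w n ≤ w (M * n) ∧
        0 ≤ n * (Lam μ h - Real.log 2) - ∫ x, Real.log (parZ β h (fun p => ω p x) n) ∂P ∧
        n * (Lam μ h - Real.log 2) - ∫ x, Real.log (parZ β h (fun p => ω p x) n) ∂P ≤ C' * σ n ∧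
        (n : ℝ) ^ c' * σ n ≤ w n := by
    filter_upwards [hS, hthird c' k7, eventually_ge_atTop 1, hsw c' k10] with n h1 h2 h3 hx9
    have hn1 : (1 : ℝ) ≤ n := by exact_mod_cast h3
    have hn0 : (0 : ℝ) < n := by linarith
    obtain ⟨m1, m2, m3, m4, m5, m6, m7, m8, m9, m10⟩ := h1
    have hσ0 : 0 ≤ σ n := (Real.rpow_nonneg hn0.le _).trans m1
    exact ⟨(Real.rpow_le_rpow_of_exponent_le hn1 k2).trans m1, m2.trans (mul_le_mul_of_nonneg_right l1 (Real.rpow_nonneg hn0.le _)),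
      h2, m4.trans (Real.rpow_le_rpow_of_exponent_le hn1 (by linarith)), m5,
      (mul_le_mul_of_nonneg_right k3 hn0.le).trans m6, m7, m8, m9, m10.trans (mul_le_mul_of_nonneg_right l1 hσ0), hx9⟩
  have hw1 : ∀ᶠ n : ℕ in atTop, (n : ℝ) ^ (1 / 3 + c') ≤ w n := hscale.mono fun n h9 => h9.2.2.1
  have hw2 : ∀ᶠ n : ℕ in atTop, w n ≤ (n : ℝ) ^ (1 - c') := hscale.mono fun n h9 => h9.2.2.2.1
  have hs1 : ∀ᶠ n : ℕ in atTop, (n : ℝ) ^ c' ≤ σ n := hscale.mono fun n h9 => h9.1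
  have hs2 : ∀ ε : ℝ, 0 < ε → ∀ᶠ n : ℕ in atTop, σ n ≤ (n : ℝ) ^ (1 / 2 + ε) := by
    intro ε hε
    filter_upwards [hscale, ev_pow hε C', eventually_ge_atTop 1] with n h1 h2 h3
    have hn0 : (0 : ℝ) < n := by exact_mod_cast h3
    refine h1.2.1.trans ?_
    rw [Real.rpow_add hn0, mul_comm ((n : ℝ) ^ (1 / 2 : ℝ))]
    exact mul_le_mul_of_nonneg_right h2 (Real.rpow_nonneg hn0.le _)
  -- the exponents
  have hnu : nuH P β h (vel μ h) ω = limsup (fun n : ℕ => Real.log (w n) / Real.log n) atTop := by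
    obtain ⟨N, hN⟩ := eventually_atTop.1 (hw1.and hw2)
    have q1 : ∀ n, max 1 (max N (max n₄ n₅)) ≤ n → 1 ≤ n ∧ N ≤ n ∧ n₄ ≤ n ∧ n₅ ≤ n := fun n hn =>
      ⟨(le_max_left _ _).trans hn, (le_max_left _ _).trans ((le_max_right _ _).trans hn),
        (le_max_left _ _).trans ((le_max_right _ _).trans ((le_max_right _ _).trans hn)),
        (le_max_right _ _).trans ((le_max_right _ _).trans ((le_max_right _ _).trans hn))⟩
    refine nu_eq_limsup (P := P) (p := fun n r x => forceP β h (fun p => ω p x) n (bal n (vel μ h) r)) (w := w)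
      (n₀ := max 1 (max N (max n₄ n₅))) (fun n r => forceP_meas hmeas β h n _) (fun n r x => forceP_nonneg _ _ _ _ _)
      (fun n r x => forceP_le_one _ _ _ _ _) (fun n x r r' hr => forceP_mono _ _ _ _ (bal_mono n _ hr)) ?_ ?_ ?_ ?_
    · intro n hn
      obtain ⟨p1, p2, -, -⟩ := q1 n hn
      have hn1 : (1 : ℝ) ≤ n := by exact_mod_cast p1
      exact (Real.one_le_rpow hn1 (by positivity)).trans (hN n p2).1
    · intro n hn
      obtain ⟨p1, p2, -, -⟩ := q1 n hn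
      have hn1 : (1 : ℝ) ≤ n := by exact_mod_cast p1
      refine (hN n p2).2.trans ?_
      calc (n : ℝ) ^ (1 - c') ≤ (n : ℝ) ^ (1 : ℝ) := Real.rpow_le_rpow_of_exponent_le hn1 (by linarith)
        _ = n := Real.rpow_one _
    · intro q
      obtain ⟨K, hK, hq⟩ := exp_le_pow k0 q
      refine ⟨C' * K, fun n hn R hR => ?_⟩
      obtain ⟨-, -, p3, -⟩ := q1 n hn
      have h1 := hexit n p3 R hR
      have h2 := tail_le (A := A₄) (a := a₄) (g := g₄) (c := c') (C := C') (k5.trans (min_le_left _ _)) (k5.trans (min_le_right _ _))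
        k0 k1 l4 (s := R) (by linarith)
      have h3 := mul_le_mul_of_nonneg_left (hq R hR) l0.le
      rw [mul_assoc]
      exact h1.trans (h2.trans h3)
    · exact ⟨c₅, d₅, hc₅, hd₅, fun n hn => hspr n (q1 n hn).2.2.2⟩
  have hchi : chiH P β h ω = liminf (fun n : ℕ => Real.log (σ n) / Real.log n) atTop := by
    obtain ⟨N, hN⟩ := eventually_atTop.1 (hs1.and (hs2 (1 / 2) (by norm_num)))
    have h1 := chi_eq_liminf (s := σ) (n₀ := max 1 N) (fun n hn => by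
        have hn1 : (1 : ℝ) ≤ n := by exact_mod_cast (le_max_left _ _).trans hn
        exact (Real.one_le_rpow hn1 k0.le).trans (hN n ((le_max_right _ _).trans hn)).1) (fun n hn => by
        have h2 := (hN n ((le_max_right _ _).trans hn)).2
        norm_num at h2
        exact h2)
    rw [← h1]
    have h2 : ∀ n, σ n ^ 2 = Var[fun x => Real.log (parZ β h (fun p => ω p x) n); P] := fun n => by
      rw [hσdef, sgm, Real.sq_sqrt (variance_nonneg _ _)]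
    simp only [h2]
    rfl
  obtain ⟨e1, e2, e3⟩ := logr_ge hw1 hw2
  have e4 := (logr_ge hs1 (hs2 (1 / 2) (by norm_num))).1
  have e5 : liminf (fun n : ℕ => Real.log (σ n) / Real.log n) atTop ≤ 1 / 2 := by
    refine le_of_forall_pos_le_add fun ε hε => ?_
    have h1 := logr_ge hs1 (hs2 ε hε)
    exact h1.2.1.trans h1.2.2
  have e6 := chi_ge_nu (c := c') (b := 1 / 3 + c') (b' := c') (B := 1 - c') (B' := 1 / 2 + 1 / 2) k0 (by positivity) k0 hw1 hw2 hs1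
    (hs2 (1 / 2) (by norm_num)) (hscale.mono fun n h9 => h9.2.2.2.2.2.1)
  refine ⟨σ, w, c', C', M, hσdef, fun n => by rw [hwdef, hσdef]; rfl, k0, k1, l0, k9, l9, hscale, ?_, ?_, ?_, ?_, ?_, hnu, hchi, e1,
    by rw [hnu]; exact e2, by rw [hnu]; exact e3, by rw [hchi]; exact e4, by rw [hchi]; exact e5, by rw [hnu, hchi]; exact e6, ?_⟩
  · filter_upwards [eventually_ge_atTop n₂] with n hn s hs
    exact (hdev n hn s hs).trans (tail_le (k4.trans (min_le_left _ _)) (k4.trans (min_le_right _ _)) k0 k1 l2 hs)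
  · intro K
    obtain ⟨p, hp, n₁, h1⟩ := hluck K
    exact ⟨p, hp, eventually_atTop.2 ⟨n₁, h1⟩⟩
  · filter_upwards [eventually_ge_atTop n₄] with n hn R hR
    exact (hexit n hn R hR).trans (tail_le (k5.trans (min_le_left _ _)) (k5.trans (min_le_right _ _)) k0 k1 l4 (by linarith))
  · intro ε hε
    obtain ⟨a, ha, n₁, h1⟩ := htight ε hε
    exact ⟨a, ha, eventually_atTop.2 ⟨n₁, h1⟩⟩
  · intro q
    obtain ⟨N, hN⟩ := eventually_atTop.1 (hw1.and (eventually_ge_atTop 1))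
    have h1 := mx_moments (P := P) (ω := ω) (β := β) hmeas h (vel μ h) (w := w) (n₁ := max N (max n₄ n₅)) (A := |A₄|) (a := a₄) (g := g₄)
      (c := c₅) (d := d₅)
      (fun n hn => by
        have h2 := hN n ((le_max_left _ _).trans hn)
        have hn0 : (0 : ℝ) < n := by exact_mod_cast h2.2
        exact (Real.rpow_pos_of_pos hn0 _).trans_le h2.1)
      (abs_nonneg _) ha₄ hg₄ hc₅ hd₅
      (fun n hn R hR => by
        rw [integral_sub (integrable_const _) (forceP_integrable hmeas β h n _), integral_const, probReal_univ, one_smul]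
        exact (hexit n ((le_max_left _ _).trans ((le_max_right _ _).trans hn)) R hR).trans
          (mul_le_mul_of_nonneg_right (le_abs_self _) (Real.exp_pos _).le))
      (fun n hn => hspr n ((le_max_right _ _).trans ((le_max_right _ _).trans hn))) q
    obtain ⟨b, B, hb, -, h2⟩ := h1
    exact ⟨b, B, hb, eventually_atTop.2 ⟨_, h2⟩⟩
  · intro κ hκ
    have hκ1 : 1 ≤ κ := by
      refine ge_of_tendsto hκ ?_
      have hsmall : ∀ᶠ v : ℝ in 𝓝[>] 0, 0 < v ∧ v < min (1 / 2) (Real.exp (-(|Real.log C₃| / a₃))) := by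
        refine Filter.Eventually.and self_mem_nhdsWithin ?_
        exact (gt_mem_nhds (lt_min (by norm_num) (Real.exp_pos _))).filter_mono nhdsWithin_le_nhds
      filter_upwards [hsmall] with v ⟨hv0, hv⟩
      have hv1 : v < 1 / 2 := hv.trans_le (min_le_left _ _)
      have hv2 : v < Real.exp (-(|Real.log C₃| / a₃)) := hv.trans_le (min_le_right _ _)
      have hJp : 0 < J μ (2 * h) (v / 2) := J_pos96 hI (by linarith)
      have hlv : Real.log v < 0 := Real.log_neg hv0 (by linarith)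
      have hl2 : Real.log v ≤ -(|Real.log C₃| / a₃) := by
        have := Real.log_le_log hv0 hv2.le
        rwa [Real.log_exp] at this
      have hl3 : Real.log C₃ ≤ -(a₃ * Real.log v) := by
        have h1 : |Real.log C₃| / a₃ ≤ -Real.log v := by linarith
        rw [div_le_iff₀ ha₃] at h1
        have := le_abs_self (Real.log C₃)
        linarith
      have h1 := hJ3 v (by rw [abs_of_pos hv0]; exact hv1.le)
      rw [abs_of_pos hv0] at h1
      have h2 := Real.log_le_log hJp h1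
      rw [Real.log_mul hC₃.ne' (Real.rpow_pos_of_pos hv0 _).ne', Real.log_rpow hv0] at h2
      rw [le_div_iff_of_neg hlv, one_mul]
      linarith
    obtain ⟨N, hN⟩ := eventually_atTop.1 hscale
    have q1 : ∀ n, max 1 N ≤ n → (1 : ℝ) ≤ n ∧ N ≤ n := fun n hn =>
      ⟨by exact_mod_cast (le_max_left _ _).trans hn, (le_max_right _ _).trans hn⟩
    have h1 := kappa_relation (J := fun v => J μ (2 * h) (v / 2)) (σ := σ) (w := w) (n₁ := max 1 N) (κ := κ) (a := 1) (A := 1) (c := c')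
      hκ (by linarith) k0 (fun n hn => (Real.one_le_rpow (q1 n hn).1 (by positivity)).trans (hN n (q1 n hn).2).2.2.1)
      (fun n hn => (hN n (q1 n hn).2).2.2.2.1) one_pos one_pos
      (fun n hn => (Real.rpow_pos_of_pos (by linarith [(q1 n hn).1]) _).trans_le (hN n (q1 n hn).2).1)
      (fun n hn => by rw [one_mul]; exact (hN n (q1 n hn).2).2.2.2.2.1.le)
      (fun n hn => by rw [one_mul]; exact (hN n (q1 n hn).2).2.2.2.2.1.ge)
    have h2 := kappa_window (J := fun v => J μ (2 * h) (v / 2)) (σ := σ) (w := w) (n₁ := max 1 N) (κ := κ) (a := 1) (A := 1) (c := c')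
      (b := c') (B := C')
      hκ (by linarith) k0 (fun n hn => (Real.one_le_rpow (q1 n hn).1 (by positivity)).trans (hN n (q1 n hn).2).2.2.1)
      (fun n hn => (hN n (q1 n hn).2).2.2.2.1) one_pos one_pos
      (fun n hn => (Real.rpow_pos_of_pos (by linarith [(q1 n hn).1]) _).trans_le (hN n (q1 n hn).2).1)
      (fun n hn => by rw [one_mul]; exact (hN n (q1 n hn).2).2.2.2.2.1.le)
      (fun n hn => by rw [one_mul]; exact (hN n (q1 n hn).2).2.2.2.2.1.ge) k0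
      (fun n hn => (hN n (q1 n hn).2).2.2.2.2.2.1) l0 (fun n hn => (hN n (q1 n hn).2).2.1)
    rw [hnu, hchi]
    exact ⟨h1.1, h1.2, h2.1, h2.2⟩

end core

end Pool.Agent.W_7d29a1_HS
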