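import Pool.Agent.W_7d29a1_HK20.ExK20
import Pool.Agent.W_7d29a1_HS.Main3
import Mathlib.Analysis.Calculus.Darboux

/-!
MP_7d29a1_pr, TRACK H: the velocities are exactly the numbers in `(-1, 1)`. (helper47)
-/

set_option autoImplicit false

namespace Pool.Agent.W_7d29a1_HS

open MeasureTheory ProbabilityTheory Filter Topology Set
open Pool.Agent.W_7d29a1_F Pool.Agent.W_7d29a1_H
open Pool.Agent.W_7d29a1_h47 (EM Nondeg Lam m0)

variable {μ : Measure ℝ} [IsProbabilityMeasure μ]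

theorem hasDeriv47 (hμ : EM μ) (hnd : Nondeg μ) (h : ℝ) : HasDerivAt (Lam μ) (vel μ h) h :=
  Pool.Agent.W_7d29a1_HK20.Lam_hasDeriv20 hμ hnd h

/-- Some force has a velocity larger than `v`. -/
theorem vel_large47 (hμ : EM μ) (hnd : Nondeg μ) {v : ℝ} (hv : v < 1) : ∃ h : ℝ, 0 < h ∧ v < vel μ h := by
  obtain ⟨H, hH⟩ : ∃ H : ℝ, H = (|Lam μ 0 - m0 μ| + 1) / (1 - v) := ⟨_, rfl⟩
  have hH0 : 0 < H := by
    rw [hH]
    exact div_pos (by positivity) (by linarith)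
  obtain ⟨c, hc, hd⟩ := exists_hasDerivAt_eq_slope (Lam μ) (vel μ) hH0
    (fun x _ => (hasDeriv47 hμ hnd x).continuousAt.continuousWithinAt) (fun x _ => hasDeriv47 hμ hnd x)
  refine ⟨c, hc.1, ?_⟩
  rw [hd, lt_div_iff₀ (by linarith), sub_zero]
  have h1 := Pool.Agent.W_7d29a1_h47.lt_Lam hμ H
  rw [abs_of_pos hH0] at h1
  have h2 : |Lam μ 0 - m0 μ| + 1 = H * (1 - v) := by
    rw [hH, div_mul_cancel₀ _ (by linarith : (1 : ℝ) - v ≠ 0)]
  have h3 := le_abs_self (Lam μ 0 - m0 μ)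
  nlinarith

theorem vel_small47 (hμ : EM μ) (hnd : Nondeg μ) {v : ℝ} (hv : -1 < v) : ∃ h : ℝ, h < 0 ∧ vel μ h < v := by
  obtain ⟨H, hH⟩ : ∃ H : ℝ, H = (|Lam μ 0 - m0 μ| + 1) / (1 + v) := ⟨_, rfl⟩
  have hH0 : 0 < H := by
    rw [hH]
    exact div_pos (by positivity) (by linarith)
  obtain ⟨c, hc, hd⟩ := exists_hasDerivAt_eq_slope (Lam μ) (vel μ) (show -H < 0 by linarith)
    (fun x _ => (hasDeriv47 hμ hnd x).continuousAt.continuousWithinAt) (fun x _ => hasDeriv47 hμ hnd x)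
  refine ⟨c, hc.2, ?_⟩
  rw [hd, div_lt_iff₀ (by linarith)]
  have h1 := Pool.Agent.W_7d29a1_h47.lt_Lam hμ (-H)
  rw [abs_neg, abs_of_pos hH0] at h1
  have h2 : |Lam μ 0 - m0 μ| + 1 = H * (1 + v) := by
    rw [hH, div_mul_cancel₀ _ (by linarith : (1 : ℝ) + v ≠ 0)]
  have h3 := le_abs_self (Lam μ 0 - m0 μ)
  nlinarith

/-- Every `v` in `(-1, 1)` is the velocity of a force. -/
theorem vel_onto47 (hμ : EM μ) (hnd : Nondeg μ) {v : ℝ} (hv : |v| < 1) : ∃ h : ℝ, vel μ h = v := by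
  rw [abs_lt] at hv
  obtain ⟨a, ha, hav⟩ := vel_small47 hμ hnd hv.1
  obtain ⟨b, hb, hbv⟩ := vel_large47 hμ hnd hv.2
  obtain ⟨c, -, hc⟩ := exists_hasDerivWithinAt_eq_of_gt_of_lt (show a ≤ b by linarith)
    (fun x _ => (hasDeriv47 hμ hnd x).hasDerivWithinAt) hav hbv
  exact ⟨c, hc⟩

/-- **The range of the velocities is `(-1, 1)`.** -/
theorem range_vel47 (hμ : EM μ) (hnd : Nondeg μ) : Set.range (vel μ) = Ioo (-1) 1 := by
  ext v
  constructor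
  · rintro ⟨h, rfl⟩
    exact abs_lt.1 (abs_vel hμ hnd h)
  · rintro ⟨h1, h2⟩
    exact vel_onto47 hμ hnd (abs_lt.2 ⟨h1, h2⟩)

end Pool.Agent.W_7d29a1_HS
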