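import Pool.Agent.W_7d29a1_59T.Ta

/-!
MP_7d29a1_pr, TRACK H, part 3: tightness of the wandering at the tilt `s`. Part b: the weight of a strip of slope `v` between two
rows. The offset of the strip is a real number. (Model: `W_7d29a1_59T.Tb`.) (helper43)
-/

set_option autoImplicit false

namespace Pool.Agent.W_7d29a1_HS

open MeasureTheory ProbabilityTheory Filter Topology Pool.Agent.W_7d29a1_F
open Pool.Agent.W_7d29a1_SL

noncomputable section

variable {μ : Measure ℝ} {s v : ℝ}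

/-- The strip of slope `v`, half width `r` and offset `x`. -/
def Rg (v r x : ℝ) : Set Pt := {p | |(p.2 : ℝ) - v * (p.1 : ℝ) - x| ≤ r}

/-- The sites of the row `t` in the strip. -/
def Win (v r x : ℝ) (t : ℕ) : Finset ℤ := Finset.Icc ⌈v * t + x - r⌉ ⌊v * t + x + r⌋

theorem mem_Win {r x : ℝ} {t : ℕ} {b : ℤ} : b ∈ Win v r x t ↔ |(b : ℝ) - v * t - x| ≤ r := by
  unfold Win
  rw [Finset.mem_Icc, Int.ceil_le, Int.le_floor, abs_le]
  constructor
  · rintro ⟨h1, h2⟩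
    exact ⟨by linarith, by linarith⟩
  · rintro ⟨h1, h2⟩
    exact ⟨by linarith, by linarith⟩

theorem mem_Rg {r x : ℝ} {t : ℕ} {b : ℤ} : (((t : ℤ), b) : Pt) ∈ Rg v r x ↔ b ∈ Win v r x t := by
  rw [mem_Win]
  show |(((((t : ℤ), b) : Pt).2 : ℤ) : ℝ) - v * (((((t : ℤ), b) : Pt).1 : ℤ) : ℝ) - x| ≤ r ↔ _
  simp only [Int.cast_natCast]

theorem card_Win {r : ℝ} (hr : 0 ≤ r) (x : ℝ) (t : ℕ) : ((Win v r x t).card : ℝ) ≤ 2 * r + 1 := by
  unfold Win
  rw [Int.card_Icc]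
  have h1 := Int.le_ceil (v * t + x - r)
  have h2 := Int.floor_le (v * t + x + r)
  rcases le_or_gt 0 (⌊v * t + x + r⌋ + 1 - ⌈v * t + x - r⌉) with h | h
  · have h3 : (((⌊v * t + x + r⌋ + 1 - ⌈v * t + x - r⌉).toNat : ℕ) : ℤ) = ⌊v * t + x + r⌋ + 1 - ⌈v * t + x - r⌉ :=
      Int.toNat_of_nonneg h
    have h4 : (((⌊v * t + x + r⌋ + 1 - ⌈v * t + x - r⌉).toNat : ℕ) : ℝ) =
        (⌊v * t + x + r⌋ : ℝ) + 1 - (⌈v * t + x - r⌉ : ℝ) := by exact_mod_cast h3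
    rw [h4]
    linarith
  · rw [Int.toNat_of_nonpos h.le]
    push_cast
    linarith

/-- The weight of the paths in the strip from the row `t` to the row `t + ℓ`. -/
def S (μ : Measure ℝ) (s v r x : ℝ) (t ℓ : ℕ) (η : Env) : ℝ :=
  ∑ b ∈ Win v r x t, ZR μ s (Rg v r x) η ((t : ℤ), b) ℓ

theorem S_nonneg (r x : ℝ) (t ℓ : ℕ) (η : Env) : 0 ≤ S μ s v r x t ℓ η :=
  Finset.sum_nonneg fun _ _ => ZR_nonneg _ _ _ _

theorem measurable_S (r x : ℝ) (t ℓ : ℕ) : Measurable (S μ s v r x t ℓ) :=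
  Finset.measurable_sum _ fun _ _ => measurable_ZR _ _ _

theorem S_dep (r x : ℝ) (t ℓ : ℕ) : DependsOn (S μ s v r x t ℓ) (Rg v r x ∩ rows t ((t : ℤ) + ℓ)) := by
  intro η η' h
  unfold S
  exact Finset.sum_congr rfl fun b _ => ZR_dep (μ := μ) (s := s) (Rg v r x) ((t : ℤ), b) ℓ h

theorem ZR_le_S {r x : ℝ} {b : ℤ} {t : ℕ} (ℓ : ℕ) (η : Env) (hb : b ∈ Win v r x t) :
    ZR μ s (Rg v r x) η ((t : ℤ), b) ℓ ≤ S μ s v r x t ℓ η :=
  Finset.single_le_sum (f := fun b => ZR μ s (Rg v r x) η ((t : ℤ), b) ℓ)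
    (fun _ _ => ZR_nonneg _ _ _ _) hb

/-- Cutting at a row. -/
theorem S_add (r x : ℝ) (t : ℕ) {l₁ : ℕ} (h1 : 1 ≤ l₁) (l₂ : ℕ) (η : Env) :
    S μ s v r x t (l₁ + l₂) η ≤ S μ s v r x t l₁ η * S μ s v r x (t + l₁) l₂ η := by
  have key : ∀ b ∈ Win v r x t, ZR μ s (Rg v r x) η ((t : ℤ), b) (l₁ + l₂) ≤
      ZR μ s (Rg v r x) η ((t : ℤ), b) l₁ * S μ s v r x (t + l₁) l₂ η := by
    intro b _
    rw [ZR_add]
    have e1 : ZR μ s (Rg v r x) η ((t : ℤ), b) l₁ =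
        ∑ k ∈ Finset.Icc (0 : ℤ) l₁, WR μ s (Rg v r x) η ((t : ℤ), b) l₁ k := rfl
    rw [e1, Finset.sum_mul]
    refine Finset.sum_le_sum fun k _ => ?_
    have e2 : ((((t : ℤ), b) : Pt).1 + (l₁ : ℤ), (((t : ℤ), b) : Pt).2 + k) = ((((t + l₁ : ℕ) : ℤ), b + k) : Pt) := by
      refine Prod.ext ?_ rfl
      show (t : ℤ) + l₁ = ((t + l₁ : ℕ) : ℤ)
      push_cast
      ring
    by_cases hk : (b + k) ∈ Win v r x (t + l₁)
    · rw [e2]
      exact mul_le_mul_of_nonneg_left (ZR_le_S l₂ η hk) (WR_nonneg _ _ _ _ _)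
    · rw [WR_end (Rg v r x) η ((t : ℤ), b) h1 (k := k) (by
        rw [e2, mem_Rg]
        exact hk), zero_mul, zero_mul]
  calc S μ s v r x t (l₁ + l₂) η ≤ ∑ b ∈ Win v r x t, ZR μ s (Rg v r x) η ((t : ℤ), b) l₁ * S μ s v r x (t + l₁) l₂ η :=
        Finset.sum_le_sum key
    _ = S μ s v r x t l₁ η * S μ s v r x (t + l₁) l₂ η := by
        rw [← Finset.sum_mul]
        rfl

/-- From the origin to a row, then the strip. -/
theorem ZR_le_V_S (r x : ℝ) {m : ℕ} (hm : 1 ≤ m) (l : ℕ) (η : Env) :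
    ZR μ s (Rg v r x) η 0 (m + l) ≤ Real.exp (V μ s η 0 m) * S μ s v r x m l η := by
  rw [ZR_add, exp_V]
  unfold WS
  rw [Finset.sum_mul]
  refine Finset.sum_le_sum fun k _ => ?_
  have e2 : (((0 : Pt).1 + (m : ℤ), (0 : Pt).2 + k) : Pt) = (((m : ℤ), k) : Pt) := by
    simp
  by_cases hk : k ∈ Win v r x m
  · rw [e2]
    exact mul_le_mul (WR_le_W _ _ _ _ _) (ZR_le_S l η hk) (ZR_nonneg _ _ _ _) (W_nonneg _ _ _ _)
  · rw [WR_end (Rg v r x) η 0 hm (k := k) (by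
      rw [e2, mem_Rg]
      exact hk), zero_mul]
    exact mul_nonneg (W_nonneg _ _ _ _) (S_nonneg _ _ _ _ _)

/-- The restricted partition function of a shifted environment. -/
theorem ZR_shift (R R' : Set Pt) (η : Env) (a c : Pt) (n : ℕ) (h : R' = {p | p + c ∈ R}) :
    ZR μ s R' (sh c η) a n = ZR μ s R η (a + c) n := by
  unfold ZR
  refine Finset.sum_congr rfl fun y _ => ?_
  rw [h]
  exact WR_sh (μ := μ) (s := s) R η a c n y

/-- Stationarity. -/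
theorem S_sh (r x : ℝ) (t k ℓ : ℕ) (j : ℤ) (η : Env) :
    S μ s v r x t ℓ (sh ((k : ℤ), j) η) = S μ s v r (x + j - v * k) (t + k) ℓ η := by
  classical
  unfold S
  have hW : Win v r (x + j - v * k) (t + k) = (Win v r x t).image fun b : ℤ => b + j := by
    ext b
    rw [mem_Win, Finset.mem_image]
    constructor
    · intro h
      refine ⟨b - j, ?_, by ring⟩
      rw [mem_Win]
      push_cast at h ⊢
      have e : (b : ℝ) - j - v * t - x = (b : ℝ) - v * (t + k) - (x + j - v * k) := by ring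
      rw [e]
      exact h
    · rintro ⟨b', hb', rfl⟩
      rw [mem_Win] at hb'
      push_cast
      have e : (b' : ℝ) + j - v * (t + k) - (x + j - v * k) = (b' : ℝ) - v * t - x := by ring
      rw [e]
      exact hb'
  rw [hW, Finset.sum_image (fun a _ b _ h => by simpa using h)]
  refine Finset.sum_congr rfl fun b _ => ?_
  rw [ZR_shift (μ := μ) (Rg v r (x + j - v * k)) (Rg v r x) η ((t : ℤ), b) ((k : ℤ), j) ℓ (by
    ext p
    show |(p.2 : ℝ) - v * (p.1 : ℝ) - x| ≤ r ↔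
      |((p.2 + j : ℤ) : ℝ) - v * ((p.1 + (k : ℤ) : ℤ) : ℝ) - (x + j - v * k)| ≤ r
    push_cast
    have e : (p.2 : ℝ) + j - v * ((p.1 : ℝ) + k) - (x + j - v * k) = (p.2 : ℝ) - v * (p.1 : ℝ) - x := by ring
    rw [e])]
  have e3 : (((t : ℤ), b) : Pt) + (((k : ℤ), j) : Pt) = ((((t + k : ℕ) : ℤ), b + j) : Pt) := by
    refine Prod.ext ?_ rfl
    show (t : ℤ) + (k : ℤ) = ((t + k : ℕ) : ℤ)
    push_cast
    ring
  rw [e3]

theorem S_law [IsProbabilityMeasure μ] (r x : ℝ) (t k ℓ : ℕ) (j : ℤ) {P : ℝ → Prop} (hP : MeasurableSet {u | P u}) :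
    (law μ).real {η | P (S μ s v r (x + j - v * k) (t + k) ℓ η)} = (law μ).real {η | P (S μ s v r x t ℓ η)} := by
  have hms : MeasurableSet {η : Env | P (S μ s v r x t ℓ η)} := measurable_S r x t ℓ hP
  rw [← real_sh (μ := μ) (((k : ℤ), j) : Pt) hms]
  congr 1
  ext η
  show P (S μ s v r (x + j - v * k) (t + k) ℓ η) ↔ P (S μ s v r x t ℓ (sh ((k : ℤ), j) η))
  rw [S_sh]

/-- Integer offsets. -/
theorem S_law0 [IsProbabilityMeasure μ] (r : ℝ) (t ℓ : ℕ) (j : ℤ) {P : ℝ → Prop} (hP : MeasurableSet {u | P u}) :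
    (law μ).real {η | P (S μ s v r j t ℓ η)} = (law μ).real {η | P (S μ s v r 0 t ℓ η)} := by
  have h := S_law (μ := μ) (s := s) (v := v) r 0 t 0 ℓ j hP
  have e1 : (0 : ℝ) + j - v * ((0 : ℕ) : ℝ) = j := by push_cast; ring
  rw [e1, add_zero] at h
  exact h

/-- A wider strip. -/
theorem S_mono {r r' x x' : ℝ} (h : r + |x - x'| ≤ r') (t ℓ : ℕ) (η : Env) :
    S μ s v r x t ℓ η ≤ S μ s v r' x' t ℓ η := by
  have hR : Rg v r x ⊆ Rg v r' x' := by
    intro p hp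
    have h1 : |(p.2 : ℝ) - v * (p.1 : ℝ) - x| ≤ r := hp
    show |(p.2 : ℝ) - v * (p.1 : ℝ) - x'| ≤ r'
    have e : (p.2 : ℝ) - v * (p.1 : ℝ) - x' = ((p.2 : ℝ) - v * (p.1 : ℝ) - x) + (x - x') := by ring
    rw [e]
    exact (abs_add_le _ _).trans (by linarith)
  have hW : Win v r x t ⊆ Win v r' x' t := by
    intro b hb
    rw [← mem_Rg] at hb ⊢
    exact hR hb
  unfold S
  refine (Finset.sum_le_sum_of_subset_of_nonneg hW fun _ _ _ => ZR_nonneg _ _ _ _).trans ?_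
  refine Finset.sum_le_sum fun b _ => ?_
  unfold ZR
  exact Finset.sum_le_sum fun y _ => mul_le_mul_of_nonneg_left (Zr_mono hR η _ _ _) (Real.exp_pos _).le

/-- Another row: the strip is one site wider. -/
theorem S_law_le [IsProbabilityMeasure μ] (r x : ℝ) (t k ℓ : ℕ) {P : ℝ → Prop} (hP : MeasurableSet {u | P u})
    (hm : ∀ u u' : ℝ, u ≤ u' → P u → P u') :
    (law μ).real {η | P (S μ s v r x (t + k) ℓ η)} ≤ (law μ).real {η | P (S μ s v (r + 1) x t ℓ η)} := by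
  obtain ⟨j, hj⟩ : ∃ j : ℤ, j = ⌊v * k⌋ := ⟨_, rfl⟩
  have h1 := S_law (μ := μ) (s := s) (v := v) r (x - j + v * k) t k ℓ j hP
  have e1 : x - j + v * k + j - v * k = x := by ring
  rw [e1] at h1
  rw [h1]
  refine measureReal_mono (fun η hη => hm _ _ (S_mono ?_ t ℓ η) hη) (measure_ne_top _ _)
  have e2 : x - j + v * k - x = v * k - j := by ring
  rw [e2, hj, abs_of_nonneg (by linarith [Int.floor_le (v * (k : ℝ))])]
  linarith [Int.lt_floor_add_one (v * (k : ℝ))]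

/-- There is a path in the strip. -/
theorem ZR_pos {r x : ℝ} (hr : 1 / 2 ≤ r) (hv0 : 0 ≤ v) (hv1 : v ≤ 1) (η : Env) (ℓ : ℕ) :
    ∀ (t b : ℤ), |(b : ℝ) - v * t - x| ≤ r → 0 < ZR μ s (Rg v r x) η (t, b) ℓ := by
  induction ℓ with
  | zero =>
    intro t b _
    unfold ZR WR
    simp [Zr]
  | succ n ih =>
    intro t b hb
    obtain ⟨k, hk, hk2⟩ : ∃ k : ℤ, (k = 0 ∨ k = 1) ∧ |((b + k : ℤ) : ℝ) - v * ((t + 1 : ℤ) : ℝ) - x| ≤ r := by
      have h1 := abs_le.1 hb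
      rcases le_or_gt (v - r) ((b : ℝ) - v * t - x) with h | h
      · refine ⟨0, Or.inl rfl, ?_⟩
        push_cast
        rw [abs_le]
        constructor <;> linarith [h1.2]
      · refine ⟨1, Or.inr rfl, ?_⟩
        push_cast
        rw [abs_le]
        constructor <;> linarith [h1.1]
    have h3 : ZR μ s (Rg v r x) η (t, b) (1 + n) = ∑ j ∈ Finset.Icc (0 : ℤ) ((1 : ℕ) : ℤ),
      WR μ s (Rg v r x) η (t, b) 1 j * ZR μ s (Rg v r x) η ((t, b).1 + ((1 : ℕ) : ℤ), (t, b).2 + j) n := ZR_add _ _ _ _ _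
    rw [add_comm n 1, h3]
    have hkm : k ∈ Finset.Icc (0 : ℤ) ((1 : ℕ) : ℤ) := by
      rw [Finset.mem_Icc]
      push_cast
      omega
    refine lt_of_lt_of_le ?_ (Finset.single_le_sum
      (f := fun j => WR μ s (Rg v r x) η (t, b) 1 j * ZR μ s (Rg v r x) η ((t, b).1 + ((1 : ℕ) : ℤ), (t, b).2 + j) n)
      (fun j _ => mul_nonneg (WR_nonneg _ _ _ _ _) (ZR_nonneg _ _ _ _)) hkm)
    refine mul_pos ?_ ?_
    · unfold WR
      refine mul_pos (Real.exp_pos _) ?_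
      show 0 < (Rg v r x).indicator (fun p => Real.exp (η p)) (t + ((0 : ℕ) + 1), b + k) *
        (Zr (Rg v r x) η (t, b) 0 k + Zr (Rg v r x) η (t, b) 0 (k - 1))
      have hin : ((t + (((0 : ℕ) : ℤ) + 1), b + k) : Pt) ∈ Rg v r x := by
        show |((b + k : ℤ) : ℝ) - v * ((t + (((0 : ℕ) : ℤ) + 1) : ℤ) : ℝ) - x| ≤ r
        have e : t + (((0 : ℕ) : ℤ) + 1) = t + 1 := by simp
        rw [e]
        exact hk2
      rw [Set.indicator_of_mem hin]
      refine mul_pos (Real.exp_pos _) ?_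
      show 0 < (if k = 0 then (1 : ℝ) else 0) + (if k - 1 = 0 then (1 : ℝ) else 0)
      rcases hk with rfl | rfl <;> norm_num
    · have e : (((t, b) : Pt).1 + ((1 : ℕ) : ℤ), ((t, b) : Pt).2 + k) = ((t + 1, b + k) : Pt) := by
        simp
      rw [e]
      exact ih (t + 1) (b + k) hk2

theorem S_pos {r : ℝ} (hr : 1 / 2 ≤ r) (hv0 : 0 ≤ v) (hv1 : v ≤ 1) (t ℓ : ℕ) (η : Env) : 0 < S μ s v r 0 t ℓ η := by
  have hb : (round (v * t) : ℤ) ∈ Win v r 0 t := by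
    rw [mem_Win, sub_zero, abs_sub_comm]
    exact (abs_sub_round (v * t)).trans hr
  refine lt_of_lt_of_le ?_ (ZR_le_S (μ := μ) (s := s) (x := 0) ℓ η hb)
  refine ZR_pos hr hv0 hv1 η ℓ (t : ℤ) (round (v * t)) ?_
  rw [Int.cast_natCast]
  exact mem_Win.1 hb

end

end Pool.Agent.W_7d29a1_HS
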