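import Pool.Agent.W_7d29a1_HS.Td

/-!
MP_7d29a1_pr, TRACK H, part 3: tightness of the wandering at the tilt `s`. Part e: one lucky block, in numbers.
(Model: `W_7d29a1_59T.Te`.) (helper43)
-/

set_option autoImplicit false

namespace Pool.Agent.W_7d29a1_HS

open MeasureTheory ProbabilityTheory Filter Topology Pool.Agent.W_7d29a1_F
open Pool.Agent.W_7d29a1_SL
open Pool.Agent.W_7d29a1_59T (prob_none avg_half quant)

noncomputable section

variable {μ : Measure ℝ} [IsProbabilityMeasure μ] {s v : ℝ}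

/-- The probability that `boost` fails and the glue. The block starts at the time `T` and the site `Y₀`. -/
theorem one {r H : ℝ} {M m m' l₁ l₃ T n : ℕ} {Y₀ : ℤ} {x1 : ℤ} {κ A e N Q B : ℝ}
    (hv0 : 0 ≤ v) (hv1 : v ≤ 1)
    (hr : 1 / 2 ≤ r) (hx1 : 2 * (r + 1) < x1) (hx0 : 0 ≤ x1) (hH : M * (x1 : ℝ) + (r + 1) ≤ H)
    (hN : ∀ x : ℝ, ((Win v (r + 1) x m).card : ℝ) ≤ N) (hN0 : 0 < N) (he : 0 ≤ e) (hκ0 : 0 < κ) (hκ1 : κ < 1)
    (hc : ∀ y : ℤ, |(y : ℝ) - v * m| ≤ H + 1 → (law μ).real {η | W μ s η 0 m y < Real.exp (-A)} ≤ e)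
    (hm : 1 ≤ m) (hl₁ : 1 ≤ l₁) (hQ : 0 < Q) (hB : 0 < B)
    (ht : m + l₁ + m = T) (hY : |(Y₀ : ℝ) - v * T| ≤ 1) (hn : T + (m' + (m + l₃)) = n)
    (hq : 4 * κ ≤ (law μ).real {η | Q ≤ S μ s v r 0 m (n - m) η})
    (hbox : (law μ).real {η | B < S μ s v (r + 1) 0 m (2 * m + m') η} ≤ 2 * κ) :
    (law μ).real {η | Real.exp (V μ s η 0 n) <
      Real.exp (V μ s η ((T : ℤ), Y₀) m') * (Real.exp (-(3 * A)) * Q / (4 * Real.exp 1 * N ^ 2 * B))} ≤
      3 * ((1 - κ) ^ M + e) + 2 * e := by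
  obtain ⟨δ, hδ⟩ : ∃ δ, δ = (1 - κ) ^ M + e := ⟨_, rfl⟩
  have hδ0 : 0 ≤ δ := by
    rw [hδ]
    have : 0 ≤ (1 - κ) ^ M := pow_nonneg (by linarith) M
    linarith
  have hrr : r + |(0 : ℝ) - 0| ≤ r + 1 := by
    rw [sub_zero, abs_zero]
    linarith
  -- the level of the first part
  obtain ⟨x0, hx0a, hx0b⟩ := quant (μ := μ) (X := fun η => Real.log (S μ s v r 0 m l₁ η))
    (Real.measurable_log.comp (measurable_S r 0 m l₁)) hκ0 hκ1
  have hκS1 : κ ≤ (law μ).real {η | Real.exp x0 ≤ S μ s v (r + 1) 0 m l₁ η} := by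
    refine hx0a.trans (measureReal_mono (fun η hη => ?_) (measure_ne_top _ _))
    have h1 : (x0 : ℝ) ≤ Real.log (S μ s v r 0 m l₁ η) := hη
    show Real.exp x0 ≤ S μ s v (r + 1) 0 m l₁ η
    exact ((Real.le_log_iff_exp_le (S_pos hr hv0 hv1 m l₁ η)).1 h1).trans (S_mono hrr m l₁ η)
  have hκS1' : (law μ).real {η | Real.exp (x0 + 1) ≤ S μ s v r 0 m l₁ η} < κ := by
    refine lt_of_le_of_lt (le_of_eq ?_) hx0b
    congr 1
    ext η
    show Real.exp (x0 + 1) ≤ S μ s v r 0 m l₁ η ↔ (x0 : ℝ) + 1 ≤ Real.log (S μ s v r 0 m l₁ η)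
    exact (Real.le_log_iff_exp_le (S_pos hr hv0 hv1 m l₁ η)).symm
  -- the level of the last part
  obtain ⟨v3, hv3⟩ : ∃ v3, v3 = Q / (B * Real.exp (x0 + 1)) := ⟨_, rfl⟩
  have hv30 : 0 < v3 := by
    rw [hv3]
    positivity
  have hsub : {η | Q ≤ S μ s v r 0 m (n - m) η} ⊆ {η | Real.exp (x0 + 1) ≤ S μ s v r 0 m l₁ η} ∪
      ({η | B < S μ s v r 0 (m + l₁) (2 * m + m') η} ∪ {η | v3 ≤ S μ s v r 0 (m + l₁ + (2 * m + m')) l₃ η}) := by
    intro η hη
    have hη' : Q ≤ S μ s v r 0 m (n - m) η := hη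
    by_contra hcon
    simp only [Set.mem_union, Set.mem_ofPred_eq, not_or, not_le, not_lt] at hcon
    obtain ⟨h1, h2, h3⟩ := hcon
    have e1 : n - m = l₁ + ((2 * m + m') + l₃) := by omega
    rw [e1] at hη'
    have h4 := S_add (μ := μ) (s := s) (v := v) r 0 m hl₁ ((2 * m + m') + l₃) η
    have h5 := S_add (μ := μ) (s := s) (v := v) r 0 (m + l₁) (l₁ := 2 * m + m') (by omega) l₃ η
    have p1 := S_pos (μ := μ) (s := s) hr hv0 hv1 m l₁ η
    have p2 := S_pos (μ := μ) (s := s) hr hv0 hv1 (m + l₁) (2 * m + m') η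
    have p3 := S_pos (μ := μ) (s := s) hr hv0 hv1 (m + l₁ + (2 * m + m')) l₃ η
    have h6 : S μ s v r 0 (m + l₁) (2 * m + m') η * S μ s v r 0 (m + l₁ + (2 * m + m')) l₃ η ≤ B * v3 :=
      mul_le_mul h2 h3.le p3.le hB.le
    have h7 : S μ s v r 0 m l₁ η * (S μ s v r 0 (m + l₁) (2 * m + m') η * S μ s v r 0 (m + l₁ + (2 * m + m')) l₃ η) <
        Real.exp (x0 + 1) * (B * v3) :=
      mul_lt_mul h1 h6 (mul_pos p2 p3) (Real.exp_pos _).le
    have h8 : Real.exp (x0 + 1) * (B * v3) = Q := by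
      rw [hv3]
      field_simp
    have h9 : S μ s v r 0 m l₁ η * S μ s v r 0 (m + l₁) ((2 * m + m') + l₃) η ≤
        S μ s v r 0 m l₁ η * (S μ s v r 0 (m + l₁) (2 * m + m') η * S μ s v r 0 (m + l₁ + (2 * m + m')) l₃ η) :=
      mul_le_mul_of_nonneg_left h5 p1.le
    linarith
  have hκS3 : κ ≤ (law μ).real {η | v3 ≤ S μ s v (r + 1) 0 m l₃ η} := by
    have h1 := (measureReal_mono hsub (measure_ne_top (law μ) _)).trans
      ((measureReal_union_le _ _).trans (add_le_add le_rfl (measureReal_union_le _ _)))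
    have h2 : (law μ).real {η | B < S μ s v r 0 (m + l₁) (2 * m + m') η} ≤ 2 * κ :=
      (S_law_le (μ := μ) (s := s) (v := v) r 0 m l₁ (2 * m + m') (P := fun u => B < u) measurableSet_Ioi
        fun _ _ h h' => lt_of_lt_of_le h' h).trans hbox
    have h3 : (law μ).real {η | v3 ≤ S μ s v r 0 (m + l₁ + (2 * m + m')) l₃ η} ≤
        (law μ).real {η | v3 ≤ S μ s v (r + 1) 0 m l₃ η} := by
      have e1 : m + l₁ + (2 * m + m') = m + (l₁ + (2 * m + m')) := by omega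
      rw [e1]
      exact S_law_le (μ := μ) (s := s) (v := v) r 0 m (l₁ + (2 * m + m')) l₃ (P := fun u => v3 ≤ u) measurableSet_Ici
        fun _ _ h h' => h'.trans h
    linarith
  have hcb : ∀ y : ℤ, (∃ i < M, y ∈ Win v (r + 1) (i * x1) m) → (law μ).real {η | W μ s η 0 m y < Real.exp (-A)} ≤ e := by
    rintro y ⟨i, hi, hy⟩
    refine hc y ?_
    rw [mem_Win] at hy
    have h1 := abs_le.1 hy
    have hx0' : (0 : ℝ) ≤ x1 := by exact_mod_cast hx0
    have hi' : (i : ℝ) ≤ M := by exact_mod_cast hi.le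
    have hiM : (i : ℝ) * x1 ≤ M * x1 := mul_le_mul_of_nonneg_right hi' hx0'
    have hi0 : 0 ≤ (i : ℝ) * x1 := by positivity
    rw [abs_le]
    constructor <;> linarith [h1.1, h1.2]
  have hb1 := boost (μ := μ) (M := M) (m := m) (ℓ := l₁) (A := A) hx1 hκS1 hN (Real.exp_pos _) he hcb
  have hb3 := boost (μ := μ) (M := M) (m := m) (ℓ := l₃) (A := A) hx1 hκS3 hN hv30 he hcb
  rw [← hδ] at hb1 hb3
  -- the last part
  have hlast : (law μ).real {η | Real.exp (V μ s η 0 (m + l₃)) < Real.exp (-A) * (v3 / N)} ≤ δ := by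
    refine (measureReal_mono (fun η hη => ?_) (measure_ne_top _ _)).trans hb3
    intro hBo
    have h1 : Real.exp (V μ s η 0 (m + l₃)) < Real.exp (-A) * (v3 / N) := hη
    have h2 := Bo_V hBo
    linarith
  -- the first part and the glue
  obtain ⟨w1, hw1⟩ : ∃ w1, w1 = Real.exp (-A) * (Real.exp x0 / N) := ⟨_, rfl⟩
  have hgl := glue (μ := μ) (s := s) (v := v) (H := H) (t := m + l₁) (g := m) (Y := Y₀) (A := A) (e := e) (w := w1) he (by
    intro b hb
    refine hc _ ?_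
    rw [mem_Win] at hb
    have h1 : ((m : ℝ) + l₁ + m) = T := by exact_mod_cast ht
    have h2 := abs_le.1 hY
    rw [← h1] at h2
    push_cast at hb ⊢
    have h3 := abs_le.1 hb
    rw [abs_le]
    constructor <;> linarith [h3.1, h3.2, h2.1, h2.2])
  obtain ⟨w, hw⟩ : ∃ w, w = Real.exp (-A) * w1 / 2 := ⟨_, rfl⟩
  have hfirst : (law μ).real {η | W μ s η 0 T Y₀ < w} ≤ δ + 2 * e := by
    have hsub2 : {η | W μ s η 0 T Y₀ < w} ⊆ {η | ¬ Bo μ s v (r + 1) M m l₁ x1 A (Real.exp x0 / N) η} ∪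
        {η | w1 ≤ ∑ b ∈ Win v H 0 (m + l₁), W μ s η 0 (m + l₁) b ∧ W μ s η 0 (m + l₁ + m) Y₀ < Real.exp (-A) * w1 / 2} := by
      intro η hη
      have hη' : W μ s η 0 T Y₀ < w := hη
      by_contra hcon
      simp only [Set.mem_union, Set.mem_ofPred_eq, not_or, not_not, not_and] at hcon
      obtain ⟨h1, h2⟩ := hcon
      have h3 := Bo_N (μ := μ) (H := H) hx0 hl₁ hH h1
      rw [← hw1] at h3
      refine h2 h3 ?_
      rw [ht, ← hw]
      exact hη'
    have h := (measureReal_mono hsub2 (measure_ne_top (law μ) _)).trans (measureReal_union_le _ _)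
    linarith
  -- the block
  have hbl := block (μ := μ) (t := T) (m' := m') (l := m + l₃) (y0 := Y₀) (w := w)
    (u := Real.exp (-A) * (v3 / N)) (d := δ) (by positivity) hδ0 hlast
  have hsub3 : {η | Real.exp (V μ s η 0 n) <
      Real.exp (V μ s η ((T : ℤ), Y₀) m') * (Real.exp (-(3 * A)) * Q / (4 * Real.exp 1 * N ^ 2 * B))} ⊆
      {η | W μ s η 0 T Y₀ < w} ∪ {η | w ≤ W μ s η 0 T Y₀ ∧
      Real.exp (V μ s η 0 (T + (m' + (m + l₃)))) <
        w * Real.exp (V μ s η ((T : ℤ), Y₀) m') * (Real.exp (-A) * (v3 / N)) / 2} := by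
    intro η hη
    have hη' : Real.exp (V μ s η 0 n) <
      Real.exp (V μ s η ((T : ℤ), Y₀) m') * (Real.exp (-(3 * A)) * Q / (4 * Real.exp 1 * N ^ 2 * B)) := hη
    rcases lt_or_ge (W μ s η 0 T Y₀) w with h1 | h1
    · exact Or.inl h1
    · refine Or.inr ⟨h1, ?_⟩
      rw [hn]
      refine lt_of_lt_of_le hη' (le_of_eq ?_)
      rw [hw, hw1, hv3, Real.exp_add]
      have e3 : Real.exp (-(3 * A)) = Real.exp (-A) * Real.exp (-A) * Real.exp (-A) := by
        rw [← Real.exp_add, ← Real.exp_add]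
        congr 1
        ring
      rw [e3]
      field_simp
      ring
  have h := (measureReal_mono hsub3 (measure_ne_top (law μ) _)).trans (measureReal_union_le _ _)
  rw [← hδ]
  linarith

end

end Pool.Agent.W_7d29a1_HS
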