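import Pool.Agent.W_7d29a1_HS.Te

/-!
MP_7d29a1_pr, TRACK H, part 3: tightness of the wandering at the tilt `s`. Part f: the theorem in numbers.
(Model: `W_7d29a1_59T.Tf`.) (helper43)
-/

set_option autoImplicit false

namespace Pool.Agent.W_7d29a1_HS

open MeasureTheory ProbabilityTheory Filter Topology Pool.Agent.W_7d29a1_F
open Pool.Agent.W_7d29a1_SL
open Pool.Agent.W_7d29a1_59T (prob_none avg_half quant)

noncomputable section

variable {μ : Measure ℝ} [IsProbabilityMeasure μ] {s v : ℝ}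

/-- THEOREM (T) in numbers. -/
theorem tight_core {r H ε p A e N B Y : ℝ} {M J a a' n : ℕ} {x1 : ℤ} (hv0 : 0 ≤ v) (hv1 : v ≤ 1) (hε0 : 0 < ε) (hε1 : ε ≤ 1)
    (hr : 1 / 2 ≤ r) (hx1 : 2 * (r + 1) < x1) (hx0 : 0 ≤ x1) (hH : M * (x1 : ℝ) + (r + 1) ≤ H)
    (hN : ∀ x : ℝ, ((Win v (r + 1) x a).card : ℝ) ≤ N) (hN0 : 0 < N) (he : 0 ≤ e)
    (hc : ∀ y : ℤ, |(y : ℝ) - v * a| ≤ H + 1 → (law μ).real {η | W μ s η 0 a y < Real.exp (-A)} ≤ e)
    (ha : 1 ≤ a) (haa : 2 * a < a') (hn : (J + 1) * a' + a ≤ n)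
    (hV : (law μ).real {η | A < V μ s η 0 a} ≤ e) (hB : 0 < B)
    (hbox : (law μ).real {η | B < S μ s v (r + 1) 0 a (2 * a + a') η} ≤ ε / 32)
    (hp : p ≤ (law μ).real {η | Y ≤ V μ s η 0 a'}) (hJ : (1 - p) ^ J ≤ ε / 32)
    (hJe : J * (3 * ((1 - ε / 64) ^ M + e) + 2 * e) ≤ ε / 16) (he2 : e ≤ ε / 16)
    (hnum : 2 / ε * Real.exp (A + 1) * (4 * Real.exp 1 * N ^ 2 * B) ≤ Real.exp (Y - 3 * A)) :
    ∫ η, ZR μ s (Rg v r 0) η 0 n / Real.exp (V μ s η 0 n) ∂(law μ) ≤ ε := by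
  by_contra hcon
  push Not at hcon
  have hq0 : ∀ η : Env, 0 ≤ ZR μ s (Rg v r 0) η 0 n / Real.exp (V μ s η 0 n) := fun η =>
    div_nonneg (ZR_nonneg _ _ _ _) (Real.exp_pos _).le
  have hq1 : ∀ η : Env, ZR μ s (Rg v r 0) η 0 n / Real.exp (V μ s η 0 n) ≤ 1 := fun η => by
    rw [div_le_one (Real.exp_pos _)]
    exact ZR_le _ _ _ _
  have hqm : Measurable fun η : Env => ZR μ s (Rg v r 0) η 0 n / Real.exp (V μ s η 0 n) :=
    (measurable_ZR (Rg v r 0) 0 n).div (measurable_V 0 n).exp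
  have hqi : Integrable (fun η : Env => ZR μ s (Rg v r 0) η 0 n / Real.exp (V μ s η 0 n)) (law μ) :=
    Integrable.mono' (integrable_const (1 : ℝ)) hqm.aestronglyMeasurable (Eventually.of_forall fun η => by
      rw [Real.norm_eq_abs, abs_of_nonneg (hq0 η)]
      exact hq1 η)
  have hms : MeasurableSet {η : Env | ε / 2 ≤ ZR μ s (Rg v r 0) η 0 n / Real.exp (V μ s η 0 n)} :=
    measurableSet_le measurable_const hqm
  have hA : ε / 2 ≤ (law μ).real {η | ε / 2 ≤ ZR μ s (Rg v r 0) η 0 n / Real.exp (V μ s η 0 n)} := by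
    have h1 : ∫ η, ZR μ s (Rg v r 0) η 0 n / Real.exp (V μ s η 0 n) ∂(law μ) ≤
        ∫ η, (io (ε / 2 ≤ ZR μ s (Rg v r 0) η 0 n / Real.exp (V μ s η 0 n)) + ε / 2) ∂(law μ) := by
      refine integral_mono hqi ((int_io hms).add (integrable_const _)) fun η => ?_
      show ZR μ s (Rg v r 0) η 0 n / Real.exp (V μ s η 0 n) ≤
        io (ε / 2 ≤ ZR μ s (Rg v r 0) η 0 n / Real.exp (V μ s η 0 n)) + ε / 2
      by_cases h2 : ε / 2 ≤ ZR μ s (Rg v r 0) η 0 n / Real.exp (V μ s η 0 n)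
      · rw [io_of h2]
        linarith [hq1 η]
      · rw [io_not h2]
        linarith [not_le.1 h2]
    rw [integral_add (int_io hms) (integrable_const _), integral_const, probReal_univ, one_smul,
      ← real_eq_int hms] at h1
    linarith
  -- the level of the thin strip
  obtain ⟨x, hxa, hxb⟩ := quant (μ := μ) (X := fun η => Real.log (S μ s v r 0 a (n - a) η))
    (Real.measurable_log.comp (measurable_S r 0 a (n - a))) (κ := ε / 16) (by linarith) (by linarith)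
  obtain ⟨Q, hQ⟩ : ∃ Q, Q = Real.exp x := ⟨_, rfl⟩
  have hQ0 : 0 < Q := by
    rw [hQ]
    exact Real.exp_pos _
  have hq : 4 * (ε / 64) ≤ (law μ).real {η | Q ≤ S μ s v r 0 a (n - a) η} := by
    have e1 : 4 * (ε / 64) = ε / 16 := by ring
    rw [e1]
    refine hxa.trans (le_of_eq ?_)
    congr 1
    ext η
    show (x : ℝ) ≤ Real.log (S μ s v r 0 a (n - a) η) ↔ Q ≤ S μ s v r 0 a (n - a) η
    rw [hQ]
    exact Real.le_log_iff_exp_le (S_pos hr hv0 hv1 _ _ η)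
  have hqb : (law μ).real {η | Real.exp (x + 1) ≤ S μ s v r 0 a (n - a) η} < ε / 16 := by
    refine lt_of_le_of_lt (le_of_eq ?_) hxb
    congr 1
    ext η
    show Real.exp (x + 1) ≤ S μ s v r 0 a (n - a) η ↔ (x : ℝ) + 1 ≤ Real.log (S μ s v r 0 a (n - a) η)
    exact (Real.le_log_iff_exp_le (S_pos hr hv0 hv1 _ _ η)).symm
  -- the blocks
  obtain ⟨c0, hc0⟩ : ∃ c0, c0 = Real.exp (-(3 * A)) * Q / (4 * Real.exp 1 * N ^ 2 * B) := ⟨_, rfl⟩
  have hc00 : 0 < c0 := by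
    rw [hc0]
    positivity
  have hone : ∀ j < J, (law μ).real {η | Real.exp (V μ s η 0 n) <
      Real.exp (V μ s η ((((j + 1) * a' : ℕ) : ℤ), ⌊v * (((j + 1) * a' : ℕ) : ℝ)⌋) a') * c0} ≤
      3 * ((1 - ε / 64) ^ M + e) + 2 * e := by
    intro j hj
    rw [hc0]
    obtain ⟨b, hb⟩ : ∃ b, b = (j + 1) * a' := ⟨_, rfl⟩
    rw [← hb]
    have hb1 : a' ≤ b := by
      rw [hb]
      exact Nat.le_mul_of_pos_left _ (Nat.succ_pos j)
    have hb2 : b ≤ J * a' := by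
      rw [hb]
      exact Nat.mul_le_mul_right _ hj
    have hn' : J * a' + a' + a ≤ n := by
      have e1 : (J + 1) * a' + a = J * a' + a' + a := by ring
      omega
    have hfl : |((⌊v * (b : ℝ)⌋ : ℤ) : ℝ) - v * (b : ℝ)| ≤ 1 := by
      rw [abs_le]
      constructor <;> linarith [Int.floor_le (v * (b : ℝ)), Int.lt_floor_add_one (v * (b : ℝ))]
    refine one (μ := μ) (s := s) (v := v) (r := r) (H := H) (M := M) (m := a) (m' := a') (l₁ := b - 2 * a)
      (l₃ := n - (b + a' + a)) (T := b) (Y₀ := ⌊v * (b : ℝ)⌋) (n := n) (x1 := x1) (κ := ε / 64) hv0 hv1 hr hx1 hx0 hH hN hN0 he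
      (by linarith) (by linarith) hc (by omega) (by omega) hQ0 hB (by omega) hfl (by omega) hq ?_
    have e2 : 2 * (ε / 64) = ε / 32 := by ring
    rw [e2]
    exact hbox
  -- no luck
  have hnoluck : (law μ).real {η | ∀ j < J, ¬ Y ≤ V μ s η ((((j + 1) * a' : ℕ) : ℤ), ⌊v * (((j + 1) * a' : ℕ) : ℝ)⌋) a'} ≤ ε / 32 := by
    refine le_trans ?_ hJ
    refine prob_none (μ := μ) (M := J)
      (P := fun j η => Y ≤ V μ s η ((((j + 1) * a' : ℕ) : ℤ), ⌊v * (((j + 1) * a' : ℕ) : ℝ)⌋) a')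
      (A := fun j => rows (((j + 1) * a' : ℕ) : ℤ) ((((j + 1) * a' : ℕ) : ℤ) + (a' : ℤ))) (p := p)
      (fun j _ => measurableSet_le measurable_const (measurable_V _ _)) ?_ ?_ ?_
    · intro j _ η η' hh
      have h1 : V μ s η ((((j + 1) * a' : ℕ) : ℤ), ⌊v * (((j + 1) * a' : ℕ) : ℝ)⌋) a' =
          V μ s η' ((((j + 1) * a' : ℕ) : ℤ), ⌊v * (((j + 1) * a' : ℕ) : ℝ)⌋) a' :=
        V_dep_rows (μ := μ) (s := s) ((((j + 1) * a' : ℕ) : ℤ), ⌊v * (((j + 1) * a' : ℕ) : ℝ)⌋) a' hh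
      show Y ≤ _ ↔ Y ≤ _
      rw [h1]
    · intro i _ j _ hij
      have key : ∀ i j : ℕ, i < j → Disjoint
          (rows (((i + 1) * a' : ℕ) : ℤ) ((((i + 1) * a' : ℕ) : ℤ) + (a' : ℤ)))
          (rows (((j + 1) * a' : ℕ) : ℤ) ((((j + 1) * a' : ℕ) : ℤ) + (a' : ℤ))) := by
        intro i j h
        refine rows_disj ?_
        have h1 : (i + 2) * a' ≤ (j + 1) * a' := Nat.mul_le_mul_right _ (by omega)
        have h2 : (i + 1) * a' + a' = (i + 2) * a' := by ring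
        have h3 : (i + 1) * a' + a' ≤ (j + 1) * a' := by omega
        exact_mod_cast h3
      rcases lt_or_gt_of_ne hij with h | h
      · exact key i j h
      · exact (key j i h).symm
    · intro j _
      refine hp.trans (le_of_eq ?_)
      have hms2 : MeasurableSet {η : Env | Y ≤ V μ s η 0 a'} := measurableSet_le measurable_const (measurable_V 0 _)
      rw [← real_sh (μ := μ) (((((j + 1) * a' : ℕ) : ℤ), ⌊v * (((j + 1) * a' : ℕ) : ℝ)⌋) : Pt) hms2]
      congr 1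
      ext η
      show Y ≤ V μ s (sh ((((j + 1) * a' : ℕ) : ℤ), ⌊v * (((j + 1) * a' : ℕ) : ℝ)⌋) η) 0 a' ↔
        Y ≤ V μ s η ((((j + 1) * a' : ℕ) : ℤ), ⌊v * (((j + 1) * a' : ℕ) : ℝ)⌋) a'
      rw [V_sh, zero_add]
  have hblocks : (law μ).real {η | ∃ j ∈ Finset.range J, Real.exp (V μ s η 0 n) <
      Real.exp (V μ s η ((((j + 1) * a' : ℕ) : ℤ), ⌊v * (((j + 1) * a' : ℕ) : ℝ)⌋) a') * c0} ≤ ε / 16 := by
    have e1 : {η | ∃ j ∈ Finset.range J, Real.exp (V μ s η 0 n) <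
      Real.exp (V μ s η ((((j + 1) * a' : ℕ) : ℤ), ⌊v * (((j + 1) * a' : ℕ) : ℝ)⌋) a') * c0} =
      ⋃ j ∈ Finset.range J, {η | Real.exp (V μ s η 0 n) <
      Real.exp (V μ s η ((((j + 1) * a' : ℕ) : ℤ), ⌊v * (((j + 1) * a' : ℕ) : ℝ)⌋) a') * c0} := by
      ext η
      simp only [Set.mem_ofPred_eq, Set.mem_iUnion, exists_prop]
    rw [e1]
    refine (measureReal_biUnion_finset_le _ _).trans ?_
    refine (Finset.sum_le_sum fun j hj => hone j (Finset.mem_range.1 hj)).trans ?_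
    rw [Finset.sum_const, Finset.card_range, nsmul_eq_mul]
    exact hJe
  have hsub : {η | ε / 2 ≤ ZR μ s (Rg v r 0) η 0 n / Real.exp (V μ s η 0 n)} ⊆
      ({η | A < V μ s η 0 a} ∪ {η | Real.exp (x + 1) ≤ S μ s v r 0 a (n - a) η}) ∪
      ({η | ∀ j < J, ¬ Y ≤ V μ s η ((((j + 1) * a' : ℕ) : ℤ), ⌊v * (((j + 1) * a' : ℕ) : ℝ)⌋) a'} ∪
      {η | ∃ j ∈ Finset.range J, Real.exp (V μ s η 0 n) <
      Real.exp (V μ s η ((((j + 1) * a' : ℕ) : ℤ), ⌊v * (((j + 1) * a' : ℕ) : ℝ)⌋) a') * c0}) := by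
    intro η hη
    have hη' : ε / 2 ≤ ZR μ s (Rg v r 0) η 0 n / Real.exp (V μ s η 0 n) := hη
    by_contra hcon2
    simp only [Set.mem_union, Set.mem_ofPred_eq, not_or, not_lt, not_le, not_forall, not_exists, not_and,
      exists_prop] at hcon2
    obtain ⟨⟨h1, h2⟩, ⟨j, hj, h3⟩, h4⟩ := hcon2
    have h5 := h4 j (Finset.mem_range.2 hj)
    have h6 : Real.exp Y * c0 ≤ Real.exp (V μ s η 0 n) :=
      (mul_le_mul_of_nonneg_right (Real.exp_le_exp.2 h3) hc00.le).trans h5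
    have hmn : n = a + (n - a) := by
      have h11 : a ≤ (J + 1) * a' + a := Nat.le_add_left _ _
      omega
    have h7 : ZR μ s (Rg v r 0) η 0 n ≤ Real.exp (V μ s η 0 a) * S μ s v r 0 a (n - a) η := by
      have h := ZR_le_V_S (μ := μ) (s := s) (v := v) r 0 (m := a) (by omega) (n - a) η
      rw [← hmn] at h
      exact h
    have h8 : Real.exp (V μ s η 0 a) * S μ s v r 0 a (n - a) η < Real.exp A * Real.exp (x + 1) := by
      calc Real.exp (V μ s η 0 a) * S μ s v r 0 a (n - a) η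
          < Real.exp (V μ s η 0 a) * Real.exp (x + 1) := mul_lt_mul_of_pos_left h2 (Real.exp_pos _)
        _ ≤ Real.exp A * Real.exp (x + 1) :=
            mul_le_mul_of_nonneg_right (Real.exp_le_exp.2 h1) (Real.exp_pos _).le
    have h9 : ε / 2 * Real.exp (V μ s η 0 n) ≤ ZR μ s (Rg v r 0) η 0 n := (le_div_iff₀ (Real.exp_pos _)).1 hη'
    have h10 : ε / 2 * (Real.exp Y * c0) < Real.exp A * Real.exp (x + 1) := by
      have := mul_le_mul_of_nonneg_left h6 (by linarith : 0 ≤ ε / 2)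
      linarith
    -- numbers
    obtain ⟨D, hD⟩ : ∃ D, D = 4 * Real.exp 1 * N ^ 2 * B := ⟨_, rfl⟩
    have hD0 : 0 < D := by
      rw [hD]
      positivity
    rw [← hD] at hnum hc0
    have h11 : Real.exp Y * c0 = Real.exp (Y - 3 * A) * (Q / D) := by
      rw [hc0, Real.exp_sub, Real.exp_neg]
      field_simp
    have h12 : Real.exp A * Real.exp (x + 1) = Real.exp (A + 1) * Q := by
      rw [hQ, ← Real.exp_add, ← Real.exp_add]
      congr 1
      ring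
    rw [h11, h12] at h10
    have h13 : 2 / ε * Real.exp (A + 1) * D * (Q / D) ≤ Real.exp (Y - 3 * A) * (Q / D) :=
      mul_le_mul_of_nonneg_right hnum (div_nonneg hQ0.le hD0.le)
    have h14 : 2 / ε * Real.exp (A + 1) * D * (Q / D) = 2 / ε * (Real.exp (A + 1) * Q) := by
      field_simp
    rw [h14] at h13
    have h15 : ε / 2 * (2 / ε * (Real.exp (A + 1) * Q)) = Real.exp (A + 1) * Q := by
      field_simp
    have h16 := mul_le_mul_of_nonneg_left h13 (by linarith : 0 ≤ ε / 2)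
    rw [h15] at h16
    linarith
  have h := (measureReal_mono hsub (measure_ne_top (law μ) _)).trans
    ((measureReal_union_le _ _).trans (add_le_add (measureReal_union_le _ _) (measureReal_union_le _ _)))
  linarith

end

end Pool.Agent.W_7d29a1_HS
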