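import Pool.Agent.W_7d29a1_HS.Scale

/-!
MP_7d29a1_pr, TRACK H, part 3, unlucky tail: growth of the unit `EE μ s` and of the width `wd μ s` from the doubling (model:
`W_7d29a1_h10.UnlA`).
-/

set_option autoImplicit false

namespace Pool.Agent.W_7d29a1_HS

open MeasureTheory ProbabilityTheory Filter Topology
open Pool.Agent.W_7d29a1_F Pool.Agent.W_7d29a1_h4g Pool.Agent.W_7d29a1_H

variable {μ : Measure ℝ} [IsProbabilityMeasure μ] {s c C : ℝ} {N₀ : ℕ}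

/-- The unit doubles in `T` octaves. -/
def Dbl (μ : Measure ℝ) (s : ℝ) : Prop := ∃ T n₀ : ℕ, ∀ n, n₀ ≤ n → 2 * EE μ s n ≤ EE μ s (2 ^ T * n)

/-- The doubling holds under the input. -/
theorem In.Dbl (h : In μ s c C N₀) : Dbl μ s := by
  obtain ⟨J, n₁, h1⟩ := scale_a h 2
  refine ⟨J, n₁, fun n hn => ?_⟩
  exact h1 n (2 ^ J * n) (hn.trans (Nat.le_mul_of_pos_left _ (by positivity))) le_rfl

theorem EE_le_mul (h : In μ s c C N₀) {n' n : ℕ} (h1 : 1 ≤ n') (hn : n' ≤ n) :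
    EE μ s n * n' ≤ 2 * n * EE μ s n' := by
  have := scale_b h h1 hn
  linarith

/-- The cone of a later scale is at most twice as wide. -/
theorem vA_le_two' (h : In μ s c C N₀) {n' n : ℕ} (h1 : 1 ≤ n') (hn : n' ≤ n) :
    vA 1 μ s n ≤ 2 * vA 1 μ s n' := vA_le_two h h1 hn

/-- The width grows at least like the unit. -/
theorem wd_cmp (h : In μ s c C N₀) :
    ∃ n₀ : ℕ, ∀ n' n : ℕ, 1 ≤ n' → n' ≤ n → n₀ ≤ n → wd μ s n' * EE μ s n ≤ 2 * wd μ s n * EE μ s n' := by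
  refine ⟨0, fun n' n h1 hn _ => ?_⟩
  have := wd_growth_one h h1 hn
  linarith

omit [IsProbabilityMeasure μ] in
theorem wd_def' (n : ℕ) : wd μ s n = vA 1 μ s n * n := mul_comm _ _

/-- The unit grows like a power. -/
theorem EE_grow (hD : Dbl μ s) : ∃ T n₀ : ℕ, 1 ≤ T ∧ ∀ n' n : ℕ, n₀ ≤ n' → 1 ≤ n' → n' ≤ n →
    ((n : ℝ) / n') ^ (1 / (T : ℝ)) * EE μ s n' ≤ 2 * EE μ s n := by
  obtain ⟨T, n₀, h⟩ := hD
  have hT : 1 ≤ T := by
    by_contra hcon
    have hT0 : T = 0 := by omega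
    have h1 := h n₀ le_rfl
    rw [hT0, pow_zero, one_mul] at h1
    have := one_le_EE (μ := μ) (s := s) n₀
    linarith
  refine ⟨T, n₀, hT, fun n' n h0 h1 hn => ?_⟩
  have hTr : (0 : ℝ) < T := by exact_mod_cast hT
  have hiter : ∀ j : ℕ, 2 ^ j * EE μ s n' ≤ EE μ s ((2 ^ T) ^ j * n') := by
    intro j
    induction j with
    | zero => simp
    | succ j ih =>
      have h2 : n₀ ≤ (2 ^ T) ^ j * n' := h0.trans (Nat.le_mul_of_pos_left _ (by positivity))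
      have h3 := h _ h2
      have e1 : 2 ^ T * ((2 ^ T) ^ j * n') = (2 ^ T) ^ (j + 1) * n' := by ring
      rw [e1] at h3
      calc (2 : ℝ) ^ (j + 1) * EE μ s n' = 2 * (2 ^ j * EE μ s n') := by ring
        _ ≤ 2 * EE μ s ((2 ^ T) ^ j * n') := by linarith
        _ ≤ _ := h3
  have hL : 1 < 2 ^ T := Nat.one_lt_two_pow (by omega)
  set j := Nat.log (2 ^ T) (n / n') with hj
  have hd : n / n' ≠ 0 := by
    have : 1 ≤ n / n' := (Nat.le_div_iff_mul_le (by omega)).2 (by omega)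
    omega
  have h2 : (2 ^ T) ^ j ≤ n / n' := Nat.pow_log_le_self _ hd
  have h3 : n / n' < (2 ^ T) ^ (j + 1) := Nat.lt_pow_succ_log_self hL _
  have h4 : (2 ^ T) ^ j * n' ≤ n := (Nat.le_div_iff_mul_le (by omega)).1 h2
  have h5 : n < (2 ^ T) ^ (j + 1) * n' := (Nat.div_lt_iff_lt_mul (by omega)).1 h3
  have h6 := (hiter j).trans (EE_mono (μ := μ) (s := s) h4)
  have hn'0 : (0 : ℝ) < n' := by exact_mod_cast h1
  have h7 : ((n : ℝ) / n') ^ (1 / (T : ℝ)) ≤ 2 ^ (j + 1) := by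
    have e2 : (n : ℝ) / n' ≤ (((2 : ℝ) ^ T) ^ (j + 1)) := by
      rw [div_le_iff₀ hn'0]
      exact_mod_cast h5.le
    calc ((n : ℝ) / n') ^ (1 / (T : ℝ)) ≤ (((2 : ℝ) ^ T) ^ (j + 1)) ^ (1 / (T : ℝ)) :=
          Real.rpow_le_rpow (by positivity) e2 (by positivity)
      _ = 2 ^ (j + 1) := by
          rw [← pow_mul, mul_comm T (j + 1), pow_mul, ← Real.rpow_natCast ((2 : ℝ) ^ (j + 1)) T, ← Real.rpow_mul
            (by positivity), mul_one_div_cancel hTr.ne', Real.rpow_one]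
  have hE' := one_le_EE (μ := μ) (s := s) n'
  calc ((n : ℝ) / n') ^ (1 / (T : ℝ)) * EE μ s n' ≤ 2 ^ (j + 1) * EE μ s n' :=
        mul_le_mul_of_nonneg_right h7 (by linarith)
    _ = 2 * (2 ^ j * EE μ s n') := by ring
    _ ≤ 2 * EE μ s n := by linarith

/-- The width tends to infinity. -/
theorem wd_large (h : In μ s c C N₀) (W₀ : ℝ) : ∃ n₀ : ℕ, ∀ n, n₀ ≤ n → W₀ ≤ wd μ s n :=
  ((wd_tendsto h).eventually_ge_atTop W₀).exists_forall_of_atTop

end Pool.Agent.W_7d29a1_HS
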