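import Pool.Agent.W_7d29a1_HS.Lane
import Pool.Agent.W_7d29a1_HS.UnlA

/-!
MP_7d29a1_pr, TRACK H, part 3, unlucky tail: the deterministic split of the cost over `k` lanes and the union bound, at the
tilt `s` (model: `W_7d29a1_h10.UnlB`).
-/

set_option autoImplicit false

namespace Pool.Agent.W_7d29a1_HS

open MeasureTheory ProbabilityTheory Filter Topology
open Pool.Agent.W_7d29a1_F Pool.Agent.W_7d29a1_h4g Pool.Agent.W_7d29a1_H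

variable {μ : Measure ℝ} [IsProbabilityMeasure μ] {s : ℝ}

/-- The tail of the cheap displacements of time `n`. -/
noncomputable def TT (μ : Measure ℝ) (s κ : ℝ) (n : ℕ) (t : ℝ) : ℝ :=
  sSup {r | ∃ y : ℤ, 0 ≤ y ∧ y ≤ n ∧ |(y : ℝ) - sl μ s * n| ≤ κ * wd μ s n + 1 ∧
    r = (law μ).real {η | t * EE μ s n ≤ X μ s η 0 n y}}

theorem TT_le_one (κ : ℝ) (n : ℕ) (t : ℝ) : TT μ s κ n t ≤ 1 := by
  refine Real.sSup_le ?_ zero_le_one
  rintro r ⟨y, -, -, -, rfl⟩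
  exact measureReal_le_one

omit [IsProbabilityMeasure μ] in
theorem TT_nonneg (κ : ℝ) (n : ℕ) (t : ℝ) : 0 ≤ TT μ s κ n t := by
  refine Real.sSup_nonneg ?_
  rintro r ⟨y, -, -, -, rfl⟩
  exact measureReal_nonneg

theorem le_TT {κ : ℝ} {n : ℕ} {t : ℝ} {y : ℤ} (h0 : 0 ≤ y) (h1 : y ≤ n) (h2 : |(y : ℝ) - sl μ s * n| ≤ κ * wd μ s n + 1) :
    (law μ).real {η | t * EE μ s n ≤ X μ s η 0 n y} ≤ TT μ s κ n t := by
  refine le_csSup ⟨1, ?_⟩ ⟨y, h0, h1, h2, rfl⟩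
  rintro r ⟨y, -, -, -, rfl⟩
  exact measureReal_le_one

omit [IsProbabilityMeasure μ] in
theorem TT_le {κ : ℝ} {n : ℕ} {t B : ℝ} (hB : 0 ≤ B) (h : ∀ y : ℤ, 0 ≤ y → y ≤ n → |(y : ℝ) - sl μ s * n| ≤ κ * wd μ s n + 1 →
    (law μ).real {η | t * EE μ s n ≤ X μ s η 0 n y} ≤ B) : TT μ s κ n t ≤ B := by
  refine Real.sSup_le ?_ hB
  rintro r ⟨y, h0, h1, h2, rfl⟩
  exact h y h0 h1 h2

/-- Translation of the tail. -/
theorem tail_sh (a : Pt) (n : ℕ) (y : ℤ) (t : ℝ) :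
    (law μ).real {η | t ≤ X μ s η a n y} = (law μ).real {η | t ≤ X μ s η 0 n y} := by
  have h1 : {η : Env | t ≤ X μ s η a n y} = {η : Env | sh a η ∈ {ξ : Env | t ≤ X μ s ξ 0 n y}} := by
    ext η
    simp only [Set.mem_ofPred_eq, X_sh, zero_add]
  rw [h1]
  have hm : Measurable fun η : Env => X μ s η 0 n y := by
    unfold X
    exact (Real.measurable_log.comp (measurable_W 0 n y)).neg
  exact real_sh a (measurableSet_le measurable_const hm)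

/-- The deterministic split: connection, lane, connection. -/
theorem X_split (η : Env) (R : Set Pt) {m₁ N m₂ : ℕ} {y₁ Z y₂ : ℤ} (h10 : 0 ≤ y₁) (h11 : y₁ ≤ m₁) (hZ0 : 0 ≤ Z) (hZ1 : Z ≤ N)
    (h20 : 0 ≤ y₂) (h21 : y₂ ≤ m₂) (hR : 0 < WR μ s R η ((m₁ : ℤ), y₁) N Z) :
    X μ s η 0 (m₁ + (N + m₂)) (y₁ + (Z + y₂)) ≤ X μ s η 0 m₁ y₁ + -Real.log (WR μ s R η ((m₁ : ℤ), y₁) N Z) +
      X μ s η ((m₁ : ℤ) + N, y₁ + Z) m₂ y₂ := by
  have h1 := X_add_le (μ := μ) (s := s) η (0 : Pt) (m := m₁) (n := N + m₂) (k := y₁) (y := Z + y₂) h10 h11 (by omega)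
    (by push_cast; omega)
  have h2 := X_add_le (μ := μ) (s := s) η ((m₁ : ℤ), y₁) (m := N) (n := m₂) (k := Z) (y := y₂) hZ0 hZ1 h20 h21
  have e1 : ((0 : Pt).1 + (m₁ : ℤ), (0 : Pt).2 + y₁) = (((m₁ : ℤ), y₁) : Pt) := by simp
  rw [e1] at h1
  have h3 : X μ s η ((m₁ : ℤ), y₁) N Z ≤ -Real.log (WR μ s R η ((m₁ : ℤ), y₁) N Z) := by
    unfold X
    exact neg_le_neg (Real.log_le_log hR (WR_le_W R η _ N Z))
  linarith

/-- The union bound over `k` lanes. -/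
theorem lane_union {n m₁ N m₂ k : ℕ} {y Z : ℤ} (hn : n = m₁ + (N + m₂)) {y₁ y₂ : ℕ → ℤ} {t q₁ q₂ q₃ : ℝ}
    (R : ℕ → Set Pt) (hy : ∀ j, y = y₁ j + (Z + y₂ j)) (h1 : ∀ j < k, 0 ≤ y₁ j ∧ y₁ j ≤ m₁) (hZ0 : 0 ≤ Z) (hZ1 : Z ≤ N)
    (h2 : ∀ j < k, 0 ≤ y₂ j ∧ y₂ j ≤ m₂) (hR : ∀ j < k, ∀ η, 0 < WR μ s (R j) η ((m₁ : ℤ), y₁ j) N Z)
    (p1 : ∀ j < k, (law μ).real {η | t ≤ X μ s η 0 m₁ (y₁ j)} ≤ q₁)
    (p2 : ∀ j < k, (law μ).real {η | t ≤ X μ s η 0 m₂ (y₂ j)} ≤ q₂)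
    (p3 : (law μ).real {η | ∀ j ∈ Finset.range k, t ≤ -Real.log (WR μ s (R j) η ((m₁ : ℤ), y₁ j) N Z)} ≤ q₃) :
    (law μ).real {η | 3 * t ≤ X μ s η 0 n y} ≤ k * (q₁ + q₂) + q₃ := by
  have hsub : {η | 3 * t ≤ X μ s η 0 n y} ⊆
      ((⋃ j ∈ Finset.range k, {η | t ≤ X μ s η 0 m₁ (y₁ j)}) ∪
        (⋃ j ∈ Finset.range k, {η | t ≤ X μ s η ((m₁ : ℤ) + N, y₁ j + Z) m₂ (y₂ j)})) ∪
      {η | ∀ j ∈ Finset.range k, t ≤ -Real.log (WR μ s (R j) η ((m₁ : ℤ), y₁ j) N Z)} := by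
    intro η hη
    by_cases hall : ∀ j ∈ Finset.range k, t ≤ -Real.log (WR μ s (R j) η ((m₁ : ℤ), y₁ j) N Z)
    · exact Or.inr hall
    · left
      push Not at hall
      obtain ⟨j, hj, hlt⟩ := hall
      have hj' := Finset.mem_range.1 hj
      have h3 := X_split (μ := μ) η (R j) (h1 j hj').1 (h1 j hj').2 hZ0 hZ1 (h2 j hj').1 (h2 j hj').2 (hR j hj' η)
      rw [← hy j, ← hn] at h3
      have hη' : 3 * t ≤ X μ s η 0 n y := hη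
      by_cases hc : t ≤ X μ s η 0 m₁ (y₁ j)
      · exact Or.inl (Set.mem_biUnion hj hc)
      · push Not at hc
        refine Or.inr (Set.mem_biUnion hj ?_)
        show t ≤ X μ s η ((m₁ : ℤ) + N, y₁ j + Z) m₂ (y₂ j)
        linarith
  refine (measureReal_mono hsub (measure_ne_top _ _)).trans ((measureReal_union_le _ _).trans ?_)
  refine add_le_add ((measureReal_union_le _ _).trans ?_) p3
  have e1 : (law μ).real (⋃ j ∈ Finset.range k, {η | t ≤ X μ s η 0 m₁ (y₁ j)}) ≤ k * q₁ := by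
    refine (measureReal_biUnion_finset_le _ _).trans ?_
    calc _ ≤ ∑ j ∈ Finset.range k, q₁ := Finset.sum_le_sum fun j hj => p1 j (Finset.mem_range.1 hj)
      _ = k * q₁ := by simp
  have e2 : (law μ).real (⋃ j ∈ Finset.range k, {η | t ≤ X μ s η ((m₁ : ℤ) + N, y₁ j + Z) m₂ (y₂ j)}) ≤ k * q₂ := by
    refine (measureReal_biUnion_finset_le _ _).trans ?_
    calc _ ≤ ∑ j ∈ Finset.range k, q₂ := Finset.sum_le_sum fun j hj => by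
          rw [tail_sh]
          exact p2 j (Finset.mem_range.1 hj)
      _ = k * q₂ := by simp
  linarith

end Pool.Agent.W_7d29a1_HS
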