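import Pool.Agent.W_7d29a1_HS.UnlC
import Pool.Agent.W_7d29a1_h10.UnlD

/-!
MP_7d29a1_pr, TRACK H, part 3, unlucky tail at the tilt `s`: the choice of the durations.
-/

set_option autoImplicit false

namespace Pool.Agent.W_7d29a1_HS

open MeasureTheory ProbabilityTheory Filter Topology
open Pool.Agent.W_7d29a1_F Pool.Agent.W_7d29a1_h4g Pool.Agent.W_7d29a1_H
open Pool.Agent.W_7d29a1_g (HasPath Tube)
open Pool.Agent.W_7d29a1_h10 (durations width_fit unit_conn lanes_number)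

variable {μ : Measure ℝ} [IsProbabilityMeasure μ] {s c C : ℝ} {n₀ : ℕ}

/-- Large scales: the cone is small. -/
theorem cone_small (h : In μ s c C n₀) : ∃ (δ : ℝ) (n₁ : ℕ), 0 < δ ∧ δ ≤ sl μ s ∧ sl μ s ≤ 1 - δ ∧ ∀ n, n₁ ≤ n →
    vA 1 μ s n ≤ δ ∧ 24 ≤ δ * n := by
  have h1 := h.sl_pos
  have h2 := h.sl_lt
  obtain ⟨δ, hδ⟩ : ∃ δ : ℝ, δ = min (sl μ s) (1 - sl μ s) := ⟨_, rfl⟩
  have hδ0 : 0 < δ := by
    rw [hδ]
    exact lt_min h1 (by linarith)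
  have hδ1 : δ ≤ sl μ s := by
    rw [hδ]
    exact min_le_left _ _
  have hδ2 : δ ≤ 1 - sl μ s := by
    rw [hδ]
    exact min_le_right _ _
  obtain ⟨n₁, hn₁⟩ := (h.tv.eventually (ge_mem_nhds hδ0)).exists_forall_of_atTop
  obtain ⟨n₂, hn₂⟩ := exists_nat_ge (24 / δ)
  refine ⟨δ, max n₁ n₂, hδ0, hδ1, by linarith, fun n hn => ⟨hn₁ n ((le_max_left _ _).trans hn), ?_⟩⟩
  have h3 : (n₂ : ℝ) ≤ n := by exact_mod_cast (le_max_right _ _).trans hn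
  have h4 := hn₂.trans h3
  rw [div_le_iff₀ hδ0] at h4
  linarith

/-- One step of the recursion. -/
theorem rec_step (h : In μ s c C n₀) {κ₀ κ : ℝ} (hκ0 : 0 < κ)
    (hκ8 : κ ≤ 1 / 8) (hκκ : 8 * κ ≤ κ₀) (hT : TubeInK μ s κ₀) (hD : Dbl μ s)
    {C₁ : ℝ} (hC : 0 < C₁) : ∃ (c₃ γ s₀ : ℝ) (n₁ : ℕ), 0 < c₃ ∧ 0 < γ ∧ γ ≤ 1 ∧
      ∀ (n : ℕ) (u : ℝ), n₁ ≤ n → s₀ ≤ u → u ≤ C₁ * n → ∃ m₁ m₂ : ℕ, 1 ≤ m₁ ∧ m₁ < n ∧ 1 ≤ m₂ ∧ m₂ < n ∧
        TT μ s κ n u ≤ (c₃ * u ^ γ) * (TT μ s κ m₁ (2 * u) + TT μ s κ m₂ (2 * u)) + 2 * (2 : ℝ) ^ (-(c₃ * u ^ γ)) := by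
  obtain ⟨R₀, Ct, n_t, hR₀, htube⟩ := hT
  obtain ⟨T, n_g, hT1, hgrow⟩ := EE_grow hD
  obtain ⟨δ, n_v, hδ0, hδ1, hδ2, hv⟩ := cone_small h
  have hTr : (0 : ℝ) < T := by exact_mod_cast hT1
  obtain ⟨n_w, hw⟩ := (tendsto_atTop.1 (wd_tendsto h) (2 / κ)).exists_forall_of_atTop
  -- constants
  obtain ⟨M, hM⟩ : ∃ M : ℕ, M = 2 * 12 ^ T := ⟨_, rfl⟩
  have hM24 : 24 ≤ M := by
    have : 12 ^ 1 ≤ 12 ^ T := Nat.pow_le_pow_right (by norm_num) hT1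
    omega
  obtain ⟨B, hB1, hBb⟩ : ∃ B : ℕ, 1 ≤ B ∧ 8 * (2 * R₀ + 6) / κ ≤ (B : ℝ) ^ (1 / (T : ℝ)) := by
    have hb₀0 : 0 < 8 * (2 * R₀ + 6) / κ := by positivity
    refine ⟨⌈(8 * (2 * R₀ + 6) / κ) ^ (T : ℝ)⌉₊ + 1, by omega, ?_⟩
    have h1 : (8 * (2 * R₀ + 6) / κ) ^ (T : ℝ) ≤ ((⌈(8 * (2 * R₀ + 6) / κ) ^ (T : ℝ)⌉₊ + 1 : ℕ) : ℝ) := by
      push_cast
      have := Nat.le_ceil ((8 * (2 * R₀ + 6) / κ) ^ (T : ℝ))
      linarith
    calc 8 * (2 * R₀ + 6) / κ = ((8 * (2 * R₀ + 6) / κ) ^ (T : ℝ)) ^ (1 / (T : ℝ)) := by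
          rw [← Real.rpow_mul hb₀0.le, mul_one_div_cancel hTr.ne', Real.rpow_one]
      _ ≤ _ := Real.rpow_le_rpow (by positivity) h1 (by positivity)
  obtain ⟨n₂, hn₂1, hn₂t, hn₂g, hn₂w, hn₂c⟩ : ∃ n₂ : ℕ, 1 ≤ n₂ ∧ n_t ≤ n₂ ∧ n_g ≤ n₂ ∧ n_w ≤ n₂ ∧ n_v ≤ n₂ :=
    ⟨n_t + n_g + n_w + n_v + 1, by omega, by omega, by omega, by omega, by omega⟩
  obtain ⟨Ct', hCt', hCt'0⟩ : ∃ Ct' : ℝ, Ct ≤ Ct' ∧ 0 ≤ Ct' := ⟨max Ct 0, le_max_left _ _, le_max_right _ _⟩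
  have hMr : (0 : ℝ) < M := by exact_mod_cast (by omega : 0 < M)
  have hBr : (1 : ℝ) ≤ B := by exact_mod_cast hB1
  have hn₂r : (1 : ℝ) ≤ n₂ := by exact_mod_cast hn₂1
  obtain ⟨c₃, hc₃0, hc₃1, hca, hcb⟩ : ∃ c₃ : ℝ, 0 < c₃ ∧ c₃ ≤ 1 ∧ c₃ * (4 * M * n₂ * B * C₁) ≤ 1 ∧
      c₃ * (24 * Ct' * M * B) ≤ 1 := by
    have h1 : 0 ≤ 4 * (M : ℝ) * n₂ * B * C₁ := by positivity
    have h2 : 0 ≤ 24 * Ct' * (M : ℝ) * B := by positivity
    have hK : 0 < 4 * (M : ℝ) * n₂ * B * C₁ + 24 * Ct' * M * B + 1 := by linarith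
    refine ⟨1 / (4 * (M : ℝ) * n₂ * B * C₁ + 24 * Ct' * M * B + 1), by positivity, ?_, ?_, ?_⟩
    · rw [div_le_one hK]
      linarith
    · rw [one_div, inv_mul_le_iff₀ hK]
      linarith
    · rw [one_div, inv_mul_le_iff₀ hK]
      linarith
  refine ⟨c₃, 1 / (T : ℝ), max 1 ((1 / c₃) ^ (T : ℝ)), M * (n₂ + 1), hc₃0, by positivity, ?_, fun n u hn hs0 hsC => ?_⟩
  · rw [div_le_one hTr]
    exact_mod_cast hT1
  have hs1 : 1 ≤ u := (le_max_left _ _).trans hs0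
  have hsp : 0 < u := by linarith
  obtain ⟨k, hk1, hkx, hxk, hkT⟩ := lanes_number hT1 hc₃0 hc₃1 hs1 ((le_max_right _ _).trans hs0)
  have hb1 : 1 ≤ B * k ^ T := Nat.one_le_iff_ne_zero.2 (by positivity)
  have hbr : ((B * k ^ T : ℕ) : ℝ) ≤ B * (c₃ * u) := by
    push_cast
    exact mul_le_mul_of_nonneg_left hkT (by positivity)
  have hM0 : 0 < M := by omega
  have hbm : 2 * n₂ * (B * k ^ T) ≤ n / M := by
    have hm₁n : n₂ + 1 ≤ n / M := by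
      rw [Nat.le_div_iff_mul_le hM0]
      calc (n₂ + 1) * M = M * (n₂ + 1) := by ring
        _ ≤ n := hn
    have hnM : n ≤ 2 * M * (n / M) := by
      have h1 : n < M * (n / M + 1) := Nat.lt_mul_div_succ n hM0
      have h2 : M * (n / M + 1) ≤ M * (2 * (n / M)) := Nat.mul_le_mul_left _ (by omega)
      calc n ≤ M * (2 * (n / M)) := h1.le.trans h2
        _ = 2 * M * (n / M) := by ring
    have h1 : ((2 * n₂ * (B * k ^ T) : ℕ) : ℝ) ≤ ((n / M : ℕ) : ℝ) := by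
      have h2 : (n : ℝ) ≤ 2 * M * ((n / M : ℕ) : ℝ) := by exact_mod_cast hnM
      have h4 : c₃ * u ≤ c₃ * (C₁ * (2 * M * ((n / M : ℕ) : ℝ))) := by
        refine mul_le_mul_of_nonneg_left (hsC.trans ?_) hc₃0.le
        exact mul_le_mul_of_nonneg_left h2 hC.le
      calc ((2 * n₂ * (B * k ^ T) : ℕ) : ℝ) = 2 * n₂ * ((B * k ^ T : ℕ) : ℝ) := by push_cast; ring
        _ ≤ 2 * n₂ * (B * (c₃ * (C₁ * (2 * M * ((n / M : ℕ) : ℝ))))) := by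
            refine mul_le_mul_of_nonneg_left (hbr.trans ?_) (by positivity)
            exact mul_le_mul_of_nonneg_left h4 (by positivity)
        _ = c₃ * (4 * M * n₂ * B * C₁) * ((n / M : ℕ) : ℝ) := by ring
        _ ≤ 1 * ((n / M : ℕ) : ℝ) := mul_le_mul_of_nonneg_right hca (Nat.cast_nonneg _)
        _ = ((n / M : ℕ) : ℝ) := one_mul _
    exact_mod_cast h1
  obtain ⟨m₁, m₂, N, τ, q, hm₁, hsum, hNq, hm12, hm21, hMm, hnM, hτ2, hτm, hτb, hτb', hnN, h24⟩ :=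
    durations hM24 hn₂1 hb1 hn hbm
  have hm₁n : 2 * n₂ ≤ m₁ := hτ2.trans hτm
  have e1 : 1 ≤ τ := by omega
  have e2 : 1 ≤ m₁ := by omega
  have e3 : τ ≤ n := by omega
  have e4 : m₁ < n := by omega
  have e5 : m₂ < n := by omega
  have hτr : (0 : ℝ) < τ := by exact_mod_cast e1
  have hv1 := hv m₁ (by omega)
  have hv2 := hv m₂ (by omega)
  have hvn := hv n (by omega)
  have hP : Par μ s δ κ₀ κ R₀ Ct' u n m₁ m₂ N τ q k := by
    have h1 := one_le_EE (μ := μ) (s := s) m₁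
    have h2 := one_le_EE (μ := μ) (s := s) m₂
    refine ⟨by linarith [hv1.2], by linarith [hv2.2], hvn.2, hδ1, hδ2, hv1.1, hv2.1, hvn.1, hsum, hnN, hNq, e1, e3, hκ0, hκ8,
      hκκ, hR₀, hCt'0, hsp, ?_, ?_, ?_, ?_, ?_, ?_, ?_⟩
    · refine unit_conn hT1 hM e2 ?_ (by linarith) (hgrow m₁ n (by omega) e2 (by omega))
      omega
    · refine unit_conn hT1 hM (by omega) ?_ (by linarith) (hgrow m₂ n (by omega) (by omega) (by omega))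
      calc M * m₂ ≤ M * (2 * m₁) := Nat.mul_le_mul_left _ hm21
        _ = 2 * (M * m₁) := by ring
        _ ≤ 2 * n := Nat.mul_le_mul_left _ hMm
    · have := hw τ (by omega)
      rw [div_le_iff₀ hκ0] at this
      linarith
    · refine width_fit hT1 e1 (by linarith : (0 : ℝ) ≤ B) hκ0 hR₀ (wτ := wd μ s τ) (wm := wd μ s m₁) (Eτ := EE μ s τ)
        (Em := EE μ s m₁) ?_ (hgrow τ m₁ (by omega) e1 hτm) ?_ hBb h1 (h.wd_nonneg τ) (h.wd_nonneg m₁)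
      · have := wd_growth_one h e1 hτm
        linarith
      rw [le_div_iff₀ hτr]
      have : ((B * k ^ T * τ : ℕ) : ℝ) ≤ m₁ := by exact_mod_cast hτb'
      push_cast at this
      exact this
    · exact wd_le_two h e2 hm12
    · have h3 : (q : ℝ) * τ ≤ n := by
        have : q * τ ≤ n := by rw [← hNq]; omega
        exact_mod_cast this
      have h4 : (n : ℝ) ≤ 4 * M * B * (c₃ * u) * τ := by
        have h5 : n ≤ 2 * M * (2 * τ * (B * k ^ T)) := hnM.trans (Nat.mul_le_mul_left _ hτb)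
        have h6 : (n : ℝ) ≤ 2 * M * (2 * τ * ((B * k ^ T : ℕ) : ℝ)) := by exact_mod_cast h5
        refine h6.trans ?_
        calc (2 : ℝ) * M * (2 * τ * ((B * k ^ T : ℕ) : ℝ)) = 4 * M * τ * ((B * k ^ T : ℕ) : ℝ) := by ring
          _ ≤ 4 * M * τ * (B * (c₃ * u)) := mul_le_mul_of_nonneg_left hbr (by positivity)
          _ = _ := by ring
      have h5 : (q : ℝ) ≤ 4 * M * B * (c₃ * u) := le_of_mul_le_mul_right (h3.trans h4) hτr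
      have h6 : EE μ s τ ≤ EE μ s n := EE_mono e3
      have h7 := one_le_EE (μ := μ) (s := s) τ
      have h8 : (q : ℝ) * (Ct' * EE μ s τ) ≤ (4 * M * B * (c₃ * u)) * (Ct' * EE μ s n) :=
        mul_le_mul h5 (mul_le_mul_of_nonneg_left h6 hCt'0) (by positivity) (by positivity)
      have h9 : 6 * ((4 * M * B * (c₃ * u)) * (Ct' * EE μ s n)) = c₃ * (24 * Ct' * M * B) * (u * EE μ s n) := by ring
      have h10 : c₃ * (24 * Ct' * M * B) * (u * EE μ s n) ≤ 1 * (u * EE μ s n) :=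
        mul_le_mul_of_nonneg_right hcb (by
          have := one_le_EE (μ := μ) (s := s) n
          positivity)
      linarith
    · intro z hz0 hz1 hz2
      obtain ⟨h3, h4⟩ := htube τ (by omega) z hz0 hz1 hz2
      refine ⟨h3, h4.trans ?_⟩
      have := one_le_EE (μ := μ) (s := s) τ
      exact mul_le_mul_of_nonneg_right hCt' (by linarith)
  refine ⟨m₁, m₂, e2, e4, by omega, e5, (hP.step h).trans ?_⟩
  have h1 : 0 ≤ TT μ s κ m₁ (2 * u) + TT μ s κ m₂ (2 * u) := add_nonneg (TT_nonneg _ _ _) (TT_nonneg _ _ _)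
  refine add_le_add (mul_le_mul_of_nonneg_right hkx h1) ?_
  have h2 : (1 / 2 : ℝ) ^ k = 2 * (2 : ℝ) ^ (-((k : ℝ) + 1)) := by
    rw [Real.rpow_neg (by norm_num), Real.rpow_add (by norm_num), Real.rpow_natCast, Real.rpow_one, one_div, inv_pow]
    field_simp
  rw [h2]
  refine mul_le_mul_of_nonneg_left ?_ (by norm_num)
  exact Real.rpow_le_rpow_of_exponent_le (by norm_num) (by linarith)

end Pool.Agent.W_7d29a1_HS
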